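import Pool.Agent.ZGap.Res.Crowd
import Pool.Agent.ZGap.PS.Box

/-!
# The smoothed zero count against the number of zeros in a window
-/

open scoped ContDiff

namespace Pool.Agent.RG.CW

open MeasureTheory Real Set Pool.Agent.Hadamard Pool.Agent.ZetaGaps
open Pool.Agent.ZGap.Res (NC NC_summable NC_continuous RS FM.W1 FM.W1_summable FM.W1_le FM.QQ
  FM.one_le_QQ FM.QQ_continuous measurable_zeroCount)

/-- The smoothed count is at least the number of zeros in the window. -/
lemma count_le_NC {ψ : ℝ → ℝ} {c T t : ℝ} (hL : 1 ≤ Real.log T)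
    (hψ00 : ∀ x, 0 ≤ ψ x) {K : ℝ} (hK : ∀ x, |ψ x| ≤ K / (1 + x ^ 2))
    (hψ1 : ∀ x, |x| ≤ π * c → ψ x = 1) (hc : 0 < c) :
    (zeroCount (t + π * c / Real.log T) : ℝ) - zeroCount (t - π * c / Real.log T) ≤ NC ψ T t := by
  classical
  have hL0 : 0 < Real.log T := by linarith
  set r := π * c / Real.log T with hr
  have hr0 : 0 < r := by positivity
  have hsub := zeroCount_sub (S := t - r) (T := t + r) (by linarith)
  have hsum := NC_summable hK hL t
  set Z := (finite_zerosUpTo (t + r)).toFinset.filter (fun ρ => t - r < ρ.im) with hZ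
  have hZn : ∀ ρ ∈ Z, ρ ∈ ntz := by
    intro ρ hρ
    rw [hZ, Finset.mem_filter, Set.Finite.mem_toFinset, mem_zerosUpTo] at hρ
    exact hρ.1.1
  have h1 := hsum.sum_le_tsum (Z.subtype (fun x => x ∈ ntz))
    (fun ρ' _ => mul_nonneg (Nat.cast_nonneg _) (hψ00 _))
  have h2 : ∑ ρ ∈ Z.subtype (fun x => x ∈ ntz),
      (mult ρ : ℝ) * ψ ((t - (ρ : ℂ).im) * Real.log T) = ((∑ ρ ∈ Z, mult ρ : ℕ) : ℝ) := by
    rw [Finset.sum_subtype_of_mem (f := fun ρ : ℂ => (mult ρ : ℝ) * ψ ((t - ρ.im) * Real.log T))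
      hZn, Nat.cast_sum]
    refine Finset.sum_congr rfl fun ρ hρ => ?_
    rw [hZ, Finset.mem_filter, Set.Finite.mem_toFinset, mem_zerosUpTo] at hρ
    have h3 : ρ.im ≤ t + r := hρ.1.2.2
    have h4 : t - r < ρ.im := hρ.2
    have h5 : ψ ((t - ρ.im) * Real.log T) = 1 := by
      apply hψ1
      rw [abs_mul, abs_of_pos hL0]
      have h6 : |t - ρ.im| ≤ r := abs_le.mpr ⟨by linarith, by linarith⟩
      rw [hr, le_div_iff₀ hL0] at h6
      exact h6
    rw [h5, mul_one]
  rw [h2] at h1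
  have h3 : (zeroCount (t + r) : ℝ) = zeroCount (t - r) + ((∑ ρ ∈ Z, mult ρ : ℕ) : ℝ) := by
    exact_mod_cast hsub
  have h4 : NC ψ T t = ∑' ρ : ntz, (mult ρ : ℝ) * ψ ((t - (ρ : ℂ).im) * Real.log T) := rfl
  rw [h4]
  linarith

/-- The set of centres of windows with few zeros is measurable. -/
lemma measurableSet_few (w : ℝ) (r : ℕ) :
    MeasurableSet {t : ℝ | zeroCount (t + w) + 1 ≤ zeroCount (t - w) + r} := by
  have h1 : Measurable fun t : ℝ => zeroCount (t + w) + 1 :=
    (measurable_zeroCount.comp (measurable_id.add_const w)).add_const 1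
  have h2 : Measurable fun t : ℝ => zeroCount (t - w) + r :=
    (measurable_zeroCount.comp (measurable_id.sub_const w)).add_const r
  exact measurableSet_le h1 h2

/-- The set of centres of crowded windows is measurable. -/
lemma measurableSet_crowd (w : ℝ) (r : ℕ) :
    MeasurableSet {t : ℝ | zeroCount (t - w) + (r + 1) ≤ zeroCount (t + w)} := by
  have h1 : Measurable fun t : ℝ => zeroCount (t - w) + (r + 1) :=
    (measurable_zeroCount.comp (measurable_id.sub_const w)).add_const (r + 1)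
  have h2 : Measurable fun t : ℝ => zeroCount (t + w) :=
    measurable_zeroCount.comp (measurable_id.add_const w)
  exact measurableSet_le h1 h2

/-- The fourth moment of the smoothed count in short windows. -/
theorem NC_moment_short (hRH : RiemannHypothesis) {b : ℕ} (hb : 1 ≤ b) {ψ : ℝ → ℝ}
    (hψc : Continuous ψ) (hψ00 : ∀ x, 0 ≤ ψ x) {K : ℝ} (hK : ∀ x, |ψ x| ≤ K / (1 + x ^ 2)) :
    ∃ C T0 : ℝ, 0 < C ∧ Real.exp 3 ≤ T0 ∧ ∀ T : ℝ, T0 ≤ T → ∀ y H : ℝ, T / 4 ≤ y →
      y + H ≤ 4 * T → T ^ (1 / (b : ℝ)) ≤ H → ∫ t in y..(y + H), NC ψ T t ^ 4 ≤ C * H := by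
  have hk4 : 4 ≤ b * 4 := by nlinarith
  obtain ⟨C5, T5, hC5, hT5, hW1⟩ := FM.W1_le hRH (k := b * 4) hk4
  obtain ⟨K2, hK2, hQ⟩ := ShortPos.QQ_moment_short (b := b) (n := 4) hb le_rfl
  have hK0 : 0 ≤ K := by
    have := (abs_nonneg _).trans (hK 0)
    simpa using this
  refine ⟨(K * C5) ^ 4 * K2 + 1, max T5 (Real.exp 3), by positivity, le_max_right _ _,
    fun T hT y H hy hyH hTH => ?_⟩
  have hTT5 : T5 ≤ T := (le_max_left _ _).trans hT
  have hTe : Real.exp 3 ≤ T := (le_max_right _ _).trans hT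
  have h1T : 1 < T := lt_of_lt_of_le (Real.one_lt_exp_iff.mpr (by norm_num)) hTe
  have hTp : 0 < T := by linarith
  have hL3 : 3 ≤ Real.log T := by rw [Real.le_log_iff_exp_le hTp]; exact hTe
  have hL1 : 1 ≤ Real.log T := by linarith
  have hH0 : 0 < H := (Real.rpow_pos_of_pos hTp _).trans_le hTH
  obtain ⟨h2k, hW1T⟩ := hW1 T hTT5
  have hNCnn : ∀ t, 0 ≤ NC ψ T t := fun t =>
    tsum_nonneg fun ρ => mul_nonneg (Nat.cast_nonneg _) (hψ00 _)
  have hcont : Continuous (NC ψ T) := NC_continuous hψc hK hL1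
  have hQc := FM.QQ_continuous (b * 4) T
  have hpt : ∀ t ∈ Set.Icc y (y + H), NC ψ T t ^ 4 ≤ (K * C5) ^ 4 * FM.QQ (b * 4) T t ^ (2 * 4) := by
    intro t ht
    have h4 : NC ψ T t ≤ K * FM.W1 T t := by
      unfold NC FM.W1
      rw [← tsum_mul_left]
      apply (NC_summable hK hL1 t).tsum_le_tsum _ ((FM.W1_summable hRH hL1 t).mul_left K)
      intro ρ
      have h5 := (le_abs_self _).trans (hK ((t - (ρ : ℂ).im) * Real.log T))
      calc (mult ρ : ℝ) * ψ ((t - (ρ : ℂ).im) * Real.log T) ≤ (mult ρ : ℝ) *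
            (K / (1 + ((t - (ρ : ℂ).im) * Real.log T) ^ 2)) :=
            mul_le_mul_of_nonneg_left h5 (Nat.cast_nonneg _)
        _ = _ := by rw [mul_comm (t - (ρ : ℂ).im)]; ring
    have h5 : FM.W1 T t ≤ C5 * FM.QQ (b * 4) T t :=
      hW1T t (by linarith [ht.1]) (by linarith [ht.2])
    have h6 := FM.one_le_QQ (k := b * 4) h1T.le t
    have h7 : NC ψ T t ≤ K * C5 * FM.QQ (b * 4) T t := by
      refine h4.trans ?_
      rw [mul_assoc]
      exact mul_le_mul_of_nonneg_left h5 hK0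
    calc NC ψ T t ^ 4 ≤ (K * C5 * FM.QQ (b * 4) T t) ^ 4 := pow_le_pow_left₀ (hNCnn t) h7 4
      _ = (K * C5) ^ 4 * FM.QQ (b * 4) T t ^ 4 := mul_pow _ _ _
      _ ≤ _ := by
          apply mul_le_mul_of_nonneg_left _ (by positivity)
          exact pow_le_pow_right₀ h6 (by norm_num)
  calc ∫ t in y..(y + H), NC ψ T t ^ 4 ≤
      ∫ t in y..(y + H), (K * C5) ^ 4 * FM.QQ (b * 4) T t ^ (2 * 4) := by
        apply intervalIntegral.integral_mono_on (by linarith)
        · exact (hcont.pow 4).intervalIntegrable _ _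
        · exact (by fun_prop : Continuous fun t => (K * C5) ^ 4 *
            FM.QQ (b * 4) T t ^ (2 * 4)).intervalIntegrable _ _
        · exact hpt
    _ = (K * C5) ^ 4 * ∫ t in y..(y + H), FM.QQ (b * 4) T t ^ (2 * 4) :=
        intervalIntegral.integral_const_mul _ _
    _ ≤ (K * C5) ^ 4 * (K2 * H) := by
        apply mul_le_mul_of_nonneg_left _ (by positivity)
        exact hQ T h2k y H hTH
    _ ≤ _ := by nlinarith

/-- The weight of the complement. -/
lemma int_le_few {V N : ℝ → ℝ} (hV : ∀ t, 0 ≤ V t) (hN : ∀ t, 0 ≤ N t) (hVi : Integrable V)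
    (hVN : Integrable fun t => V t * N t) {t0 q r : ℝ} (hr : 1 ≤ r) {E : Set ℝ}
    (hE : MeasurableSet E) (h1 : ∀ t, |t - t0| ≤ q → t ∉ E → r ≤ N t) :
    r * (∫ t, V t) - (∫ t, V t * N t) ≤ r * ((∫ t in E, V t) +
      ∫ t in {t : ℝ | q < |t - t0|}, V t * (1 + N t)) := by
  have hm : MeasurableSet {t : ℝ | q < |t - t0|} :=
    (isOpen_lt continuous_const (by fun_prop)).measurableSet
  have hi : Integrable fun t => V t * (1 + N t) := by
    have := hVi.add hVN
    refine this.congr (Filter.Eventually.of_forall fun t => ?_)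
    simp only [Pi.add_apply]
    ring
  rw [← integral_const_mul, ← integral_sub (hVi.const_mul r) hVN, ← integral_indicator hm,
    ← integral_indicator hE, ← integral_add (hVi.indicator hE) (hi.indicator hm),
    ← integral_const_mul]
  refine integral_mono ((hVi.const_mul r).sub hVN)
    (((hVi.indicator hE).add (hi.indicator hm)).const_mul r) fun t => ?_
  simp only
  have hVN0 := mul_nonneg (hV t) (hN t)
  have hV0 := hV t
  have hr0 : 0 ≤ r := by linarith
  by_cases ht : q < |t - t0|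
  · rw [indicator_of_mem (show t ∈ {t : ℝ | q < |t - t0|} from ht)]
    have h2 : 0 ≤ E.indicator V t := indicator_nonneg (fun x _ => hV x) t
    have h3 : 0 ≤ r * E.indicator V t := mul_nonneg hr0 h2
    have h4 : 0 ≤ r * (V t * N t) := mul_nonneg hr0 hVN0
    nlinarith
  · rw [indicator_of_notMem (show t ∉ {t : ℝ | q < |t - t0|} from ht), add_zero]
    by_cases htE : t ∈ E
    · rw [indicator_of_mem htE]
      linarith
    · rw [indicator_of_notMem htE]
      have h2 := mul_le_mul_of_nonneg_left (h1 t (not_lt.mp ht) htE) hV0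
      nlinarith

/-- The weighted count on the crowded set. -/
lemma int_le_crowd {V N : ℝ → ℝ} (hV : ∀ t, 0 ≤ V t) (hN : ∀ t, 0 ≤ N t) (hVi : Integrable V)
    (hVN : Integrable fun t => V t * N t) {t0 q r : ℝ} (hr : 1 ≤ r) {E : Set ℝ}
    (hE : MeasurableSet E) (h1 : ∀ t, |t - t0| ≤ q → t ∉ E → N t ≤ r) :
    (∫ t, V t * N t) - r * (∫ t, V t) ≤ (∫ t in E, V t * N t) +
      ∫ t in {t : ℝ | q < |t - t0|}, V t * (1 + N t) := by
  have hm : MeasurableSet {t : ℝ | q < |t - t0|} :=
    (isOpen_lt continuous_const (by fun_prop)).measurableSet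
  have hi : Integrable fun t => V t * (1 + N t) := by
    have := hVi.add hVN
    refine this.congr (Filter.Eventually.of_forall fun t => ?_)
    simp only [Pi.add_apply]
    ring
  rw [← integral_const_mul, ← integral_sub hVN (hVi.const_mul r), ← integral_indicator hm,
    ← integral_indicator hE, ← integral_add (hVN.indicator hE) (hi.indicator hm)]
  refine integral_mono (hVN.sub (hVi.const_mul r)) ((hVN.indicator hE).add (hi.indicator hm))
    fun t => ?_
  simp only
  have hVN0 := mul_nonneg (hV t) (hN t)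
  have hV0 := hV t
  have hrV : 0 ≤ r * V t := mul_nonneg (by linarith) hV0
  by_cases ht : q < |t - t0|
  · rw [indicator_of_mem (show t ∈ {t : ℝ | q < |t - t0|} from ht)]
    have h2 : 0 ≤ E.indicator (fun t => V t * N t) t :=
      indicator_nonneg (fun x _ => mul_nonneg (hV x) (hN x)) t
    nlinarith
  · rw [indicator_of_notMem (show t ∉ {t : ℝ | q < |t - t0|} from ht), add_zero]
    by_cases htE : t ∈ E
    · rw [indicator_of_mem htE]
      linarith
    · rw [indicator_of_notMem htE]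
      have h2 := mul_le_mul_of_nonneg_left (h1 t (not_lt.mp ht) htE) hV0
      linarith

end Pool.Agent.RG.CW
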