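import Pool.Agent.RG.TExp
import Pool.Agent.ZShort.Diag

/-!
# General amplitude: clone of `ZShort.Diag`
-/

namespace Pool.Agent.RG

open MeasureTheory Finset Pool.Agent.ZGap.Res Pool.Agent.TypBlk Pool.Agent.ZShort

/-- The window transform of a frequency is the indicator of the diagonal. -/
lemma Wh_lam {R : ResData} {α T : ℝ} (hT : 1 < T) (hb : 2 ≤ T ^ (α - 2 * R.th))
    {q q' : Finset ℕ × Finset ℕ} (hq : q ∈ QQ T) (hq' : q' ∈ QQ T) {n : ℕ} (hn : 0 < n) (t0 : ℝ) :
    al R T q * al R T q' * (Wh (T ^ α * Real.log T / Real.log T * lam n q q') *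
      Real.cos (t0 * lam n q q')) =
      if pr q.1 * pr q'.2 = n * (pr q.2 * pr q'.1) then al R T q * al R T q' else 0 := by
  have hTp : 0 < T := by linarith
  have hL : 0 < Real.log T := Real.log_pos hT
  split_ifs with h
  · rw [(ExpAux.lam_eq_zero_iff hq hq' hn).mpr h, mul_zero, mul_zero, Wh_zero, Real.cos_zero]
    ring
  · by_cases h1 : al R T q = 0
    · rw [h1]; ring
    by_cases h2 : al R T q' = 0
    · rw [h2]; ring
    have hs := spacing hT hq hq' h1 h2 hn h
    have h3 : 1 ≤ |T ^ α * Real.log T / Real.log T * lam n q q'| := by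
      rw [mul_div_assoc, div_self hL.ne', mul_one, abs_mul, abs_of_pos (Real.rpow_pos_of_pos hTp α)]
      unfold lam
      calc (1:ℝ) ≤ T ^ (α - 2 * R.th) / 2 := by linarith
        _ = T ^ α * (T ^ (-(2 * R.th)) / 2) := by
            rw [← mul_div_assoc, ← Real.rpow_add hTp]
            congr 2
        _ ≤ _ := mul_le_mul_of_nonneg_left hs (Real.rpow_pos_of_pos hTp α).le
    rw [Wh_eq_zero h3]
    ring

/-- The local means are the diagonal sums, for every centre. -/
theorem int_VL_cos_diag {R : ResData} {α T : ℝ} (hT : 1 < T) (hb : 2 ≤ T ^ (α - 2 * R.th))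
    {n : ℕ} (hn : 0 < n) (t0 : ℝ) :
    ∫ t : ℝ, VL R (T ^ α * Real.log T) T t0 t * Real.cos (t * Real.log n) = CC R T n := by
  have hTp : 0 < T := by linarith
  have hL : 0 < Real.log T := Real.log_pos hT
  have hK : 0 < T ^ α * Real.log T := mul_pos (Real.rpow_pos_of_pos hTp α) hL
  rw [int_VL_cos R hK hT n]
  unfold CC
  exact sum_congr rfl fun q hq => sum_congr rfl fun q' hq' => Wh_lam hT hb hq hq' hn t0

theorem DT_eq_mT {R : ResData} {α T : ℝ} (hT : 1 < T) (hb : 2 ≤ T ^ (α - 2 * R.th))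
    (ψ : ℝ → ℝ) (t0 : ℝ) : DT R ψ (T ^ α * Real.log T) T t0 = mT R ψ T := by
  unfold DT mT
  refine sum_congr rfl fun n hn => ?_
  rw [int_VL_cos_diag hT hb (mem_Icc.mp hn).1 t0]

theorem int_VL {R : ResData} {α T : ℝ} (hT : 1 < T) (hb : 2 ≤ T ^ (α - 2 * R.th)) (t0 : ℝ) :
    ∫ t : ℝ, VL R (T ^ α * Real.log T) T t0 t = Sig R T := by
  rw [← CC_one, ← int_VL_cos_diag hT hb one_pos t0]
  refine integral_congr_ae (Filter.Eventually.of_forall fun t => ?_)
  simp

end Pool.Agent.RG
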