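import Pool.Agent.RG.TDefs
import Pool.Agent.ZShort.Tail

/-!
# General amplitude: clone of `ZShort.Tail`
-/

namespace Pool.Agent.RG

open MeasureTheory Set Pool.Agent.ZGap.Res Pool.Agent.TypBlk Pool.Agent.ZShort

/-- The tail of the resonated window weight is tiny, for every centre. -/
theorem exists_tailS (R : ResData) (hF : ∀ x, 0 ≤ x → R.F x ≤ 1) {α a : ℝ} (hα : 0 < α)
    (hαa : α < a) (ha : a ≤ 1) {ψ : ℝ → ℝ} (hψ0 : ∀ x, 0 ≤ ψ x) (hψc : Continuous ψ) {A : ℝ}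
    (hψA : ∀ x, |ψ x| ≤ A / (1 + x ^ 2)) :
    ∃ T0 : ℝ, Real.exp 3 ≤ T0 ∧ ∀ T : ℝ, T0 ≤ T → ∀ t0 ∈ Set.Icc T (2 * T),
      ∫ t in {t : ℝ | T ^ a / 4 < |t - t0|},
        VL R (T ^ α * Real.log T) T t0 t * (1 + NC ψ T t) ≤ 1 / T := by
  have hA0 : 0 ≤ A := by
    have := (abs_nonneg _).trans (hψA 0)
    simpa using this
  have haα : 0 < a - α := by linarith
  have ha0 : 0 < a := by linarith
  obtain ⟨n, hn⟩ := exists_nat_gt (10 / (a - α))
  have hn10 : 10 ≤ (a - α) * n := by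
    rw [div_lt_iff₀ haα] at hn
    linarith
  obtain ⟨C, hC, hdec⟩ := WW_decay (n + 4)
  obtain ⟨C6, hC6, hNCle⟩ := exists_NC_le
  have hE1 := E1_pos (R := R)
  obtain ⟨C1, hC1⟩ : ∃ C1 : ℝ, C1 = C * 4 ^ n * E1 R ^ 2 * (1 + 2 * C6 * A) * 11 := ⟨_, rfl⟩
  have hC1p : 0 < C1 := by rw [hC1]; positivity
  refine ⟨max (Real.exp 3) (max ((4 : ℝ) ^ (1 / a)) (2 * C1 * Real.pi)), le_max_left _ _,
    fun T hT t0 ht0 => ?_⟩
  have hTe : Real.exp 3 ≤ T := (le_max_left _ _).trans hT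
  have hT4 : (4 : ℝ) ^ (1 / a) ≤ T := (le_max_left _ _).trans ((le_max_right _ _).trans hT)
  have hTC : 2 * C1 * Real.pi ≤ T := (le_max_right _ _).trans ((le_max_right _ _).trans hT)
  have h1T : 1 < T := lt_of_lt_of_le (Real.one_lt_exp_iff.mpr (by norm_num)) hTe
  have hTp : 0 < T := by linarith
  have hL3 : 3 ≤ Real.log T := by rw [Real.le_log_iff_exp_le hTp]; exact hTe
  have hL1 : 1 ≤ Real.log T := by linarith
  have hL : 0 < Real.log T := by linarith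
  have hTα : 1 ≤ T ^ α := Real.one_le_rpow h1T.le hα.le
  have hTαp : 0 < T ^ α := by linarith
  have hTαT : T ^ α ≤ T := by
    calc T ^ α ≤ T ^ (1 : ℝ) := Real.rpow_le_rpow_of_exponent_le h1T.le (by linarith)
      _ = T := Real.rpow_one T
  have hTa : 4 ≤ T ^ a := by
    calc (4 : ℝ) = ((4 : ℝ) ^ (1 / a)) ^ a := by
          rw [← Real.rpow_mul (by norm_num), one_div, inv_mul_cancel₀ ha0.ne', Real.rpow_one]
      _ ≤ T ^ a := Real.rpow_le_rpow (by positivity) hT4 ha0.le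
  have hK0 : 0 < T ^ α * Real.log T := by positivity
  have hdiv : Real.log T / (T ^ α * Real.log T) = (T ^ α)⁻¹ := by
    field_simp
  have hNCnn : ∀ t, 0 ≤ NC ψ T t := fun t =>
    tsum_nonneg fun ρ => mul_nonneg (Nat.cast_nonneg _) (hψ0 _)
  have hww0 : ∀ t, 0 ≤ ww (T ^ α * Real.log T) T t0 t := fun t => WinAux.ww_nonneg hK0 h1T t0 t
  have hf0 : ∀ t, 0 ≤ VL R (T ^ α * Real.log T) T t0 t * (1 + NC ψ T t) := by
    intro t
    have h1 := hww0 t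
    have h2 := hNCnn t
    unfold VL
    positivity
  have hAE : ∀ t, ‖Amp R T t‖ ^ 2 ≤ T ^ 2 * E1 R ^ 2 := by
    intro t
    rw [← mul_pow]
    apply pow_le_pow_left₀ (norm_nonneg _)
    exact (norm_Amp_le h1T hF t).trans (mul_le_mul_of_nonneg_left (E0_le_E1 hTe) hTp.le)
  have hpow : T ^ 10 ≤ 4 ^ n * (T ^ a / 4 * (T ^ α)⁻¹) ^ n := by
    have e1 : T ^ a / 4 * (T ^ α)⁻¹ = T ^ (a - α) / 4 := by
      rw [Real.rpow_sub hTp]
      field_simp
    rw [e1, div_pow, mul_div_cancel₀ _ (by positivity), ← Real.rpow_natCast (T ^ (a - α)) n,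
      ← Real.rpow_mul hTp.le, ← Real.rpow_natCast T 10]
    exact Real.rpow_le_rpow_of_exponent_le h1T.le (by push_cast; exact hn10)
  have hbound : ∀ t, T ^ a / 4 < |t - t0| →
      VL R (T ^ α * Real.log T) T t0 t * (1 + NC ψ T t) ≤
        2 * C1 * (T ^ 2)⁻¹ * (1 + (t - t0) ^ 2)⁻¹ := by
    intro t ht
    obtain ⟨x, hx⟩ : ∃ x, x = |t - t0| := ⟨_, rfl⟩
    rw [← hx] at ht
    have hx1 : 1 ≤ x := by linarith
    have hx0 : 0 < x := by linarith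
    have hxsq : (t - t0) ^ 2 = x ^ 2 := by rw [hx, sq_abs]
    have hW0 := WW_nonneg ((t - t0) * (T ^ α)⁻¹)
    -- the decay
    have h1 := hdec ((t - t0) * (T ^ α)⁻¹)
    rw [abs_mul, abs_of_pos (inv_pos.2 hTαp), ← hx, pow_add] at h1
    have h2 : (T ^ a / 4 * (T ^ α)⁻¹) ^ n ≤ (x * (T ^ α)⁻¹) ^ n :=
      pow_le_pow_left₀ (by positivity) (mul_le_mul_of_nonneg_right ht.le (by positivity)) n
    have h3 : (x * T⁻¹) ^ 4 ≤ (x * (T ^ α)⁻¹) ^ 4 :=
      pow_le_pow_left₀ (by positivity) (mul_le_mul_of_nonneg_left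
        (inv_anti₀ hTαp hTαT) hx0.le) 4
    have h4 : T ^ 6 * x ^ 4 * WW ((t - t0) * (T ^ α)⁻¹) ≤ 4 ^ n * C := by
      calc T ^ 6 * x ^ 4 * WW ((t - t0) * (T ^ α)⁻¹)
          = T ^ 10 * (x * T⁻¹) ^ 4 * WW ((t - t0) * (T ^ α)⁻¹) := by
            field_simp
        _ ≤ (4 ^ n * (x * (T ^ α)⁻¹) ^ n) * (x * (T ^ α)⁻¹) ^ 4 *
              WW ((t - t0) * (T ^ α)⁻¹) := by
            refine mul_le_mul_of_nonneg_right ?_ hW0
            refine mul_le_mul (hpow.trans (mul_le_mul_of_nonneg_left h2 (by positivity))) h3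
              (by positivity) (by positivity)
        _ = 4 ^ n * ((x * (T ^ α)⁻¹) ^ n * (x * (T ^ α)⁻¹) ^ 4 *
              WW ((t - t0) * (T ^ α)⁻¹)) := by ring
        _ ≤ 4 ^ n * C := mul_le_mul_of_nonneg_left h1 (by positivity)
    -- the factor `1 + NC`
    have h5 := (le_abs_self _).trans (hNCle ψ A T hψA hL1 t)
    have h6 := log_abs_add_two_le t
    have h7 : NC ψ T t ≤ 2 * C6 * A * (1 + t ^ 2) := by
      refine h5.trans ?_
      calc C6 * A * Real.log (|t| + 2) ≤ C6 * A * (2 * (1 + t ^ 2)) := by gcongr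
        _ = _ := by ring
    have h8 : 1 + NC ψ T t ≤ (1 + 2 * C6 * A) * (1 + t ^ 2) := by
      have : 0 ≤ t ^ 2 := sq_nonneg t
      linarith
    have h9 : 1 + t ^ 2 ≤ 11 * (T ^ 2 * x ^ 2) := by
      have e1 : t ^ 2 ≤ 2 * t0 ^ 2 + 2 * (t - t0) ^ 2 := by nlinarith [sq_nonneg (t - 2 * t0)]
      have e2 : t0 ^ 2 ≤ (2 * T) ^ 2 :=
        pow_le_pow_left₀ (by linarith [ht0.1]) ht0.2 2
      rw [hxsq] at e1
      have e3 : 1 ≤ T ^ 2 := one_le_pow₀ h1T.le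
      have e4 : 1 ≤ x ^ 2 := one_le_pow₀ hx1
      have e5 : T ^ 2 ≤ T ^ 2 * x ^ 2 := le_mul_of_one_le_right (by positivity) e4
      have e6 : x ^ 2 ≤ T ^ 2 * x ^ 2 := le_mul_of_one_le_left (by positivity) e3
      nlinarith
    have h10 : 1 + NC ψ T t ≤ (1 + 2 * C6 * A) * (11 * (T ^ 2 * x ^ 2)) :=
      h8.trans (mul_le_mul_of_nonneg_left h9 (by positivity))
    have h11 : ww (T ^ α * Real.log T) T t0 t ≤ 4 ^ n * C / (T ^ 6 * x ^ 4) := by
      unfold ww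
      rw [hdiv, le_div_iff₀ (by positivity)]
      calc (T ^ α)⁻¹ * WW ((t - t0) * (T ^ α)⁻¹) * (T ^ 6 * x ^ 4)
          = (T ^ α)⁻¹ * (T ^ 6 * x ^ 4 * WW ((t - t0) * (T ^ α)⁻¹)) := by ring
        _ ≤ 1 * (T ^ 6 * x ^ 4 * WW ((t - t0) * (T ^ α)⁻¹)) :=
            mul_le_mul_of_nonneg_right (inv_le_one_of_one_le₀ hTα) (by positivity)
        _ ≤ 4 ^ n * C := by rw [one_mul]; exact h4
    have h12 : VL R (T ^ α * Real.log T) T t0 t * (1 + NC ψ T t) ≤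
        4 ^ n * C / (T ^ 6 * x ^ 4) * (T ^ 2 * E1 R ^ 2) *
          ((1 + 2 * C6 * A) * (11 * (T ^ 2 * x ^ 2))) := by
      unfold VL
      have e1 := hNCnn t
      have e2 := hww0 t
      exact mul_le_mul (mul_le_mul h11 (hAE t) (by positivity) (by positivity)) h10
        (by linarith) (by positivity)
    refine h12.trans ?_
    have h13 : 4 ^ n * C / (T ^ 6 * x ^ 4) * (T ^ 2 * E1 R ^ 2) *
          ((1 + 2 * C6 * A) * (11 * (T ^ 2 * x ^ 2))) = C1 * (T ^ 2)⁻¹ * (x ^ 2)⁻¹ := by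
      rw [hC1]
      field_simp
    rw [h13, hxsq]
    have h14 : (x ^ 2)⁻¹ ≤ 2 * (1 + x ^ 2)⁻¹ := by
      rw [← div_eq_mul_inv, inv_eq_one_div, div_le_div_iff₀ (by positivity) (by positivity)]
      have : 1 ≤ x ^ 2 := one_le_pow₀ hx1
      linarith
    calc C1 * (T ^ 2)⁻¹ * (x ^ 2)⁻¹ ≤ C1 * (T ^ 2)⁻¹ * (2 * (1 + x ^ 2)⁻¹) :=
          mul_le_mul_of_nonneg_left h14 (by positivity)
      _ = _ := by ring
  have hSm : MeasurableSet {t : ℝ | T ^ a / 4 < |t - t0|} :=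
    measurableSet_lt measurable_const (by fun_prop)
  have hgi : Integrable (fun t : ℝ => 2 * C1 * (T ^ 2)⁻¹ * (1 + (t - t0) ^ 2)⁻¹) :=
    (integrable_inv_one_add_sq.comp_sub_right t0).const_mul _
  calc ∫ t in {t : ℝ | T ^ a / 4 < |t - t0|},
        VL R (T ^ α * Real.log T) T t0 t * (1 + NC ψ T t)
      ≤ ∫ t in {t : ℝ | T ^ a / 4 < |t - t0|}, 2 * C1 * (T ^ 2)⁻¹ * (1 + (t - t0) ^ 2)⁻¹ := by
        refine integral_mono_of_nonneg (Filter.Eventually.of_forall hf0) hgi.integrableOn ?_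
        exact ae_restrict_of_forall_mem hSm fun t ht => hbound t ht
    _ ≤ ∫ t : ℝ, 2 * C1 * (T ^ 2)⁻¹ * (1 + (t - t0) ^ 2)⁻¹ :=
        setIntegral_le_integral hgi (Filter.Eventually.of_forall fun t => by positivity)
    _ = 2 * C1 * (T ^ 2)⁻¹ * Real.pi := by
        rw [integral_const_mul, integral_sub_right_eq_self (fun t : ℝ => (1 + t ^ 2)⁻¹) t0,
          integral_univ_inv_one_add_sq]
    _ ≤ 1 / T := by
        rw [le_div_iff₀ hTp]
        calc 2 * C1 * (T ^ 2)⁻¹ * Real.pi * T = (2 * C1 * Real.pi) * T⁻¹ := by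
              field_simp
          _ ≤ T * T⁻¹ := mul_le_mul_of_nonneg_right hTC (by positivity)
          _ = 1 := mul_inv_cancel₀ hTp.ne'

end Pool.Agent.RG
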