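import Pool.Agent.RG.Win
import Pool.Agent.RG.Tail
import Pool.Agent.RG.SDiag
import Pool.Agent.RG.PBox
import Pool.Agent.RG.CountW
import Pool.Agent.ZShort.VoidPos

/-!
# Windows with few zeros and crowded windows have positive density in every window of length `T ^ α`
-/

open scoped ContDiff

namespace Pool.Agent.RG

open MeasureTheory Real Set Pool.Agent.ZGap.Res Pool.Agent.TypBlk Pool.Agent.Hadamard
open Pool.Agent.ZetaGaps Pool.Agent.ZShort

lemma fc_mT_eq (R : ResData) (ψ : ℝ → ℝ) {T : ℝ} (hT : 1 ≤ T) :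
    mT R ψ T = (1 - chat ψ 0 / (2 * π)) * Sig R T + (π * Real.log T)⁻¹ *
      ∑ n ∈ Finset.Icc 1 ⌊T⌋₊, ArithmeticFunction.vonMangoldt n / Real.sqrt n *
        chat ψ (Real.log n / Real.log T) * CC R T n := by
  have h1 : (1 : ℕ) ∈ Finset.Icc 1 ⌊T⌋₊ := by
    rw [Finset.mem_Icc]
    exact ⟨le_rfl, Nat.le_floor (by simpa using hT)⟩
  have h2 : ∀ n ∈ Finset.Icc 1 ⌊T⌋₊, kap ψ T n * CC R T n =
      (if n = 1 then (1 - chat ψ 0 / (2 * π)) * Sig R T else 0) + (π * Real.log T)⁻¹ *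
        (ArithmeticFunction.vonMangoldt n / Real.sqrt n *
          chat ψ (Real.log n / Real.log T) * CC R T n) := by
    intro n _
    unfold kap
    by_cases hn : n = 1
    · subst hn
      rw [if_pos rfl, if_pos rfl, CC_one]
      simp
    · rw [if_neg hn, if_neg hn]
      ring
  unfold mT
  rw [Finset.sum_congr rfl h2, Finset.sum_add_distrib, Finset.sum_ite_eq' , if_pos h1,
    Finset.mul_sum]

/-- The Cauchy-Schwarz step with the fourth moment. -/
lemma fc_cs_step {R : ResData} {T y H B μ : ℝ} (hH : 0 ≤ H) (hμ : 0 < μ) {E : Set ℝ}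
    (hEI : E ⊆ Icc y (y + H))
    (hf : ∫ t in y..(y + H), ‖Amp R T t‖ ^ 4 ≤ B) :
    ∫ t in E, ‖Amp R T t‖ ^ 2 ≤ μ / 2 * B + 1 / (2 * μ) * volume.real E := by
  have hAc := Amp_continuous R T
  have hEfin : volume E ≠ ⊤ := by
    refine ne_top_of_le_ne_top ?_ (measure_mono hEI)
    rw [Real.volume_Icc]; exact ENNReal.ofReal_ne_top
  rw [intervalIntegral.integral_of_le (by linarith), ← integral_Icc_eq_integral_Ioc] at hf
  have hi4 : IntegrableOn (fun t => ‖Amp R T t‖ ^ 4) (Icc y (y + H)) :=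
    (by fun_prop : Continuous fun t => ‖Amp R T t‖ ^ 4).integrableOn_Icc
  have hi2 : IntegrableOn (fun t => ‖Amp R T t‖ ^ 2) E :=
    (by fun_prop : Continuous fun t => ‖Amp R T t‖ ^ 2).integrableOn_Icc.mono_set hEI
  have hi4E := hi4.mono_set hEI
  have hic : IntegrableOn (fun _ : ℝ => 1 / (2 * μ)) E := integrableOn_const hEfin
  calc ∫ t in E, ‖Amp R T t‖ ^ 2 ≤ ∫ t in E, (μ / 2 * ‖Amp R T t‖ ^ 4 + 1 / (2 * μ)) := by
        refine integral_mono hi2 ((hi4E.const_mul _).add hic) fun t => ?_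
        have h3 : 0 ≤ (μ * ‖Amp R T t‖ ^ 2 - 1) ^ 2 / (2 * μ) := by positivity
        have h4 : (μ * ‖Amp R T t‖ ^ 2 - 1) ^ 2 / (2 * μ) =
            μ / 2 * ‖Amp R T t‖ ^ 4 + 1 / (2 * μ) - ‖Amp R T t‖ ^ 2 := by
          field_simp
          ring
        simp only
        linarith
    _ = μ / 2 * (∫ t in E, ‖Amp R T t‖ ^ 4) + 1 / (2 * μ) * volume.real E := by
        rw [integral_add (hi4E.const_mul _) hic, integral_const_mul, setIntegral_const,
          smul_eq_mul, mul_comm (volume.real E)]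
    _ ≤ μ / 2 * (∫ t in Icc y (y + H), ‖Amp R T t‖ ^ 4) + 1 / (2 * μ) * volume.real E := by
        have h5 : ∫ t in E, ‖Amp R T t‖ ^ 4 ≤ ∫ t in Icc y (y + H), ‖Amp R T t‖ ^ 4 :=
          setIntegral_mono_set hi4 (Filter.Eventually.of_forall fun t => by positivity)
            (Filter.Eventually.of_forall hEI)
        have h6 := mul_le_mul_of_nonneg_left h5 (show 0 ≤ μ / 2 by positivity)
        linarith
    _ ≤ _ := by
        have h6 := mul_le_mul_of_nonneg_left hf (show 0 ≤ μ / 2 by positivity)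
        linarith

/-- **The local inequality, few zeros.** -/
theorem exists_local_few (hRH : RiemannHypothesis) (R : ResData) (hF : ∀ x, 0 ≤ x → R.F x ≤ 1)
    {α a β : ℝ} (h0 : 0 < α) (hαa : α < a) (ha : a ≤ 1) (hb : 2 * R.th < β) (hβ1 : β < 1)
    {c e : ℝ} (hc : 0 < c) {r : ℕ} (hr : 1 ≤ r) {ψ : ℝ → ℝ} (hψ : RS ψ)
    (hψ00 : ∀ x, 0 ≤ ψ x) (hψle : ∀ x, ψ x ≤ 1) (hψ1 : ∀ x, |x| ≤ π * c → ψ x = 1)
    (hψ0 : ∀ x, e ≤ |x| → ψ x = 0) :
    ∃ C T0 : ℝ, 0 < C ∧ Real.exp 3 ≤ T0 ∧ ∀ T : ℝ, T0 ≤ T → ∀ t0 ∈ Icc T (2 * T),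
      ∀ E : Set ℝ, MeasurableSet E → (∀ t, |t - t0| ≤ T ^ a / 4 →
        zeroCount (t + π * c / Real.log T) + 1 ≤ zeroCount (t - π * c / Real.log T) + r → t ∈ E) →
      DT R ψ (T ^ α * Real.log T) T t0 +
        ((r:ℝ) - 1) * (∫ t : ℝ, VL R (T ^ α * Real.log T) T t0 t) -
        C / Real.log T * (∫ t : ℝ, VL R (T ^ α * Real.log T) T t0 t) - C / T ≤
        r * ∫ t in E, (Real.log T / (T ^ α * Real.log T)) *
          WW ((t - t0) * (Real.log T / (T ^ α * Real.log T))) * ‖Amp R T t‖ ^ 2 := by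
  have hth0 : 0 < R.th := by linarith [R.ep_pos, R.ep_th]
  have hr1 : (1:ℝ) ≤ r := by exact_mod_cast hr
  set A : ℝ := 1 + e ^ 2 with hA
  have hψA : ∀ x, |ψ x| ≤ A / (1 + x ^ 2) := GoodVAux.psi_bound hψ00 hψle hψ0
  obtain ⟨Cc, Tc, hCc, hTc3, hcnt⟩ := exists_cntS hRH R hF h0 (by linarith) hb
    (by linarith) hβ1 hψ
  obtain ⟨Tw, hTw3, hwin⟩ := exists_winS R hF h0 (by linarith : α < 1) hb
  obtain ⟨Tt, hTt3, htail⟩ := exists_tailS R hF h0 hαa ha hψ00 hψ.continuous hψA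
  obtain ⟨C6, hC6, hNCle⟩ := exists_NC_le
  refine ⟨Cc + r, max Tc (max Tw Tt), by positivity, hTc3.trans (le_max_left _ _),
    fun T hT t0 ht0 E hEm hE => ?_⟩
  have hTc : Tc ≤ T := (le_max_left _ _).trans hT
  have hTw : Tw ≤ T := (le_max_left _ _).trans ((le_max_right _ _).trans hT)
  have hTt : Tt ≤ T := (le_max_right _ _).trans ((le_max_right _ _).trans hT)
  have hTe : Real.exp 3 ≤ T := hTc3.trans hTc
  have h1T : 1 < T := lt_of_lt_of_le (Real.one_lt_exp_iff.mpr (by norm_num)) hTe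
  have hTp : 0 < T := by linarith
  have hL3 : 3 ≤ Real.log T := by rw [Real.le_log_iff_exp_le hTp]; exact hTe
  have hL1 : 1 ≤ Real.log T := by linarith
  have hL : 0 < Real.log T := by linarith
  obtain ⟨⟨Mw, hWt⟩, -, -⟩ := hwin T hTw t0 ht0
  have hiV : Integrable (VL R (T ^ α * Real.log T) T t0) := hWt.integrable
  have hiVN : Integrable (fun t => VL R (T ^ α * Real.log T) T t0 t * NC ψ T t) := by
    have hcont : Continuous (NC ψ T) := NC_continuous hψ.continuous hψA hL1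
    refine hWt.integrable_mul (A := C6 * A * 2) hcont fun t => ?_
    refine (hNCle ψ A T hψA hL1 t).trans ?_
    have := log_abs_add_two_le t
    have hA0 : 0 ≤ A := by rw [hA]; positivity
    calc C6 * A * Real.log (|t| + 2) ≤ C6 * A * (2 * (1 + t ^ 2)) :=
          mul_le_mul_of_nonneg_left this (by positivity)
      _ = _ := by ring
  have hNCnn : ∀ t, 0 ≤ NC ψ T t := fun t =>
    tsum_nonneg fun ρ => mul_nonneg (Nat.cast_nonneg _) (hψ00 _)
  have hN1 : ∀ t, |t - t0| ≤ T ^ a / 4 → t ∉ E → (r:ℝ) ≤ NC ψ T t := by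
    intro t ht htE
    have h1 : ¬ zeroCount (t + π * c / Real.log T) + 1 ≤
        zeroCount (t - π * c / Real.log T) + r := fun h => htE (hE t ht h)
    have h2 : zeroCount (t - π * c / Real.log T) + r ≤ zeroCount (t + π * c / Real.log T) := by
      omega
    have h3 : (zeroCount (t - π * c / Real.log T) : ℝ) + r ≤
        zeroCount (t + π * c / Real.log T) := by exact_mod_cast h2
    have h4 := CW.count_le_NC (T := T) (t := t) hL1 hψ00 hψA hψ1 hc
    linarith
  have h4 := CW.int_le_few hWt.nonneg hNCnn hiV hiVN hr1 hEm hN1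
  have h5 := (abs_le.mp (hcnt T hTc t0 ht0)).1
  have h6 := htail T hTt t0 ht0
  have h13 : ∫ t in E, VL R (T ^ α * Real.log T) T t0 t =
      ∫ t in E, (Real.log T / (T ^ α * Real.log T)) *
        WW ((t - t0) * (Real.log T / (T ^ α * Real.log T))) * ‖Amp R T t‖ ^ 2 := rfl
  rw [← h13]
  have h14 : 0 ≤ ∫ t : ℝ, VL R (T ^ α * Real.log T) T t0 t := integral_nonneg hWt.nonneg
  have h15 : (Cc + r) / Real.log T * (∫ t : ℝ, VL R (T ^ α * Real.log T) T t0 t) =
      Cc / Real.log T * (∫ t : ℝ, VL R (T ^ α * Real.log T) T t0 t) +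
        r / Real.log T * (∫ t : ℝ, VL R (T ^ α * Real.log T) T t0 t) := by ring
  have h16 : 0 ≤ r / Real.log T * (∫ t : ℝ, VL R (T ^ α * Real.log T) T t0 t) := by positivity
  have h17 : (Cc + r) / T = Cc / T + r * (1 / T) := by ring
  have h18 := mul_le_mul_of_nonneg_left h6 (show (0:ℝ) ≤ r by linarith)
  linarith

/-- **The local inequality, crowded windows.** -/
theorem exists_local_crowd (hRH : RiemannHypothesis) (R : ResData) (hF : ∀ x, 0 ≤ x → R.F x ≤ 1)
    {α a β : ℝ} (h0 : 0 < α) (hαa : α < a) (ha : a ≤ 1) (hb : 2 * R.th < β) (hβ1 : β < 1)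
    {c : ℝ} (hc : 0 < c) {r : ℕ} (hr : 1 ≤ r) {ψ : ℝ → ℝ} (hψ : RS ψ)
    (hψ00 : ∀ x, 0 ≤ ψ x) (hψle : ∀ x, ψ x ≤ 1) (hψ0 : ∀ x, π * c ≤ |x| → ψ x = 0) :
    ∃ C T0 : ℝ, 0 < C ∧ Real.exp 3 ≤ T0 ∧ ∀ T : ℝ, T0 ≤ T → ∀ t0 ∈ Icc T (2 * T),
      ∀ E : Set ℝ, MeasurableSet E → (∀ t, |t - t0| ≤ T ^ a / 4 →
        zeroCount (t - π * c / Real.log T) + (r + 1) ≤ zeroCount (t + π * c / Real.log T) →
        t ∈ E) →
      -DT R ψ (T ^ α * Real.log T) T t0 -
        ((r:ℝ) - 1) * (∫ t : ℝ, VL R (T ^ α * Real.log T) T t0 t) -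
        C / Real.log T * (∫ t : ℝ, VL R (T ^ α * Real.log T) T t0 t) - C / T ≤
        ∫ t in E, (Real.log T / (T ^ α * Real.log T)) *
          WW ((t - t0) * (Real.log T / (T ^ α * Real.log T))) *
            (‖Amp R T t‖ ^ 2 * NC ψ T t) := by
  have hth0 : 0 < R.th := by linarith [R.ep_pos, R.ep_th]
  have hr1 : (1:ℝ) ≤ r := by exact_mod_cast hr
  set A : ℝ := 1 + (π * c) ^ 2 with hA
  have hψA : ∀ x, |ψ x| ≤ A / (1 + x ^ 2) := GoodVAux.psi_bound hψ00 hψle hψ0
  obtain ⟨Cc, Tc, hCc, hTc3, hcnt⟩ := exists_cntS hRH R hF h0 (by linarith) hb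
    (by linarith) hβ1 hψ
  obtain ⟨Tw, hTw3, hwin⟩ := exists_winS R hF h0 (by linarith : α < 1) hb
  obtain ⟨Tt, hTt3, htail⟩ := exists_tailS R hF h0 hαa ha hψ00 hψ.continuous hψA
  obtain ⟨C6, hC6, hNCle⟩ := exists_NC_le
  have hpi := Real.pi_pos
  refine ⟨Cc + 1, max (max Tc (4 ^ (1 / α) * (π * c + 1) + 4 * π * c + 8)) (max Tw Tt), by positivity,
    hTc3.trans ((le_max_left _ _).trans (le_max_left _ _)), fun T hT t0 ht0 E hEm hE => ?_⟩
  have hTc : Tc ≤ T := (le_max_left _ _).trans ((le_max_left _ _).trans hT)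
  have hTc' : 4 ^ (1 / α) * (π * c + 1) + 4 * π * c + 8 ≤ T :=
    (le_max_right _ _).trans ((le_max_left _ _).trans hT)
  have hTw : Tw ≤ T := (le_max_left _ _).trans ((le_max_right _ _).trans hT)
  have hTt : Tt ≤ T := (le_max_right _ _).trans ((le_max_right _ _).trans hT)
  have hTe : Real.exp 3 ≤ T := hTc3.trans hTc
  have h1T : 1 < T := lt_of_lt_of_le (Real.one_lt_exp_iff.mpr (by norm_num)) hTe
  have hTp : 0 < T := by linarith
  have hL3 : 3 ≤ Real.log T := by rw [Real.le_log_iff_exp_le hTp]; exact hTe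
  have hL1 : 1 ≤ Real.log T := by linarith
  have hL : 0 < Real.log T := by linarith
  have hT8 : 4 * π * c + 8 ≤ T := by
    have : 0 ≤ (4:ℝ) ^ (1 / α) * (π * c + 1) := by positivity
    linarith
  have haT : T ^ a ≤ T := by
    calc T ^ a ≤ T ^ (1:ℝ) := Real.rpow_le_rpow_of_exponent_le h1T.le ha
      _ = T := Real.rpow_one T
  obtain ⟨⟨Mw, hWt⟩, -, -⟩ := hwin T hTw t0 ht0
  have hiV : Integrable (VL R (T ^ α * Real.log T) T t0) := hWt.integrable
  have hiVN : Integrable (fun t => VL R (T ^ α * Real.log T) T t0 t * NC ψ T t) := by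
    have hcont : Continuous (NC ψ T) := NC_continuous hψ.continuous hψA hL1
    refine hWt.integrable_mul (A := C6 * A * 2) hcont fun t => ?_
    refine (hNCle ψ A T hψA hL1 t).trans ?_
    have := log_abs_add_two_le t
    have hA0 : 0 ≤ A := by rw [hA]; positivity
    calc C6 * A * Real.log (|t| + 2) ≤ C6 * A * (2 * (1 + t ^ 2)) :=
          mul_le_mul_of_nonneg_left this (by positivity)
      _ = _ := by ring
  have hNCnn : ∀ t, 0 ≤ NC ψ T t := fun t =>
    tsum_nonneg fun ρ => mul_nonneg (Nat.cast_nonneg _) (hψ00 _)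
  have hN1 : ∀ t, |t - t0| ≤ T ^ a / 4 → t ∉ E → NC ψ T t ≤ (r:ℝ) := by
    intro t ht htE
    have h1 : ¬ zeroCount (t - π * c / Real.log T) + (r + 1) ≤
        zeroCount (t + π * c / Real.log T) := fun h => htE (hE t ht h)
    have h2 : zeroCount (t + π * c / Real.log T) ≤ zeroCount (t - π * c / Real.log T) + r := by
      omega
    have h3 : (zeroCount (t + π * c / Real.log T) : ℝ) ≤
        zeroCount (t - π * c / Real.log T) + r := by exact_mod_cast h2
    have hpos : π * c / Real.log T < t := by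
      have h5 : π * c / Real.log T ≤ π * c := div_le_self (by positivity) hL1
      have h6 := (abs_le.mp ht).1
      have h7 := ht0.1
      have h8 : 0 < π * c := by positivity
      linarith
    have h4 := NC_le_count (T := T) (t := t) hL1 hψle hψA hψ0 hpos hc
    linarith
  have h4 := CW.int_le_crowd hWt.nonneg hNCnn hiV hiVN hr1 hEm hN1
  have h5 := (abs_le.mp (hcnt T hTc t0 ht0)).2
  have h6 := htail T hTt t0 ht0
  have h13 : ∫ t in E, VL R (T ^ α * Real.log T) T t0 t * NC ψ T t =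
      ∫ t in E, (Real.log T / (T ^ α * Real.log T)) *
        WW ((t - t0) * (Real.log T / (T ^ α * Real.log T))) *
          (‖Amp R T t‖ ^ 2 * NC ψ T t) := by
    refine integral_congr_ae (Filter.Eventually.of_forall fun t => ?_)
    simp only [VL, ww]
    ring
  rw [← h13]
  have h14 : 0 ≤ ∫ t : ℝ, VL R (T ^ α * Real.log T) T t0 t := integral_nonneg hWt.nonneg
  have h15 : (Cc + 1) / Real.log T * (∫ t : ℝ, VL R (T ^ α * Real.log T) T t0 t) =
      Cc / Real.log T * (∫ t : ℝ, VL R (T ^ α * Real.log T) T t0 t) +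
        1 / Real.log T * (∫ t : ℝ, VL R (T ^ α * Real.log T) T t0 t) := by ring
  have h16 : 0 ≤ 1 / Real.log T * (∫ t : ℝ, VL R (T ^ α * Real.log T) T t0 t) := by positivity
  have h17 : (Cc + 1) / T = Cc / T + 1 / T := by ring
  linarith

lemma mT_few (R : ResData) {c κ r : ℝ} {ψ : ℝ → ℝ}
    (hψc : chat ψ 0 / (2 * π) ≤ c + κ / 2) {T : ℝ} (hT : 1 ≤ T)
    (h : (c - r + κ) * Sig R T ≤ (π * Real.log T)⁻¹ *
      ∑ n ∈ Finset.Icc 1 ⌊T⌋₊, ArithmeticFunction.vonMangoldt n / Real.sqrt n *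
        chat ψ (Real.log n / Real.log T) * CC R T n) :
    κ / 2 * Sig R T ≤ mT R ψ T + (r - 1) * Sig R T := by
  rw [fc_mT_eq R ψ hT]
  have hS : 0 ≤ Sig R T := Finset.sum_nonneg fun _ _ => sq_nonneg _
  have h1 : (1 - (c + κ / 2)) * Sig R T ≤ (1 - chat ψ 0 / (2 * π)) * Sig R T :=
    mul_le_mul_of_nonneg_right (by linarith) hS
  have h3 : (1 - (c + κ / 2)) * Sig R T + (c - r + κ) * Sig R T + (r - 1) * Sig R T =
      κ / 2 * Sig R T := by ring
  linarith

lemma mT_crowd (R : ResData) {c κ r : ℝ} {ψ : ℝ → ℝ}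
    (hψc : c - κ / 2 ≤ chat ψ 0 / (2 * π)) {T : ℝ} (hT : 1 ≤ T)
    (h : (r - c + κ) * Sig R T ≤ -((π * Real.log T)⁻¹ *
      ∑ n ∈ Finset.Icc 1 ⌊T⌋₊, ArithmeticFunction.vonMangoldt n / Real.sqrt n *
        chat ψ (Real.log n / Real.log T) * CC R T n)) :
    κ / 2 * Sig R T ≤ -mT R ψ T - (r - 1) * Sig R T := by
  rw [fc_mT_eq R ψ hT]
  have hS : 0 ≤ Sig R T := Finset.sum_nonneg fun _ _ => sq_nonneg _
  have h1 : (1 - chat ψ 0 / (2 * π)) * Sig R T ≤ (1 - (c - κ / 2)) * Sig R T :=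
    mul_le_mul_of_nonneg_right (by linarith) hS
  have h3 : (r - c + κ) * Sig R T - (1 - (c - κ / 2)) * Sig R T - (r - 1) * Sig R T =
      κ / 2 * Sig R T := by ring
  linarith

/-- **Windows with few zeros have positive density in short windows**, from the arithmetic
inequality. -/
theorem few_pos_of_arith (hRH : RiemannHypothesis) (R : ResData)
    (hF : ∀ x, 0 ≤ x → R.F x ≤ 1) (hF0 : 0 < R.F 0) {c κ e α : ℝ} (hc : 0 < c) {r : ℕ}
    (hr : 1 ≤ r) (hα : 2 * R.th < α) (hα1 : α < 1) (hκ : 0 < κ) {ψ : ℝ → ℝ} (hψ : RS ψ)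
    (hψ00 : ∀ x, 0 ≤ ψ x) (hψle : ∀ x, ψ x ≤ 1) (hψ1 : ∀ x, |x| ≤ π * c → ψ x = 1)
    (hψ0 : ∀ x, e ≤ |x| → ψ x = 0)
    (hψc : chat ψ 0 / (2 * π) ≤ c + κ / 2) {T1 : ℝ}
    (harith : ∀ T : ℝ, T1 ≤ T → (c - r + κ) * Sig R T ≤ (π * Real.log T)⁻¹ *
      ∑ n ∈ Finset.Icc 1 ⌊T⌋₊, ArithmeticFunction.vonMangoldt n / Real.sqrt n *
        chat ψ (Real.log n / Real.log T) * CC R T n) :
    ∃ c0 T0 : ℝ, 0 < c0 ∧ ∀ T : ℝ, T0 ≤ T → ∀ y H : ℝ, T ≤ y → y + H ≤ 2 * T → T ^ α ≤ H →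
      c0 * H ≤ volume.real {t : ℝ | t ∈ Icc y (y + H) ∧
        zeroCount (t + π * c / Real.log T) < zeroCount (t - π * c / Real.log T) + r} := by
  have hth : 0 < R.th := by linarith [R.ep_th, R.ep_pos]
  have hα0 : 0 < α := by linarith
  have hr1 : (1:ℝ) ≤ r := by exact_mod_cast hr
  have hr0 : (0:ℝ) < r := by linarith
  -- the exponents
  set a : ℝ := (2 * R.th + 2 * α) / 3 with ha
  set α' : ℝ := (4 * R.th + α) / 3 with hα'
  have e1 : 2 * R.th < α' := by rw [hα']; linarith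
  have e2 : α' < a := by rw [hα', ha]; linarith
  have e3 : a < α := by rw [ha]; linarith
  have hα'0 : 0 < α' := by linarith
  have hα'1 : α' < 1 := by linarith
  set b : ℕ := ⌈1 / α⌉₊ with hb
  have hbα : 1 / α ≤ (b : ℝ) := Nat.le_ceil _
  have hb0 : (0 : ℝ) < b := lt_of_lt_of_le (by positivity) hbα
  have hb1 : 1 ≤ b := Nat.succ_le_of_lt (by exact_mod_cast hb0)
  have hbinv : 1 / (b : ℝ) ≤ α := by
    rw [div_le_iff₀ hb0]
    rw [div_le_iff₀ hα0] at hbα
    linarith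
  obtain ⟨Cc, Tc, hCc, hTc3, hloc⟩ := exists_local_few hRH R hF hα'0 e2 (by linarith) e1 hα'1 hc hr
    hψ hψ00 hψle hψ1 hψ0
  obtain ⟨K1, Tf, hK1, hTf2, hfour⟩ := FM.fourth_moment_short hRH hb1 R
  set s0 : ℝ := R.F 0 ^ 4 with hs0
  have hs0p : 0 < s0 := by positivity
  set m0 : ℝ := κ / 8 * s0 with hm0
  have hm0p : 0 < m0 := by positivity
  set m1 : ℝ := m0 / r with hm1
  have hm1p : 0 < m1 := by positivity
  set μ : ℝ := m1 / (4 * K1) with hμ
  have hμ0 : 0 < μ := by positivity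
  -- the large parameters
  have hlim1 : ∀ᶠ T : ℝ in Filter.atTop, 2 ≤ T ^ (α' - 2 * R.th) :=
    (tendsto_rpow_atTop (by linarith)).eventually_ge_atTop 2
  obtain ⟨T5, hT5⟩ := Filter.eventually_atTop.mp hlim1
  refine ⟨m1 * μ / 4, max (max T1 Tc) (max (max Tf T5)
    (max (Real.exp (8 * Cc / κ)) (Cc / m0))), by positivity, fun T hT y H hy hyH hH => ?_⟩
  have hT1 : T1 ≤ T := (le_max_left _ _).trans ((le_max_left _ _).trans hT)
  have hTc : Tc ≤ T := (le_max_right _ _).trans ((le_max_left _ _).trans hT)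
  have hTf : Tf ≤ T := (le_max_left _ _).trans ((le_max_left _ _).trans ((le_max_right _ _).trans hT))
  have hT5' : T5 ≤ T := (le_max_right _ _).trans ((le_max_left _ _).trans ((le_max_right _ _).trans hT))
  have hT6 : Real.exp (8 * Cc / κ) ≤ T :=
    (le_max_left _ _).trans ((le_max_right _ _).trans ((le_max_right _ _).trans hT))
  have hT7 : Cc / m0 ≤ T :=
    (le_max_right _ _).trans ((le_max_right _ _).trans ((le_max_right _ _).trans hT))
  have hTe : Real.exp 3 ≤ T := hTc3.trans hTc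
  have h1T : 1 < T := lt_of_lt_of_le (Real.one_lt_exp_iff.mpr (by norm_num)) hTe
  have hTp : 0 < T := by linarith
  have hL3 : 3 ≤ Real.log T := by rw [Real.le_log_iff_exp_le hTp]; exact hTe
  have hL : 0 < Real.log T := by linarith
  have hp1 := hT5 T hT5'
  have hHp : 0 < H := (Real.rpow_pos_of_pos hTp _).trans_le hH
  have haH : T ^ a ≤ H := (Real.rpow_le_rpow_of_exponent_le h1T.le e3.le).trans hH
  have haT : 0 < T ^ a := Real.rpow_pos_of_pos hTp _
  -- the set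
  set w := π * c / Real.log T with hw
  set E : Set ℝ := {t : ℝ | t ∈ Icc y (y + H) ∧ zeroCount (t + w) < zeroCount (t - w) + r} with hE
  have hEI : E ⊆ Icc y (y + H) := fun t ht => ht.1
  have hEmeas : MeasurableSet E := measurableSet_Icc.inter (CW.measurableSet_few w r)
  have hEb : Bornology.IsBounded E := (Metric.isBounded_Icc _ _).subset hEI
  -- the lower bound for every centre
  have hmT := mT_few R hψc h1T.le (harith T hT1)
  have hSig : s0 ≤ Sig R T := le_Sig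
  have hcen : ∀ t0 ∈ Icc (y + T ^ a / 4) (y + H - T ^ a / 4),
      m1 ≤ ∫ t in E, (Real.log T / (T ^ α' * Real.log T)) *
        WW ((t - t0) * (Real.log T / (T ^ α' * Real.log T))) * ‖Amp R T t‖ ^ 2 := by
    intro t0 ht0
    have ht0I : t0 ∈ Icc T (2 * T) := ⟨by linarith [ht0.1], by linarith [ht0.2]⟩
    have h4 := hloc T hTc t0 ht0I E hEmeas fun t ht hv => by
      have h2 := abs_le.mp ht
      exact ⟨⟨by linarith [ht0.1, h2.1], by linarith [ht0.2, h2.2]⟩, hv⟩
    rw [DT_eq_mT h1T hp1, int_VL h1T hp1] at h4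
    have h9 : Cc / Real.log T * Sig R T ≤ κ / 8 * Sig R T := by
      apply mul_le_mul_of_nonneg_right _ (by linarith)
      have h10 : 8 * Cc / κ ≤ Real.log T := by
        rw [Real.le_log_iff_exp_le hTp]; exact hT6
      rw [div_le_iff₀ hκ] at h10
      rw [div_le_iff₀ hL]
      linarith
    have h11 : Cc / T ≤ m0 := by
      rw [div_le_iff₀ hTp]
      rwa [div_le_iff₀ hm0p, mul_comm] at hT7
    have h12 : κ / 8 * s0 ≤ κ / 8 * Sig R T := mul_le_mul_of_nonneg_left hSig (by positivity)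
    rw [hm1, div_le_iff₀ hr0, mul_comm]
    refine le_trans ?_ h4
    linarith
  have hAc := Amp_continuous R T
  have hcm := centre_mass (a := Real.log T / (T ^ α' * Real.log T)) (by positivity)
    (G := fun t => ‖Amp R T t‖ ^ 2) (by fun_prop) (fun t => by positivity) hEb
    measurableSet_Icc hm1p.le hcen
  rw [Real.volume_real_Icc_of_le (by linarith)] at hcm
  -- the fourth moment
  have hf := hfour T hTf y H (by linarith) (by linarith)
    ((Real.rpow_le_rpow_of_exponent_le h1T.le hbinv).trans hH) 0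
  simp only [sub_zero, abs_zero, add_zero, one_pow, mul_one] at hf
  have hup := fc_cs_step hHp.le hμ0 hEI hf
  have hlow : m1 * (H / 2) ≤ ∫ t in E, ‖Amp R T t‖ ^ 2 := by
    refine le_trans ?_ hcm
    gcongr
    linarith
  have e5 : μ / 2 * (K1 * H) = m1 * H / 8 := by
    rw [hμ]
    field_simp
    ring
  have h20 : m1 * H / 8 ≤ 1 / (2 * μ) * volume.real E := by
    have : 0 ≤ m1 * H := by positivity
    linarith
  have h21 : 2 * μ * (m1 * H / 8) ≤ 2 * μ * (1 / (2 * μ) * volume.real E) :=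
    mul_le_mul_of_nonneg_left h20 (by positivity)
  have h22 : 2 * μ * (1 / (2 * μ) * volume.real E) = volume.real E := by field_simp
  rw [h22] at h21
  calc m1 * μ / 4 * H = 2 * μ * (m1 * H / 8) := by ring
    _ ≤ _ := h21

/-- The Cauchy-Schwarz step with the fourth moments of the resonator and of the count. -/
lemma fc_cs_crowd {R : ResData} {T y H B D μ ν : ℝ} (hH : 0 ≤ H) (hμ : 0 < μ) (hν : 0 < ν)
    {N : ℝ → ℝ} (hN : Continuous N) {E : Set ℝ} (hEI : E ⊆ Icc y (y + H))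
    (hf : ∫ t in y..(y + H), ‖Amp R T t‖ ^ 4 ≤ B) (hg : ∫ t in y..(y + H), N t ^ 4 ≤ D) :
    ∫ t in E, ‖Amp R T t‖ ^ 2 * N t ≤ μ / 2 * B + ν / (4 * μ) * D +
      1 / (4 * μ * ν) * volume.real E := by
  have hAc := Amp_continuous R T
  have hEfin : volume E ≠ ⊤ := by
    refine ne_top_of_le_ne_top ?_ (measure_mono hEI)
    rw [Real.volume_Icc]; exact ENNReal.ofReal_ne_top
  rw [intervalIntegral.integral_of_le (by linarith), ← integral_Icc_eq_integral_Ioc] at hf hg
  have hi4 : IntegrableOn (fun t => ‖Amp R T t‖ ^ 4) (Icc y (y + H)) :=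
    (by fun_prop : Continuous fun t => ‖Amp R T t‖ ^ 4).integrableOn_Icc
  have hiN : IntegrableOn (fun t => N t ^ 4) (Icc y (y + H)) :=
    (hN.pow 4).integrableOn_Icc
  have hi2 : IntegrableOn (fun t => ‖Amp R T t‖ ^ 2 * N t) E :=
    (by fun_prop : Continuous fun t => ‖Amp R T t‖ ^ 2 * N t).integrableOn_Icc.mono_set hEI
  have hi4E := hi4.mono_set hEI
  have hiNE := hiN.mono_set hEI
  have hic : IntegrableOn (fun _ : ℝ => 1 / (4 * μ * ν)) E := integrableOn_const hEfin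
  have h5 : ∫ t in E, ‖Amp R T t‖ ^ 4 ≤ B := le_trans
    (setIntegral_mono_set hi4 (Filter.Eventually.of_forall fun t => by positivity)
      (Filter.Eventually.of_forall hEI)) hf
  have h6 : ∫ t in E, N t ^ 4 ≤ D := le_trans
    (setIntegral_mono_set hiN (Filter.Eventually.of_forall fun t => by positivity)
      (Filter.Eventually.of_forall hEI)) hg
  calc ∫ t in E, ‖Amp R T t‖ ^ 2 * N t ≤ ∫ t in E, ((μ / 2 * ‖Amp R T t‖ ^ 4 +
        ν / (4 * μ) * N t ^ 4) + 1 / (4 * μ * ν)) := by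
        refine integral_mono hi2 (((hi4E.const_mul _).add (hiNE.const_mul _)).add hic) fun t => ?_
        exact Pool.Agent.ZGap.Res.young hμ hν
    _ = μ / 2 * (∫ t in E, ‖Amp R T t‖ ^ 4) + ν / (4 * μ) * (∫ t in E, N t ^ 4) +
        1 / (4 * μ * ν) * volume.real E := by
        have i1 : IntegrableOn (fun t => μ / 2 * ‖Amp R T t‖ ^ 4) E := hi4E.const_mul _
        have i2 : IntegrableOn (fun t => ν / (4 * μ) * N t ^ 4) E := hiNE.const_mul _
        have i3 : IntegrableOn (fun t => μ / 2 * ‖Amp R T t‖ ^ 4 + ν / (4 * μ) * N t ^ 4) E :=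
          i1.add i2
        rw [integral_add i3 hic, integral_add i1 i2, integral_const_mul,
          integral_const_mul, setIntegral_const, smul_eq_mul, mul_comm (volume.real E)]
    _ ≤ _ := by
        have h7 := mul_le_mul_of_nonneg_left h5 (show 0 ≤ μ / 2 by positivity)
        have h8 := mul_le_mul_of_nonneg_left h6 (show 0 ≤ ν / (4 * μ) by positivity)
        linarith

/-- **Crowded windows have positive density in short windows**, from the arithmetic
inequality. -/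
theorem crowd_pos_of_arith (hRH : RiemannHypothesis) (R : ResData)
    (hF : ∀ x, 0 ≤ x → R.F x ≤ 1) (hF0 : 0 < R.F 0) {c κ α : ℝ} (hc : 0 < c) {r : ℕ}
    (hr : 1 ≤ r) (hα : 2 * R.th < α) (hα1 : α < 1) (hκ : 0 < κ) {ψ : ℝ → ℝ} (hψ : RS ψ)
    (hψ00 : ∀ x, 0 ≤ ψ x) (hψle : ∀ x, ψ x ≤ 1) (hψ0 : ∀ x, π * c ≤ |x| → ψ x = 0)
    (hψc : c - κ / 2 ≤ chat ψ 0 / (2 * π)) {T1 : ℝ}
    (harith : ∀ T : ℝ, T1 ≤ T → (r - c + κ) * Sig R T ≤ -((π * Real.log T)⁻¹ *
      ∑ n ∈ Finset.Icc 1 ⌊T⌋₊, ArithmeticFunction.vonMangoldt n / Real.sqrt n *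
        chat ψ (Real.log n / Real.log T) * CC R T n)) :
    ∃ c0 T0 : ℝ, 0 < c0 ∧ ∀ T : ℝ, T0 ≤ T → ∀ y H : ℝ, T ≤ y → y + H ≤ 2 * T → T ^ α ≤ H →
      c0 * H ≤ volume.real {t : ℝ | t ∈ Icc y (y + H) ∧
        zeroCount (t - π * c / Real.log T) + (r + 1) ≤ zeroCount (t + π * c / Real.log T)} := by
  have hth : 0 < R.th := by linarith [R.ep_th, R.ep_pos]
  have hα0 : 0 < α := by linarith
  have hr1 : (1:ℝ) ≤ r := by exact_mod_cast hr
  have hr0 : (0:ℝ) < r := by linarith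
  -- the exponents
  set a : ℝ := (2 * R.th + 2 * α) / 3 with ha
  set α' : ℝ := (4 * R.th + α) / 3 with hα'
  have e1 : 2 * R.th < α' := by rw [hα']; linarith
  have e2 : α' < a := by rw [hα', ha]; linarith
  have e3 : a < α := by rw [ha]; linarith
  have hα'0 : 0 < α' := by linarith
  have hα'1 : α' < 1 := by linarith
  set b : ℕ := ⌈1 / α⌉₊ with hb
  have hbα : 1 / α ≤ (b : ℝ) := Nat.le_ceil _
  have hb0 : (0 : ℝ) < b := lt_of_lt_of_le (by positivity) hbα
  have hb1 : 1 ≤ b := Nat.succ_le_of_lt (by exact_mod_cast hb0)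
  have hbinv : 1 / (b : ℝ) ≤ α := by
    rw [div_le_iff₀ hb0]
    rw [div_le_iff₀ hα0] at hbα
    linarith
  have hψA : ∀ x, |ψ x| ≤ (1 + (π * c) ^ 2) / (1 + x ^ 2) := GoodVAux.psi_bound hψ00 hψle hψ0
  obtain ⟨Cc, Tc, hCc, hTc3, hloc⟩ := exists_local_crowd hRH R hF hα'0 e2 (by linarith) e1 hα'1 hc hr
    hψ hψ00 hψle hψ0
  obtain ⟨K1, Tf, hK1, hTf2, hfour⟩ := FM.fourth_moment_short hRH hb1 R
  obtain ⟨K2, Tg, hK2, hTg3, hcount⟩ := CW.NC_moment_short hRH hb1 hψ.continuous hψ00 hψA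
  set s0 : ℝ := R.F 0 ^ 4 with hs0
  have hs0p : 0 < s0 := by positivity
  set m1 : ℝ := κ / 8 * s0 with hm1
  have hm1p : 0 < m1 := by positivity
  set μ : ℝ := m1 / (4 * K1) with hμ
  have hμ0 : 0 < μ := by positivity
  set ν : ℝ := μ * m1 / (2 * K2) with hν
  have hν0 : 0 < ν := by positivity
  -- the large parameters
  have hlim1 : ∀ᶠ T : ℝ in Filter.atTop, 2 ≤ T ^ (α' - 2 * R.th) :=
    (tendsto_rpow_atTop (by linarith)).eventually_ge_atTop 2
  obtain ⟨T5, hT5⟩ := Filter.eventually_atTop.mp hlim1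
  refine ⟨m1 * μ * ν, max (max T1 Tc) (max (max (max Tf Tg) T5)
    (max (Real.exp (8 * Cc / κ)) (Cc / m1))), by positivity, fun T hT y H hy hyH hH => ?_⟩
  have hT1 : T1 ≤ T := (le_max_left _ _).trans ((le_max_left _ _).trans hT)
  have hTc : Tc ≤ T := (le_max_right _ _).trans ((le_max_left _ _).trans hT)
  have hTfg : max Tf Tg ≤ T :=
    (le_max_left _ _).trans ((le_max_left _ _).trans ((le_max_right _ _).trans hT))
  have hTf : Tf ≤ T := (le_max_left _ _).trans hTfg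
  have hTg : Tg ≤ T := (le_max_right _ _).trans hTfg
  have hT5' : T5 ≤ T := (le_max_right _ _).trans ((le_max_left _ _).trans ((le_max_right _ _).trans hT))
  have hT6 : Real.exp (8 * Cc / κ) ≤ T :=
    (le_max_left _ _).trans ((le_max_right _ _).trans ((le_max_right _ _).trans hT))
  have hT7 : Cc / m1 ≤ T :=
    (le_max_right _ _).trans ((le_max_right _ _).trans ((le_max_right _ _).trans hT))
  have hTe : Real.exp 3 ≤ T := hTc3.trans hTc
  have h1T : 1 < T := lt_of_lt_of_le (Real.one_lt_exp_iff.mpr (by norm_num)) hTe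
  have hTp : 0 < T := by linarith
  have hL3 : 3 ≤ Real.log T := by rw [Real.le_log_iff_exp_le hTp]; exact hTe
  have hL1 : 1 ≤ Real.log T := by linarith
  have hL : 0 < Real.log T := by linarith
  have hp1 := hT5 T hT5'
  have hHp : 0 < H := (Real.rpow_pos_of_pos hTp _).trans_le hH
  have haH : T ^ a ≤ H := (Real.rpow_le_rpow_of_exponent_le h1T.le e3.le).trans hH
  have haT : 0 < T ^ a := Real.rpow_pos_of_pos hTp _
  -- the set
  set w := π * c / Real.log T with hw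
  set E : Set ℝ := {t : ℝ | t ∈ Icc y (y + H) ∧ zeroCount (t - w) + (r + 1) ≤ zeroCount (t + w)} with hE
  have hEI : E ⊆ Icc y (y + H) := fun t ht => ht.1
  have hEmeas : MeasurableSet E := measurableSet_Icc.inter (CW.measurableSet_crowd w r)
  have hEb : Bornology.IsBounded E := (Metric.isBounded_Icc _ _).subset hEI
  have hNCc : Continuous (NC ψ T) := NC_continuous hψ.continuous hψA hL1
  have hNCnn : ∀ t, 0 ≤ NC ψ T t := fun t =>
    tsum_nonneg fun ρ => mul_nonneg (Nat.cast_nonneg _) (hψ00 _)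
  -- the lower bound for every centre
  have hmT := mT_crowd R hψc h1T.le (harith T hT1)
  have hSig : s0 ≤ Sig R T := le_Sig
  have hcen : ∀ t0 ∈ Icc (y + T ^ a / 4) (y + H - T ^ a / 4),
      m1 ≤ ∫ t in E, (Real.log T / (T ^ α' * Real.log T)) *
        WW ((t - t0) * (Real.log T / (T ^ α' * Real.log T))) * (‖Amp R T t‖ ^ 2 * NC ψ T t) := by
    intro t0 ht0
    have ht0I : t0 ∈ Icc T (2 * T) := ⟨by linarith [ht0.1], by linarith [ht0.2]⟩
    have h4 := hloc T hTc t0 ht0I E hEmeas fun t ht hv => by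
      have h2 := abs_le.mp ht
      exact ⟨⟨by linarith [ht0.1, h2.1], by linarith [ht0.2, h2.2]⟩, hv⟩
    rw [DT_eq_mT h1T hp1, int_VL h1T hp1] at h4
    have h9 : Cc / Real.log T * Sig R T ≤ κ / 8 * Sig R T := by
      apply mul_le_mul_of_nonneg_right _ (by linarith)
      have h10 : 8 * Cc / κ ≤ Real.log T := by
        rw [Real.le_log_iff_exp_le hTp]; exact hT6
      rw [div_le_iff₀ hκ] at h10
      rw [div_le_iff₀ hL]
      linarith
    have h11 : Cc / T ≤ m1 := by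
      rw [div_le_iff₀ hTp]
      rwa [div_le_iff₀ hm1p, mul_comm] at hT7
    have h12 : κ / 8 * s0 ≤ κ / 8 * Sig R T := mul_le_mul_of_nonneg_left hSig (by positivity)
    refine le_trans ?_ h4
    linarith
  have hAc := Amp_continuous R T
  have hcm := centre_mass (a := Real.log T / (T ^ α' * Real.log T)) (by positivity)
    (G := fun t => ‖Amp R T t‖ ^ 2 * NC ψ T t) (by fun_prop)
    (fun t => mul_nonneg (by positivity) (hNCnn t)) hEb measurableSet_Icc hm1p.le hcen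
  rw [Real.volume_real_Icc_of_le (by linarith)] at hcm
  -- the fourth moments
  have hf := hfour T hTf y H (by linarith) (by linarith)
    ((Real.rpow_le_rpow_of_exponent_le h1T.le hbinv).trans hH) 0
  simp only [sub_zero, abs_zero, add_zero, one_pow, mul_one] at hf
  have hg := hcount T hTg y H (by linarith) (by linarith)
    ((Real.rpow_le_rpow_of_exponent_le h1T.le hbinv).trans hH)
  have hup := fc_cs_crowd hHp.le hμ0 hν0 hNCc hEI hf hg
  have hlow : m1 * (H / 2) ≤ ∫ t in E, ‖Amp R T t‖ ^ 2 * NC ψ T t := by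
    refine le_trans ?_ hcm
    gcongr
    linarith
  have e5 : μ / 2 * (K1 * H) = m1 * H / 8 := by
    rw [hμ]
    field_simp
    ring
  have e6 : ν / (4 * μ) * (K2 * H) = m1 * H / 8 := by
    rw [hν]
    field_simp
    ring
  have h20 : m1 * H / 4 ≤ 1 / (4 * μ * ν) * volume.real E := by
    have : 0 ≤ m1 * H := by positivity
    linarith
  have h21 : 4 * μ * ν * (m1 * H / 4) ≤ 4 * μ * ν * (1 / (4 * μ * ν) * volume.real E) :=
    mul_le_mul_of_nonneg_left h20 (by positivity)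
  have h22 : 4 * μ * ν * (1 / (4 * μ * ν) * volume.real E) = volume.real E := by field_simp
  rw [h22] at h21
  calc m1 * μ * ν * H = 4 * μ * ν * (m1 * H / 4) := by ring
    _ ≤ _ := h21

end Pool.Agent.RG
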