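import Pool.Agent.RG.Reduce
import Pool.Agent.ZGap.Res.VV

/-!
# General amplitude: clone of `ZGap.Res.VV`
-/

open scoped ContDiff

namespace Pool.Agent.RG

open MeasureTheory Real Set ArithmeticFunction Pool.Agent.ZGap.Res

lemma Amp_continuous (R : ResData) (T : ℝ) : Continuous (Amp R T) := by
  unfold Amp; fun_prop

lemma pr_le_of_aa_ne {R : ResData} {T : ℝ} (hT : 1 < T) {S : Finset ℕ} (hS : S ⊆ PP T)
    (h : aa R T S ≠ 0) : pr S ≤ ⌊T⌋₊ := by
  have h1 := ell_lt_of_aa_ne hT h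
  have hL : 0 < Real.log T := Real.log_pos hT
  have hth := R.th_lt
  have hpos : (0:ℝ) < pr S := by exact_mod_cast pr_pos hS
  apply Nat.le_floor
  rw [← Real.log_le_log_iff hpos (by linarith), ← ell_eq hS]
  nlinarith

/-- Number of sets with nonzero coefficient. -/
lemma card_support_le {R : ResData} {T : ℝ} (hT : 1 < T) :
    (((PP T).powerset.filter (fun S => aa R T S ≠ 0)).card : ℝ) ≤ T := by
  classical
  have h1 : ((PP T).powerset.filter (fun S => aa R T S ≠ 0)).card ≤ (Finset.Icc 1 ⌊T⌋₊).card := by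
    apply Finset.card_le_card_of_injOn pr
    · intro S hS
      rw [Finset.mem_coe, Finset.mem_filter, Finset.mem_powerset] at hS
      rw [Finset.coe_Icc, Set.mem_Icc]
      exact ⟨pr_pos hS.1, pr_le_of_aa_ne hT hS.1 hS.2⟩
    · intro S hS S' hS' he
      rw [Finset.mem_coe, Finset.mem_filter, Finset.mem_powerset] at hS hS'
      have e1 := Nat.primeFactors_prod (s := S) (fun p hp => (mem_PP.mp (hS.1 hp)).1)
      have e2 := Nat.primeFactors_prod (s := S') (fun p hp => (mem_PP.mp (hS'.1 hp)).1)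
      rw [← e1, ← e2]
      exact congrArg Nat.primeFactors he
  rw [Nat.card_Icc, Nat.add_sub_cancel] at h1
  calc _ ≤ ((⌊T⌋₊ : ℕ) : ℝ) := by exact_mod_cast h1
    _ ≤ T := Nat.floor_le (by linarith)

lemma sum_abs_aa_sq_le {R : ResData} {T : ℝ} (hT : 1 < T) (hF : ∀ x, 0 ≤ x → R.F x ≤ 1) :
    (∑ S ∈ (PP T).powerset, |aa R T S|) ^ 2 ≤ T * E0 R T := by
  classical
  have e1 : ∑ S ∈ (PP T).powerset, |aa R T S| =
      ∑ S ∈ (PP T).powerset.filter (fun S => aa R T S ≠ 0), |aa R T S| := by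
    rw [Finset.sum_filter]
    refine Finset.sum_congr rfl fun S _ => ?_
    split_ifs with h
    · rfl
    · rw [not_not.mp h, abs_zero]
  rw [e1]
  have h1 := sq_sum_le_card_mul_sum_sq (s := (PP T).powerset.filter (fun S => aa R T S ≠ 0))
    (f := fun S => |aa R T S|)
  refine h1.trans ?_
  have h2 : ∑ S ∈ (PP T).powerset.filter (fun S => aa R T S ≠ 0), |aa R T S| ^ 2 ≤ E0 R T := by
    unfold E0
    calc _ ≤ ∑ S ∈ (PP T).powerset, |aa R T S| ^ 2 :=
          Finset.sum_le_sum_of_subset_of_nonneg (Finset.filter_subset _ _)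
            fun _ _ _ => sq_nonneg _
      _ ≤ _ := by
          refine Finset.sum_le_sum fun S _ => ?_
          rw [sq_abs]
          exact aa_sq_le hT hF S
  exact mul_le_mul (card_support_le hT) h2 (Finset.sum_nonneg fun _ _ => sq_nonneg _)
    (by linarith)

/-- The trivial bound of the resonator. -/
lemma norm_Amp_le {R : ResData} {T : ℝ} (hT : 1 < T) (hF : ∀ x, 0 ≤ x → R.F x ≤ 1) (t : ℝ) :
    ‖Amp R T t‖ ≤ T * E0 R T := by
  classical
  refine le_trans ?_ (sum_abs_aa_sq_le hT hF)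
  unfold Amp
  rw [sq, Finset.sum_mul_sum]
  refine (norm_sum_le _ _).trans (Finset.sum_le_sum fun S _ => ?_)
  refine (norm_sum_le _ _).trans ?_
  calc ∑ S' ∈ (PP T \ S).powerset, ‖((aa R T S * aa R T S' : ℝ) : ℂ) *
        Complex.exp (((-(t * (ell S - ell S')) : ℝ) : ℂ) * Complex.I)‖
      = ∑ S' ∈ (PP T \ S).powerset, |aa R T S| * |aa R T S'| := by
        refine Finset.sum_congr rfl fun S' _ => ?_
        rw [norm_mul, Complex.norm_exp_ofReal_mul_I, mul_one, Complex.norm_real,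
          Real.norm_eq_abs, abs_mul]
    _ ≤ ∑ S' ∈ (PP T).powerset, |aa R T S| * |aa R T S'| := by
        apply Finset.sum_le_sum_of_subset_of_nonneg
        · exact Finset.powerset_mono.mpr Finset.sdiff_subset
        · intro _ _ _; positivity

/-- `Sig` is bounded. -/
lemma Sig_le_E1 {R : ResData} {T : ℝ} (hT : Real.exp 3 ≤ T) (hF : ∀ x, 0 ≤ x → R.F x ≤ 1) :
    Sig R T ≤ E1 R ^ 2 := by
  have h1T : 1 < T := lt_of_lt_of_le (Real.one_lt_exp_iff.mpr (by norm_num)) hT
  refine Sig_le.trans ?_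
  exact pow_le_pow_left₀ DD_nonneg ((DD_le_E0 h1T hF).trans (E0_le_E1 hT)) 2

lemma abs_fr_le {R : ResData} {T : ℝ} (hT : 1 < T) {q : Finset ℕ × Finset ℕ}
    (h : al R T q ≠ 0) : |fr q| ≤ R.th * Real.log T := by
  have h1 := ell_lt_of_aa_ne hT (left_ne_zero_of_mul h)
  have h2 := ell_lt_of_aa_ne hT (right_ne_zero_of_mul h)
  have h3 := ell_nonneg q.1
  have h4 := ell_nonneg q.2
  unfold fr
  rw [abs_le]
  constructor <;> linarith

end Pool.Agent.RG
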