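import Pool.Agent.ZShort.LargeB

/-!
# Sums of consecutive gaps: from the measure of the sparse and of the crowded centres to a
positive proportion of the indices in every block
-/

open Filter Topology Finset MeasureTheory
open Pool.Agent.Hadamard (ntz mult)
open Pool.Agent.ZetaGaps

namespace Pool.Agent.RG

/-- The sum of `r` consecutive gaps. -/
lemma sum_gap (n r : ℕ) : ∑ j ∈ Finset.range r, gap (n + j) =
    normOrdinate (n + r) - normOrdinate n := by
  induction r with
  | zero => simp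
  | succ r ih =>
    rw [Finset.sum_range_succ, ih]
    unfold gap
    rw [show n + (r + 1) = n + r + 1 by ring]
    ring

/-- Lower bound for the sum of `r` consecutive gaps. -/
lemma sum_gap_ge {n : ℕ} (hn : 1 ≤ n) (r : ℕ) :
    (ordinate (n + r) - ordinate n) * Real.log (ordinate n) ≤
      2 * Real.pi * ∑ j ∈ Finset.range r, gap (n + j) := by
  rw [sum_gap]
  have h1 := ordinate_pos (zeroCount_unbounded n) hn
  have h2 := ordinate_mono (zeroCount_unbounded (n + r)) hn (show n ≤ n + r by omega)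
  have h3 : Real.log (ordinate n) ≤ Real.log (ordinate (n + r)) := Real.log_le_log h1 h2
  have h4 : 2 * Real.pi * (normOrdinate (n + r) - normOrdinate n) =
      ordinate (n + r) * Real.log (ordinate (n + r)) -
      ordinate n * Real.log (ordinate n) := by
    unfold normOrdinate
    field_simp
  rw [h4]
  nlinarith

/-- Upper bound for the sum of `r` consecutive gaps. -/
lemma sum_gap_le {n : ℕ} (hn : 1 ≤ n) (r : ℕ) :
    2 * Real.pi * ∑ j ∈ Finset.range r, gap (n + j) ≤
      (ordinate (n + r) - ordinate n) * (Real.log (ordinate (n + r)) + 1) := by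
  rw [sum_gap]
  have h1 := ordinate_pos (zeroCount_unbounded n) hn
  have h2 := ordinate_mono (zeroCount_unbounded (n + r)) hn (show n ≤ n + r by omega)
  have h4 : 2 * Real.pi * (normOrdinate (n + r) - normOrdinate n) =
      ordinate (n + r) * Real.log (ordinate (n + r)) -
      ordinate n * Real.log (ordinate n) := by
    unfold normOrdinate
    field_simp
  rw [h4]
  have h0 : 0 < ordinate (n + r) := h1.trans_le h2
  have h5 : ordinate n * (Real.log (ordinate (n + r)) - Real.log (ordinate n)) ≤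
      ordinate (n + r) - ordinate n := by
    rw [← Real.log_div h0.ne' h1.ne']
    have h6 := Real.log_le_sub_one_of_pos (x := ordinate (n + r) / ordinate n) (by positivity)
    calc _ ≤ ordinate n * (ordinate (n + r) / ordinate n - 1) :=
          mul_le_mul_of_nonneg_left h6 h1.le
      _ = _ := by
          rw [mul_sub, mul_div_cancel₀ _ h1.ne', mul_one]
  nlinarith

/-- **Sparse centres in a window.** -/
theorem count_few_win (hRH : RiemannHypothesis) {c d κ0 K : ℝ} {r : ℕ} (hr : 1 ≤ r) (hc : 0 < c)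
    (hd : d < c) (hκ : 0 < κ0) (hK : 0 < K) :
    ∃ κ T0 : ℝ, 0 < κ ∧ ∀ T : ℝ, T0 ≤ T → ∀ y H : ℝ, T ≤ y → y + H ≤ 2 * T → 1 ≤ H →
      κ0 * H ≤ volume.real {t : ℝ | t ∈ Set.Icc y (y + H) ∧
        zeroCount (t + Real.pi * c / Real.log T) <
          zeroCount (t - Real.pi * c / Real.log T) + r} →
      volume.real {t : ℝ | t ∈ Set.Icc y (y + H) ∧
        ∀ ρ ∈ ntz, Real.pi * K / Real.log T ≤ |ρ.im - t|} ≤ κ0 / 2 * H →
      κ * (H * Real.log T) ≤
        (#{n ∈ Finset.Icc (zeroCount (y - 1)) (zeroCount (y + H + 1)) |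
          d < ∑ j ∈ Finset.range r, gap (n + j)} : ℝ) := by
  obtain ⟨T1, hT1⟩ := exists_bigT hRH
  have hpi := Real.pi_pos
  set d' := max d 0 with hd'
  have hd'c : d' < c := max_lt hd hc
  have hev : ∀ᶠ T : ℝ in atTop, c * 2 / (c - d') ≤ Real.log T ∧ Real.pi * c ≤ Real.log T :=
    (Real.tendsto_log_atTop.eventually_ge_atTop _).and
      (Real.tendsto_log_atTop.eventually_ge_atTop _)
  obtain ⟨T2, hT2⟩ := eventually_atTop.mp hev
  refine ⟨κ0 / (2 * (Real.pi * (2 * K + c))), max T1 T2, by positivity,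
    fun T hT y H hy hyH hH hV hW => ?_⟩
  obtain ⟨hT4, hL10, hcnt⟩ := hT1 T ((le_max_left _ _).trans hT)
  obtain ⟨hlogT, hpic⟩ := hT2 T ((le_max_right _ _).trans hT)
  have hT0' : 0 < T := by linarith
  set L := Real.log T with hL
  have hL0 : 0 < L := by linarith
  set R := Real.pi * K / L with hR
  have hR0 : 0 < R := by positivity
  set w := Real.pi * c / L with hw
  have hw0 : 0 < w := by positivity
  have hw1 : w ≤ 1 := by rw [hw, div_le_one hL0]; exact hpic
  set A := {n ∈ Finset.Icc (zeroCount (y - 1)) (zeroCount (y + H + 1)) |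
    d < ∑ j ∈ Finset.range r, gap (n + j)} with hA
  have hl4 : Real.log 4 ≤ 2 := by
    have : Real.log 4 = 2 * Real.log 2 := by
      rw [show (4:ℝ) = 2 ^ 2 by norm_num, Real.log_pow]; norm_num
    have := Real.log_two_lt_d9
    linarith
  have hlog4 : L - 2 ≤ Real.log (T / 4) := by
    rw [Real.log_div hT0'.ne' (by norm_num)]
    linarith
  -- covering
  have hcov : {t : ℝ | t ∈ Set.Icc y (y + H) ∧ zeroCount (t + w) < zeroCount (t - w) + r} ⊆
      {t : ℝ | t ∈ Set.Icc y (y + H) ∧ ∀ ρ ∈ ntz, R ≤ |ρ.im - t|} ∪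
      ⋃ n ∈ A, (Set.Icc (ordinate n) (ordinate n + R) ∪
        Set.Icc (ordinate (n + 1) - R) (ordinate (n + 1) + w)) := by
    rintro t ⟨⟨ht1, ht2⟩, hfew⟩
    by_cases hlong : ∀ ρ ∈ ntz, R ≤ |ρ.im - t|
    · exact Or.inl ⟨⟨ht1, ht2⟩, hlong⟩
    right
    push Not at hlong
    obtain ⟨ρ0, hρ0, hρR⟩ := hlong
    set n := zeroCount (t - w) with hn
    have hny : zeroCount (y - 1) ≤ n := zeroCount_mono (by linarith)
    have hnyH : n ≤ zeroCount (y + H + 1) := zeroCount_mono (by linarith)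
    have hn2 : zeroCount (T / 2) ≤ n := zeroCount_mono (by linarith)
    have hn1 : 1 ≤ n := by omega
    have h1 : ordinate n ≤ t - w := (le_zeroCount_iff (zeroCount_unbounded n) hn1).mp le_rfl
    have h2 : t - w < ordinate (n + 1) := by
      by_contra hcon
      push Not at hcon
      have := (le_zeroCount_iff (zeroCount_unbounded (n + 1)) (by omega)).mpr hcon
      omega
    have h2r : t + w < ordinate (n + r) := by
      by_contra hcon
      push Not at hcon
      have := (le_zeroCount_iff (zeroCount_unbounded (n + r)) (by omega)).mpr hcon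
      omega
    have h3 : T / 4 < ordinate n := by
      by_contra hcon
      push Not at hcon
      have h3a := (le_zeroCount_iff (zeroCount_unbounded n) hn1).mpr hcon
      omega
    have h6 : 2 * w < ordinate (n + r) - ordinate n := by linarith
    have h7 := sum_gap_ge hn1 r
    have h8 : L - 2 ≤ Real.log (ordinate n) :=
      hlog4.trans (Real.log_le_log (by positivity) h3.le)
    have h9 : d' < ∑ j ∈ Finset.range r, gap (n + j) := by
      have e1 : 2 * w * (L - 2) < 2 * Real.pi * ∑ j ∈ Finset.range r, gap (n + j) := by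
        refine lt_of_lt_of_le ?_ h7
        have e2 : 0 < L - 2 := by linarith
        calc 2 * w * (L - 2) < (ordinate (n + r) - ordinate n) * (L - 2) := by
              gcongr
          _ ≤ _ := by
              have : 0 ≤ ordinate (n + r) - ordinate n := by linarith
              gcongr
      have e3 : 2 * w * (L - 2) = 2 * Real.pi * (c - c * 2 / L) := by
        have e6 : L * L⁻¹ = 1 := mul_inv_cancel₀ hL0.ne'
        rw [hw, div_eq_mul_inv, div_eq_mul_inv]
        linear_combination (2 * Real.pi * c) * e6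
      rw [e3] at e1
      have e4 : c - c * 2 / L < ∑ j ∈ Finset.range r, gap (n + j) :=
        lt_of_mul_lt_mul_left e1 (by positivity)
      have e5 : c * 2 / L ≤ c - d' := by
        rw [div_le_iff₀ (by linarith)] at hlogT
        rw [div_le_iff₀ hL0]
        linarith
      linarith
    have hnA : n ∈ A := by
      rw [hA, Finset.mem_filter, Finset.mem_Icc]
      exact ⟨⟨hny, hnyH⟩, lt_of_le_of_lt (le_max_left _ _) h9⟩
    simp only [Set.mem_iUnion, exists_prop]
    refine ⟨n, hnA, ?_⟩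
    have hρ2 := abs_lt.mp hρR
    rcases le_or_gt ρ0.im (ordinate n) with h10 | h10
    · left
      exact ⟨by linarith, by linarith [hρ2.1]⟩
    · right
      have h11 := no_zero_between (zeroCount_unbounded (n + 1)) hn1 hρ0 h10
      exact ⟨by linarith [hρ2.2], by linarith⟩
  have hfinI : ∀ n : ℕ, volume (Set.Icc (ordinate n) (ordinate n + R) ∪
      Set.Icc (ordinate (n + 1) - R) (ordinate (n + 1) + w)) ≠ ⊤ := by
    intro n
    refine ne_top_of_le_ne_top ?_ (measure_union_le _ _)
    rw [Real.volume_Icc, Real.volume_Icc]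
    exact ENNReal.add_ne_top.mpr ⟨ENNReal.ofReal_ne_top, ENNReal.ofReal_ne_top⟩
  have hfinU : volume (⋃ n ∈ A, (Set.Icc (ordinate n) (ordinate n + R) ∪
      Set.Icc (ordinate (n + 1) - R) (ordinate (n + 1) + w))) ≠ ⊤ := by
    refine ne_top_of_le_ne_top ?_ (measure_biUnion_finset_le A _)
    exact ENNReal.sum_ne_top.mpr fun n _ => hfinI n
  have hfinW : volume {t : ℝ | t ∈ Set.Icc y (y + H) ∧ ∀ ρ ∈ ntz, R ≤ |ρ.im - t|} ≠ ⊤ := by
    refine ne_top_of_le_ne_top ?_ (measure_mono (t := Set.Icc y (y + H)) fun t ht => ht.1)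
    rw [Real.volume_Icc]; exact ENNReal.ofReal_ne_top
  have hmeasU : volume.real (⋃ n ∈ A, (Set.Icc (ordinate n) (ordinate n + R) ∪
      Set.Icc (ordinate (n + 1) - R) (ordinate (n + 1) + w))) ≤ #A * (2 * R + w) := by
    refine (measureReal_biUnion_finset_le A _).trans ?_
    rw [← nsmul_eq_mul]
    refine Finset.sum_le_card_nsmul _ _ _ fun n _ => ?_
    refine (measureReal_union_le _ _).trans ?_
    rw [Real.volume_real_Icc, Real.volume_real_Icc, max_eq_left (by linarith),
      max_eq_left (by linarith)]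
    linarith
  have hmain : κ0 * H ≤ κ0 / 2 * H + #A * (2 * R + w) := by
    refine hV.trans ?_
    refine (measureReal_mono hcov ?_).trans ?_
    · exact measure_union_ne_top hfinW hfinU
    · exact (measureReal_union_le _ _).trans (add_le_add hW hmeasU)
  have h1 : κ0 * H * L ≤ #A * (2 * (Real.pi * (2 * K + c))) := by
    have e1 : R * L = Real.pi * K := by
      rw [hR, div_mul_cancel₀ _ hL0.ne']
    have e1' : w * L = Real.pi * c := by
      rw [hw, div_mul_cancel₀ _ hL0.ne']
    have e2 : κ0 / 2 * H ≤ #A * (2 * R + w) := by linarith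
    have e3 : κ0 / 2 * H * L ≤ #A * (2 * R + w) * L := by gcongr
    have e4 : (#A : ℝ) * (2 * R + w) * L = #A * (Real.pi * (2 * K + c)) := by
      calc (#A : ℝ) * (2 * R + w) * L = #A * (2 * (R * L) + w * L) := by ring
        _ = _ := by rw [e1, e1']; ring
    rw [e4] at e3
    linarith
  rw [div_mul_eq_mul_div, div_le_iff₀ (by positivity)]
  linarith

/-- **Crowded centres in a window.** -/
theorem count_crowd_win (hRH : RiemannHypothesis) {c d κ0 : ℝ} {r : ℕ} (hc : 0 < c)
    (hd : c < d) (hκ : 0 < κ0) :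
    ∃ κ T0 : ℝ, 0 < κ ∧ ∀ T : ℝ, T0 ≤ T → ∀ y H : ℝ, T ≤ y → y + H ≤ 2 * T → 1 ≤ H →
      κ0 * H ≤ volume.real {t : ℝ | t ∈ Set.Icc y (y + H) ∧
        zeroCount (t - Real.pi * c / Real.log T) + (r + 1) ≤
          zeroCount (t + Real.pi * c / Real.log T)} →
      κ * (H * Real.log T) ≤
        (#{n ∈ Finset.Icc (zeroCount (y - 1)) (zeroCount (y + H + 1)) |
          ∑ j ∈ Finset.range r, gap (n + j) < d} : ℝ) := by
  obtain ⟨T1, hT1⟩ := exists_bigT hRH
  have hpi := Real.pi_pos
  have hev : ∀ᶠ T : ℝ in atTop, c * 4 / (d - c) ≤ Real.log T ∧ Real.pi * c ≤ Real.log T :=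
    (Real.tendsto_log_atTop.eventually_ge_atTop _).and
      (Real.tendsto_log_atTop.eventually_ge_atTop _)
  obtain ⟨T2, hT2⟩ := eventually_atTop.mp hev
  refine ⟨κ0 / (2 * (Real.pi * c)), max T1 T2, by positivity,
    fun T hT y H hy hyH hH hV => ?_⟩
  obtain ⟨hT4, hL10, hcnt⟩ := hT1 T ((le_max_left _ _).trans hT)
  obtain ⟨hlogT, hpic⟩ := hT2 T ((le_max_right _ _).trans hT)
  have hT0' : 0 < T := by linarith
  set L := Real.log T with hL
  have hL0 : 0 < L := by linarith
  set w := Real.pi * c / L with hw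
  have hw0 : 0 < w := by positivity
  have hw1 : w ≤ 1 := by rw [hw, div_le_one hL0]; exact hpic
  set A := {n ∈ Finset.Icc (zeroCount (y - 1)) (zeroCount (y + H + 1)) |
    ∑ j ∈ Finset.range r, gap (n + j) < d} with hA
  have hl4 : Real.log 4 ≤ 2 := by
    have : Real.log 4 = 2 * Real.log 2 := by
      rw [show (4:ℝ) = 2 ^ 2 by norm_num, Real.log_pow]; norm_num
    have := Real.log_two_lt_d9
    linarith
  have hcov : {t : ℝ | t ∈ Set.Icc y (y + H) ∧ zeroCount (t - w) + (r + 1) ≤
      zeroCount (t + w)} ⊆ ⋃ n ∈ A, Set.Icc (ordinate n - w) (ordinate n + w) := by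
    rintro t ⟨⟨ht1, ht2⟩, hcr⟩
    set n := zeroCount (t - w) + 1 with hn
    have hn1 : 1 ≤ n := by omega
    have hny : zeroCount (y - 1) ≤ zeroCount (t - w) := zeroCount_mono (by linarith)
    have hnyH : zeroCount (t + w) ≤ zeroCount (y + H + 1) := zeroCount_mono (by linarith)
    have h1 : t - w < ordinate n := by
      by_contra hcon
      push Not at hcon
      have := (le_zeroCount_iff (zeroCount_unbounded n) hn1).mpr hcon
      omega
    have h2 : ordinate (n + r) ≤ t + w :=
      (le_zeroCount_iff (zeroCount_unbounded (n + r)) (by omega)).mp (by omega)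
    have h3 := ordinate_mono (zeroCount_unbounded (n + r)) hn1 (show n ≤ n + r by omega)
    have h5 := sum_gap_le hn1 r
    have hpos := ordinate_pos (zeroCount_unbounded (n + r)) (show 1 ≤ n + r by omega)
    have h6 : Real.log (ordinate (n + r)) ≤ L + 2 := by
      have h7 : ordinate (n + r) ≤ 4 * T := by linarith
      have h8 := Real.log_le_log hpos h7
      rw [Real.log_mul (by norm_num) hT0'.ne'] at h8
      linarith
    have h9 : ∑ j ∈ Finset.range r, gap (n + j) < d := by
      have e1 : (ordinate (n + r) - ordinate n) * (Real.log (ordinate (n + r)) + 1) ≤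
          2 * w * (L + 3) := by
        have e2 : 0 ≤ ordinate (n + r) - ordinate n := by linarith
        calc _ ≤ (ordinate (n + r) - ordinate n) * (L + 3) := by
              apply mul_le_mul_of_nonneg_left (by linarith) e2
          _ ≤ _ := by
              apply mul_le_mul_of_nonneg_right (by linarith) (by linarith)
      have e4 : 2 * w * (L + 3) = 2 * Real.pi * (c + c * 3 / L) := by
        rw [hw]
        field_simp
      have e3 : ∑ j ∈ Finset.range r, gap (n + j) ≤ c + c * 3 / L := by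
        have e7 := h5.trans e1
        rw [e4] at e7
        exact le_of_mul_le_mul_left e7 (by positivity)
      have e5 : c * 4 / L ≤ d - c := by
        rw [div_le_iff₀ (by linarith)] at hlogT
        rw [div_le_iff₀ hL0]
        linarith
      have e6 : c * 3 / L < c * 4 / L := by
        apply div_lt_div_of_pos_right _ hL0
        linarith
      linarith
    simp only [Set.mem_iUnion, Set.mem_Icc, exists_prop]
    refine ⟨n, ?_, by linarith, by linarith⟩
    rw [hA, Finset.mem_filter, Finset.mem_Icc]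
    exact ⟨⟨by omega, by omega⟩, h9⟩
  have hmeas : κ0 * H ≤ A.card * (2 * w) := by
    refine hV.trans ?_
    have hfin : volume (⋃ n ∈ A, Set.Icc (ordinate n - w) (ordinate n + w)) ≠ ⊤ := by
      refine ne_top_of_le_ne_top ?_ (measure_biUnion_finset_le A _)
      refine ENNReal.sum_ne_top.mpr fun n _ => ?_
      rw [Real.volume_Icc]; exact ENNReal.ofReal_ne_top
    refine (measureReal_mono hcov hfin).trans ?_
    refine (measureReal_biUnion_finset_le A _).trans ?_
    rw [← nsmul_eq_mul, ← Finset.sum_const]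
    refine Finset.sum_le_sum fun n hn => ?_
    rw [Real.volume_real_Icc, max_eq_left (by linarith)]
    linarith
  have h1 : κ0 * (H * L) ≤ A.card * (2 * (Real.pi * c)) := by
    have hwL : w * L = Real.pi * c := by rw [hw]; exact div_mul_cancel₀ _ hL0.ne'
    have h2 : (A.card : ℝ) * (2 * w) * L = A.card * (2 * (Real.pi * c)) := by
      linear_combination (2 * (A.card : ℝ)) * hwL
    rw [← h2, ← mul_assoc]
    exact mul_le_mul_of_nonneg_right hmeas hL0.le
  rw [div_mul_eq_mul_div, div_le_iff₀ (by positivity)]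
  linarith

/-- Sparse centres in one window `[y, y + H]`, `H ≥ T ^ a`. -/
theorem few_pt (hRH : RiemannHypothesis) {a c d c0 : ℝ} {r : ℕ} (ha : 0 < a) (hr : 1 ≤ r)
    (hc : 0 < c) (hd : d < c) (hc0 : 0 < c0) :
    ∃ κ T0 : ℝ, 0 < κ ∧ ∀ T : ℝ, T0 ≤ T → ∀ y H : ℝ, T ≤ y → y + H ≤ 2 * T → T ^ a ≤ H →
      c0 * H ≤ volume.real {t : ℝ | t ∈ Set.Icc y (y + H) ∧
        zeroCount (t + Real.pi * c / Real.log T) <
          zeroCount (t - Real.pi * c / Real.log T) + r} →
      κ * (H * Real.log T) ≤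
        (#{n ∈ Finset.Icc (zeroCount (y - 1)) (zeroCount (y + H + 1)) |
          d < ∑ j ∈ Finset.range r, gap (n + j)} : ℝ) := by
  obtain ⟨b', hb'⟩ := exists_nat_ge (1 / a)
  obtain ⟨b, hb, hba⟩ : ∃ b : ℕ, 1 ≤ b ∧ 1 / (b:ℝ) ≤ a := by
    refine ⟨max b' 1, le_max_right _ _, ?_⟩
    have h2 : 1 / a ≤ ((max b' 1 : ℕ) : ℝ) := hb'.trans (by exact_mod_cast le_max_left _ _)
    exact (one_div_le ha (lt_of_lt_of_le (by positivity) h2)).mp h2
  obtain ⟨C, k0, T2, hC, -, h2⟩ := Pool.Agent.ZShort.gap_measure_short hRH hb (ε := 1) one_pos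
  obtain ⟨k, hk0, hk1, hk⟩ := Pool.Agent.ZShort.exists_k_small (c0 := c0 / 2) (by positivity) hC k0
  have hb0 : (0:ℝ) < b := by exact_mod_cast hb
  have hk0' : (0:ℝ) < k := by exact_mod_cast hk1
  obtain ⟨κ, T3, hκ, h3⟩ := count_few_win hRH hr hc hd hc0 (K := 2 * (b * k)) (by positivity)
  refine ⟨κ, max T2 (max T3 ((2:ℝ) ^ (b * k))), hκ, fun T hT y H hy hyH hH h1 => ?_⟩
  have hT2 : T2 ≤ T := (le_max_left _ _).trans hT
  have hT3 : T3 ≤ T := (le_max_left _ _).trans ((le_max_right _ _).trans hT)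
  have hT4 : (2:ℝ) ^ (b * k) ≤ T := (le_max_right _ _).trans ((le_max_right _ _).trans hT)
  have hT1' : 1 ≤ T := (one_le_pow₀ (by norm_num)).trans hT4
  have hH1 : 1 ≤ H := (Real.one_le_rpow hT1' ha.le).trans hH
  refine h3 T hT3 y H hy hyH hH1 h1 ?_
  have h4 := h2 T hT2 y H hy (by linarith)
    ((Real.rpow_le_rpow_of_exponent_le hT1' hba).trans hH) k hk0 hT4
  have e1 : Real.pi * (1 + 1) * (b * k) / Real.log T =
      Real.pi * (2 * (b * k)) / Real.log T := by ring
  rw [e1] at h4
  have e2 : {t : ℝ | t ∈ Set.Icc y (y + H) ∧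
      ∀ ρ ∈ ntz, Real.pi * (2 * (b * k)) / Real.log T ≤ |ρ.im - t|} =
      {t : ℝ | t ∈ Set.Icc y (y + H) ∧
        ∀ ρ : ntz, Real.pi * (2 * (b * k)) / Real.log T ≤ |(ρ : ℂ).im - t|} := by
    ext t
    simp only [Set.mem_ofPred_eq, Subtype.forall]
  rw [e2]
  refine h4.trans ?_
  have hH0 : 0 ≤ H := by linarith
  calc H * (C / k) ^ k ≤ H * (c0 / 2) := by gcongr
    _ = c0 / 2 * H := by ring

/-- **Sums of `r` consecutive gaps above `d < c` in every block of indices of length `N ^ a`.** -/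
theorem few_index (hRH : RiemannHypothesis) {a c d : ℝ} {r : ℕ} (ha : 0 < a) (ha1 : a ≤ 1)
    (hr : 1 ≤ r) (hc : 0 < c) (hd : d < c)
    (hvol : ∃ α < a, ∃ c0 T0 : ℝ, 0 < c0 ∧ ∀ T ≥ T0, ∀ y H : ℝ, T ≤ y → y + H ≤ 2 * T →
      T ^ α ≤ H → c0 * H ≤ volume.real {t : ℝ | t ∈ Set.Icc y (y + H) ∧
        zeroCount (t + Real.pi * c / Real.log T) <
          zeroCount (t - Real.pi * c / Real.log T) + r}) :
    ∃ κ : ℝ, 0 < κ ∧ ∃ N0 : ℕ, ∀ N M : ℕ, N0 ≤ N → (N:ℝ) ^ a ≤ M →
      κ * M ≤ (#{n ∈ Finset.Ioc N (N + M) |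
        d < ∑ j ∈ Finset.range r, gap (n + j)} : ℝ) := by
  obtain ⟨α, hα, c0, T1, hc0, h1⟩ := hvol
  obtain ⟨a', ha', hαa', ha'a⟩ : ∃ a' : ℝ, 0 < a' ∧ α ≤ a' ∧ a' < a :=
    ⟨max α (a / 2), lt_max_of_lt_right (by positivity), le_max_left _ _,
      max_lt hα (by linarith)⟩
  obtain ⟨κ, T2, hκ, h2⟩ := few_pt hRH ha' hr hc hd hc0
  obtain ⟨N0, hN0⟩ := Pool.Agent.ZShort.index_of_window_pred
    (P := fun n => d < ∑ j ∈ Finset.range r, gap (n + j)) ha' ha'a ha1 hκ
    (T1 := max (max T1 T2) 1)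
    (fun T hT y H hy hyH hH => by
      have hT1 : T1 ≤ T := (le_max_left _ _).trans ((le_max_left _ _).trans hT)
      have hT2 : T2 ≤ T := (le_max_right _ _).trans ((le_max_left _ _).trans hT)
      have hT3 : 1 ≤ T := (le_max_right _ _).trans hT
      exact h2 T hT2 y H hy hyH hH (h1 T hT1 y H hy hyH
        ((Real.rpow_le_rpow_of_exponent_le hT3 hαa').trans hH)))
  exact ⟨κ / 12, by positivity, N0, hN0⟩

/-- **Sums of `r` consecutive gaps below `d > c` in every block of indices of length `N ^ a`.** -/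
theorem crowd_index (hRH : RiemannHypothesis) {a c d : ℝ} {r : ℕ} (ha : 0 < a) (ha1 : a ≤ 1)
    (hc : 0 < c) (hd : c < d)
    (hvol : ∃ α < a, ∃ c0 T0 : ℝ, 0 < c0 ∧ ∀ T ≥ T0, ∀ y H : ℝ, T ≤ y → y + H ≤ 2 * T →
      T ^ α ≤ H → c0 * H ≤ volume.real {t : ℝ | t ∈ Set.Icc y (y + H) ∧
        zeroCount (t - Real.pi * c / Real.log T) + (r + 1) ≤
          zeroCount (t + Real.pi * c / Real.log T)}) :
    ∃ κ : ℝ, 0 < κ ∧ ∃ N0 : ℕ, ∀ N M : ℕ, N0 ≤ N → (N:ℝ) ^ a ≤ M →
      κ * M ≤ (#{n ∈ Finset.Ioc N (N + M) |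
        ∑ j ∈ Finset.range r, gap (n + j) < d} : ℝ) := by
  obtain ⟨α, hα, c0, T1, hc0, h1⟩ := hvol
  obtain ⟨a', ha', hαa', ha'a⟩ : ∃ a' : ℝ, 0 < a' ∧ α ≤ a' ∧ a' < a :=
    ⟨max α (a / 2), lt_max_of_lt_right (by positivity), le_max_left _ _,
      max_lt hα (by linarith)⟩
  obtain ⟨κ, T2, hκ, h2⟩ := count_crowd_win hRH (r := r) hc hd hc0
  obtain ⟨N0, hN0⟩ := Pool.Agent.ZShort.index_of_window_pred
    (P := fun n => ∑ j ∈ Finset.range r, gap (n + j) < d) ha' ha'a ha1 hκ
    (T1 := max (max T1 T2) 1)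
    (fun T hT y H hy hyH hH => by
      have hT1 : T1 ≤ T := (le_max_left _ _).trans ((le_max_left _ _).trans hT)
      have hT2 : T2 ≤ T := (le_max_right _ _).trans ((le_max_left _ _).trans hT)
      have hT3 : 1 ≤ T := (le_max_right _ _).trans hT
      exact h2 T hT2 y H hy hyH ((Real.one_le_rpow hT3 ha'.le).trans hH)
        (h1 T hT1 y H hy hyH ((Real.rpow_le_rpow_of_exponent_le hT3 hαa').trans hH)))
  exact ⟨κ / 12, by positivity, N0, hN0⟩

end Pool.Agent.RG
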