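import Pool.Agent.RG.BetaSi

/-!
# The gain of a constant amplitude: numerical inequalities for every number of gaps
-/

open Finset Pool.Agent.ZGap.Res

namespace Pool.Agent.RG

/-- `h` is smaller than the gain of some resonator with constant amplitude. -/
def Gain (c θ h : ℝ) : Prop := ∃ (ρ : ℝ) (m : ℕ), 0 ≤ ρ ∧ m ≠ 0 ∧
  h < 2 / Real.pi * (ρ * Pool.Agent.ZGap.Res.Num (Real.pi * c * θ) 1 0 (ρ ^ 2) m)

/-- Two terms of the sine series, amplitude one. -/
lemma gain_low {c θ h : ℝ} (hh : h < 2 * c * θ - Real.pi ^ 2 * (2 * c * θ) ^ 3 / 144) :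
    Gain c θ h := by
  refine ⟨1, 1, zero_le_one, one_ne_zero, ?_⟩
  have e : 2 / Real.pi * (1 * Pool.Agent.ZGap.Res.Num (Real.pi * c * θ) 1 0 (1 ^ 2) 1) =
      2 * c * θ - Real.pi ^ 2 * (2 * c * θ) ^ 3 / 144 := by
    have hpi := Real.pi_pos
    unfold Pool.Agent.ZGap.Res.Num sk term
    simp only [Finset.sum_range_succ, Finset.sum_range_zero, Nat.factorial, rho,
      show 2 * 1 = 2 from rfl]
    push_cast
    field_simp
    ring
  rw [e]
  exact hh

/-- Amplitude `√2`. -/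
lemma gain_mid {c θ h x : ℝ} (hc : 0 < c) (hθ : 0 < θ) (hxd : x = 2 * c * θ) (hx : 1.6 ≤ x)
    (hh : h < 0.846 * (3 - 3 * (1.0632 / x) + (1.0631 / x) ^ 2)) : Gain c θ h := by
  have hp := Real.pi_pos
  have hp1 := Real.pi_lt_d6
  have hp2 := Real.pi_gt_d6
  have hq : 0 < Real.pi * c * θ := by positivity
  have hx0 : 0 < x := by linarith
  have hqx : Real.pi * c * θ = Real.pi / 2 * x := by rw [hxd]; ring
  obtain ⟨q, hqd⟩ : ∃ q : ℝ, q = Real.pi * c * θ := ⟨_, rfl⟩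
  rw [← hqd] at hq hqx
  obtain ⟨Y, hY⟩ : ∃ Y : ℝ, Y = 1.67 / q := ⟨_, rfl⟩
  have hYx : Y * x = 3.34 / Real.pi := by
    rw [hY, hqx]; field_simp; norm_num
  have b1 : 3.34 / Real.pi ≤ 1.0632 := by rw [div_le_iff₀ hp]; linarith
  have b2 : 1.0631 ≤ 3.34 / Real.pi := by rw [le_div_iff₀ hp]; linarith
  have hY0 : 0 < Y := by rw [hY]; positivity
  have y1 : Y ≤ 1.0632 / x := by rw [le_div_iff₀ hx0, hYx]; exact b1
  have y2 : 1.0631 / x ≤ Y := by rw [div_le_iff₀ hx0, hYx]; exact b2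
  have y3 : Y ≤ 1 := by
    refine y1.trans ?_
    rw [div_le_iff₀ hx0]; linarith
  have hval : h < 0.846 * (3 - 3 * Y + Y ^ 2) := by
    refine hh.trans_le ?_
    have : (1.0631 / x) ^ 2 ≤ Y ^ 2 := by gcongr
    linarith
  have hs2 : √(2:ℝ) ^ 2 = 2 := Real.sq_sqrt (by norm_num)
  have hs0 : 0 < √(2:ℝ) := by positivity
  have hs1 : 1.41421 ≤ √(2:ℝ) := by
    apply Real.le_sqrt_of_sq_le
    norm_num
  obtain ⟨g, hg⟩ : ∃ g : ℝ, g = 0.9407 * (3 - 3 * Y + Y ^ 2) := ⟨_, rfl⟩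
  have hpos : 0 < 3 - 3 * Y + Y ^ 2 := by nlinarith
  obtain ⟨m, hm, h1⟩ := gain_closed (q := q) (M := 2) (g := g) hq (by norm_num) (by
      rw [← hY, max_eq_left (by linarith), show (2:ℝ) + 1 = ((3:ℕ):ℝ) by norm_num,
        Real.rpow_natCast, hg]
      have e : 1.69 * q * ((1 - (1 - Y) ^ 3) / ((3:ℕ):ℝ)) =
          1.69 / 3 * (Y * q) * (3 - 3 * Y + Y ^ 2) := by
        push_cast
        ring
      have e2 : Y * q = 1.67 := by rw [hY]; field_simp
      rw [e, e2]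
      apply mul_lt_mul_of_pos_right _ hpos
      norm_num)
  refine ⟨√2, m, hs0.le, hm, ?_⟩
  rw [hs2, ← hqd]
  have e7 : 0.63661 ≤ 2 / Real.pi := by
    rw [le_div_iff₀ hp]; linarith
  have hg0 : 0 < g := by rw [hg]; positivity
  calc h < 0.846 * (3 - 3 * Y + Y ^ 2) := hval
    _ ≤ 0.63661 * (1.41421 * g) := by rw [hg]; nlinarith
    _ ≤ 2 / Real.pi * (√2 * g) := by gcongr
    _ ≤ _ := by gcongr

lemma exp_num : Real.exp (-1.336) ≤ 0.2632 := by
  have h := Real.sum_le_exp_of_nonneg (x := 1.336) (by norm_num) 9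
  simp only [sum_range_succ, sum_range_zero, Nat.factorial] at h
  norm_num at h
  rw [Real.exp_neg, inv_le_comm₀ (Real.exp_pos _) (by norm_num)]
  refine le_trans ?_ (le_trans h (le_of_eq (by norm_num)))
  norm_num

lemma gain_high {c θ h : ℝ} (hc : 0 < c) (hθ : 0 < θ) (hx : 1.6 ≤ 2 * c * θ)
    (hh : h ≤ 0.99 * √(1.25 * (2 * c * θ) - 1)) : Gain c θ h := by
  have hp := Real.pi_pos
  have hp1 := Real.pi_lt_d6
  have hp2 := Real.pi_gt_d6
  have hq : 0 < Real.pi * c * θ := by positivity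
  obtain ⟨x, hxd⟩ : ∃ x : ℝ, x = 2 * c * θ := ⟨_, rfl⟩
  have hx0 : 0 < x := by rw [hxd]; positivity
  have hqx : Real.pi * c * θ = Real.pi / 2 * x := by rw [hxd]; ring
  rw [← hxd] at hx hh
  obtain ⟨q, hqd⟩ : ∃ q : ℝ, q = Real.pi * c * θ := ⟨_, rfl⟩
  rw [← hqd] at hq hqx
  have hq2 : 2.5 ≤ q := by rw [hqx]; nlinarith
  have hM : 1 ≤ 0.8 * q - 1 := by linarith
  obtain ⟨m, hm, h1⟩ := gain_closed (q := q) (M := 0.8 * q - 1) (g := 1.5564) hq hM
    (by
      have y1 : 0 ≤ 1 - 1.67 / q := by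
        rw [sub_nonneg, div_le_iff₀ hq]; linarith
      rw [max_eq_left y1, show 0.8 * q - 1 + 1 = 0.8 * q by ring]
      have y2 : (1 - 1.67 / q) ^ (0.8 * q) ≤ 0.2632 := by
        have y3 : 1 - 1.67 / q ≤ Real.exp (-(1.67 / q)) := by
          have := Real.add_one_le_exp (-(1.67 / q))
          linarith
        refine (Real.rpow_le_rpow y1 y3 (by positivity)).trans ?_
        rw [← Real.exp_mul]
        have e : -(1.67 / q) * (0.8 * q) = -1.336 := by field_simp; norm_num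
        rw [e]
        exact exp_num
      have y4 : 1.69 * q * ((1 - (1 - 1.67 / q) ^ (0.8 * q)) / (0.8 * q)) =
          2.1125 * (1 - (1 - 1.67 / q) ^ (0.8 * q)) := by
        field_simp
        ring
      rw [y4]
      linarith)
  refine ⟨√(0.8 * q - 1), m, Real.sqrt_nonneg _, hm, ?_⟩
  rw [Real.sq_sqrt (by linarith), ← hqd]
  have hs : 0 < √(1.25 * x - 1) := Real.sqrt_pos.mpr (by linarith)
  have hs2 : √(1.25 * x - 1) ≤ √(0.8 * q - 1) := by
    apply Real.sqrt_le_sqrt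
    rw [hqx]
    nlinarith
  have e7 : 0.63661 ≤ 2 / Real.pi := by
    rw [le_div_iff₀ hp]; linarith
  calc h ≤ 0.99 * √(1.25 * x - 1) := hh
    _ < 0.63661 * (√(1.25 * x - 1) * 1.5564) := by nlinarith
    _ ≤ 2 / Real.pi * (√(0.8 * q - 1) * 1.5564) := by gcongr
    _ ≤ _ := by gcongr

/-- The values of the low range. -/
lemma low_ge {x : ℝ} (h0 : 0 < x) (h1 : x ≤ 1.6) :
    0.931 * min x √x < x - Real.pi ^ 2 * x ^ 3 / 144 := by
  have hp1 := Real.pi_lt_d6
  have hp := Real.pi_pos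
  have hp2 : Real.pi ^ 2 ≤ 9.8697 := by nlinarith
  obtain ⟨s, hs⟩ : ∃ s : ℝ, s = √x := ⟨_, rfl⟩
  have hs0 : 0 < s := by rw [hs]; positivity
  have hs2 : s ^ 2 = x := by rw [hs]; exact Real.sq_sqrt h0.le
  have h3 : Real.pi ^ 2 * x ^ 3 / 144 ≤ 0.06854 * x ^ 3 := by
    have h4 : Real.pi ^ 2 * x ^ 3 ≤ 9.8697 * x ^ 3 := by gcongr
    have h5 : 0 < x ^ 3 := by positivity
    linarith
  refine lt_of_lt_of_le ?_ (sub_le_sub_left h3 _)
  rcases le_total x 1 with hx | hx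
  · have h4 : x ^ 3 ≤ x := by
      calc x ^ 3 ≤ x ^ 1 := pow_le_pow_of_le_one h0.le hx (by norm_num)
        _ = x := pow_one x
    have h5 := min_le_left x √x
    nlinarith
  · have h5 := min_le_right x √x
    refine lt_of_le_of_lt (mul_le_mul_of_nonneg_left h5 (by norm_num)) ?_
    rw [← hs, ← hs2]
    have s1 : 1 ≤ s := by nlinarith
    have s2 : s ≤ 1.265 := by
      by_contra h
      push Not at h
      nlinarith
    have k1 : 0 ≤ (s - 1) * (1.265 - s) := mul_nonneg (by linarith) (by linarith)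
    have k2 : (s ^ 2) ^ 3 = s ^ 6 := by ring
    have key : 0 < 1 * s - 0.06854 * s ^ 5 - 0.931 := by
      have k3 : s ^ 5 ≤ 1 + 8.45 * (s - 1) := by
        have k4 : 0 ≤ (s - 1) * (1.265 - s) * (s ^ 3 + 2.265 * s ^ 2 + 3.865 * s + 5.889) :=
          mul_nonneg k1 (by positivity)
        nlinarith
      nlinarith
    nlinarith

lemma low_mono {x y : ℝ} (h0 : 0 ≤ x) (hxy : x ≤ y) (h1 : y ≤ 1.6) :
    x - 0.06854 * x ^ 3 ≤ y - 0.06854 * y ^ 3 := by
  have h2 : 0 ≤ (y - x) * (1 - 0.06854 * (y ^ 2 + x * y + x ^ 2)) := by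
    apply mul_nonneg (by linarith)
    have hy0 : 0 ≤ y := h0.trans hxy
    have hx1 : x ≤ 1.6 := hxy.trans h1
    have h3 : y ^ 2 ≤ 1.6 ^ 2 := by gcongr
    have h4 : x * y ≤ 1.6 * 1.6 := by gcongr
    have h5 : x ^ 2 ≤ 1.6 ^ 2 := by gcongr
    norm_num at h3 h4 h5
    linarith
  nlinarith

lemma pi_cube {x : ℝ} (h0 : 0 < x) : x - 0.06854 * x ^ 3 ≤ x - Real.pi ^ 2 * x ^ 3 / 144 := by
  have hp1 := Real.pi_lt_d6
  have hp := Real.pi_pos
  have hp2 : Real.pi ^ 2 ≤ 9.8697 := by nlinarith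
  have h4 : Real.pi ^ 2 * x ^ 3 ≤ 9.8697 * x ^ 3 := by gcongr
  have h5 : 0 < x ^ 3 := by positivity
  linarith

/-- The values of the middle range. -/
lemma mid_ge {x : ℝ} (h1 : 1.6 ≤ x) (h2 : x ≤ 4) :
    0.94 * √x < 0.846 * (3 - 3 * (1.0632 / x) + (1.0631 / x) ^ 2) := by
  have hx : 0 < x := by linarith
  obtain ⟨s, hs⟩ : ∃ s : ℝ, s = √x := ⟨_, rfl⟩
  have hs0 : 0 < s := by
    rw [hs]; positivity
  have hs2 : s ^ 2 = x := by rw [hs]; exact Real.sq_sqrt hx.le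
  have l1 : 1.264 ≤ s := by
    by_contra h
    push Not at h
    nlinarith
  have l2 : s ≤ 2 := by
    by_contra h
    push Not at h
    nlinarith
  rw [← hs]
  refine lt_of_mul_lt_mul_right ?_ (show 0 ≤ x ^ 2 by positivity)
  have e : 0.846 * (3 - 3 * (1.0632 / x) + (1.0631 / x) ^ 2) * x ^ 2 =
      0.846 * (3 * x ^ 2 - 3 * 1.0632 * x + 1.0631 ^ 2) := by
    field_simp
  rw [e, ← hs2]
  have k1 : 0 ≤ 0.94 * s ^ 3 + 0.53016 * s ^ 2 - 0.64587776 * s - 0.74998948864 := by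
    nlinarith [mul_nonneg (mul_nonneg hs0.le hs0.le) (sub_nonneg.mpr l1)]
  have k2 : 0 ≤ (s - 1.264) * (2 - s) *
      (0.94 * s ^ 3 + 0.53016 * s ^ 2 - 0.64587776 * s - 0.74998948864) :=
    mul_nonneg (mul_nonneg (by linarith) (by linarith)) k1
  have k3 : 0.846 * (3 * (s ^ 2) ^ 2 - 3 * 1.0632 * s ^ 2 + 1.0631 ^ 2) -
      0.94 * s * (s ^ 2) ^ 2 - (s - 1.264) * (2 - s) *
      (0.94 * s ^ 3 + 0.53016 * s ^ 2 - 0.64587776 * s - 0.74998948864) ≥
      0.81518 * s - 0.94 := by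
    nlinarith
  nlinarith

/-- The values of the high range. -/
lemma high_ge {x k : ℝ} (h1 : 1.9 ≤ x) (hk : 0 ≤ k) (h : k ^ 2 ≤ 0.9801 * (1.25 * x - 1)) :
    k ≤ 0.99 * √(1.25 * x - 1) := by
  have h2 : 0 ≤ 0.99 * √(1.25 * x - 1) := by positivity
  apply (sq_le_sq₀ hk h2).mp
  rw [mul_pow, Real.sq_sqrt (by linarith)]
  linarith

/-- **Large sums**: the gain for every number of gaps. -/
theorem few_num {a r : ℝ} (ha : 0 < a) (hr : 1 ≤ r) :
    Gain (r + 0.922 * min (a * r) √(a * r)) (0.4995 * a) (0.922 * min (a * r) √(a * r)) := by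
  obtain ⟨s, hs⟩ : ∃ s : ℝ, s = √(a * r) := ⟨_, rfl⟩
  have hy : 0 < a * r := by positivity
  have hs0 : 0 < s := by rw [hs]; positivity
  have hs2 : s ^ 2 = a * r := by rw [hs]; exact Real.sq_sqrt hy.le
  rw [← hs, ← hs2]
  obtain ⟨μ, hμ⟩ : ∃ μ : ℝ, μ = min (s ^ 2) s := ⟨_, rfl⟩
  rw [← hμ]
  have hμ0 : 0 < μ := by rw [hμ]; positivity
  have hμ1 : μ ≤ s ^ 2 := by rw [hμ]; exact min_le_left _ _
  have hμ2 : μ ≤ s := by rw [hμ]; exact min_le_right _ _
  obtain ⟨x, hx⟩ : ∃ x : ℝ, x = 2 * (r + 0.922 * μ) * (0.4995 * a) := ⟨_, rfl⟩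
  have hx1 : 0.999 * s ^ 2 ≤ x := by
    rw [hx, hs2]
    have : 0 ≤ a * μ := by positivity
    nlinarith
  have hx0 : 0 < x := lt_of_lt_of_le (by positivity) hx1
  have hsx : 0.999 * s ≤ √x := by
    apply Real.le_sqrt_of_sq_le
    nlinarith
  have hc : 0 < r + 0.922 * μ := by positivity
  have hθ : 0 < 0.4995 * a := by positivity
  rcases le_total x 1.6 with h1 | h1
  · refine gain_low ?_
    rw [← hx]
    refine lt_of_le_of_lt ?_ (low_ge hx0 h1)
    have h2 : 0.999 * μ ≤ min x √x :=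
      le_min ((mul_le_mul_of_nonneg_left hμ1 (by norm_num)).trans hx1)
        ((mul_le_mul_of_nonneg_left hμ2 (by norm_num)).trans hsx)
    linarith
  · rcases le_total x 4 with h2 | h2
    · refine gain_mid hc hθ hx h1 ?_
      refine lt_of_le_of_lt ?_ (mid_ge h1 h2)
      linarith
    · refine gain_high hc hθ (by rw [← hx]; linarith) ?_
      rw [← hx]
      apply high_ge (by linarith) (by positivity)
      nlinarith

/-- **Large sums**, `a = 1`. -/
theorem few_num_one {r : ℝ} (hr : 1 ≤ r) :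
    Gain (r + 1.101 * √r) 0.4995 (1.101 * √r) := by
  obtain ⟨s, hs⟩ : ∃ s : ℝ, s = √r := ⟨_, rfl⟩
  have hs0 : 0 < s := by rw [hs]; positivity
  have hs2 : s ^ 2 = r := by rw [hs]; exact Real.sq_sqrt (by linarith)
  rw [← hs, ← hs2]
  have hs1 : 1 ≤ s := by nlinarith
  have hx : 2 * (s ^ 2 + 1.101 * s) * 0.4995 = 0.999 * (s ^ 2 + 1.101 * s) := by ring
  refine gain_high (by positivity) (by norm_num) (by rw [hx]; nlinarith) ?_
  rw [hx]
  apply high_ge (by nlinarith) (by positivity)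
  nlinarith

/-- **Small sums**: the gain for every number of gaps. -/
theorem crowd_num {a r : ℝ} (ha : 0 < a) (ha1 : a ≤ 1) (hr : 1 ≤ r) :
    Gain (r - 0.491 * min (a * r) √(a * r)) (0.4995 * a) (0.491 * min (a * r) √(a * r)) := by
  obtain ⟨s, hs⟩ : ∃ s : ℝ, s = √(a * r) := ⟨_, rfl⟩
  have hy : 0 < a * r := by positivity
  have hs0 : 0 < s := by rw [hs]; positivity
  have hs2 : s ^ 2 = a * r := by rw [hs]; exact Real.sq_sqrt hy.le
  have har : a * r ≤ r := by nlinarith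
  rw [← hs, ← hs2]
  obtain ⟨μ, hμ⟩ : ∃ μ : ℝ, μ = min (s ^ 2) s := ⟨_, rfl⟩
  rw [← hμ]
  have hμ0 : 0 < μ := by rw [hμ]; positivity
  have hμ1 : μ ≤ s ^ 2 := by rw [hμ]; exact min_le_left _ _
  have hμ2 : μ ≤ s := by rw [hμ]; exact min_le_right _ _
  obtain ⟨x, hx⟩ : ∃ x : ℝ, x = 2 * (r - 0.491 * μ) * (0.4995 * a) := ⟨_, rfl⟩
  have hx1 : 0.999 * (s ^ 2 - 0.491 * μ) ≤ x := by
    rw [hx, hs2]
    have : a * μ ≤ 1 * μ := by gcongr
    nlinarith
  have hx2 : x ≤ 0.999 * s ^ 2 := by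
    rw [hx, hs2]
    have : 0 ≤ a * μ := by positivity
    nlinarith
  have hx0 : 0 < x := by nlinarith
  have hc : 0 < r - 0.491 * μ := by nlinarith
  have hθ : 0 < 0.4995 * a := by positivity
  rcases le_total x 1.6 with h1 | h1
  · refine gain_low ?_
    rw [← hx]
    refine lt_of_lt_of_le ?_ (pi_cube hx0)
    rcases le_total s 1 with hs1 | hs1
    · -- `a r ≤ 1`
      have hx3 : 0.508 * s ^ 2 ≤ x := by nlinarith
      refine lt_of_lt_of_le ?_ (low_mono (by positivity) hx3 h1)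
      have h4 : (s ^ 2) ^ 3 ≤ s ^ 2 := by
        have : s ^ 2 ≤ 1 := by nlinarith
        calc (s ^ 2) ^ 3 ≤ (s ^ 2) ^ 1 := pow_le_pow_of_le_one (by positivity) this (by norm_num)
          _ = s ^ 2 := pow_one _
      have h5 : 0 < s ^ 2 := by positivity
      nlinarith
    · have hx3 : 0.999 * (s ^ 2 - 0.491 * s) ≤ x := by linarith
      have hx4 : 0 ≤ 0.999 * (s ^ 2 - 0.491 * s) := by nlinarith
      refine lt_of_lt_of_le ?_ (low_mono hx4 hx3 h1)
      refine lt_of_le_of_lt (mul_le_mul_of_nonneg_left hμ2 (by norm_num)) ?_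
      obtain ⟨w, hw⟩ : ∃ w : ℝ, w = 0.999 * (s - 0.491) := ⟨_, rfl⟩
      have hw0 : 0.508 ≤ w := by rw [hw]; linarith
      have e : 0.999 * (s ^ 2 - 0.491 * s) = s * w := by rw [hw]; ring
      rw [e] at hx3 hx4 ⊢
      have hsw : s * w ≤ 1.6 := hx3.trans h1
      have key : 0.491 < w * (1 - 0.06854 * (s * w) ^ 2) := by
        rcases le_total s 1.1 with h6 | h6
        · have hw1 : w ≤ 0.6085 := by rw [hw]; linarith
          have h7 : s * w ≤ 1.1 * 0.6085 := by gcongr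
          have h8 : (s * w) ^ 2 ≤ (1.1 * 0.6085) ^ 2 := by gcongr
          norm_num at h8
          nlinarith
        · have hw1 : 0.608 ≤ w := by rw [hw]; linarith
          have h8 : (s * w) ^ 2 ≤ 1.6 ^ 2 := by gcongr
          norm_num at h8
          nlinarith
      have h9 : s * w - 0.06854 * (s * w) ^ 3 = s * (w * (1 - 0.06854 * (s * w) ^ 2)) := by ring
      rw [h9]
      nlinarith
  · have hs1 : 1.26 ≤ s := by
      by_contra h
      push Not at h
      nlinarith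
    have hx3 : 0.999 * (s ^ 2 - 0.491 * s) ≤ x := by linarith
    rcases le_total x 4 with h2 | h2
    · refine gain_mid hc hθ hx h1 ?_
      refine lt_trans ?_ (mid_ge h1 h2)
      have h4 : 0.53 * s ≤ √x := by
        apply Real.le_sqrt_of_sq_le
        nlinarith
      linarith
    · refine gain_high hc hθ (by rw [← hx]; linarith) ?_
      rw [← hx]
      apply high_ge (by linarith) (by positivity)
      have h4 : (0.491 * μ) ^ 2 ≤ (0.491 * s) ^ 2 := by gcongr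
      nlinarith

end Pool.Agent.RG
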