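import Pool.Agent.RG.ConstArith
import Pool.Agent.RG.EveryNum
import Pool.Agent.ZShort.LargePos2

/-!
# Sums of `r` consecutive gaps, for every `r ≥ 1` (RH)
-/

open Filter Topology Finset MeasureTheory
open Pool.Agent.ZetaGaps

namespace Pool.Agent.RG

/-- Both forms, heights and indices, from the form for indices with a smaller exponent. -/
theorem both_forms {a a' κ : ℝ} {P : ℕ → Prop} [DecidablePred P] (h0 : 0 < a') (ha : a' < a)
    (ha1 : a ≤ 1) (hκ : 0 < κ) (h : ∃ N0 : ℕ, ∀ N M : ℕ, N0 ≤ N → (N : ℝ) ^ a' ≤ M →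
      κ * M ≤ (#{n ∈ Finset.Ioc N (N + M) | P n} : ℝ)) :
    (∃ T0 : ℝ, ∀ T H : ℝ, T0 ≤ T → T ^ a ≤ H →
      κ / 2 * ((zeroCount (T + H) : ℝ) - zeroCount T) ≤
        (#{n ∈ Finset.Ioo (zeroCount T) (zeroCount (T + H)) | P n} : ℝ)) ∧
    (∃ N0 : ℕ, ∀ N M : ℕ, N0 ≤ N → (N : ℝ) ^ a ≤ M →
      κ / 2 * M ≤ (#{n ∈ Finset.Ioc N (N + M) | P n} : ℝ)) := by
  obtain ⟨N0, h⟩ := h
  obtain ⟨T0, hT0⟩ := Pool.Agent.ZShort.height_of_index (a := a) (P := P) h0 ha ha1 hκ h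
  refine ⟨⟨T0, hT0⟩, max N0 1, fun N M hN hM => ?_⟩
  have hN0 : N0 ≤ N := (le_max_left _ _).trans hN
  have hN1 : (1:ℝ) ≤ N := by exact_mod_cast (le_max_right _ _).trans hN
  have h2 := h N M hN0 ((Real.rpow_le_rpow_of_exponent_le hN1 ha.le).trans hM)
  have h3 : κ / 2 * (M : ℝ) ≤ κ * M := by
    have : 0 ≤ κ * (M : ℝ) := by positivity
    linarith
  exact h3.trans h2

/-- The deviation upwards. -/
noncomputable def devUp (a : ℝ) (r : ℕ) : ℝ :=
  if a = 1 then 1.1 * √r else 0.92 * min (a * r) √(a * r)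

/-- The deviation downwards. -/
noncomputable def devDown (a : ℝ) (r : ℕ) : ℝ := 0.49 * min (a * r) √(a * r)

/-- Large sums of `r` consecutive gaps in blocks, every `r`. -/
theorem few_every (hRH : RiemannHypothesis) {a : ℝ} (ha : 0 < a) (ha1 : a ≤ 1) {r : ℕ}
    (hr : 1 ≤ r) : ∃ κ : ℝ, 0 < κ ∧ ∃ N0 : ℕ, ∀ N M : ℕ, N0 ≤ N → (N : ℝ) ^ (0.9995 * a) ≤ M →
      κ * M ≤ (#{n ∈ Finset.Ioc N (N + M) |
        (r : ℝ) + devUp a r < ∑ j ∈ Finset.range r, gap (n + j)} : ℝ) := by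
  have hrR : (1 : ℝ) ≤ r := by exact_mod_cast hr
  by_cases h1 : a = 1
  · obtain ⟨ρ, m, hρ, hm, hgap⟩ := few_num_one hrR
    have hs : 0 < √(r:ℝ) := Real.sqrt_pos.mpr (by linarith)
    refine few_of_gain hRH (c := r + 1.101 * √r) (θ := 0.4995) (ρ := ρ) (m := m) (by positivity)
      (by linarith) hr (by linarith) ?_ (by norm_num) (by rw [h1]; norm_num) hρ hm ?_
    · unfold devUp
      rw [if_pos h1]
      linarith
    · rw [add_sub_cancel_left]
      exact hgap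
  · obtain ⟨ρ, m, hρ, hm, hgap⟩ := few_num ha hrR
    have hμ : 0 < min (a * r) √(a * r) := by
      apply lt_min (by positivity) (Real.sqrt_pos.mpr (by positivity))
    refine few_of_gain hRH (c := r + 0.922 * min (a * r) √(a * r)) (θ := 0.4995 * a) (ρ := ρ)
      (m := m) (by positivity) (by linarith) hr (by linarith) ?_ (by positivity) (by linarith) hρ
      hm ?_
    · unfold devUp
      rw [if_neg h1]
      linarith
    · rw [add_sub_cancel_left]
      exact hgap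

/-- Small sums of `r` consecutive gaps in blocks, every `r`. -/
theorem crowd_every (hRH : RiemannHypothesis) {a : ℝ} (ha : 0 < a) (ha1 : a ≤ 1) {r : ℕ}
    (hr : 1 ≤ r) : ∃ κ : ℝ, 0 < κ ∧ ∃ N0 : ℕ, ∀ N M : ℕ, N0 ≤ N → (N : ℝ) ^ (0.9995 * a) ≤ M →
      κ * M ≤ (#{n ∈ Finset.Ioc N (N + M) |
        ∑ j ∈ Finset.range r, gap (n + j) < (r : ℝ) - devDown a r} : ℝ) := by
  have hrR : (1 : ℝ) ≤ r := by exact_mod_cast hr
  obtain ⟨ρ, m, hρ, hm, hgap⟩ := crowd_num ha ha1 hrR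
  have hμ : 0 < min (a * r) √(a * r) := by
    apply lt_min (by positivity) (Real.sqrt_pos.mpr (by positivity))
  have hμ1 : min (a * r) √(a * r) ≤ r := (min_le_left _ _).trans (by nlinarith)
  refine crowd_of_gain hRH (c := r - 0.491 * min (a * r) √(a * r)) (θ := 0.4995 * a) (ρ := ρ)
    (m := m) (by positivity) (by linarith) hr (by linarith) (by linarith) ?_ (by positivity)
    (by linarith) hρ hm ?_
  · unfold devDown
    linarith
  · rw [sub_sub_cancel]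
    exact hgap

/-- **Sums of `r` consecutive gaps in every short interval, every `r ≥ 1`** (RH). -/
theorem rgaps_every (hRH : RiemannHypothesis) {a : ℝ} (ha : 0 < a) (ha1 : a ≤ 1) {r : ℕ}
    (hr : 1 ≤ r) : ∃ κ : ℝ, 0 < κ ∧
      (∃ T0 : ℝ, ∀ T H : ℝ, T0 ≤ T → T ^ a ≤ H →
        κ * ((zeroCount (T + H) : ℝ) - zeroCount T) ≤
          (#{n ∈ Finset.Ioo (zeroCount T) (zeroCount (T + H)) |
            (r : ℝ) + devUp a r < ∑ j ∈ Finset.range r, gap (n + j)} : ℝ) ∧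
        κ * ((zeroCount (T + H) : ℝ) - zeroCount T) ≤
          (#{n ∈ Finset.Ioo (zeroCount T) (zeroCount (T + H)) |
            ∑ j ∈ Finset.range r, gap (n + j) < (r : ℝ) - devDown a r} : ℝ)) ∧
      (∃ N0 : ℕ, ∀ N M : ℕ, N0 ≤ N → (N : ℝ) ^ a ≤ M →
        κ * M ≤ (#{n ∈ Finset.Ioc N (N + M) |
          (r : ℝ) + devUp a r < ∑ j ∈ Finset.range r, gap (n + j)} : ℝ) ∧
        κ * M ≤ (#{n ∈ Finset.Ioc N (N + M) |
          ∑ j ∈ Finset.range r, gap (n + j) < (r : ℝ) - devDown a r} : ℝ)) := by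
  have h0 : 0 < 0.9995 * a := by positivity
  have h1 : 0.9995 * a < a := by linarith
  obtain ⟨κ1, hκ1, f1⟩ := few_every hRH ha ha1 hr
  obtain ⟨κ2, hκ2, f2⟩ := crowd_every hRH ha ha1 hr
  obtain ⟨⟨T1, g1⟩, N1, k1⟩ := both_forms h0 h1 ha1 hκ1 f1
  obtain ⟨⟨T2, g2⟩, N2, k2⟩ := both_forms h0 h1 ha1 hκ2 f2
  refine ⟨min (κ1 / 2) (κ2 / 2), by positivity, ⟨max T1 T2, fun T H hT hH => ?_⟩, max N1 N2,
    fun N M hN hM => ?_⟩
  · have hTT1 : T1 ≤ T := (le_max_left _ _).trans hT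
    have hTT2 : T2 ≤ T := (le_max_right _ _).trans hT
    by_cases hz : zeroCount T ≤ zeroCount (T + H)
    · have hnn : (0 : ℝ) ≤ (zeroCount (T + H) : ℝ) - zeroCount T := by
        rw [sub_nonneg]; exact_mod_cast hz
      exact ⟨(mul_le_mul_of_nonneg_right (min_le_left _ _) hnn).trans (g1 T H hTT1 hH),
        (mul_le_mul_of_nonneg_right (min_le_right _ _) hnn).trans (g2 T H hTT2 hH)⟩
    · push Not at hz
      have hneg : (zeroCount (T + H) : ℝ) - zeroCount T ≤ 0 := by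
        rw [sub_nonpos]; exact_mod_cast hz.le
      have h2 : min (κ1 / 2) (κ2 / 2) * ((zeroCount (T + H) : ℝ) - zeroCount T) ≤ 0 :=
        mul_nonpos_of_nonneg_of_nonpos (by positivity) hneg
      exact ⟨h2.trans (Nat.cast_nonneg _), h2.trans (Nat.cast_nonneg _)⟩
  · have hM0 : (0 : ℝ) ≤ M := Nat.cast_nonneg _
    exact ⟨(mul_le_mul_of_nonneg_right (min_le_left _ _) hM0).trans
      (k1 N M ((le_max_left _ _).trans hN) hM),
      (mul_le_mul_of_nonneg_right (min_le_right _ _) hM0).trans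
      (k2 N M ((le_max_right _ _).trans hN) hM)⟩

end Pool.Agent.RG
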