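import Pool.Agent.RG.SiBound

/-!
# The gain of a resonator with constant amplitude: a closed form minorant
-/

open Filter Topology Finset MeasureTheory intervalIntegral
open Pool.Agent.ZGap.Res

namespace Pool.Agent.RG

lemma cont_pow {M : ℝ} (hM : 0 ≤ M) : Continuous fun z : ℝ => (1 - z) ^ M :=
  (continuous_const.sub continuous_id).rpow_const fun _ => Or.inr hM

lemma hasDerivAt_pow1 {M : ℝ} (hM : 1 ≤ M) (z : ℝ) :
    HasDerivAt (fun z : ℝ => (1 - z) ^ M) (-(M * (1 - z) ^ (M - 1))) z := by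
  have h := ((hasDerivAt_id z).const_sub 1).rpow_const (p := M) (Or.inr hM)
  refine h.congr_deriv ?_
  simp only [id]
  ring

lemma rpow_succ1 {M z : ℝ} (hM : 0 ≤ M) (hz : z ≤ 1) : (1 - z) ^ (M + 1) = (1 - z) ^ M * (1 - z) :=
  Real.rpow_add_one' (by linarith) (by linarith)

/-- The recursion of the Beta integrals. -/
lemma beta_step {M : ℝ} (hM : 0 ≤ M) (j : ℕ) :
    (M + (j + 1) + 1) * ∫ z in (0:ℝ)..1, z ^ (j + 1) * (1 - z) ^ M =
      (j + 1) * ∫ z in (0:ℝ)..1, z ^ j * (1 - z) ^ M := by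
  have c1 := cont_pow hM
  have c2 := cont_pow (show 0 ≤ M + 1 by linarith)
  have hd : ∀ z ∈ Set.uIcc (0:ℝ) 1, HasDerivAt (fun z : ℝ => z ^ (j + 1) * (1 - z) ^ (M + 1))
      (((j:ℝ) + 1) * (z ^ j * (1 - z) ^ M) - (M + (j + 1) + 1) * (z ^ (j + 1) * (1 - z) ^ M)) z := by
    intro z hz
    rw [Set.uIcc_of_le zero_le_one] at hz
    have h1 := (hasDerivAt_pow (j + 1) z).mul (hasDerivAt_pow1 (M := M + 1) (by linarith) z)
    refine h1.congr_deriv ?_
    rw [show M + 1 - 1 = M by ring, rpow_succ1 hM hz.2]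
    push_cast
    ring
  have hi : IntervalIntegrable (fun z : ℝ => ((j:ℝ) + 1) * (z ^ j * (1 - z) ^ M) -
      (M + (j + 1) + 1) * (z ^ (j + 1) * (1 - z) ^ M)) volume 0 1 :=
    Continuous.intervalIntegrable (by fun_prop) _ _
  have h1 := intervalIntegral.integral_eq_sub_of_hasDerivAt hd hi
  rw [intervalIntegral.integral_sub (Continuous.intervalIntegrable (by fun_prop) _ _)
    (Continuous.intervalIntegrable (by fun_prop) _ _), intervalIntegral.integral_const_mul,
    intervalIntegral.integral_const_mul] at h1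
  rw [sub_self, Real.zero_rpow (by linarith), mul_zero, zero_pow (by omega), zero_mul, sub_zero]
    at h1
  linarith

lemma beta_zero {M : ℝ} (hM : 0 ≤ M) : ∫ z in (0:ℝ)..1, (1 - z) ^ M = 1 / (M + 1) := by
  have c1 := cont_pow hM
  have hd : ∀ z ∈ Set.uIcc (0:ℝ) 1, HasDerivAt (fun z : ℝ => (1 - z) ^ (M + 1))
      (-((M + 1) * (1 - z) ^ M)) z := by
    intro z _
    have h1 := hasDerivAt_pow1 (M := M + 1) (by linarith) z
    rwa [show M + 1 - 1 = M by ring] at h1
  have hi : IntervalIntegrable (fun z : ℝ => -((M + 1) * (1 - z) ^ M)) volume 0 1 :=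
    Continuous.intervalIntegrable (by fun_prop) _ _
  have h1 := intervalIntegral.integral_eq_sub_of_hasDerivAt hd hi
  rw [intervalIntegral.integral_neg, intervalIntegral.integral_const_mul, sub_self,
    Real.zero_rpow (by linarith), sub_zero, Real.one_rpow] at h1
  rw [eq_div_iff (by linarith)]
  linarith

/-- The Beta integrals. -/
lemma beta_rho {M : ℝ} (hM : 0 ≤ M) (j : ℕ) :
    ∫ z in (0:ℝ)..1, z ^ j * (1 - z) ^ M = rho M (j + 1) / (j + 1) := by
  induction j with
  | zero =>
    simp only [pow_zero, one_mul]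
    rw [beta_zero hM, rho_succ, rho_zero]
    push_cast
    ring
  | succ j ih =>
    have h := beta_step hM j
    rw [ih] at h
    rw [rho_succ]
    push_cast at h ⊢
    have h1 : (j:ℝ) + 1 ≠ 0 := by positivity
    have h2 : M + ((j:ℝ) + 1) + 1 ≠ 0 := by positivity
    have h3 : (j:ℝ) + 1 + 1 ≠ 0 := by positivity
    rw [mul_div_cancel₀ _ h1] at h
    rw [eq_div_iff h3]
    field_simp
    linarith

/-- The truncated numerator as an integral. -/
lemma Num_eq {q M : ℝ} (hM : 0 ≤ M) (m : ℕ) : Num q 1 0 M m =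
    2 * ∫ z in (0:ℝ)..1, (∑ k ∈ range (2 * m), (-1) ^ k * q ^ (2 * k + 1) / (2 * k + 1).factorial *
      z ^ (2 * k)) * (1 - z) ^ M := by
  have c1 := cont_pow hM
  have e : ∀ z : ℝ, (∑ k ∈ range (2 * m), (-1) ^ k * q ^ (2 * k + 1) / (2 * k + 1).factorial *
      z ^ (2 * k)) * (1 - z) ^ M = ∑ k ∈ range (2 * m),
      (-1) ^ k * q ^ (2 * k + 1) / (2 * k + 1).factorial * (z ^ (2 * k) * (1 - z) ^ M) := by
    intro z
    rw [sum_mul]
    exact sum_congr rfl fun k _ => by ring
  simp_rw [e]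
  rw [intervalIntegral.integral_finsetSum]
  · unfold Pool.Agent.ZGap.Res.Num
    rw [mul_sum]
    refine sum_congr rfl fun k _ => ?_
    rw [intervalIntegral.integral_const_mul, beta_rho hM]
    unfold sk term
    push_cast
    ring
  · intro k _
    exact Continuous.intervalIntegrable (by fun_prop) _ _

/-- The error of the truncation. -/
lemma taylor_err {q z : ℝ} (hq : 0 ≤ q) (hz : 0 ≤ z) (hz1 : z ≤ 1) {m : ℕ} (hm : m ≠ 0) :
    q * Real.sinc (q * z) - ∑ k ∈ range (2 * m), (-1) ^ k * q ^ (2 * k + 1) /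
      (2 * k + 1).factorial * z ^ (2 * k) ≤ q ^ (2 * (2 * m) + 1) / (2 * (2 * m) + 1).factorial := by
  have hfac : (0:ℝ) < (((2 * (2 * m) + 1).factorial : ℕ) : ℝ) := by
    exact_mod_cast Nat.factorial_pos _
  rcases hz.eq_or_lt with rfl | hz0
  · obtain ⟨n, rfl⟩ := Nat.exists_eq_succ_of_ne_zero hm
    have e : ∑ k ∈ range (2 * n.succ), (-1) ^ k * q ^ (2 * k + 1) /
      (2 * k + 1).factorial * (0:ℝ) ^ (2 * k) = q := by
      rw [show 2 * n.succ = (2 * n + 1) + 1 by omega, sum_range_succ', sum_eq_zero]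
      · simp
      · intro k _
        rw [zero_pow (by omega), mul_zero]
    rw [e, mul_zero, Real.sinc_zero]
    have : 0 ≤ q ^ (2 * (2 * n.succ) + 1) / (((2 * (2 * n.succ) + 1).factorial : ℕ) : ℝ) := by
      positivity
    linarith
  · have hqz : 0 ≤ q * z := by positivity
    have h := (alt_bounds (2 * m)).1 (q * z) hqz
    rw [pow_succ, pow_mul, neg_one_sq, one_pow, one_mul] at h
    have h1 : Real.sin (q * z) ≤ sT (2 * m) (q * z) +
        (q * z) ^ (2 * (2 * m) + 1) / (2 * (2 * m) + 1).factorial := by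
      have e : sT (2 * m + 1) (q * z) = sT (2 * m) (q * z) +
          (q * z) ^ (2 * (2 * m) + 1) / (2 * (2 * m) + 1).factorial := by
        unfold sT
        rw [sum_range_succ, pow_mul, neg_one_sq, one_pow, one_mul]
      rw [← e]; linarith
    have h2 : q * Real.sinc (q * z) * z = Real.sin (q * z) := by
      have := Pool.Agent.RG.sinc_mul (q * z)
      linarith
    have h3 : (∑ k ∈ range (2 * m), (-1) ^ k * q ^ (2 * k + 1) /
      (2 * k + 1).factorial * z ^ (2 * k)) * z = sT (2 * m) (q * z) := by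
      unfold sT
      rw [sum_mul]
      refine sum_congr rfl fun k _ => ?_
      rw [mul_pow]; ring
    have h4 : (q * z) ^ (2 * (2 * m) + 1) ≤ q ^ (2 * (2 * m) + 1) * z := by
      rw [mul_pow]
      apply mul_le_mul_of_nonneg_left _ (by positivity)
      exact pow_le_of_le_one hz hz1 (by omega)
    have h5 : (q * z) ^ (2 * (2 * m) + 1) / (((2 * (2 * m) + 1).factorial : ℕ) : ℝ) ≤
        q ^ (2 * (2 * m) + 1) / (((2 * (2 * m) + 1).factorial : ℕ) : ℝ) * z := by
      rw [div_mul_eq_mul_div]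
      exact div_le_div_of_nonneg_right h4 hfac.le
    refine le_of_mul_le_mul_right ?_ hz0
    rw [sub_mul, h2, h3]
    linarith

/-- The limit of the numerators. -/
theorem Num_ge {q M η : ℝ} (hq : 0 ≤ q) (hM : 0 ≤ M) (hη : 0 < η) : ∃ m : ℕ, m ≠ 0 ∧
    2 * (∫ z in (0:ℝ)..1, q * Real.sinc (q * z) * (1 - z) ^ M) - η ≤ Num q 1 0 M m := by
  have h1 : Tendsto (fun n : ℕ => q ^ n / (n.factorial : ℝ)) atTop (𝓝 0) :=
    FloorSemiring.tendsto_pow_div_factorial_atTop q
  obtain ⟨n0, hn0⟩ := eventually_atTop.mp (h1.eventually (gt_mem_nhds (show 0 < η / 2 by linarith)))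
  obtain ⟨m, hm⟩ : ∃ m : ℕ, m = n0 + 1 := ⟨_, rfl⟩
  have hm0 : m ≠ 0 := by omega
  refine ⟨m, hm0, ?_⟩
  have h2 := hn0 (2 * (2 * m) + 1) (by omega)
  rw [Num_eq hM]
  have c1 := cont_pow hM
  have cs := Real.continuous_sinc
  have h3 : (∫ z in (0:ℝ)..1, q * Real.sinc (q * z) * (1 - z) ^ M) -
      (∫ z in (0:ℝ)..1, (∑ k ∈ range (2 * m), (-1) ^ k * q ^ (2 * k + 1) / (2 * k + 1).factorial *
      z ^ (2 * k)) * (1 - z) ^ M) ≤ ∫ z in (0:ℝ)..1, η / 2 := by
    rw [← intervalIntegral.integral_sub (Continuous.intervalIntegrable (by fun_prop) _ _)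
      (Continuous.intervalIntegrable (by fun_prop) _ _)]
    apply intervalIntegral.integral_mono_on zero_le_one
      (Continuous.intervalIntegrable (by fun_prop) _ _)
      (Continuous.intervalIntegrable (by fun_prop) _ _)
    intro z hz
    have h4 := taylor_err hq hz.1 hz.2 hm0
    have h5 : 0 ≤ (1 - z) ^ M := Real.rpow_nonneg (by linarith [hz.2]) _
    have h6 : (1 - z) ^ M ≤ 1 := Real.rpow_le_one (by linarith [hz.2]) (by linarith [hz.1]) hM
    rw [← sub_mul]
    calc _ ≤ η / 2 * (1 - z) ^ M := mul_le_mul_of_nonneg_right (h4.trans h2.le) h5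
      _ ≤ η / 2 * 1 := mul_le_mul_of_nonneg_left h6 (by linarith)
      _ = _ := mul_one _
  rw [intervalIntegral.integral_const, sub_zero, one_smul] at h3
  linarith

/-- The closed form minorant of the integral. -/
theorem int_ge {q M : ℝ} (hq : 0 < q) (hM : 1 ≤ M) :
    0.845 * q * ((1 - (max (1 - 1.67 / q) 0) ^ (M + 1)) / (M + 1)) ≤
      ∫ z in (0:ℝ)..1, q * Real.sinc (q * z) * (1 - z) ^ M := by
  have hM0 : 0 ≤ M := by linarith
  have c1 := cont_pow hM0
  have c2 := cont_pow (show 0 ≤ M - 1 by linarith)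
  have cs := Real.continuous_sinc
  have cSi : Continuous Si := continuous_iff_continuousAt.mpr fun x => (hasDerivAt_Si x).continuousAt
  -- integration by parts
  have hp : ∫ z in (0:ℝ)..1, q * Real.sinc (q * z) * (1 - z) ^ M =
      ∫ z in (0:ℝ)..1, Si (q * z) * (M * (1 - z) ^ (M - 1)) := by
    have hd : ∀ z ∈ Set.uIcc (0:ℝ) 1, HasDerivAt (fun z : ℝ => Si (q * z) * (1 - z) ^ M)
        (q * Real.sinc (q * z) * (1 - z) ^ M - Si (q * z) * (M * (1 - z) ^ (M - 1))) z := by
      intro z _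
      have h1 : HasDerivAt (fun z : ℝ => Si (q * z)) (Real.sinc (q * z) * q) z := by
        have h0 : HasDerivAt (fun z : ℝ => q * z) q z := by
          simpa using (hasDerivAt_id z).const_mul q
        exact (hasDerivAt_Si (q * z)).comp z h0
      refine (h1.mul (hasDerivAt_pow1 hM z)).congr_deriv ?_
      ring
    have hi : IntervalIntegrable (fun z : ℝ => q * Real.sinc (q * z) * (1 - z) ^ M -
        Si (q * z) * (M * (1 - z) ^ (M - 1))) volume 0 1 :=
      Continuous.intervalIntegrable (by fun_prop) _ _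
    have h1 := intervalIntegral.integral_eq_sub_of_hasDerivAt hd hi
    rw [intervalIntegral.integral_sub (Continuous.intervalIntegrable (by fun_prop) _ _)
      (Continuous.intervalIntegrable (by fun_prop) _ _), sub_self, Real.zero_rpow (by linarith),
      mul_zero, mul_zero] at h1
    have h2 : Si 0 = 0 := by unfold Si; simp
    rw [h2, zero_mul, sub_zero] at h1
    linarith
  rw [hp]
  set Y := min (1.67 / q) 1 with hY
  have hY0 : 0 ≤ Y := le_min (by positivity) zero_le_one
  have hY1 : Y ≤ 1 := min_le_right _ _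
  have hmax : max (1 - 1.67 / q) 0 = 1 - Y := by
    rw [hY]
    rcases le_total (1.67 / q) 1 with h | h
    · rw [min_eq_left h, max_eq_left (by linarith)]
    · rw [min_eq_right h, max_eq_right (by linarith)]; ring
  rw [hmax]
  -- the value of the minorant
  have hv : ∫ z in (0:ℝ)..1, min z Y * (M * (1 - z) ^ (M - 1)) = (1 - (1 - Y) ^ (M + 1)) / (M + 1) := by
    have hc : ∀ x y : ℝ, IntervalIntegrable (fun z : ℝ => min z Y * (M * (1 - z) ^ (M - 1)))
        volume x y := fun x y => Continuous.intervalIntegrable (by fun_prop) _ _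
    rw [← intervalIntegral.integral_add_adjacent_intervals (hc 0 Y) (hc Y 1)]
    have h1 : ∫ z in (0:ℝ)..Y, min z Y * (M * (1 - z) ^ (M - 1)) =
        -(Y * (1 - Y) ^ M) - (1 - Y) ^ (M + 1) / (M + 1) + 1 / (M + 1) := by
      have e : ∫ z in (0:ℝ)..Y, min z Y * (M * (1 - z) ^ (M - 1)) =
          ∫ z in (0:ℝ)..Y, z * (M * (1 - z) ^ (M - 1)) := by
        apply intervalIntegral.integral_congr
        intro z hz
        rw [Set.uIcc_of_le hY0] at hz
        simp only
        rw [min_eq_left hz.2]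
      rw [e]
      have hd : ∀ z ∈ Set.uIcc (0:ℝ) Y, HasDerivAt
          (fun z : ℝ => -(z * (1 - z) ^ M) - (1 - z) ^ (M + 1) / (M + 1))
          (z * (M * (1 - z) ^ (M - 1))) z := by
        intro z _
        have d1 := ((hasDerivAt_id z).mul (hasDerivAt_pow1 hM z)).neg
        have d2 := (hasDerivAt_pow1 (M := M + 1) (by linarith) z).div_const (M + 1)
        refine (d1.sub d2).congr_deriv ?_
        rw [show M + 1 - 1 = M by ring]
        simp only [id]
        have : M + 1 ≠ 0 := by linarith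
        field_simp
        ring
      rw [intervalIntegral.integral_eq_sub_of_hasDerivAt hd
        (Continuous.intervalIntegrable (by fun_prop) _ _)]
      simp
    have h2 : ∫ z in Y..(1:ℝ), min z Y * (M * (1 - z) ^ (M - 1)) = Y * (1 - Y) ^ M := by
      have e : ∫ z in Y..(1:ℝ), min z Y * (M * (1 - z) ^ (M - 1)) =
          ∫ z in Y..(1:ℝ), Y * (M * (1 - z) ^ (M - 1)) := by
        apply intervalIntegral.integral_congr
        intro z hz
        rw [Set.uIcc_of_le hY1] at hz
        simp only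
        rw [min_eq_right hz.1]
      rw [e]
      have hd : ∀ z ∈ Set.uIcc Y (1:ℝ), HasDerivAt (fun z : ℝ => -(Y * (1 - z) ^ M))
          (Y * (M * (1 - z) ^ (M - 1))) z := by
        intro z _
        refine ((hasDerivAt_pow1 hM z).const_mul Y).neg.congr_deriv ?_
        ring
      rw [intervalIntegral.integral_eq_sub_of_hasDerivAt hd
        (Continuous.intervalIntegrable (by fun_prop) _ _), sub_self, Real.zero_rpow (by linarith)]
      ring
    rw [h1, h2]
    ring
  rw [← hv, ← intervalIntegral.integral_const_mul]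
  apply intervalIntegral.integral_mono_on zero_le_one
    (Continuous.intervalIntegrable (by fun_prop) _ _)
    (Continuous.intervalIntegrable (by fun_prop) _ _)
  intro z hz
  have h5 : 0 ≤ M * (1 - z) ^ (M - 1) :=
    mul_nonneg hM0 (Real.rpow_nonneg (by linarith [hz.2]) _)
  rw [← mul_assoc]
  apply mul_le_mul_of_nonneg_right _ h5
  refine le_trans ?_ (Si_ge (mul_nonneg hq.le hz.1))
  rw [mul_assoc]
  apply mul_le_mul_of_nonneg_left _ (by norm_num)
  apply le_min
  · exact mul_le_mul_of_nonneg_left (min_le_left _ _) hq.le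
  · have : min z Y ≤ 1.67 / q := (min_le_right _ _).trans (min_le_left _ _)
    calc q * min z Y ≤ q * (1.67 / q) := mul_le_mul_of_nonneg_left this hq.le
      _ = 1.67 := by field_simp

/-- **The gain.** -/
theorem gain_closed {q M g : ℝ} (hq : 0 < q) (hM : 1 ≤ M)
    (hg : g < 1.69 * q * ((1 - (max (1 - 1.67 / q) 0) ^ (M + 1)) / (M + 1))) :
    ∃ m : ℕ, m ≠ 0 ∧ g < Num q 1 0 M m := by
  obtain ⟨η, hη⟩ : ∃ η : ℝ, η = (1.69 * q * ((1 - (max (1 - 1.67 / q) 0) ^ (M + 1)) / (M + 1)) - g) / 2 :=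
    ⟨_, rfl⟩
  have hη0 : 0 < η := by rw [hη]; linarith
  obtain ⟨m, hm, h⟩ := Num_ge hq.le (by linarith : 0 ≤ M) hη0
  refine ⟨m, hm, lt_of_lt_of_le ?_ h⟩
  have := int_ge hq hM
  linarith

end Pool.Agent.RG
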