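import Pool.Agent.RG.Moments

/-!
# A Chernoff bound for the length of the resonator
-/

namespace Pool.Agent.RG

open Finset Pool.Agent.ZGap.Res

variable {R : ResData} {T : ℝ}

lemma one_add_mul_le {c e : ℝ} (hc : 0 ≤ c) (he : 1 ≤ e) :
    1 + c * e ≤ (1 + c) * Real.exp (c * (e - 1)) := by
  have h1 := Real.add_one_le_exp (c * (e - 1))
  have h2 : 0 ≤ c * (e - 1) := mul_nonneg hc (by linarith)
  calc 1 + c * e ≤ (1 + c) * (c * (e - 1) + 1) := by nlinarith
    _ ≤ _ := by gcongr

/-- **Chernoff bound** for the weights `mu`. -/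
theorem chern (hT : 1 < T) {lam : ℝ} (hlam : 0 ≤ lam) (X : ℝ) :
    ∑ U ∈ (PP T).powerset with X * Real.log T < ell U, mu R T U ≤
      Real.exp (-(lam * X) + ∑ p ∈ PP T, cc R T p ^ 2 * (Real.exp (lam * xi T p) - 1)) *
        E0 R T := by
  have hL : 0 < Real.log T := Real.log_pos hT
  have hxi : ∀ p ∈ PP T, 0 ≤ xi T p := by
    intro p hp
    have hp1 : 1 ≤ p := by
      unfold PP at hp
      rw [mem_filter, mem_Icc] at hp
      exact hp.1.1
    exact div_nonneg (Real.log_nonneg (by exact_mod_cast hp1)) hL.le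
  have h1 : ∀ U ∈ (PP T).powerset.filter (fun U => X * Real.log T < ell U), mu R T U ≤
      Real.exp (-(lam * X)) * ∏ p ∈ U, (cc R T p ^ 2 * Real.exp (lam * xi T p)) := by
    intro U hU
    rw [mem_filter] at hU
    rw [prod_mul_distrib, ← Real.exp_sum, ← mul_sum]
    have e1 : ∑ p ∈ U, xi T p = ell U / Real.log T := by
      unfold xi ell
      rw [sum_div]
    rw [e1]
    have h2 : X ≤ ell U / Real.log T := by
      rw [le_div_iff₀ hL]
      exact hU.2.le
    have h3 : 1 ≤ Real.exp (-(lam * X)) * Real.exp (lam * (ell U / Real.log T)) := by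
      rw [← Real.exp_add]
      apply Real.one_le_exp
      nlinarith [mul_le_mul_of_nonneg_left h2 hlam]
    have h4 : 0 ≤ mu R T U := mu_nonneg U
    have h5 : mu R T U = ∏ p ∈ U, cc R T p ^ 2 := rfl
    calc mu R T U ≤ mu R T U *
          (Real.exp (-(lam * X)) * Real.exp (lam * (ell U / Real.log T))) :=
          le_mul_of_one_le_right h4 h3
      _ = _ := by rw [h5]; ring
  refine (sum_le_sum h1).trans ?_
  rw [← mul_sum]
  have h2 : ∑ U ∈ (PP T).powerset.filter (fun U => X * Real.log T < ell U),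
      ∏ p ∈ U, (cc R T p ^ 2 * Real.exp (lam * xi T p)) ≤
      ∑ U ∈ (PP T).powerset, ∏ p ∈ U, (cc R T p ^ 2 * Real.exp (lam * xi T p)) :=
    sum_le_sum_of_subset_of_nonneg (filter_subset _ _)
      fun _ _ _ => prod_nonneg fun _ _ => by positivity
  have h3 : ∑ U ∈ (PP T).powerset, ∏ p ∈ U, (cc R T p ^ 2 * Real.exp (lam * xi T p)) ≤
      Real.exp (∑ p ∈ PP T, cc R T p ^ 2 * (Real.exp (lam * xi T p) - 1)) * E0 R T := by
    unfold E0 mu
    rw [← prod_one_add, ← prod_one_add, Real.exp_sum, ← prod_mul_distrib]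
    refine prod_le_prod (fun p _ => by positivity) fun p hp => ?_
    rw [mul_comm (Real.exp _)]
    refine one_add_mul_le (sq_nonneg _) (Real.one_le_exp ?_)
    exact mul_nonneg hlam (hxi p hp)
  calc _ ≤ Real.exp (-(lam * X)) *
        (Real.exp (∑ p ∈ PP T, cc R T p ^ 2 * (Real.exp (lam * xi T p) - 1)) * E0 R T) := by
        gcongr
        exact h2.trans h3
    _ = _ := by rw [Real.exp_add]; ring

end Pool.Agent.RG
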