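import Pool.Agent.RG.ConstG
import Pool.Agent.RG.FewCrowd
import Pool.Agent.RG.Index
import Pool.Agent.ZGap.Res.BumpK
import Pool.Agent.ZGap.Res.LargeFinal

/-!
# Sums of `r` consecutive gaps from a resonator with constant amplitude
-/

open Filter Topology Finset MeasureTheory
open Pool.Agent.ZetaGaps Pool.Agent.ZGap.Res

namespace Pool.Agent.RG

/-- A resonator with constant amplitude as a resonator with general amplitude. -/
noncomputable def ofConst (R : Pool.Agent.ZGap.Res.ResData) : ResData where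
  th := R.th
  ep := R.ep
  r := R.r
  f := R.f
  F := R.F
  ep_pos := R.ep_pos
  ep_th := R.ep_th
  th_lt := R.th_lt
  f_smooth := R.f_smooth
  f_le := fun x => abs_le.mpr ⟨by linarith [R.f_nonneg x], R.f_le x⟩
  f_low := R.f_low
  f_high := R.f_high
  F_smooth := R.F_smooth
  F_supp := R.F_supp
  F_nonneg := R.F_nonneg
  F_one := R.F_one

lemma Sig_ofConst (R : Pool.Agent.ZGap.Res.ResData) (T : ℝ) :
    Sig (ofConst R) T = Pool.Agent.ZGap.Res.Sig R T := rfl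

lemma CC_ofConst (R : Pool.Agent.ZGap.Res.ResData) (T : ℝ) (n : ℕ) :
    CC (ofConst R) T n = Pool.Agent.ZGap.Res.CC R T n := rfl

lemma den_one (q : ℝ) : Den 1 0 q = 1 := by
  unfold Den
  ring

/-- The arithmetic inequality with the gain of a constant amplitude. -/
theorem const_arith {G θ c ρ : ℝ} {m : ℕ} (hG : 0 ≤ G) (hm : m ≠ 0) (hθ : 0 < θ)
    (hθ' : θ < 1 / 2) (hc : 0 ≤ c) (hρ : 0 ≤ ρ)
    (hgap : G < 2 / Real.pi * (ρ * Num (Real.pi * c * θ) 1 0 (ρ ^ 2) m)) {σ : ℝ}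
    (hσ : σ = 1 ∨ σ = -1) :
    ∃ κ : ℝ, 0 < κ ∧ ∃ R : ResData, R.th = θ ∧ (∀ x, 0 ≤ x → R.F x ≤ 1) ∧ R.F 0 = 1 ∧
    ∃ e : ℝ, 0 < e ∧ ∀ (k : ℝ → ℝ) (Kk Mk : ℝ), 0 ≤ Kk → (∀ x y, |k x - k y| ≤ Kk * |x - y|) →
    (∀ x, |k x| ≤ Mk) → (∀ x, 0 ≤ x → x ≤ 1 → |k x - k0 c x| ≤ e) →
    ∃ T0 : ℝ, Real.exp 3 ≤ T0 ∧ ∀ T : ℝ, T0 ≤ T → ∀ N : ℕ, ⌊T⌋₊ ≤ N →
      (G + κ) * Sig R T ≤ σ * ((Real.pi * Real.log T)⁻¹ *
        ∑ n ∈ Finset.Icc 1 N, ArithmeticFunction.vonMangoldt n / √n *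
          k (Real.log n / Real.log T) * CC R T n) := by
  have habs : |σ * ρ| = ρ := by
    rcases hσ with h | h <;> rw [h] <;> simp [abs_of_nonneg hρ]
  have hsq : (σ * ρ) ^ 2 = ρ ^ 2 := by
    rcases hσ with h | h <;> rw [h] <;> ring
  obtain ⟨κ, hκ, e, he, main⟩ := arith_sum_G (G := G) (r := σ * ρ) (θ := θ) (c := c) (a := 1)
    (b := 0) hG hm hθ hθ'.le hc zero_le_one le_rfl (by norm_num) (by norm_num)
    (by rw [hsq, habs, den_one, mul_one]; exact hgap)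
  set ep := min e (θ / 4) with hep
  have hep0 : 0 < ep := lt_min he (by linarith)
  have hep1 : ep ≤ θ / 4 := min_le_right _ _
  set δ := min e (1 / 2) with hδ
  have hδ0 : 0 < δ := lt_min he (by norm_num)
  obtain ⟨R, hRth, hRep, hRr, hLP⟩ := exists_linProf (th := θ) (ep := ep) (δ := δ) (σ * ρ) hep0
    (by linarith) hθ' (a := 1) (b := 0) zero_le_one le_rfl (by norm_num) hδ0 (min_le_right _ _)
  refine ⟨κ, hκ, ofConst R, hRth, fun x hx => hLP.F_le_one hx, ?_, e, he,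
    fun k Kk Mk hK hlip hbd hclose => ?_⟩
  · show R.F 0 = 1
    rw [hLP.eq 0 le_rfl (by linarith [hLP.hδ'])]
    ring
  · exact main R hRr hRth (by rw [hRep]; exact min_le_left _ _) δ (min_le_left _ _) hLP k Kk Mk e σ
      hK hlip hbd he.le le_rfl hclose (by rcases hσ with h | h <;> rw [h] <;> norm_num)
      (by rcases hσ with h | h <;> rw [h] <;> simp [abs_of_nonneg hρ])

/-- **Large sums of `r` consecutive gaps in every short block** (RH), from a gain. -/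
theorem few_of_gain (hRH : RiemannHypothesis) {a c d θ ρ : ℝ} {m r : ℕ} (ha : 0 < a) (ha1 : a ≤ 1)
    (hr : 1 ≤ r) (hrc : (r : ℝ) ≤ c) (hd : d < c) (hθ : 0 < θ) (hθa : 2 * θ < a) (hρ : 0 ≤ ρ)
    (hm : m ≠ 0) (hgap : c - r < 2 / Real.pi * (ρ * Num (Real.pi * c * θ) 1 0 (ρ ^ 2) m)) :
    ∃ κ : ℝ, 0 < κ ∧ ∃ N0 : ℕ, ∀ N M : ℕ, N0 ≤ N → (N : ℝ) ^ a ≤ M →
      κ * M ≤ (#{n ∈ Finset.Ioc N (N + M) | d < ∑ j ∈ Finset.range r, gap (n + j)} : ℝ) := by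
  have hpi := Real.pi_pos
  have hrR : (1 : ℝ) ≤ r := by exact_mod_cast hr
  have hcp : 0 < c := by linarith
  obtain ⟨κ, hκ0, R, hRth, hF, hF0, e, he, hR⟩ := const_arith (σ := 1) (sub_nonneg.mpr hrc) hm hθ
    (by linarith) hcp.le hρ hgap (Or.inl rfl)
  set e' := min e (Real.pi * κ) with he'
  have he'0 : 0 < e' := lt_min he (by positivity)
  obtain ⟨ψ, hψ, hψ00, hψle, hψ1, hψ0, ⟨K, M, hK, hlip, hbd⟩, hclose⟩ := exists_majorant hcp he'0
  obtain ⟨T1, hT1, harith⟩ := hR (chat ψ) K M hK hlip hbd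
    (fun x _ _ => (hclose x).trans (min_le_left _ _))
  have hψc : chat ψ 0 / (2 * Real.pi) ≤ c + κ / 2 := by
    have h1 := (abs_le.mp (hclose 0)).2
    have h2 : k0 c 0 = 2 * (Real.pi * c) := by unfold k0; simp
    have h3 : e' ≤ Real.pi * κ := min_le_right _ _
    rw [div_le_iff₀ (by positivity)]
    rw [h2] at h1
    linarith only [h1, h3]
  obtain ⟨c1, T0, hc1, hvol⟩ := few_pos_of_arith hRH R hF (by rw [hF0]; norm_num)
    (α := (2 * θ + a) / 2) hcp hr (by rw [hRth]; linarith) (by linarith) hκ0 hψ hψ00 hψle hψ1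
    hψ0 hψc (T1 := T1) (fun T hT => by
      have h1 := harith T hT ⌊T⌋₊ le_rfl
      rw [one_mul] at h1
      exact h1)
  exact few_index hRH ha ha1 hr hcp hd ⟨(2 * θ + a) / 2, by linarith, c1, T0, hc1, hvol⟩

/-- **Small sums of `r` consecutive gaps in every short block** (RH), from a gain. -/
theorem crowd_of_gain (hRH : RiemannHypothesis) {a c d θ ρ : ℝ} {m r : ℕ} (ha : 0 < a)
    (ha1 : a ≤ 1) (hr : 1 ≤ r) (hrc : c ≤ (r : ℝ)) (hcp : 0 < c) (hd : c < d) (hθ : 0 < θ)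
    (hθa : 2 * θ < a) (hρ : 0 ≤ ρ) (hm : m ≠ 0)
    (hgap : r - c < 2 / Real.pi * (ρ * Num (Real.pi * c * θ) 1 0 (ρ ^ 2) m)) :
    ∃ κ : ℝ, 0 < κ ∧ ∃ N0 : ℕ, ∀ N M : ℕ, N0 ≤ N → (N : ℝ) ^ a ≤ M →
      κ * M ≤ (#{n ∈ Finset.Ioc N (N + M) | ∑ j ∈ Finset.range r, gap (n + j) < d} : ℝ) := by
  have hpi := Real.pi_pos
  have hrR : (1 : ℝ) ≤ r := by exact_mod_cast hr
  obtain ⟨κ, hκ0, R, hRth, hF, hF0, e, he, hR⟩ := const_arith (σ := -1) (sub_nonneg.mpr hrc) hm hθ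
    (by linarith) hcp.le hρ hgap (Or.inr rfl)
  set e' := min e (Real.pi * κ) with he'
  have he'0 : 0 < e' := lt_min he (by positivity)
  obtain ⟨ψ, hψ, hψ00, hψle, hψ0, ⟨K, M, hK, hlip, hbd⟩, hclose⟩ := exists_minorant hcp he'0
  obtain ⟨T1, hT1, harith⟩ := hR (chat ψ) K M hK hlip hbd
    (fun x _ _ => (hclose x).trans (min_le_left _ _))
  have hψc : c - κ / 2 ≤ chat ψ 0 / (2 * Real.pi) := by
    have h1 := (abs_le.mp (hclose 0)).1
    have h2 : k0 c 0 = 2 * (Real.pi * c) := by unfold k0; simp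
    have h3 : e' ≤ Real.pi * κ := min_le_right _ _
    rw [le_div_iff₀ (by positivity)]
    rw [h2] at h1
    linarith only [h1, h3]
  obtain ⟨c1, T0, hc1, hvol⟩ := crowd_pos_of_arith hRH R hF (by rw [hF0]; norm_num)
    (α := (2 * θ + a) / 2) hcp hr (by rw [hRth]; linarith) (by linarith) hκ0 hψ hψ00 hψle
    hψ0 hψc (T1 := T1) (fun T hT => by
      have h1 := harith T hT ⌊T⌋₊ le_rfl
      rw [neg_one_mul] at h1
      exact h1)
  exact crowd_index hRH ha ha1 hcp hd ⟨(2 * θ + a) / 2, by linarith, c1, T0, hc1, hvol⟩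

end Pool.Agent.RG
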