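import Pool.Agent.ZGap.Res.Arith

/-!
# The arithmetic sum of the explicit formula, with an arbitrary gain

As `main_ineq` and `arith_sum`, with a number `G` in place of the distance of `c` from `1`.
-/

namespace Pool.Agent.ZGap.Res

open MeasureTheory Finset ArithmeticFunction Filter Topology

variable {R : ResData} {T : ℝ}

/-- The main inequality, with an arbitrary gain. -/
theorem main_ineq_G {G r θ c a b : ℝ} {m : ℕ} (hG : 0 ≤ G) (hm : m ≠ 0) (hθ : 0 < θ)
    (hθ' : θ ≤ 1 / 2) (hc : 0 ≤ c)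
    (ha : 0 ≤ a) (hb : 0 ≤ b) (hab : a + b ≤ 1)
    (hgap : G * Den a b (r ^ 2) < 2 / Real.pi * (|r| * Num (Real.pi * c * θ) a b (r ^ 2) m)) :
    ∃ κ : ℝ, 0 < κ ∧ ∃ e : ℝ, 0 < e ∧ ∀ R : ResData, R.r = r → R.th = θ → R.ep ≤ e → ∀ δ ≤ e,
      LinProf R a b δ → ∀ (k : ℝ → ℝ) (Kk Mk δk σ : ℝ), 0 ≤ Kk →
      (∀ x y, |k x - k y| ≤ Kk * |x - y|) → (∀ x, |k x| ≤ Mk) → 0 ≤ δk → δk ≤ e →
      (∀ x, 0 ≤ x → x ≤ 1 → |k x - k0 c x| ≤ δk) → |σ| ≤ 1 → σ * r = |r| →
      ∃ T0 : ℝ, Real.exp 3 ≤ T0 ∧ ∀ T : ℝ, T0 ≤ T →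
        (G + κ) * DD R T ≤ 2 / Real.pi * (σ * S1 R T k) := by
  have hp := Real.pi_pos
  set y := Real.pi * c * θ with hy
  set q := r ^ 2 with hq
  have hq0 : 0 ≤ q := sq_nonneg _
  set S := ∑ k ∈ range (2 * m), |sk y k| with hS
  have hS0 : 0 ≤ S := sum_nonneg fun _ _ => abs_nonneg _
  set J : ℝ := 4 * m + 3 with hJ
  have hJ0 : 0 ≤ J := by positivity
  set A1 := |r| * (S * J * (q / θ) * 3 + 2 + 5 * (Real.pi * c) + 4 * (Real.pi * c) * (q / θ)) with hA1
  set A2 := 14 * (q / θ) with hA2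
  have hqθ : 0 ≤ q / θ := div_nonneg hq0 hθ.le
  have hpc : 0 ≤ Real.pi * c := by positivity
  have hA10 : 0 ≤ A1 := by positivity
  have hA20 : 0 ≤ A2 := by positivity
  clear_value A1 A2
  set g := 2 / Real.pi * (|r| * Num y a b q m) - G * Den a b q with hg
  have hg0 : 0 < g := by linarith
  clear_value g
  have hDen0 : 0 ≤ Den a b q := by
    unfold Den
    have := rho_nonneg hq0 1
    have := rho_nonneg hq0 2
    positivity
  set κ := g / (4 * (Den a b q + 1)) with hκ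
  have hκ0 : 0 < κ := by positivity
  clear_value κ
  have hκD : κ * Den a b q ≤ g / 4 := by
    rw [hκ, div_mul_eq_mul_div, div_le_div_iff₀ (by positivity) (by norm_num)]
    linarith
  set W := 2 / Real.pi * A1 + (G + κ) * A2 + 1 with hW
  have hW0 : 0 < W := by positivity
  clear_value W
  set e := min 1 (g / (4 * W)) with he
  have he0 : 0 < e := lt_min one_pos (by positivity)
  have he1 : e ≤ 1 := min_le_left _ _
  have heW : e * W ≤ g / 4 := by
    have : e ≤ g / (4 * W) := min_le_right _ _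
    rw [le_div_iff₀ (by positivity)] at this
    linarith
  clear_value e
  refine ⟨κ, hκ0, e, he0, fun R hRr hRth hep δ hδ hLP k Kk Mk δk σ hKk hkl hkb hδk hδk' hk hσ hσr => ?_⟩
  have hep0 := R.ep_pos
  have hδ0 := hLP.hδ
  obtain ⟨T1, hT1, h1⟩ := S1_close hLP hc hKk hkl hkb hδk hk he0
  obtain ⟨T2, hT2, h2⟩ := mom_ratio_le R (4 * m + 3) he0
  obtain ⟨T3, hT3, h3⟩ := layer R hδ0 hLP.hδ' he0
  refine ⟨max T1 (max T2 T3), hT1.trans (le_max_left _ _), fun T hT => ?_⟩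
  have t1 : T1 ≤ T := (le_max_left _ _).trans hT
  have t2 : T2 ≤ T := ((le_max_left _ _).trans (le_max_right _ _)).trans hT
  have t3 : T3 ≤ T := ((le_max_right _ _).trans (le_max_right _ _)).trans hT
  have hTe : Real.exp 3 ≤ T := hT1.trans t1
  have h1T : 1 < T := lt_of_lt_of_le (Real.one_lt_exp_iff.mpr (by norm_num)) hTe
  have a1 := h1 T t1
  have a2 := h2 T t2
  have a3 := h3 T t3
  have a4 := DD_le hLP h1T
  rw [hRr, hRth] at a1 a3
  rw [hRr, hRth] at a2
  set m0 := mom R T 0 with hm0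
  have hm0p : 1 ≤ m0 := one_le_mom h1T 0
  set E0 := q / θ * (2 * R.ep + e) with hE0
  have hE0' : E0 ≤ q / θ * (3 * e) := mul_le_mul_of_nonneg_left (by linarith) hqθ
  have hE00 : 0 ≤ E0 := by positivity
  clear_value E0 m0
  have a3' : br R T (ly δ) ≤ 4 * (q / θ) * e * m0 := by
    refine a3.trans ?_
    apply mul_le_mul_of_nonneg_right _ (by linarith)
    have h5 : θ * δ + e ≤ 2 * e := by
      have : θ * δ ≤ 1 * e := mul_le_mul (by linarith) hδ hδ0 zero_le_one
      linarith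
    have h6 := mul_le_mul_of_nonneg_left h5 hqθ
    linarith
  have hly0 : 0 ≤ br R T (ly δ) := br_nonneg h1T fun u _ => ly_nonneg δ u
  -- the lower bound of the main sum
  have b1 : Num y a b q m * m0 - S * J * E0 * m0 ≤
      br R T (fun u => pf a b u * J0 θ c a b (1 - u)) := by
    have c1 : br R T (fun u => ∑ k ∈ range (2 * m), sk y k * term a b k (fun j => tp j u)) ≤
        br R T (fun u => pf a b u * J0 θ c a b (1 - u)) :=
      br_mono h1T fun u _ => pf_J0_ge hθ hc ha hb hm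
    have c2 : br R T (fun u => ∑ k ∈ range (2 * m), sk y k * term a b k (fun j => tp j u)) =
        ∑ k ∈ range (2 * m), sk y k * term a b k (mom R T) := by
      rw [br_sum]
      refine sum_congr rfl fun k _ => ?_
      rw [br_mul, br_term]
    have c3 : Num y a b q m * m0 = ∑ k ∈ range (2 * m), sk y k *
        term a b k (fun j => rho q j * m0) := by
      unfold Num
      rw [sum_mul]
      refine sum_congr rfl fun k _ => ?_
      rw [term_mul]; ring
    have c4 : |∑ k ∈ range (2 * m), sk y k * term a b k (mom R T) -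
        ∑ k ∈ range (2 * m), sk y k * term a b k (fun j => rho q j * m0)| ≤ S * (J * E0 * m0) := by
      rw [← sum_sub_distrib, hS, sum_mul]
      refine (abs_sum_le_sum_abs _ _).trans (sum_le_sum fun k hk => ?_)
      rw [mem_range] at hk
      rw [← mul_sub, abs_mul]
      apply mul_le_mul_of_nonneg_left _ (abs_nonneg _)
      have hj : ∀ j ≤ 4 * m + 3, |mom R T j - rho q j * m0| ≤ J * E0 * m0 := by
        intro j hj
        refine (a2 j hj).trans ?_
        have : (j:ℝ) ≤ J := by rw [hJ]; exact_mod_cast hj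
        gcongr
      exact term_close ha hb hab k (hj _ (by omega)) (hj _ (by omega)) (hj _ (by omega))
    rw [c2] at c1
    rw [← c3] at c4
    rw [abs_le] at c4
    linarith [c4.1]
  -- lower bound for S1
  have b2 : (|r| * Num y a b q m - A1 * e) * m0 ≤ σ * S1 R T k := by
    set Bm := br R T (fun u => pf a b u * J0 θ c a b (1 - u)) with hBm
    have c1 : |σ * S1 R T k - |r| * Bm| ≤ |r| * ((δk + 4 * (Real.pi * c) * R.ep +
        Real.pi * c * δ + e) * m0 + Real.pi * c * br R T (ly δ)) := by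
      have c2 : σ * S1 R T k - |r| * Bm = σ * (S1 R T k - r * Bm) := by
        rw [mul_sub, ← mul_assoc σ r, hσr]
      rw [c2, abs_mul]
      exact (mul_le_of_le_one_left (abs_nonneg _) hσ).trans a1
    have c3 : |r| * ((δk + 4 * (Real.pi * c) * R.ep + Real.pi * c * δ + e) * m0 +
        Real.pi * c * br R T (ly δ)) ≤
        |r| * ((e + 4 * (Real.pi * c) * e + Real.pi * c * e + e) * m0 +
        Real.pi * c * (4 * (q / θ) * e * m0)) := by
      gcongr
    have c4 : |r| * (Num y a b q m * m0 - S * J * E0 * m0) ≤ |r| * Bm :=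
      mul_le_mul_of_nonneg_left b1 (abs_nonneg _)
    have c5 : |r| * (S * J * E0 * m0) ≤ |r| * (S * J * (q / θ * (3 * e)) * m0) := by
      gcongr
    rw [abs_le] at c1
    have c6 : (|r| * Num y a b q m - A1 * e) * m0 = |r| * (Num y a b q m * m0) -
        |r| * (S * J * (q / θ * (3 * e)) * m0) - |r| * ((e + 4 * (Real.pi * c) * e +
          Real.pi * c * e + e) * m0 + Real.pi * c * (4 * (q / θ) * e * m0)) := by
      rw [hA1]; ring
    rw [c6]
    linarith [c1.1]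
  -- upper bound for DD
  have b3 : DD R T ≤ (Den a b q + A2 * e) * m0 := by
    have d1 := a2 1 (by omega)
    have d2 := a2 2 (by omega)
    rw [abs_le] at a4 d1 d2
    have d3 : mom R T 1 ≤ rho q 1 * m0 + q / θ * (3 * e) * m0 := by
      have : E0 * m0 ≤ q / θ * (3 * e) * m0 := mul_le_mul_of_nonneg_right hE0' (by linarith)
      have := d1.2
      push_cast at this
      linarith
    have d4 : mom R T 2 ≤ rho q 2 * m0 + 2 * (q / θ * (3 * e)) * m0 := by
      have : E0 * m0 ≤ q / θ * (3 * e) * m0 := mul_le_mul_of_nonneg_right hE0' (by linarith)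
      have := d2.2
      push_cast at this
      linarith
    have d5 : 2 * a * b * mom R T 1 ≤ 2 * a * b * (rho q 1 * m0 + q / θ * (3 * e) * m0) :=
      mul_le_mul_of_nonneg_left d3 (by positivity)
    have d6 : b ^ 2 * mom R T 2 ≤ b ^ 2 * (rho q 2 * m0 + 2 * (q / θ * (3 * e)) * m0) :=
      mul_le_mul_of_nonneg_left d4 (by positivity)
    have d7 : (2 * a * b + 2 * b ^ 2) * (q / θ * (3 * e) * m0) ≤ 2 * (q / θ * (3 * e) * m0) := by
      apply mul_le_mul_of_nonneg_right _ (by positivity)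
      have : b * (a + b) ≤ 1 * 1 := mul_le_mul (by linarith) hab (by linarith) zero_le_one
      linarith
    have d8 : (Den a b q + A2 * e) * m0 = a ^ 2 * m0 + 2 * a * b * (rho q 1 * m0) +
        b ^ 2 * (rho q 2 * m0) + 14 * (q / θ) * e * m0 := by
      rw [hA2]; unfold Den; ring
    rw [d8]
    linarith [a4.2]
  have b4 : 2 / Real.pi * ((|r| * Num y a b q m - A1 * e) * m0) ≤ 2 / Real.pi * (σ * S1 R T k) :=
    mul_le_mul_of_nonneg_left b2 (by positivity)
  have b5 : (G + κ) * DD R T ≤ (G + κ) * ((Den a b q + A2 * e) * m0) :=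
    mul_le_mul_of_nonneg_left b3 (by positivity)
  refine b5.trans (le_trans ?_ b4)
  have b6 : (G + κ) * (Den a b q + A2 * e) ≤
      2 / Real.pi * (|r| * Num y a b q m - A1 * e) := by
    have f1 : e * (2 / Real.pi * A1 + (G + κ) * A2) ≤ g / 4 := by
      have : e * W = e * (2 / Real.pi * A1 + (G + κ) * A2) + e := by rw [hW]; ring
      linarith
    have f2 : 2 / Real.pi * (|r| * Num y a b q m) = g + G * Den a b q := by rw [hg]; ring
    have f3 : 2 / Real.pi * (|r| * Num y a b q m - A1 * e) =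
        g + G * Den a b q - 2 / Real.pi * A1 * e := by rw [← f2]; ring
    rw [f3]
    linarith
  calc _ = (G + κ) * (Den a b q + A2 * e) * m0 := by ring
    _ ≤ 2 / Real.pi * (|r| * Num y a b q m - A1 * e) * m0 :=
        mul_le_mul_of_nonneg_right b6 (by linarith)
    _ = _ := by ring


/-- The sum over prime powers is at least `(G + κ) Sig`, up to the sign. -/
theorem arith_sum_G {G r θ c a b : ℝ} {m : ℕ} (hG : 0 ≤ G) (hm : m ≠ 0) (hθ : 0 < θ)
    (hθ' : θ ≤ 1 / 2) (hc : 0 ≤ c)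
    (ha : 0 ≤ a) (hb : 0 ≤ b) (hab : a + b ≤ 1) (h0 : 0 < a + b)
    (hgap : G * Den a b (r ^ 2) < 2 / Real.pi * (|r| * Num (Real.pi * c * θ) a b (r ^ 2) m)) :
    ∃ κ : ℝ, 0 < κ ∧ ∃ e : ℝ, 0 < e ∧ ∀ R : ResData, R.r = r → R.th = θ → R.ep ≤ e → ∀ δ ≤ e,
      LinProf R a b δ → ∀ (k : ℝ → ℝ) (Kk Mk δk σ : ℝ), 0 ≤ Kk →
      (∀ x y, |k x - k y| ≤ Kk * |x - y|) → (∀ x, |k x| ≤ Mk) → 0 ≤ δk → δk ≤ e →
      (∀ x, 0 ≤ x → x ≤ 1 → |k x - k0 c x| ≤ δk) → |σ| ≤ 1 → σ * r = |r| →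
      ∃ T0 : ℝ, Real.exp 3 ≤ T0 ∧ ∀ T : ℝ, T0 ≤ T → ∀ N : ℕ, ⌊T⌋₊ ≤ N →
        (G + κ) * Sig R T ≤ σ * ((Real.pi * Real.log T)⁻¹ *
          ∑ n ∈ Finset.Icc 1 N, vonMangoldt n / Real.sqrt n * k (Real.log n / Real.log T) *
            CC R T n) := by
  obtain ⟨κ, hκ, e, he, main⟩ := main_ineq_G hG hm hθ hθ' hc ha hb hab hgap
  refine ⟨κ / 2, half_pos hκ, e, he, fun R hRr hRth hep δ hδ hLP k Kk Mk δk σ hKk hkl hkb hδk hδk'
    hk hσ hσr => ?_⟩
  obtain ⟨T1, hT1, h1⟩ := main R hRr hRth hep δ hδ hLP k Kk Mk δk σ hKk hkl hkb hδk hδk' hk hσ hσr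
  have hp := Real.pi_pos
  have hep0 := R.ep_pos
  have hMk : 0 ≤ Mk := (abs_nonneg _).trans (hkb 0)
  have hF : ∀ x, 0 ≤ x → R.F x ≤ 1 := fun x hx => hLP.F_le_one hx
  have hF0 : R.F 0 = a + b := by
    have := hLP.eq 0 le_rfl (by linarith [hLP.hδ'])
    rw [this]; ring
  -- the error constant
  set X : ℝ := (Mk * R.r ^ 2 * E1 R ^ 2 * 3 + 2 * Mk * |R.r| * E1 R ^ 2 *
    (R.r ^ 2 * (3 * (R.r ^ 2 / R.ep)) + R.r ^ 2) * 3) / Real.pi with hX
  have hE1 := E1_pos (R := R)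
  have hX0 : 0 ≤ X := by positivity
  have ev : ∀ᶠ T : ℝ in atTop, X * T ^ (-R.ep) ≤ κ / 2 * R.F 0 ^ 4 := by
    have b1 : Tendsto (fun T : ℝ => T ^ (-R.ep)) atTop (𝓝 0) := tendsto_rpow_neg_atTop hep0
    have b2 := b1.const_mul X
    rw [mul_zero] at b2
    exact b2.eventually (ge_mem_nhds (by rw [hF0]; positivity))
  obtain ⟨T2, hT2⟩ := eventually_atTop.mp ev
  refine ⟨max T1 T2, hT1.trans (le_max_left _ _), fun T hT N hN => ?_⟩
  have t1 : T1 ≤ T := (le_max_left _ _).trans hT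
  have t2 := hT2 T ((le_max_right _ _).trans hT)
  have hTe : Real.exp 3 ≤ T := hT1.trans t1
  have h1T : 1 < T := lt_of_lt_of_le (Real.one_lt_exp_iff.mpr (by norm_num)) hTe
  have hL : 0 < Real.log T := Real.log_pos h1T
  have a1 := h1 T t1
  have a2 := nonprime_part hTe hF hkb N
  have a3 := prime_part hTe hF hkb hN
  have a4 := Sig_le (R := R) (T := T)
  have a5 := le_Sig (R := R) (T := T)
  have a6 := DD_nonneg (R := R) (T := T)
  set Sp := ∑ n ∈ (Icc 1 N).filter Nat.Prime, vonMangoldt n / Real.sqrt n *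
      k (Real.log n / Real.log T) * CC R T n with hSp
  set Sn := ∑ n ∈ (Icc 1 N).filter (fun n => ¬ n.Prime), vonMangoldt n / Real.sqrt n *
      k (Real.log n / Real.log T) * CC R T n with hSn
  have e1 : ∑ n ∈ Finset.Icc 1 N, vonMangoldt n / Real.sqrt n * k (Real.log n / Real.log T) *
      CC R T n = Sp + Sn := (sum_filter_add_sum_filter_not _ _ _).symm
  rw [e1]
  have e2 : (Real.pi * Real.log T)⁻¹ * (Mk * (R.r ^ 2 * T ^ (-R.ep)) * E1 R ^ 2 *
      (3 * Real.log T) + 2 * Mk * |R.r| * E1 R ^ 2 * (R.r ^ 2 * T ^ (-R.ep) *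
        (3 * (R.r ^ 2 / R.ep)) + R.r ^ 2 * T ^ (-R.ep)) * (3 * Real.log T)) =
      X * T ^ (-R.ep) := by
    rw [hX]
    field_simp
  have a7 : |Sp + Sn - 2 * Real.log T * (DD R T * S1 R T k)| ≤
      Mk * (R.r ^ 2 * T ^ (-R.ep)) * E1 R ^ 2 *
      (3 * Real.log T) + 2 * Mk * |R.r| * E1 R ^ 2 * (R.r ^ 2 * T ^ (-R.ep) *
        (3 * (R.r ^ 2 / R.ep)) + R.r ^ 2 * T ^ (-R.ep)) * (3 * Real.log T) := by
    have e3 : Sp + Sn - 2 * Real.log T * (DD R T * S1 R T k) =
      Sn + (Sp - 2 * Real.log T * (DD R T * S1 R T k)) := by ring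
    rw [e3]
    exact (abs_add_le _ _).trans (add_le_add a2 a3)
  have a8 : |σ * ((Real.pi * Real.log T)⁻¹ * (Sp + Sn)) -
      DD R T * (2 / Real.pi * (σ * S1 R T k))| ≤ X * T ^ (-R.ep) := by
    have e4 : σ * ((Real.pi * Real.log T)⁻¹ * (Sp + Sn)) -
        DD R T * (2 / Real.pi * (σ * S1 R T k)) =
        σ * ((Real.pi * Real.log T)⁻¹ *
          (Sp + Sn - 2 * Real.log T * (DD R T * S1 R T k))) := by
      field_simp
    rw [e4, abs_mul, abs_mul, abs_of_nonneg (by positivity : 0 ≤ (Real.pi * Real.log T)⁻¹), ← e2]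
    refine (mul_le_of_le_one_left (by positivity) hσ).trans ?_
    exact mul_le_mul_of_nonneg_left a7 (by positivity)
  have a9 : (G + κ) * DD R T ^ 2 ≤ DD R T * (2 / Real.pi * (σ * S1 R T k)) := by
    have := mul_le_mul_of_nonneg_left a1 a6
    calc _ = DD R T * ((G + κ) * DD R T) := by ring
      _ ≤ _ := this
  have a10 : (G + κ) * Sig R T ≤ (G + κ) * DD R T ^ 2 :=
    mul_le_mul_of_nonneg_left a4 (by positivity)
  have a11 : κ / 2 * R.F 0 ^ 4 ≤ κ / 2 * Sig R T := mul_le_mul_of_nonneg_left a5 (by positivity)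
  rw [abs_le] at a8
  linarith [a8.1]


end Pool.Agent.ZGap.Res
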