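import Pool.Agent.RG.D3
import Pool.Agent.ZGap.Res.D5

/-!
# General amplitude: clone of `ZGap.Res.D5`
-/

open scoped ContDiff FourierTransform SchwartzMap

namespace Pool.Agent.RG.FM

open MeasureTheory Real Set Pool.Agent.ZGap Pool.Agent.ZGap.Res Pool.Agent.ZGap.Res.FM

lemma abs_cc_le (R : ResData) (T : ℝ) {p : ℕ} (hp : 1 ≤ p) : |cc R T p| ≤ |R.r| := by
  unfold cc
  have h0 := abs_nonneg (R.f (Real.log p / Real.log T))
  have h1 := R.f_le (Real.log p / Real.log T)
  have hs : 1 ≤ Real.sqrt p := by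
    rw [Real.one_le_sqrt]; exact_mod_cast hp
  rw [abs_div, abs_mul, abs_of_pos (by linarith : 0 < Real.sqrt p),
    div_le_iff₀ (by linarith)]
  have h2 := abs_nonneg R.r
  nlinarith [mul_nonneg h2 h0]

lemma cc_sq_le (R : ResData) {T : ℝ} (hT : 1 < T) {p : ℕ} (hp : 1 ≤ p) :
    cc R T p ^ 2 ≤ R.r ^ 2 / (R.ep * Real.log T) * (Real.log p / p) := by
  have hL : 0 < Real.log T := Real.log_pos hT
  have hp0 : (0:ℝ) < p := by exact_mod_cast hp
  have hep := R.ep_pos
  have hlp : 0 ≤ Real.log p := Real.log_natCast_nonneg p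
  rcases le_or_gt (Real.log p / Real.log T) R.ep with h | h
  · unfold cc
    rw [R.f_low _ h]
    have : (R.r * 0 / Real.sqrt p) ^ 2 = 0 := by simp
    rw [this]
    positivity
  · have h1 := abs_le.mp (R.f_le (Real.log p / Real.log T))
    rw [lt_div_iff₀ hL] at h
    unfold cc
    rw [div_pow, mul_pow, Real.sq_sqrt hp0.le]
    have h2 : R.f (Real.log p / Real.log T) ^ 2 ≤ 1 := by nlinarith [h1.1, h1.2]
    have h3 : 1 ≤ Real.log p / (R.ep * Real.log T) := by
      rw [le_div_iff₀ (by positivity)]; linarith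
    calc R.r ^ 2 * R.f (Real.log p / Real.log T) ^ 2 / p ≤ R.r ^ 2 * 1 / p := by gcongr
      _ ≤ R.r ^ 2 * (Real.log p / (R.ep * Real.log T)) / p := by gcongr
      _ = _ := by field_simp

/-- `∑ (2 cc p)² ≤ C2²`. -/
lemma sum_cc_sq_le (R : ResData) {T : ℝ} (hT : Real.exp 2 ≤ T) :
    ∑ p ∈ PP T, (2 * cc R T p) ^ 2 ≤ 16 * R.r ^ 2 / R.ep := by
  have hT0 : 0 < T := (Real.exp_pos _).trans_le hT
  have hL2 : 2 ≤ Real.log T := by rw [Real.le_log_iff_exp_le hT0]; exact hT
  have hT1 : 1 < T := by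
    have := Real.add_one_le_exp (2:ℝ); linarith
  have hfl : 1 ≤ ⌊T⌋₊ := Nat.le_floor (by push_cast; linarith)
  have h1 := Pool.Agent.DirPoly.sum_log_div_le hfl
  have hlog : Real.log ⌊T⌋₊ ≤ Real.log T :=
    Real.log_le_log (by exact_mod_cast hfl) (Nat.floor_le hT0.le)
  have hl4 : Real.log 4 ≤ 2 := by
    have : Real.log 4 = 2 * Real.log 2 := by
      rw [show (4 : ℝ) = 2 ^ 2 by norm_num, Real.log_pow]; norm_num
    have := Real.log_two_lt_d9
    linarith
  have hl40 : 0 ≤ Real.log 4 := Real.log_nonneg (by norm_num)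
  have hep := R.ep_pos
  calc _ ≤ ∑ p ∈ PP T, 4 * (R.r ^ 2 / (R.ep * Real.log T)) * (Real.log p / p) := by
        refine Finset.sum_le_sum fun p hp => ?_
        rw [PP, Finset.mem_filter, Finset.mem_Icc] at hp
        have := cc_sq_le R hT1 hp.1.1
        calc (2 * cc R T p) ^ 2 = 4 * cc R T p ^ 2 := by ring
          _ ≤ 4 * (R.r ^ 2 / (R.ep * Real.log T) * (Real.log p / p)) := by gcongr
          _ = _ := by ring
    _ = 4 * (R.r ^ 2 / (R.ep * Real.log T)) * ∑ p ∈ PP T, (Real.log p / p) := by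
        rw [Finset.mul_sum]
    _ ≤ 4 * (R.r ^ 2 / (R.ep * Real.log T)) * (2 * (2 * Real.log T)) := by
        have hLp : 0 < Real.log T := by linarith
        gcongr
        refine h1.trans ?_
        gcongr
        linarith
    _ = _ := by
        have hLp : Real.log T ≠ 0 := by linarith
        field_simp
        ring

lemma Pr_continuous (R : ResData) (T : ℝ) : Continuous (Pr R T) := by
  unfold Pr; fun_prop

lemma norm_Pr_le (R : ResData) {T : ℝ} (hT : 0 ≤ T) (t : ℝ) : ‖Pr R T t‖ ≤ |R.r| * T := by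
  unfold Pr
  calc _ ≤ ∑ p ∈ PP T, |R.r| := by
        refine (norm_sum_le _ _).trans (Finset.sum_le_sum fun p hp => ?_)
        rw [PP, Finset.mem_filter, Finset.mem_Icc] at hp
        rw [norm_mul, Complex.norm_exp_ofReal_mul_I, mul_one, Complex.norm_real, Real.norm_eq_abs]
        exact abs_cc_le R T hp.1.1
    _ = (PP T).card * |R.r| := by rw [Finset.sum_const, nsmul_eq_mul]
    _ ≤ T * |R.r| := by
        gcongr
        have h1 : (PP T).card ≤ ⌊T⌋₊ := by
          refine (Finset.card_filter_le _ _).trans ?_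
          simp
        exact (by exact_mod_cast h1 : ((PP T).card : ℝ) ≤ ⌊T⌋₊).trans (Nat.floor_le hT)
    _ = _ := mul_comm _ _

end Pool.Agent.RG.FM
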