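import Pool.Agent.RG.Defs
import Pool.Agent.ZGap.Res.Diag

/-!
# General amplitude: clone of `ZGap.Res.Diag`
-/

namespace Pool.Agent.RG

open MeasureTheory Finset Pool.Agent.ZGap.Res

/-- The two-sided coefficient. -/
noncomputable def al (R : ResData) (T : ℝ) (q : Finset ℕ × Finset ℕ) : ℝ :=
  aa R T q.1 * aa R T q.2

lemma Amp_eq (R : ResData) (T t : ℝ) :
    Amp R T t = ∑ q ∈ QQ T, (al R T q : ℂ) * Complex.exp (((-(t * fr q) : ℝ) : ℂ) * Complex.I) := by
  unfold Amp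
  rw [sum_QQ T (fun S S' => ((aa R T S * aa R T S' : ℝ) : ℂ) *
    Complex.exp (((-(t * (ell S - ell S')) : ℝ) : ℂ) * Complex.I))]
  rfl

/-- Expansion of the square. -/
lemma norm_sq_Amp (R : ResData) (T t : ℝ) :
    ‖Amp R T t‖ ^ 2 = ∑ q ∈ QQ T, ∑ q' ∈ QQ T, al R T q * al R T q' *
      Real.cos (t * (fr q - fr q')) := by
  rw [Amp_eq, Complex.sq_norm]
  have h1 : Complex.normSq (∑ q ∈ QQ T, (al R T q : ℂ) *
      Complex.exp (((-(t * fr q) : ℝ) : ℂ) * Complex.I)) =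
      ((∑ q ∈ QQ T, (al R T q : ℂ) * Complex.exp (((-(t * fr q) : ℝ) : ℂ) * Complex.I)) *
        (starRingEnd ℂ) (∑ q ∈ QQ T, (al R T q : ℂ) *
          Complex.exp (((-(t * fr q) : ℝ) : ℂ) * Complex.I))).re := by
    rw [Complex.mul_conj]; simp
  rw [h1, map_sum, sum_mul_sum, Complex.re_sum]
  refine sum_congr rfl fun q _ => ?_
  rw [Complex.re_sum]
  refine sum_congr rfl fun q' _ => ?_
  rw [map_mul, Complex.conj_ofReal, ← Complex.exp_conj, map_mul, Complex.conj_ofReal, Complex.conj_I]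
  have h2 : (al R T q : ℂ) * Complex.exp (((-(t * fr q) : ℝ) : ℂ) * Complex.I) *
      ((al R T q' : ℂ) * Complex.exp (((-(t * fr q') : ℝ) : ℂ) * -Complex.I)) =
      ((al R T q * al R T q' : ℝ) : ℂ) *
        Complex.exp (((-(t * (fr q - fr q')) : ℝ) : ℂ) * Complex.I) := by
    push_cast
    rw [mul_mul_mul_comm, ← Complex.exp_add]
    congr 2
    ring
  rw [h2, Complex.re_ofReal_mul, Complex.exp_ofReal_mul_I_re, Real.cos_neg]

/-- If the coefficient is nonzero then the product is `< T^θ`. -/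
lemma ell_lt_of_aa_ne {R : ResData} {T : ℝ} (hT : 1 < T) {S : Finset ℕ} (h : aa R T S ≠ 0) :
    ell S < R.th * Real.log T := by
  have hL : 0 < Real.log T := Real.log_pos hT
  have hth : 0 < R.th := by linarith [R.ep_pos, R.ep_th]
  have h1 : R.F (ell S / (R.th * Real.log T)) ≠ 0 := fun h0 => h (by unfold aa; rw [h0, zero_mul])
  have h2 : ell S / (R.th * Real.log T) < 1 := by
    by_contra hcon
    exact h1 (R.F_one _ (not_lt.mp hcon))
  rwa [div_lt_one (by positivity)] at h2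

/-- Spacing of the frequencies. -/
lemma spacing {R : ResData} {T : ℝ} (hT : 1 < T) {q q' : Finset ℕ × Finset ℕ} (hq : q ∈ QQ T)
    (hq' : q' ∈ QQ T) (h : al R T q ≠ 0) (h' : al R T q' ≠ 0) {n : ℕ} (hn : 0 < n)
    (hne : pr q.1 * pr q'.2 ≠ n * (pr q.2 * pr q'.1)) :
    T ^ (-(2 * R.th)) / 2 ≤ |fr q - fr q' - Real.log n| := by
  obtain ⟨h1, h2, h3⟩ := mem_QQ.mp hq
  obtain ⟨h1', h2', h3'⟩ := mem_QQ.mp hq'
  have e1 : aa R T q.1 ≠ 0 := left_ne_zero_of_mul h
  have e2 : aa R T q'.2 ≠ 0 := right_ne_zero_of_mul h'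
  have p1 := pr_pos h1
  have p2 := pr_pos h2
  have p1' := pr_pos h1'
  have p2' := pr_pos h2'
  have q1 : (0:ℝ) < pr q.1 := by exact_mod_cast p1
  have q2 : (0:ℝ) < pr q.2 := by exact_mod_cast p2
  have q1' : (0:ℝ) < pr q'.1 := by exact_mod_cast p1'
  have q2' : (0:ℝ) < pr q'.2 := by exact_mod_cast p2'
  have qn : (0:ℝ) < n := by exact_mod_cast hn
  have key := abs_log_sub_ge (Nat.mul_pos p1 p2') (Nat.mul_pos hn (Nat.mul_pos p2 p1')) hne
  have e3 : Real.log ((pr q.1 * pr q'.2 : ℕ) : ℝ) - Real.log ((n * (pr q.2 * pr q'.1) : ℕ) : ℝ) =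
      fr q - fr q' - Real.log n := by
    push_cast
    rw [Real.log_mul q1.ne' q2'.ne', Real.log_mul qn.ne' (by positivity),
      Real.log_mul q2.ne' q1'.ne']
    unfold fr
    rw [ell_eq h1, ell_eq h2, ell_eq h1', ell_eq h2']
    ring
  rw [e3] at key
  refine le_trans ?_ key
  have hTp : 0 < T := by linarith
  have e4 : ((pr q.1 * pr q'.2 : ℕ) : ℝ) ≤ T ^ (2 * R.th) := by
    push_cast
    have l1 := ell_lt_of_aa_ne hT e1
    have l2 := ell_lt_of_aa_ne hT e2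
    rw [ell_eq h1] at l1
    rw [ell_eq h2'] at l2
    rw [Real.rpow_def_of_pos hTp]
    rw [← Real.log_le_iff_le_exp (by positivity), Real.log_mul q1.ne' q2'.ne']
    linarith
  rw [Real.rpow_neg hTp.le, div_eq_mul_one_div, ← one_div, one_div_mul_one_div]
  apply one_div_le_one_div_of_le
  · have : (0:ℝ) < ((pr q.1 * pr q'.2 : ℕ) : ℝ) := by exact_mod_cast Nat.mul_pos p1 p2'
    positivity
  · linarith

end Pool.Agent.RG
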