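import Pool.Agent.RG.D5
import Pool.Agent.RG.Diag
import Pool.Agent.ZGap.Res.D6

/-!
# General amplitude: clone of `ZGap.Res.D6`
-/

open scoped ContDiff

namespace Pool.Agent.RG.FM

open MeasureTheory Real Set Pool.Agent.ZGap Pool.Agent.ZGap.Res Pool.Agent.ZGap.Res.FM

/-- shift parameter -/
noncomputable def sh (R : ResData) (T x : ℝ) : ℝ := 2 * π * x / (R.th * Real.log T)

/-- local factor, numerator -/
noncomputable def Xp (R : ResData) (T t x : ℝ) (p : ℕ) : ℂ :=
  (cc R T p : ℂ) * Complex.exp (((-((t - sh R T x) * Real.log p) : ℝ) : ℂ) * Complex.I)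

/-- local factor, denominator -/
noncomputable def Yp (R : ResData) (T t y : ℝ) (p : ℕ) : ℂ :=
  (cc R T p : ℂ) * Complex.exp ((((t + sh R T y) * Real.log p : ℝ) : ℂ) * Complex.I)

lemma prod_Xp (R : ResData) (T t x : ℝ) (S : Finset ℕ) :
    ∏ p ∈ S, Xp R T t x p = ((∏ p ∈ S, cc R T p : ℝ) : ℂ) *
      Complex.exp (((-(t - sh R T x) * ell S : ℝ) : ℂ) * Complex.I) := by
  rw [← prod_exp_ell]
  refine Finset.prod_congr rfl fun p _ => ?_
  unfold Xp
  congr 3
  push_cast
  ring

lemma prod_Yp (R : ResData) (T t y : ℝ) (S : Finset ℕ) :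
    ∏ p ∈ S, Yp R T t y p = ((∏ p ∈ S, cc R T p : ℝ) : ℂ) *
      Complex.exp ((((t + sh R T y) * ell S : ℝ) : ℂ) * Complex.I) := by
  rw [← prod_exp_ell]
  rfl

/-- The properties of the Fourier weight. -/
structure PhiOK (R : ResData) (Φ : ℝ → ℂ) : Prop where
  cont : Continuous Φ
  int : ∀ K : ℕ, Integrable fun x => ‖Φ x‖ * (1 + |x|) ^ K
  rep : ∀ u : ℝ, ∫ x : ℝ, Φ x * Complex.exp (((2 * π * x * u : ℝ) : ℂ) * Complex.I) = (R.F u : ℂ)

lemma exists_PhiOK (R : ResData) : ∃ Φ : ℝ → ℂ, PhiOK R Φ := by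
  obtain ⟨Φ, h1, h2, h3⟩ := exists_Phi R.F_smooth R.F_supp
  exact ⟨Φ, h1, h2, h3⟩

variable {R : ResData} {Φ : ℝ → ℂ}

lemma PhiOK.norm_int (h : PhiOK R Φ) : Integrable fun x => ‖Φ x‖ := by
  have := h.int 0
  simpa using this

lemma PhiOK.integrable (h : PhiOK R Φ) : Integrable Φ :=
  (integrable_norm_iff h.cont.aestronglyMeasurable).mp h.norm_int

lemma int_X (h : PhiOK R Φ) (T t : ℝ) (S : Finset ℕ) :
    ∫ x : ℝ, Φ x * ∏ p ∈ S, Xp R T t x p =
      (aa R T S : ℂ) * Complex.exp (((-(t * ell S) : ℝ) : ℂ) * Complex.I) := by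
  have h1 : ∀ x : ℝ, Φ x * ∏ p ∈ S, Xp R T t x p =
      (Φ x * Complex.exp (((2 * π * x * (ell S / (R.th * Real.log T)) : ℝ) : ℂ) * Complex.I)) *
      (((∏ p ∈ S, cc R T p : ℝ) : ℂ) * Complex.exp (((-(t * ell S) : ℝ) : ℂ) * Complex.I)) := by
    intro x
    rw [prod_Xp]
    have e1 : Complex.exp (((-(t - sh R T x) * ell S : ℝ) : ℂ) * Complex.I) =
        Complex.exp (((2 * π * x * (ell S / (R.th * Real.log T)) : ℝ) : ℂ) * Complex.I) *
        Complex.exp (((-(t * ell S) : ℝ) : ℂ) * Complex.I) := by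
      rw [← Complex.exp_add]
      congr 1
      unfold sh
      push_cast
      ring
    rw [e1]
    ring
  simp_rw [h1]
  rw [integral_mul_const, h.rep]
  unfold aa
  push_cast
  ring

lemma int_Y (h : PhiOK R Φ) (T t : ℝ) (S : Finset ℕ) :
    ∫ x : ℝ, Φ x * ∏ p ∈ S, Yp R T t x p =
      (aa R T S : ℂ) * Complex.exp (((t * ell S : ℝ) : ℂ) * Complex.I) := by
  have h1 : ∀ x : ℝ, Φ x * ∏ p ∈ S, Yp R T t x p =
      (Φ x * Complex.exp (((2 * π * x * (ell S / (R.th * Real.log T)) : ℝ) : ℂ) * Complex.I)) *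
      (((∏ p ∈ S, cc R T p : ℝ) : ℂ) * Complex.exp (((t * ell S : ℝ) : ℂ) * Complex.I)) := by
    intro x
    rw [prod_Yp]
    have e1 : Complex.exp ((((t + sh R T x) * ell S : ℝ) : ℂ) * Complex.I) =
        Complex.exp (((2 * π * x * (ell S / (R.th * Real.log T)) : ℝ) : ℂ) * Complex.I) *
        Complex.exp (((t * ell S : ℝ) : ℂ) * Complex.I) := by
      rw [← Complex.exp_add]
      congr 1
      unfold sh
      push_cast
      ring
    rw [e1]
    ring
  simp_rw [h1]
  rw [integral_mul_const, h.rep]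
  unfold aa
  push_cast
  ring

/-- The maximal number of prime factors. -/
noncomputable def M0 (R : ResData) : ℕ := ⌈R.th / R.ep⌉₊

lemma card_le_of_aa_ne {T : ℝ} (hT : 1 < T) {S : Finset ℕ} (hS : S ⊆ PP T)
    (h : aa R T S ≠ 0) : S.card ≤ M0 R := by
  have hL : 0 < Real.log T := Real.log_pos hT
  have hep := R.ep_pos
  have hth : 0 < R.th := by linarith [R.ep_th]
  unfold aa at h
  have hF : R.F (ell S / (R.th * Real.log T)) ≠ 0 := left_ne_zero_of_mul h
  have hP : ∏ p ∈ S, cc R T p ≠ 0 := right_ne_zero_of_mul h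
  have h1 : ell S / (R.th * Real.log T) < 1 := by
    by_contra hcon
    push Not at hcon
    exact hF (R.F_one _ hcon)
  rw [div_lt_one (by positivity)] at h1
  have h2 : ∀ p ∈ S, R.ep * Real.log T ≤ Real.log p := by
    intro p hp
    have h3 := (Finset.prod_ne_zero_iff.mp hP) p hp
    by_contra hcon
    push Not at hcon
    apply h3
    unfold cc
    rw [R.f_low, mul_zero, zero_div]
    rw [div_le_iff₀ hL]
    exact hcon.le
  have h3 : S.card * (R.ep * Real.log T) ≤ ell S := by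
    unfold ell
    rw [← nsmul_eq_mul]
    exact Finset.card_nsmul_le_sum _ _ _ h2
  have h4 : (S.card : ℝ) < R.th / R.ep := by
    rw [lt_div_iff₀ hep]
    have h5 : S.card * (R.ep * Real.log T) < R.th * Real.log T := lt_of_le_of_lt h3 h1
    have h6 : (S.card * R.ep) * Real.log T < R.th * Real.log T := by linarith
    exact lt_of_mul_lt_mul_right h6 hL.le
  have h5 : (S.card : ℝ) ≤ M0 R := h4.le.trans (Nat.le_ceil _)
  exact_mod_cast h5

lemma norm_Xp (R : ResData) (T t x : ℝ) (p : ℕ) : ‖Xp R T t x p‖ = |cc R T p| := by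
  unfold Xp
  rw [norm_mul, Complex.norm_exp_ofReal_mul_I, mul_one, Complex.norm_real, Real.norm_eq_abs]

lemma norm_Yp (R : ResData) (T t x : ℝ) (p : ℕ) : ‖Yp R T t x p‖ = |cc R T p| := by
  unfold Yp
  rw [norm_mul, Complex.norm_exp_ofReal_mul_I, mul_one, Complex.norm_real, Real.norm_eq_abs]

lemma sh_continuous (R : ResData) (T : ℝ) : Continuous (sh R T) := by
  unfold sh; fun_prop

lemma Xp_continuous (R : ResData) (T t : ℝ) (p : ℕ) : Continuous (fun x => Xp R T t x p) := by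
  have := sh_continuous R T
  unfold Xp; fun_prop

lemma Yp_continuous (R : ResData) (T t : ℝ) (p : ℕ) : Continuous (fun x => Yp R T t x p) := by
  have := sh_continuous R T
  unfold Yp; fun_prop

lemma integrable_X (h : PhiOK R Φ) (T t : ℝ) (S : Finset ℕ) :
    Integrable fun x : ℝ => Φ x * ∏ p ∈ S, Xp R T t x p := by
  refine (h.norm_int.mul_const (∏ p ∈ S, |cc R T p|)).mono' ?_
    (Filter.Eventually.of_forall fun x => ?_)
  · exact (h.cont.mul (continuous_finset_prod _ fun p _ => Xp_continuous R T t p)).aestronglyMeasurable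
  · rw [norm_mul, norm_prod]
    simp only [norm_Xp]
    exact le_rfl

lemma integrable_Y (h : PhiOK R Φ) (T t : ℝ) (S : Finset ℕ) :
    Integrable fun x : ℝ => Φ x * ∏ p ∈ S, Yp R T t x p := by
  refine (h.norm_int.mul_const (∏ p ∈ S, |cc R T p|)).mono' ?_
    (Filter.Eventually.of_forall fun x => ?_)
  · exact (h.cont.mul (continuous_finset_prod _ fun p _ => Yp_continuous R T t p)).aestronglyMeasurable
  · rw [norm_mul, norm_prod]
    simp only [norm_Yp]
    exact le_rfl

/-- The integrand. -/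
noncomputable def EE (R : ResData) (T t : ℝ) (z : ℝ × ℝ) : ℂ :=
  ∑ m ∈ Finset.range (2 * M0 R + 1),
    es (PP T) (fun p => Xp R T t z.1 p + Yp R T t z.2 p) m

theorem Amp_eq (h : PhiOK R Φ) {T : ℝ} (hT : 1 < T) (t : ℝ) :
    Amp R T t = ∫ z : ℝ × ℝ, Φ z.1 * Φ z.2 * EE R T t z := by
  classical
  -- the expansion
  have hE : ∀ z : ℝ × ℝ, Φ z.1 * Φ z.2 * EE R T t z =
      ∑ S ∈ (PP T).powerset, ∑ S' ∈ (PP T \ S).powerset,
        (if S.card + S'.card ∈ Finset.range (2 * M0 R + 1) then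
          (Φ z.1 * ∏ p ∈ S, Xp R T t z.1 p) * (Φ z.2 * ∏ p ∈ S', Yp R T t z.2 p) else 0) := by
    intro z
    unfold EE
    simp_rw [← sum_disjoint_pairs]
    rw [Finset.sum_comm, Finset.mul_sum]
    refine Finset.sum_congr rfl fun S _ => ?_
    rw [Finset.sum_comm, Finset.mul_sum]
    refine Finset.sum_congr rfl fun S' _ => ?_
    rw [Finset.sum_ite_eq]
    split_ifs
    · ring
    · rw [mul_zero]
  have hint : ∀ (S S' : Finset ℕ), Integrable (fun z : ℝ × ℝ =>
      (if S.card + S'.card ∈ Finset.range (2 * M0 R + 1) then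
          (Φ z.1 * ∏ p ∈ S, Xp R T t z.1 p) * (Φ z.2 * ∏ p ∈ S', Yp R T t z.2 p) else 0)) := by
    intro S S'
    split_ifs
    · exact (integrable_X h T t S).mul_prod (integrable_Y h T t S')
    · exact integrable_zero _ _ _
  simp_rw [hE]
  rw [integral_finset_sum _ fun S _ => integrable_finset_sum _ fun S' _ => hint S S']
  unfold Amp
  refine Finset.sum_congr rfl fun S hS => ?_
  rw [integral_finset_sum _ fun S' _ => hint S S']
  refine Finset.sum_congr rfl fun S' hS' => ?_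
  rw [Finset.mem_powerset] at hS hS'
  split_ifs with hc
  · have h1 := integral_prod_mul (μ := volume) (ν := volume)
      (fun x : ℝ => Φ x * ∏ p ∈ S, Xp R T t x p) (fun x : ℝ => Φ x * ∏ p ∈ S', Yp R T t x p)
    rw [← Measure.volume_eq_prod] at h1
    rw [h1, int_X h, int_Y h]
    have e1 : Complex.exp (((-(t * (ell S - ell S')) : ℝ) : ℂ) * Complex.I) =
        Complex.exp (((-(t * ell S) : ℝ) : ℂ) * Complex.I) *
        Complex.exp (((t * ell S' : ℝ) : ℂ) * Complex.I) := by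
      rw [← Complex.exp_add]
      congr 1
      push_cast
      ring
    rw [e1]
    push_cast
    ring
  · have h0 : aa R T S * aa R T S' = 0 := by
      by_contra hne
      apply hc
      have h1 := card_le_of_aa_ne hT hS (left_ne_zero_of_mul hne)
      have h2 := card_le_of_aa_ne hT (hS'.trans Finset.sdiff_subset) (right_ne_zero_of_mul hne)
      rw [Finset.mem_range]
      omega
    rw [h0]
    simp

end Pool.Agent.RG.FM
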