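import Pool.Agent.RG.D7
import Pool.Agent.ZGap.Res.D8

/-!
# General amplitude: clone of `ZGap.Res.D8`
-/

open scoped ContDiff

namespace Pool.Agent.RG.FM

open MeasureTheory Real Set Pool.Agent.ZGap Pool.Agent.ZGap.Res Pool.Agent.ZGap.Res.FM

variable {R : ResData} {Φ : ℝ → ℂ}

/-- Moments of the prime sum. -/
theorem Pr_moment (hRH : RiemannHypothesis) (R : ResData) (n : ℕ) : ∃ K T0 : ℝ, 0 < K ∧
    Real.exp 2 ≤ T0 ∧ ∀ T : ℝ, T0 ≤ T → ∫ t in (T / 4)..(4 * T), ‖Pr R T t‖ ^ n ≤ K * T := by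
  obtain ⟨C1, T1, hC1, hT1, h1⟩ := Pr_le hRH R
  obtain ⟨C2, T2, hC2, hT2, h2⟩ := W1_le hRH (k := n + 4) (by omega)
  obtain ⟨K, hK, h3⟩ := QQ_moment (k := n + 4) (by omega)
  set C := C1 * (1 + C2) + 1 with hC
  have hC1' : 1 ≤ C := by
    have : 0 < C1 * (1 + C2) := by positivity
    linarith
  refine ⟨C ^ (2 * (n + 4)) * K, max (max T1 T2) (Real.exp 2), by positivity, le_max_right _ _,
    fun T hT => ?_⟩
  have hTT1 : T1 ≤ T := (le_max_left _ _).trans ((le_max_left _ _).trans hT)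
  have hTT2 : T2 ≤ T := (le_max_right _ _).trans ((le_max_left _ _).trans hT)
  have hT1' : 1 ≤ T := hT1.trans hTT1
  obtain ⟨h2k, hW⟩ := h2 T hTT2
  have hQ : ∀ t ∈ Icc (T / 4) (4 * T), ‖Pr R T t‖ ^ n ≤ C ^ (2 * (n + 4)) * QQ (n + 4) T t ^ (2 * (n + 4)) := by
    intro t ht
    have e1 := h1 T hTT1 t ht.1
    have e2 : W1 T t ≤ C2 * QQ (n + 4) T t := hW t ht.1 ht.2
    have e3 : 1 ≤ QQ (n + 4) T t := one_le_QQ hT1' t
    have e4 : ‖Pr R T t‖ ≤ C * QQ (n + 4) T t := by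
      calc ‖Pr R T t‖ ≤ C1 * (1 + W1 T t) := e1
        _ ≤ C1 * (QQ (n + 4) T t + C2 * QQ (n + 4) T t) := by gcongr
        _ = C1 * (1 + C2) * QQ (n + 4) T t := by ring
        _ ≤ C * QQ (n + 4) T t := by
            gcongr
            linarith
    have e5 : 1 ≤ C * QQ (n + 4) T t := by nlinarith
    calc ‖Pr R T t‖ ^ n ≤ (C * QQ (n + 4) T t) ^ n := by gcongr
      _ ≤ (C * QQ (n + 4) T t) ^ (2 * (n + 4)) := pow_le_pow_right₀ e5 (by omega)
      _ = _ := mul_pow _ _ _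
  have hle : T / 4 ≤ 4 * T := by linarith
  have hPc := Pr_continuous R T
  have hQc := QQ_continuous (n + 4) T
  rw [intervalIntegral.integral_of_le hle, ← integral_Icc_eq_integral_Ioc]
  calc _ ≤ ∫ t in Icc (T / 4) (4 * T), C ^ (2 * (n + 4)) * QQ (n + 4) T t ^ (2 * (n + 4)) := by
        refine setIntegral_mono_on ?_ ?_ measurableSet_Icc hQ
        · exact (by fun_prop : Continuous fun t => ‖Pr R T t‖ ^ n).integrableOn_Icc
        · exact (by fun_prop : Continuous fun t =>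
            C ^ (2 * (n + 4)) * QQ (n + 4) T t ^ (2 * (n + 4))).integrableOn_Icc
    _ = C ^ (2 * (n + 4)) * ∫ t in Icc (T / 4) (4 * T), QQ (n + 4) T t ^ (2 * (n + 4)) := by
        rw [integral_const_mul]
    _ ≤ C ^ (2 * (n + 4)) * (K * T) := by
        gcongr
        exact h3 T h2k
    _ = _ := by ring

/-- The shifted moment. -/
theorem shifted_moment (hRH : RiemannHypothesis) (R : ResData) (n : ℕ) : ∃ K T0 : ℝ, 0 < K ∧
    Real.exp 2 ≤ T0 ∧ ∀ T : ℝ, T0 ≤ T → ∀ a : ℝ,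
      ∫ t in (T / 2)..(3 * T), ‖Pr R T (t - a)‖ ^ n ≤ K * T * (1 + |a|) ^ n := by
  obtain ⟨K, T0, hK, hT0, h⟩ := Pr_moment hRH R n
  refine ⟨K + 3 * (|R.r| * 4) ^ n + 1, T0, by positivity, hT0, fun T hT a => ?_⟩
  have hTe : Real.exp 2 ≤ T := hT0.trans hT
  have hTp : 0 < T := (Real.exp_pos _).trans_le hTe
  have hPc := Pr_continuous R T
  have h1a : (1:ℝ) ≤ (1 + |a|) ^ n := one_le_pow₀ (by linarith [abs_nonneg a])
  rcases le_or_gt |a| (T / 4) with ha | ha
  · have h1 : ∫ t in (T / 2)..(3 * T), ‖Pr R T (t - a)‖ ^ n =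
        ∫ t in (T / 2 - a)..(3 * T - a), ‖Pr R T t‖ ^ n :=
      intervalIntegral.integral_comp_sub_right (fun t => ‖Pr R T t‖ ^ n) a
    rw [h1]
    have ha' := abs_le.mp ha
    have h2 : ∫ t in (T / 2 - a)..(3 * T - a), ‖Pr R T t‖ ^ n ≤
        ∫ t in (T / 4)..(4 * T), ‖Pr R T t‖ ^ n := by
      refine intervalIntegral.integral_mono_interval (by linarith [ha'.2]) (by linarith)
        (by linarith [ha'.1]) (Filter.Eventually.of_forall fun t => by positivity) ?_
      exact (by fun_prop : Continuous fun t => ‖Pr R T t‖ ^ n).intervalIntegrable _ _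
    calc _ ≤ K * T := h2.trans (h T hT)
      _ ≤ (K + 3 * (|R.r| * 4) ^ n + 1) * T * 1 := by
          have : 0 ≤ 3 * (|R.r| * 4) ^ n := by positivity
          nlinarith
      _ ≤ _ := by gcongr
  · have h1 : ∫ t in (T / 2)..(3 * T), ‖Pr R T (t - a)‖ ^ n ≤
        ∫ t in (T / 2)..(3 * T), (|R.r| * T) ^ n := by
      refine intervalIntegral.integral_mono_on (by linarith) ?_ ?_ fun t _ => ?_
      · exact (by fun_prop : Continuous fun t => ‖Pr R T (t - a)‖ ^ n).intervalIntegrable _ _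
      · simp
      · gcongr
        exact norm_Pr_le R hTp.le _
    rw [intervalIntegral.integral_const, smul_eq_mul] at h1
    have h2 : (|R.r| * T) ^ n ≤ (|R.r| * 4) ^ n * (1 + |a|) ^ n := by
      rw [← mul_pow]
      have h0 := abs_nonneg R.r
      have h5 : |R.r| * T ≤ |R.r| * 4 * (1 + |a|) := by nlinarith
      gcongr
    calc _ ≤ (3 * T - T / 2) * (|R.r| * T) ^ n := h1
      _ ≤ (3 * T) * ((|R.r| * 4) ^ n * (1 + |a|) ^ n) := by
          gcongr
          linarith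
      _ = (3 * (|R.r| * 4) ^ n) * T * (1 + |a|) ^ n := by ring
      _ ≤ _ := by
          gcongr
          linarith

lemma sh_neg (R : ResData) (T x : ℝ) : sh R T (-x) = - sh R T x := by
  unfold sh; ring

lemma abs_sh_le (R : ResData) {T : ℝ} (hT : 1 ≤ Real.log T) (x : ℝ) :
    1 + |sh R T x| ≤ (1 + 2 * π / R.th) * (1 + |x|) := by
  have hth : 0 < R.th := by linarith [R.ep_th, R.ep_pos]
  have hpi := Real.pi_pos
  have h1 : |sh R T x| ≤ 2 * π / R.th * |x| := by
    unfold sh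
    rw [abs_div, abs_mul, abs_of_pos (by positivity : 0 < 2 * π),
      abs_of_pos (by positivity : 0 < R.th * Real.log T), div_mul_eq_mul_div]
    gcongr
    nlinarith
  have h2 : 0 ≤ 2 * π / R.th := by positivity
  nlinarith [abs_nonneg x]

/-- The generic double integral. -/
lemma double_integral (h : PhiOK R Φ) {T : ℝ} (hT0 : 0 ≤ T) (n : ℕ) {s : ℝ → ℝ}
    (hs : Continuous s) :
    IntervalIntegrable (fun t => ∫ x : ℝ, ‖Φ x‖ * ‖Pr R T (t - s x)‖ ^ n) volume (T / 2) (3 * T) ∧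
    ∫ t in (T / 2)..(3 * T), ∫ x : ℝ, ‖Φ x‖ * ‖Pr R T (t - s x)‖ ^ n =
      ∫ x : ℝ, ‖Φ x‖ * ∫ t in (T / 2)..(3 * T), ‖Pr R T (t - s x)‖ ^ n := by
  have hle : T / 2 ≤ 3 * T := by linarith
  have hPc := Pr_continuous R T
  have hΦ := h.cont
  have hprod : Integrable (fun p : ℝ × ℝ => ‖Φ p.2‖ * ‖Pr R T (p.1 - s p.2)‖ ^ n)
      ((volume.restrict (Ioc (T / 2) (3 * T))).prod volume) := by
    have h1 : Integrable (fun _ : ℝ => (|R.r| * T) ^ n) (volume.restrict (Ioc (T / 2) (3 * T))) :=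
      integrableOn_const (by rw [Real.volume_Ioc]; exact ENNReal.ofReal_ne_top)
    have h2 := h1.mul_prod h.norm_int
    refine h2.mono' ?_ (Filter.Eventually.of_forall fun p => ?_)
    · exact Continuous.aestronglyMeasurable (by fun_prop)
    · rw [norm_mul, norm_norm, Real.norm_of_nonneg (by positivity), mul_comm]
      gcongr
      exact norm_Pr_le R hT0 _
  constructor
  · rw [intervalIntegrable_iff, uIoc_of_le hle]
    exact hprod.integral_prod_left
  · rw [intervalIntegral.integral_of_le hle]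
    rw [integral_integral_swap hprod]
    refine integral_congr_ae (Filter.Eventually.of_forall fun x => ?_)
    simp only
    rw [intervalIntegral.integral_of_le hle, integral_const_mul]

/-- **Fourth moment of the resonator.** -/
theorem fourth_moment (hRH : RiemannHypothesis) (R : ResData) : ∃ K T0 : ℝ, 0 < K ∧
    Real.exp 2 ≤ T0 ∧ ∀ T : ℝ, T0 ≤ T → ∫ t in (T / 2)..(3 * T), ‖Amp R T t‖ ^ 4 ≤ K * T := by
  obtain ⟨Φ, hΦ⟩ := exists_PhiOK R
  obtain ⟨K, T0, hK, hT0, hsm⟩ := shifted_moment hRH R (4 * NN R)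
  have hth : 0 < R.th := by linarith [R.ep_th, R.ep_pos]
  have hc2 := one_le_c2 R
  set W := ∫ x, ‖Φ x‖ with hW
  have hW0 : 0 ≤ W := integral_nonneg fun x => norm_nonneg _
  set V := ∫ x, ‖Φ x‖ * (1 + |x|) ^ (4 * NN R) with hV
  have hV0 : 0 ≤ V := integral_nonneg fun x => by positivity
  set A := (1 + 2 * π / R.th) ^ (4 * NN R) with hA
  have hA0 : 0 ≤ A := by positivity
  set D := (W ^ 2) ^ 3 * ((NN R + 1) ^ 4 * 3 ^ (4 * NN R)) with hD
  have hD0 : 0 ≤ D := by positivity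
  refine ⟨D * (2 * W * (K * A * V) + 3 * W ^ 2 * c2 R ^ (4 * NN R)) + 1, T0, by positivity, hT0,
    fun T hT => ?_⟩
  have hTe : Real.exp 2 ≤ T := hT0.trans hT
  have hTp : 0 < T := (Real.exp_pos _).trans_le hTe
  have hL2 : 2 ≤ Real.log T := by rw [Real.le_log_iff_exp_le hTp]; exact hTe
  have hle : T / 2 ≤ 3 * T := by linarith
  have hshc := sh_continuous R T
  obtain ⟨im, em⟩ := double_integral hΦ hTp.le (4 * NN R) hshc
  obtain ⟨ip, ep⟩ := double_integral (s := fun x => -sh R T x) hΦ hTp.le (4 * NN R) hshc.neg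
  have hJm : ∀ t, Jm R Φ T t = ∫ x : ℝ, ‖Φ x‖ * ‖Pr R T (t - sh R T x)‖ ^ (4 * NN R) := fun t => rfl
  have hJp : ∀ t, Jp R Φ T t = ∫ x : ℝ, ‖Φ x‖ * ‖Pr R T (t - -sh R T x)‖ ^ (4 * NN R) := by
    intro t
    unfold Jp
    simp_rw [sub_neg_eq_add]
  -- bound of the double integrals
  have hbd : ∀ s : ℝ → ℝ, Continuous s → (∀ x, |s x| = |sh R T x|) →
      ∫ x : ℝ, ‖Φ x‖ * ∫ t in (T / 2)..(3 * T), ‖Pr R T (t - s x)‖ ^ (4 * NN R) ≤ K * A * V * T := by
    intro s hs hsx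
    have h1 : ∀ x, ‖Φ x‖ * ∫ t in (T / 2)..(3 * T), ‖Pr R T (t - s x)‖ ^ (4 * NN R) ≤
        K * A * T * (‖Φ x‖ * (1 + |x|) ^ (4 * NN R)) := by
      intro x
      have h2 := hsm T hT (s x)
      have h3 : (1 + |s x|) ^ (4 * NN R) ≤ A * (1 + |x|) ^ (4 * NN R) := by
        rw [hA, ← mul_pow, hsx x]
        have := abs_sh_le R (by linarith : 1 ≤ Real.log T) x
        gcongr
      calc _ ≤ ‖Φ x‖ * (K * T * (1 + |s x|) ^ (4 * NN R)) := by gcongr
        _ ≤ ‖Φ x‖ * (K * T * (A * (1 + |x|) ^ (4 * NN R))) := by gcongr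
        _ = _ := by ring
    have h2 : ∫ x : ℝ, ‖Φ x‖ * ∫ t in (T / 2)..(3 * T), ‖Pr R T (t - s x)‖ ^ (4 * NN R) ≤
        ∫ x : ℝ, K * A * T * (‖Φ x‖ * (1 + |x|) ^ (4 * NN R)) := by
      refine integral_mono_of_nonneg (Filter.Eventually.of_forall fun x => ?_)
        ((hΦ.int (4 * NN R)).const_mul _) (Filter.Eventually.of_forall h1)
      refine mul_nonneg (norm_nonneg _) ?_
      exact intervalIntegral.integral_nonneg hle fun t _ => by positivity
    refine h2.trans (le_of_eq ?_)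
    rw [integral_const_mul]
    ring
  have hJmb : ∫ t in (T / 2)..(3 * T), Jm R Φ T t ≤ K * A * V * T := by
    simp_rw [hJm]
    rw [em]
    exact hbd _ hshc fun x => rfl
  have hJpb : ∫ t in (T / 2)..(3 * T), Jp R Φ T t ≤ K * A * V * T := by
    simp_rw [hJp]
    rw [ep]
    exact hbd _ hshc.neg fun x => abs_neg _
  have im' : IntervalIntegrable (Jm R Φ T) volume (T / 2) (3 * T) := im
  have ip' : IntervalIntegrable (Jp R Φ T) volume (T / 2) (3 * T) := by
    have : Jp R Φ T = fun t => ∫ x : ℝ, ‖Φ x‖ * ‖Pr R T (t - -sh R T x)‖ ^ (4 * NN R) := funext hJp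
    rw [this]
    exact ip
  have hAmpc : Continuous (Amp R T) := by
    unfold Amp; fun_prop
  have hpt : ∀ t, ‖Amp R T t‖ ^ 4 ≤ D * (W * Jm R Φ T t + W * Jp R Φ T t +
      W ^ 2 * c2 R ^ (4 * NN R)) := by
    intro t
    refine (norm_Amp_pow_le hΦ hTe t).trans (le_of_eq ?_)
    rw [hD]
    ring
  have i1 : IntervalIntegrable (fun t => W * Jm R Φ T t + W * Jp R Φ T t) volume (T / 2) (3 * T) :=
    (im'.const_mul W).add (ip'.const_mul W)
  have i2 : IntervalIntegrable (fun t => (W * Jm R Φ T t + W * Jp R Φ T t) +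
      W ^ 2 * c2 R ^ (4 * NN R)) volume (T / 2) (3 * T) := i1.add (by simp)
  calc ∫ t in (T / 2)..(3 * T), ‖Amp R T t‖ ^ 4 ≤
      ∫ t in (T / 2)..(3 * T), D * ((W * Jm R Φ T t + W * Jp R Φ T t) +
        W ^ 2 * c2 R ^ (4 * NN R)) := by
        refine intervalIntegral.integral_mono_on hle ?_ (i2.const_mul D) fun t _ => hpt t
        exact (by fun_prop : Continuous fun t => ‖Amp R T t‖ ^ 4).intervalIntegrable _ _
    _ = D * (W * (∫ t in (T / 2)..(3 * T), Jm R Φ T t) + W * (∫ t in (T / 2)..(3 * T), Jp R Φ T t) +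
          (3 * T - T / 2) * (W ^ 2 * c2 R ^ (4 * NN R))) := by
        rw [intervalIntegral.integral_const_mul, intervalIntegral.integral_add i1 (by simp),
          intervalIntegral.integral_add (im'.const_mul W) (ip'.const_mul W),
          intervalIntegral.integral_const_mul, intervalIntegral.integral_const_mul,
          intervalIntegral.integral_const, smul_eq_mul]
    _ ≤ D * (W * (K * A * V * T) + W * (K * A * V * T) +
          (3 * T) * (W ^ 2 * c2 R ^ (4 * NN R))) := by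
        gcongr
        linarith
    _ = (D * (2 * W * (K * A * V) + 3 * W ^ 2 * c2 R ^ (4 * NN R))) * T := by ring
    _ ≤ _ := by nlinarith

end Pool.Agent.RG.FM
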