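import Mathlib
import Pool.Agent.ZGap.Res.Defs

/-!
# Two-sided resonators with a general amplitude

As `Pool.Agent.ZGap.Res.Defs`, but the amplitude `f` of the primes only has to be smooth, bounded
by `1` in absolute value and supported in `(ep, (th + 1/2)/2)`: it may change sign.
-/

open scoped ContDiff

namespace Pool.Agent.RG

open Pool.Agent.ZGap.Res

/-- Data of a two-sided resonator with a general amplitude. -/
structure ResData where
  /-- half of the total length exponent -/
  th : ℝ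
  /-- roughness exponent -/
  ep : ℝ
  /-- the size of the coefficients -/
  r : ℝ
  /-- the smooth amplitude of the primes -/
  f : ℝ → ℝ
  /-- the smooth profile -/
  F : ℝ → ℝ
  ep_pos : 0 < ep
  ep_th : 2 * ep < th
  th_lt : th < 1 / 2
  f_smooth : ContDiff ℝ ∞ f
  f_le : ∀ x, |f x| ≤ 1
  f_low : ∀ x, x ≤ ep → f x = 0
  f_high : ∀ x, (th + 1 / 2) / 2 ≤ x → f x = 0
  F_smooth : ContDiff ℝ ∞ F
  F_supp : HasCompactSupport F
  F_nonneg : ∀ x, 0 ≤ F x
  F_one : ∀ x, 1 ≤ x → F x = 0

/-- The coefficient at a prime. -/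
noncomputable def cc (R : ResData) (T : ℝ) (p : ℕ) : ℝ :=
  R.r * R.f (Real.log p / Real.log T) / Real.sqrt p

/-- The one-sided coefficient `a_h`, `h = ∏ S`. -/
noncomputable def aa (R : ResData) (T : ℝ) (S : Finset ℕ) : ℝ :=
  R.F (ell S / (R.th * Real.log T)) * ∏ p ∈ S, cc R T p

/-- The resonator. -/
noncomputable def Amp (R : ResData) (T t : ℝ) : ℂ :=
  ∑ S ∈ (PP T).powerset, ∑ S' ∈ (PP T \ S).powerset,
    ((aa R T S * aa R T S' : ℝ) : ℂ) * Complex.exp (((-(t * (ell S - ell S')) : ℝ) : ℂ) * Complex.I)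

end Pool.Agent.RG
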