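import Pool.Agent.RG.Defs

/-!
# The resonator with the amplitude `φ(u) sinc(π c u)`
-/

open scoped ContDiff

namespace Pool.Agent.RG

open MeasureTheory Set Filter Topology

/-- A smooth cutoff of `[2 ep, b / 2]`. -/
noncomputable def cutf (ep b x : ℝ) : ℝ :=
  Real.smoothTransition ((x - ep) / ep) * Real.smoothTransition ((b - x) / (b / 2))

lemma cutf_nonneg (ep b x : ℝ) : 0 ≤ cutf ep b x :=
  mul_nonneg (Real.smoothTransition.nonneg _) (Real.smoothTransition.nonneg _)

lemma cutf_le_one (ep b x : ℝ) : cutf ep b x ≤ 1 :=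
  mul_le_one₀ (Real.smoothTransition.le_one _) (Real.smoothTransition.nonneg _)
    (Real.smoothTransition.le_one _)

lemma cutf_smooth (ep b : ℝ) : ContDiff ℝ ∞ (cutf ep b) := by
  apply ContDiff.mul
  · exact Real.smoothTransition.contDiff.comp (by fun_prop)
  · exact Real.smoothTransition.contDiff.comp (by fun_prop)

lemma cutf_low {ep b x : ℝ} (hep : 0 < ep) (hx : x ≤ ep) : cutf ep b x = 0 := by
  unfold cutf
  rw [Real.smoothTransition.zero_of_nonpos, zero_mul]
  exact div_nonpos_of_nonpos_of_nonneg (by linarith) hep.le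

lemma cutf_high {ep b x : ℝ} (hb : 0 < b) (hx : b ≤ x) : cutf ep b x = 0 := by
  unfold cutf
  rw [Real.smoothTransition.zero_of_nonpos (x := (b - x) / (b / 2)), mul_zero]
  exact div_nonpos_of_nonpos_of_nonneg (by linarith) (by linarith)

lemma cutf_mid {ep b x : ℝ} (hep : 0 < ep) (hb : 0 < b) (hx : 2 * ep ≤ x) (hx' : x ≤ b / 2) :
    cutf ep b x = 1 := by
  unfold cutf
  rw [Real.smoothTransition.one_of_one_le, Real.smoothTransition.one_of_one_le, one_mul]
  · rw [le_div_iff₀ (by linarith)]; linarith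
  · rw [le_div_iff₀ hep]; linarith

lemma cutf_sinc_smooth {ep b c : ℝ} (hep : 0 < ep) (hc : 0 < c) :
    ContDiff ℝ ∞ fun x => cutf ep b x * Real.sinc (Real.pi * c * x) := by
  have hpi := Real.pi_pos
  rw [contDiff_iff_contDiffAt]
  intro x
  by_cases hx : x < ep
  · have h1 : (fun x => cutf ep b x * Real.sinc (Real.pi * c * x)) =ᶠ[𝓝 x] fun _ => (0:ℝ) := by
      filter_upwards [Iio_mem_nhds hx] with y hy
      rw [cutf_low hep (le_of_lt hy), zero_mul]
    exact contDiffAt_const.congr_of_eventuallyEq h1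
  · push Not at hx
    have hx0 : 0 < x := by linarith
    have h1 : (fun x => cutf ep b x * Real.sinc (Real.pi * c * x)) =ᶠ[𝓝 x]
        fun x => cutf ep b x * (Real.sin (Real.pi * c * x) / (Real.pi * c * x)) := by
      filter_upwards [Ioi_mem_nhds hx0] with y hy
      have hy0 : (0:ℝ) < y := hy
      rw [Real.sinc_of_ne_zero (by positivity)]
    refine ContDiffAt.congr_of_eventuallyEq ?_ h1
    apply (cutf_smooth ep b).contDiffAt.mul
    apply ContDiffAt.div
    · exact Real.contDiff_sin.contDiffAt.comp x (by fun_prop)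
    · fun_prop
    · positivity

/-- The resonator. -/
theorem exists_RD {θ η b ep c : ℝ} (r : ℝ) (hθ' : θ < 1 / 2) (hη : 0 < η)
    (hη1 : η ≤ 1 / 2) (hbθ : b ≤ θ) (hep : 0 < ep) (hepb : 4 * ep ≤ b) (hc : 0 < c) :
    ∃ R : ResData, R.th = θ ∧ R.ep = ep ∧ R.r = r ∧ (∀ x, R.F x ≤ 1) ∧ R.F 0 = 1 ∧
      (∀ x, 0 ≤ x → x ≤ 1 - η → R.F x = 1) ∧
      ∀ x, R.f x = cutf ep b x * Real.sinc (Real.pi * c * x) := by
  let χ : ContDiffBump (0:ℝ) := ⟨1 - η, 1, by linarith, by linarith⟩
  have hχ0 : ∀ x, 1 ≤ |x| → χ x = 0 := fun x hx => by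
    have : x ∉ Function.support χ := by
      rw [χ.support_eq]
      simp only [Metric.mem_ball, dist_zero_right, Real.norm_eq_abs, not_lt]
      exact hx
    simpa [Function.mem_support] using this
  have hχ1 : ∀ x, 0 ≤ x → x ≤ 1 - η → χ x = 1 := fun x hx hx1 => by
    apply χ.one_of_mem_closedBall
    simp only [Metric.mem_closedBall, dist_zero_right, Real.norm_eq_abs]
    rw [abs_of_nonneg hx]
    exact hx1
  refine ⟨{
    th := θ
    ep := ep
    r := r
    f := fun x => cutf ep b x * Real.sinc (Real.pi * c * x)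
    F := fun x => χ x
    ep_pos := hep
    ep_th := by linarith
    th_lt := hθ'
    f_smooth := cutf_sinc_smooth hep hc
    f_le := fun x => ?_
    f_low := fun x hx => by rw [cutf_low hep hx, zero_mul]
    f_high := fun x hx => by rw [cutf_high (by linarith) (by linarith), zero_mul]
    F_smooth := χ.contDiff
    F_supp := χ.hasCompactSupport
    F_nonneg := fun x => χ.nonneg
    F_one := fun x hx => hχ0 x (hx.trans (le_abs_self x)) }, rfl, rfl, rfl,
    fun x => χ.le_one, hχ1 0 le_rfl (by linarith), hχ1, fun x => rfl⟩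
  rw [abs_mul, abs_of_nonneg (cutf_nonneg ep b x)]
  exact mul_le_one₀ (cutf_le_one ep b x) (abs_nonneg _) (Real.abs_sinc_le_one _)

end Pool.Agent.RG
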