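import Pool.Agent.RG.Low78
import Pool.Agent.RG.RD78

/-!
# The arithmetic inequality for sums of consecutive gaps
-/

open scoped ContDiff

namespace Pool.Agent.RG

open MeasureTheory Finset ArithmeticFunction Filter Topology Pool.Agent.ZGap.Res

lemma f_supp (R : ResData) (x : ℝ) (hx : x ∉ Set.Ioo R.ep ((R.th + 1 / 2) / 2)) : R.f x = 0 := by
  rw [Set.mem_Ioo, not_and_or, not_lt, not_lt] at hx
  rcases hx with h | h
  · exact R.f_low x h
  · exact R.f_high x h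

/-- The amplitude is Lipschitz. -/
lemma f_lip (R : ResData) : ∃ K : ℝ, 0 ≤ K ∧ ∀ x y, |R.f x - R.f y| ≤ K * |x - y| := by
  have h1 : HasCompactSupport R.f := by
    apply HasCompactSupport.intro (isCompact_Icc (a := R.ep) (b := (R.th + 1 / 2) / 2))
    intro x hx
    exact f_supp R x fun h => hx ⟨h.1.le, h.2.le⟩
  obtain ⟨C, hC⟩ := ContDiff.lipschitzWith_of_hasCompactSupport h1 R.f_smooth (by simp)
  refine ⟨C, C.2, fun x y => ?_⟩
  have := hC.dist_le_mul x y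
  rwa [Real.dist_eq, Real.dist_eq] at this

lemma f_continuous (R : ResData) : Continuous R.f := R.f_smooth.continuous

/-- The sum of the kernel against the amplitude, outside of a finite set. -/
lemma kf_lim (R : ResData) {k : ℝ → ℝ} {Kk Mk δ : ℝ} (hKk : 0 ≤ Kk)
    (hkl : ∀ x y, |k x - k y| ≤ Kk * |x - y|) (hkb : ∀ x, |k x| ≤ Mk) (hδ : 0 < δ) :
    ∃ T0 : ℝ, Real.exp 3 ≤ T0 ∧ ∀ T : ℝ, T0 ≤ T → ∀ U ⊆ PP T, uu R T U ≤ 1 →
      |∑ p ∈ PP T \ U, wt T p * (k (xi T p) * R.f (xi T p)) - ∫ x in (0:ℝ)..1, k x * R.f x| ≤ δ := by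
  obtain ⟨Kf, hKf, hfl⟩ := f_lip R
  obtain ⟨C, hC, T1, hT1, h⟩ := inner_sum R
  have hMk : 0 ≤ Mk := (abs_nonneg _).trans (hkb 0)
  obtain ⟨T2, hT2⟩ := eventually_atTop.mp
    (Real.tendsto_log_atTop.eventually_ge_atTop (C * ((Mk * Kf + Kk) + Mk) / δ))
  refine ⟨max T1 T2, hT1.trans (le_max_left _ _), fun T hT U hU hu => ?_⟩
  have hTT1 : T1 ≤ T := (le_max_left _ _).trans hT
  have h1T : 1 < T := lt_of_lt_of_le (Real.one_lt_exp_iff.mpr (by norm_num)) (hT1.trans hTT1)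
  have hL : 0 < Real.log T := Real.log_pos h1T
  have h2 := hT2 T ((le_max_right _ _).trans hT)
  have h3 := h T hTT1 (fun x => k x * R.f x) (Mk * Kf + Kk) Mk (by positivity) hMk
    (fun x hx => by simp only [f_supp R x hx, mul_zero])
    (fun x y => by
      have e1 : k x * R.f x - k y * R.f y = k x * (R.f x - R.f y) + (k x - k y) * R.f y := by ring
      rw [e1]
      refine (abs_add_le _ _).trans ?_
      rw [abs_mul, abs_mul]
      have g1 := mul_le_mul (hkb x) (hfl x y) (abs_nonneg _) hMk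
      have g2 := mul_le_mul (hkl x y) (R.f_le y) (abs_nonneg _) (by positivity)
      linarith)
    (fun x => by
      rw [abs_mul]
      calc |k x| * |R.f x| ≤ Mk * 1 := mul_le_mul (hkb x) (R.f_le x) (abs_nonneg _) hMk
        _ = Mk := mul_one _) U hU hu
  refine h3.trans ?_
  rw [div_le_iff₀ hL]
  rw [div_le_iff₀ hδ] at h2
  linarith

/-- The mean length of the resonator. -/
lemma cc_lim1 (R : ResData) {δ : ℝ} (hδ : 0 < δ) :
    ∃ T0 : ℝ, Real.exp 3 ≤ T0 ∧ ∀ T : ℝ, T0 ≤ T →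
      ∑ p ∈ PP T, cc R T p ^ 2 * xi T p ≤ R.r ^ 2 * (∫ x in (0:ℝ)..1, R.f x ^ 2) + δ := by
  obtain ⟨Kf, hKf, hfl⟩ := f_lip R
  obtain ⟨T0, hT0, h⟩ := kf_lim R (k := R.f) hKf hfl R.f_le
    (δ := δ / (R.r ^ 2 + 1)) (by positivity)
  refine ⟨T0, hT0, fun T hT => ?_⟩
  have hTe := hT0.trans hT
  have h1T : 1 < T := lt_of_lt_of_le (Real.one_lt_exp_iff.mpr (by norm_num)) hTe
  have hth := th_pos R
  have h1 := (abs_le.mp (h T hT ∅ (empty_subset _) (by
    unfold uu ell; simp))).2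
  rw [sdiff_empty] at h1
  have e1 : ∑ p ∈ PP T, cc R T p ^ 2 * xi T p =
      R.r ^ 2 * ∑ p ∈ PP T, wt T p * (R.f (xi T p) * R.f (xi T p)) := by
    rw [mul_sum]
    refine sum_congr rfl fun p hp => ?_
    have h2 := cc_sq_mul (R := R) h1T (mem_PP.mp hp).1.pos
    rw [← mul_div_assoc, div_mul_eq_mul_div, div_left_inj' hth.ne'] at h2
    rw [h2]
    ring
  have e2 : ∫ x in (0:ℝ)..1, R.f x ^ 2 = ∫ x in (0:ℝ)..1, R.f x * R.f x := by
    refine intervalIntegral.integral_congr fun x _ => ?_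
    simp only [sq]
  rw [e1, e2]
  have h3 : ∑ p ∈ PP T, wt T p * (R.f (xi T p) * R.f (xi T p)) ≤
      (∫ x in (0:ℝ)..1, R.f x * R.f x) + δ / (R.r ^ 2 + 1) := by linarith
  have h4 : R.r ^ 2 * (δ / (R.r ^ 2 + 1)) ≤ δ := by
    rw [← mul_div_assoc, div_le_iff₀ (by positivity)]
    nlinarith
  have h5 := mul_le_mul_of_nonneg_left h3 (sq_nonneg R.r)
  linarith

lemma sinc_sq_scale {c : ℝ} (hc : 0 < c) (x y : ℝ) :
    ∫ u in x..y, Real.sinc (Real.pi * c * u) ^ 2 =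
      (Real.pi * c)⁻¹ * ∫ v in (Real.pi * c * x)..(Real.pi * c * y), Real.sinc v ^ 2 := by
  have hpc : Real.pi * c ≠ 0 := (mul_pos Real.pi_pos hc).ne'
  rw [intervalIntegral.integral_comp_mul_left (fun v => Real.sinc v ^ 2) hpc, smul_eq_mul]

/-- The square of the amplitude has integral at most `1 / (2 c)`. -/
lemma int_f_sq {f : ℝ → ℝ} {c : ℝ} (hc : 0 < c) (hf : Continuous f)
    (h : ∀ x, |f x| ≤ |Real.sinc (Real.pi * c * x)|) :
    ∫ x in (0:ℝ)..1, f x ^ 2 ≤ 1 / (2 * c) := by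
  have hpi := Real.pi_pos
  have hs : Continuous fun x : ℝ => Real.sinc (Real.pi * c * x) ^ 2 := by
    have := Real.continuous_sinc
    fun_prop
  have h1 : ∫ x in (0:ℝ)..1, f x ^ 2 ≤ ∫ x in (0:ℝ)..1, Real.sinc (Real.pi * c * x) ^ 2 := by
    apply intervalIntegral.integral_mono_on zero_le_one
      ((hf.pow 2).intervalIntegrable _ _) (hs.intervalIntegrable _ _)
    intro x _
    exact sq_le_sq.mpr (h x)
  rw [sinc_sq_scale hc, mul_zero, mul_one] at h1
  have h2 : ∫ v in (0:ℝ)..(Real.pi * c), Real.sinc v ^ 2 ≤ Real.pi / 2 := by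
    rw [← integral_Ioi_sinc_sq, intervalIntegral.integral_of_le (by positivity)]
    exact setIntegral_mono_set integrable_sinc_sq.integrableOn
      (Eventually.of_forall fun x => sq_nonneg _) (Set.Ioc_subset_Ioi_self.eventuallyLE)
  refine h1.trans ?_
  calc (Real.pi * c)⁻¹ * ∫ v in (0:ℝ)..(Real.pi * c), Real.sinc v ^ 2 ≤
        (Real.pi * c)⁻¹ * (Real.pi / 2) := by gcongr
    _ = _ := by field_simp

/-- The main integral. -/
lemma int_k0_f {c ep b A B e : ℝ} (hc : 0 < c) (hep : 0 < ep) (hb : 0 < b) (hA : 0 < A)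
    (hAB : A < B) (hA' : 2 * ep ≤ A / (Real.pi * c)) (hB' : B / (Real.pi * c) ≤ b / 2)
    (hb1 : b ≤ 1) (h : Real.pi / 2 - e ≤ ∫ x in A..B, (Real.sin x / x) ^ 2) :
    Real.pi - 2 * e ≤ ∫ x in (0:ℝ)..1, k0 c x * (cutf ep b x * Real.sinc (Real.pi * c * x)) := by
  have hpi := Real.pi_pos
  have hpc : 0 < Real.pi * c := mul_pos hpi hc
  have hcs := Real.continuous_sinc
  have hcc : Continuous (cutf ep b) := (cutf_smooth ep b).continuous
  have hg : Continuous fun x => k0 c x * (cutf ep b x * Real.sinc (Real.pi * c * x)) := by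
    unfold k0
    fun_prop
  have hg0 : ∀ x, 0 ≤ k0 c x * (cutf ep b x * Real.sinc (Real.pi * c * x)) := by
    intro x
    unfold k0
    have h1 := cutf_nonneg ep b x
    have h2 : 0 ≤ 2 * (Real.pi * c) * cutf ep b x * Real.sinc (Real.pi * c * x) ^ 2 := by positivity
    calc (0:ℝ) ≤ _ := h2
      _ = _ := by ring
  have hA0 : 0 < A / (Real.pi * c) := by positivity
  have hAB' : A / (Real.pi * c) ≤ B / (Real.pi * c) := by gcongr
  have h1 : ∫ x in (A / (Real.pi * c))..(B / (Real.pi * c)),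
      k0 c x * (cutf ep b x * Real.sinc (Real.pi * c * x)) ≤
      ∫ x in (0:ℝ)..1, k0 c x * (cutf ep b x * Real.sinc (Real.pi * c * x)) := by
    apply intervalIntegral.integral_mono_interval hA0.le hAB' (by linarith)
      (Eventually.of_forall hg0) (hg.intervalIntegrable _ _)
  refine le_trans ?_ h1
  have e1 : ∫ x in (A / (Real.pi * c))..(B / (Real.pi * c)),
      k0 c x * (cutf ep b x * Real.sinc (Real.pi * c * x)) =
      ∫ x in (A / (Real.pi * c))..(B / (Real.pi * c)),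
        2 * (Real.pi * c) * Real.sinc (Real.pi * c * x) ^ 2 := by
    refine intervalIntegral.integral_congr fun x hx => ?_
    rw [Set.uIcc_of_le hAB'] at hx
    rw [cutf_mid hep hb (hA'.trans hx.1) (hx.2.trans hB')]
    unfold k0
    ring
  rw [e1, intervalIntegral.integral_const_mul, sinc_sq_scale hc, mul_div_cancel₀ _ hpc.ne',
    mul_div_cancel₀ _ hpc.ne']
  have e2 : ∫ v in A..B, Real.sinc v ^ 2 = ∫ x in A..B, (Real.sin x / x) ^ 2 := by
    refine intervalIntegral.integral_congr fun x hx => ?_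
    rw [Set.uIcc_of_le hAB.le] at hx
    have hx0 : x ≠ 0 := by linarith [hx.1]
    rw [Real.sinc_of_ne_zero hx0]
  rw [e2]
  have e3 : 2 * (Real.pi * c) * ((Real.pi * c)⁻¹ * ∫ x in A..B, (Real.sin x / x) ^ 2) =
      2 * ∫ x in A..B, (Real.sin x / x) ^ 2 := by
    field_simp
  rw [e3]
  linarith

/-- **The prime sum of the resonator is almost optimal.** -/
theorem S1_main {ε θ : ℝ} (hε : 0 < ε) (hε1 : ε ≤ 1) (hθ : 0 < θ) (hθ' : θ < 1 / 2) :
    ∃ c0 : ℝ, 0 < c0 ∧ ∀ c : ℝ, c0 ≤ c → ∀ σ : ℝ, (σ = 1 ∨ σ = -1) →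
    ∃ R : ResData, R.th = θ ∧ (∀ x, R.F x ≤ 1) ∧ R.F 0 = 1 ∧ ∃ e : ℝ, 0 < e ∧
    ∀ (k : ℝ → ℝ) (Kk Mk : ℝ), 0 ≤ Kk → (∀ x y, |k x - k y| ≤ Kk * |x - y|) → (∀ x, |k x| ≤ Mk) →
    (∀ x, 0 ≤ x → x ≤ 1 → |k x - k0 c x| ≤ e) →
    ∃ T0 : ℝ, Real.exp 3 ≤ T0 ∧ ∀ T : ℝ, T0 ≤ T →
      (2 - ε / 2) * √(2 * θ * c) * DD R T ≤ 2 / Real.pi * (σ * S1 R T k) := by
  have hpi := Real.pi_pos
  have hpi3 := Real.pi_gt_three
  obtain ⟨A, B, hA, hAB, hint⟩ := sinc_sq_int (e := ε / 16) (by linarith)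
  obtain ⟨ε1, hε1d⟩ : ∃ ε1 : ℝ, ε1 = ε / 16 := ⟨_, rfl⟩
  have hε10 : 0 < ε1 := by linarith
  have hε11 : ε1 ≤ 1 / 16 := by linarith
  obtain ⟨lam, hlamd⟩ : ∃ lam : ℝ, lam = 64 / (θ * ε1 * ε) := ⟨_, rfl⟩
  have hlam : 0 < lam := by rw [hlamd]; positivity
  obtain ⟨b, hbd⟩ : ∃ b : ℝ, b = min (θ * ε1 / 8) (ε1 / 8 / lam) := ⟨_, rfl⟩
  have hb0 : 0 < b := by rw [hbd]; positivity
  have hb1 : b ≤ θ * ε1 / 8 := by rw [hbd]; exact min_le_left _ _
  have hb2 : lam * b ≤ ε1 / 8 := by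
    have : b ≤ ε1 / 8 / lam := by rw [hbd]; exact min_le_right _ _
    rw [le_div_iff₀ hlam] at this
    linarith
  have hbθ : b ≤ θ := by nlinarith
  have hB : 0 < B := hA.trans hAB
  refine ⟨2 * B / (Real.pi * b), by positivity, fun c hc σ hσ => ?_⟩
  have hc0 : 0 < c := lt_of_lt_of_le (by positivity) hc
  have hpc : 0 < Real.pi * c := mul_pos hpi hc0
  have hBb : B / (Real.pi * c) ≤ b / 2 := by
    rw [div_le_iff₀ (by positivity)] at hc
    rw [div_le_iff₀ hpc]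
    linarith
  obtain ⟨ep, hepd⟩ : ∃ ep : ℝ, ep = A / (Real.pi * c) / 2 := ⟨_, rfl⟩
  have hep0 : 0 < ep := by rw [hepd]; positivity
  have hepA : 2 * ep ≤ A / (Real.pi * c) := by rw [hepd]; linarith
  have hepb : 4 * ep ≤ b := by
    have : A / (Real.pi * c) ≤ B / (Real.pi * c) := by gcongr
    rw [hepd]
    linarith
  obtain ⟨ρ, hρd⟩ : ∃ ρ : ℝ, ρ = √(2 * c * (θ * (1 - ε1))) := ⟨_, rfl⟩
  have h1ε : 0 < 1 - ε1 := by linarith
  have hρ0 : 0 < ρ := by rw [hρd]; exact Real.sqrt_pos.mpr (by positivity)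
  have hρ2 : ρ ^ 2 = 2 * c * (θ * (1 - ε1)) := by rw [hρd]; exact Real.sq_sqrt (by positivity)
  have hσ2 : σ * σ = 1 := by rcases hσ with h | h <;> rw [h] <;> norm_num
  obtain ⟨R, hRth, hRep, hRr, hF, hF0, hF1, hf⟩ := exists_RD (θ := θ) (η := ε1 / 8) (b := b)
    (ep := ep) (c := c) (σ * ρ) hθ' (by linarith) (by linarith) hbθ hep0 hepb hc0
  refine ⟨R, hRth, hF, hF0, ε / 32, by linarith, fun k Kk Mk hKk hkl hkb hk => ?_⟩
  have hr2 : R.r ^ 2 = 2 * c * (θ * (1 - ε1)) := by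
    rw [hRr, mul_pow, hρ2, sq σ, hσ2, one_mul]
  have hfb : ∀ x, b ≤ x → R.f x = 0 := fun x hx => by rw [hf, cutf_high hb0 hx, zero_mul]
  -- the integrals
  have hI1 : R.r ^ 2 * (∫ x in (0:ℝ)..1, R.f x ^ 2) ≤ θ * (1 - ε1) := by
    have h1 := int_f_sq hc0 (f_continuous R) (fun x => by
      rw [hf, abs_mul, abs_of_nonneg (cutf_nonneg ep b x)]
      exact mul_le_of_le_one_left (abs_nonneg _) (cutf_le_one ep b x))
    calc R.r ^ 2 * (∫ x in (0:ℝ)..1, R.f x ^ 2) ≤ R.r ^ 2 * (1 / (2 * c)) := by gcongr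
      _ = _ := by rw [hr2]; field_simp
  have hI2 : Real.pi - ε / 8 - ε / 32 ≤ ∫ x in (0:ℝ)..1, k x * R.f x := by
    have h1 := int_k0_f hc0 hep0 hb0 hA hAB hepA hBb (by linarith) hint
    have e1 : ∫ x in (0:ℝ)..1, k0 c x * (cutf ep b x * Real.sinc (Real.pi * c * x)) =
        ∫ x in (0:ℝ)..1, k0 c x * R.f x := by
      refine intervalIntegral.integral_congr fun x _ => ?_
      simp only [hf]
    rw [e1] at h1
    have hk0c : Continuous (k0 c) := by
      have := Real.continuous_sinc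
      unfold k0
      fun_prop
    have hkc : Continuous k := by
      have : LipschitzWith (Real.toNNReal Kk) k := by
        refine LipschitzWith.of_dist_le_mul fun x y => ?_
        rw [Real.dist_eq, Real.dist_eq, Real.coe_toNNReal _ hKk]
        exact hkl x y
      exact this.continuous
    have hfc := f_continuous R
    have h2 : ∫ x in (0:ℝ)..1, (k0 c x * R.f x - ε / 32) ≤ ∫ x in (0:ℝ)..1, k x * R.f x := by
      apply intervalIntegral.integral_mono_on zero_le_one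
        ((by fun_prop : Continuous fun x => k0 c x * R.f x - ε / 32).intervalIntegrable _ _)
        ((by fun_prop : Continuous fun x => k x * R.f x).intervalIntegrable _ _)
      intro x hx
      have h3 : |(k0 c x - k x) * R.f x| ≤ ε / 32 * 1 := by
        rw [abs_mul, abs_sub_comm]
        exact mul_le_mul (hk x hx.1 hx.2) (R.f_le x) (abs_nonneg _) (by linarith)
      linarith [(abs_le.mp h3).2]
    rw [intervalIntegral.integral_sub
      ((by fun_prop : Continuous fun x => k0 c x * R.f x).intervalIntegrable _ _)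
      (continuous_const.intervalIntegrable _ _), intervalIntegral.integral_const] at h2
    simp only [sub_zero, smul_eq_mul, one_mul] at h2
    linarith
  obtain ⟨T1, hT1, h1⟩ := kf_lim R (δ := ε / 32) hKk hkl hkb (by linarith)
  obtain ⟨T2, hT2, h2⟩ := cc_lim1 R (δ := θ * ε1 / 8) (by positivity)
  refine ⟨max T1 T2, hT1.trans (le_max_left _ _), fun T hT => ?_⟩
  have hTT1 : T1 ≤ T := (le_max_left _ _).trans hT
  have hTT2 : T2 ≤ T := (le_max_right _ _).trans hT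
  have hTe : Real.exp 3 ≤ T := hT1.trans hTT1
  have h1T : 1 < T := lt_of_lt_of_le (Real.one_lt_exp_iff.mpr (by norm_num)) hTe
  -- the short sets
  have hM := (h2 T hTT2).trans (add_le_add_left hI1 _)
  have hshort := short_ge (R := R) h1T (X := R.th * (1 - ε1 / 8) - b) hlam.le
    (by linarith : 0 ≤ ε1 / 8) (by linarith) hb2 hfb hM
  have hexp : Real.exp (-(lam * (R.th * (1 - ε1 / 8) - b - (1 + ε1 / 8) *
      (θ * (1 - ε1) + θ * ε1 / 8)))) ≤ ε / 32 := by
    have g1 : θ * ε1 / 2 ≤ R.th * (1 - ε1 / 8) - b - (1 + ε1 / 8) *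
      (θ * (1 - ε1) + θ * ε1 / 8) := by
      rw [hRth]
      have : 0 < θ * ε1 * ε1 := by positivity
      nlinarith
    have g2 : lam * (θ * ε1 / 2) = 32 / ε := by
      rw [hlamd]; field_simp; norm_num
    have g3 : 32 / ε ≤ lam * (R.th * (1 - ε1 / 8) - b - (1 + ε1 / 8) *
      (θ * (1 - ε1) + θ * ε1 / 8)) := by
      rw [← g2]; exact mul_le_mul_of_nonneg_left g1 hlam.le
    have g4 : Real.exp (-(32 / ε)) ≤ ε / 32 := by
      rw [Real.exp_neg]
      have g5 : 32 / ε ≤ Real.exp (32 / ε) := by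
        have := Real.add_one_le_exp (32 / ε)
        linarith
      calc (Real.exp (32 / ε))⁻¹ ≤ (32 / ε)⁻¹ := inv_anti₀ (by positivity) g5
        _ = ε / 32 := by rw [inv_div]
    exact (Real.exp_le_exp.mpr (neg_le_neg g3)).trans g4
  -- the prime sum
  have hJpos : 0 ≤ Real.pi - ε / 8 - ε / 32 - ε / 32 := by linarith
  have hS := S1_ge (R := R) hTe (c := c) (J1 := ρ * (Real.pi - ε / 8 - ε / 32 - ε / 32)) hF hF1
    hb0.le (by linarith) hfb (by linarith : 0 ≤ ε / 32) hk hρ0.le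
    (show σ * R.r = ρ by rw [hRr, ← mul_assoc, hσ2, one_mul])
    (fun x => by
      rw [hf]
      unfold k0
      have g1 := cutf_nonneg ep b x
      have g2 : 0 ≤ 2 * (Real.pi * c) * cutf ep b x * Real.sinc (Real.pi * c * x) ^ 2 := by
        positivity
      calc (0:ℝ) ≤ _ := g2
        _ = _ := by ring)
    (fun U hU hu => by
      apply mul_le_mul_of_nonneg_left _ hρ0.le
      linarith [(abs_le.mp (h1 T hTT1 U hU hu)).1])
  have hE0 := E0_nonneg (R := R) (T := T)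
  have hDD : DD R T ≤ E0 R T := DD_le_E0 h1T fun x _ => hF x
  have hshort2 : (1 - ε / 32) * E0 R T ≤
      ∑ U ∈ (PP T).powerset with ell U ≤ (R.th * (1 - ε1 / 8) - b) * Real.log T, mu R T U := by
    refine le_trans ?_ hshort
    exact mul_le_mul_of_nonneg_right (by linarith) hE0
  have g1 : (1 - ε / 32) * E0 R T * (ρ * (Real.pi - ε / 8 - ε / 32 - ε / 32)) -
      3 * (ε / 32) * ρ * E0 R T ≤ σ * S1 R T k := by
    refine le_trans ?_ hS
    have := mul_le_mul_of_nonneg_right hshort2 (mul_nonneg hρ0.le hJpos)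
    linarith
  have g2 : Real.pi / 2 * (2 - ε / 4) * (ρ * E0 R T) ≤ σ * S1 R T k := by
    refine le_trans ?_ g1
    have e1 : (1 - ε / 32) * E0 R T * (ρ * (Real.pi - ε / 8 - ε / 32 - ε / 32)) -
      3 * (ε / 32) * ρ * E0 R T = ((1 - ε / 32) * (Real.pi - ε / 8 - ε / 32 - ε / 32) -
        3 * (ε / 32)) * (ρ * E0 R T) := by ring
    rw [e1]
    apply mul_le_mul_of_nonneg_right _ (by positivity)
    nlinarith
  have g3 : √(2 * θ * c) * (1 - ε1) ≤ ρ := by
    rw [hρd]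
    apply Real.le_sqrt_of_sq_le
    rw [mul_pow, Real.sq_sqrt (by positivity)]
    have : (1 - ε1) ^ 2 ≤ 1 - ε1 := by nlinarith
    calc 2 * θ * c * (1 - ε1) ^ 2 ≤ 2 * θ * c * (1 - ε1) := by gcongr
      _ = _ := by ring
  have hsq : 0 ≤ √(2 * θ * c) := Real.sqrt_nonneg _
  calc (2 - ε / 2) * √(2 * θ * c) * DD R T ≤ (2 - ε / 2) * √(2 * θ * c) * E0 R T :=
        mul_le_mul_of_nonneg_left hDD (mul_nonneg (by linarith) hsq)
    _ ≤ (2 - ε / 4) * (√(2 * θ * c) * (1 - ε1)) * E0 R T := by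
        apply mul_le_mul_of_nonneg_right _ hE0
        have : 2 - ε / 2 ≤ (2 - ε / 4) * (1 - ε1) := by rw [hε1d]; nlinarith
        calc (2 - ε / 2) * √(2 * θ * c) ≤ ((2 - ε / 4) * (1 - ε1)) * √(2 * θ * c) :=
              mul_le_mul_of_nonneg_right this hsq
          _ = _ := by ring
    _ ≤ (2 - ε / 4) * ρ * E0 R T := by
        apply mul_le_mul_of_nonneg_right _ hE0
        exact mul_le_mul_of_nonneg_left g3 (by linarith)
    _ = 2 / Real.pi * (Real.pi / 2 * (2 - ε / 4) * (ρ * E0 R T)) := by field_simp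
    _ ≤ 2 / Real.pi * (σ * S1 R T k) := mul_le_mul_of_nonneg_left g2 (by positivity)

end Pool.Agent.RG
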