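import Pool.Agent.RG.Num
import Pool.Agent.ZShort.LargePos2

/-!
# Sums of `r` consecutive gaps in every short interval (RH)
-/

open Filter Topology Finset MeasureTheory
open Pool.Agent.ZetaGaps

namespace Pool.Agent.RG

/-- **Sums of `r` consecutive gaps in every short interval, on both sides** (RH). -/
theorem rgaps_le_one (hRH : RiemannHypothesis) {a ε : ℝ} (ha : 0 < a) (ha1 : a ≤ 1) (hε : 0 < ε)
    (hε1 : ε ≤ 1) : ∃ r0 : ℕ, ∀ r : ℕ, r0 ≤ r → ∃ κ : ℝ, 0 < κ ∧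
      (∃ T0 : ℝ, ∀ T H : ℝ, T0 ≤ T → T ^ a ≤ H →
        κ * ((zeroCount (T + H) : ℝ) - zeroCount T) ≤
          (#{n ∈ Finset.Ioo (zeroCount T) (zeroCount (T + H)) |
            (r : ℝ) + (2 - ε) * √(a * r) < ∑ j ∈ Finset.range r, gap (n + j)} : ℝ) ∧
        κ * ((zeroCount (T + H) : ℝ) - zeroCount T) ≤
          (#{n ∈ Finset.Ioo (zeroCount T) (zeroCount (T + H)) |
            ∑ j ∈ Finset.range r, gap (n + j) < (r : ℝ) - (2 - ε) * √(a * r)} : ℝ)) ∧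
      (∃ N0 : ℕ, ∀ N M : ℕ, N0 ≤ N → (N : ℝ) ^ a ≤ M →
        κ * M ≤ (#{n ∈ Finset.Ioc N (N + M) |
          (r : ℝ) + (2 - ε) * √(a * r) < ∑ j ∈ Finset.range r, gap (n + j)} : ℝ) ∧
        κ * M ≤ (#{n ∈ Finset.Ioc N (N + M) |
          ∑ j ∈ Finset.range r, gap (n + j) < (r : ℝ) - (2 - ε) * √(a * r)} : ℝ)) := by
  obtain ⟨a', ha'⟩ : ∃ a' : ℝ, a' = a * (1 - ε / 8) ^ 2 := ⟨_, rfl⟩
  have h8 : 0 < 1 - ε / 8 := by linarith
  have ha'0 : 0 < a' := by rw [ha']; positivity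
  have ha'a : a' < a := by
    rw [ha']
    have : (1 - ε / 8) ^ 2 < 1 := by nlinarith
    nlinarith
  obtain ⟨r1, h1⟩ := few_final hRH ha'0 (by linarith) (ε := ε / 2) (by linarith) (by linarith)
  obtain ⟨r2, h2⟩ := crowd_final hRH ha'0 (by linarith) (ε := ε / 2) (by linarith) (by linarith)
  refine ⟨max r1 r2, fun r hr => ?_⟩
  obtain ⟨κ1, hκ1, N1, g1⟩ := h1 r ((le_max_left _ _).trans hr)
  obtain ⟨κ2, hκ2, N2, g2⟩ := h2 r ((le_max_right _ _).trans hr)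
  -- the deviations
  have hdev : (2 - ε) * √(a * r) ≤ (2 - ε / 2) * √(a' * r) := by
    have e1 : √(a' * r) = (1 - ε / 8) * √(a * r) := by
      rw [ha', show a * (1 - ε / 8) ^ 2 * r = (1 - ε / 8) ^ 2 * (a * r) by ring,
        Real.sqrt_mul (by positivity), Real.sqrt_sq h8.le]
    rw [e1, ← mul_assoc]
    apply mul_le_mul_of_nonneg_right _ (Real.sqrt_nonneg _)
    nlinarith
  have f1 : ∀ N M : ℕ, N1 ≤ N → (N : ℝ) ^ a' ≤ M →
      κ1 * M ≤ (({n ∈ Finset.Ioc N (N + M) |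
        (r : ℝ) + (2 - ε) * √(a * r) < ∑ j ∈ Finset.range r, gap (n + j)} : Finset ℕ).card : ℝ) := by
    intro N M hN hM
    refine (g1 N M hN hM).trans ?_
    rw [Nat.cast_le]
    apply Finset.card_le_card
    intro n hn
    rw [Finset.mem_filter] at hn ⊢
    exact ⟨hn.1, by linarith [hn.2]⟩
  have f2 : ∀ N M : ℕ, N2 ≤ N → (N : ℝ) ^ a' ≤ M →
      κ2 * M ≤ (({n ∈ Finset.Ioc N (N + M) |
        ∑ j ∈ Finset.range r, gap (n + j) < (r : ℝ) - (2 - ε) * √(a * r)} : Finset ℕ).card : ℝ) := by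
    intro N M hN hM
    refine (g2 N M hN hM).trans ?_
    rw [Nat.cast_le]
    apply Finset.card_le_card
    intro n hn
    rw [Finset.mem_filter] at hn ⊢
    exact ⟨hn.1, by linarith [hn.2]⟩
  obtain ⟨T1, k1⟩ := Pool.Agent.ZShort.height_of_index ha'0 ha'a ha1 hκ1 f1
  obtain ⟨T2, k2⟩ := Pool.Agent.ZShort.height_of_index ha'0 ha'a ha1 hκ2 f2
  refine ⟨min κ1 κ2 / 2, by positivity, ⟨max T1 T2, fun T H hT hH => ?_⟩,
    ⟨max (max N1 N2) 1, fun N M hN hM => ?_⟩⟩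
  · have hTT1 : T1 ≤ T := (le_max_left _ _).trans hT
    have hTT2 : T2 ≤ T := (le_max_right _ _).trans hT
    by_cases hz : zeroCount T ≤ zeroCount (T + H)
    · have hnn : (0 : ℝ) ≤ (zeroCount (T + H) : ℝ) - zeroCount T := by
        rw [sub_nonneg]; exact_mod_cast hz
      exact ⟨(mul_le_mul_of_nonneg_right (by linarith [min_le_left κ1 κ2]) hnn).trans
        (k1 T H hTT1 hH), (mul_le_mul_of_nonneg_right (by linarith [min_le_right κ1 κ2]) hnn).trans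
        (k2 T H hTT2 hH)⟩
    · push Not at hz
      have hneg : (zeroCount (T + H) : ℝ) - zeroCount T ≤ 0 := by
        rw [sub_nonpos]; exact_mod_cast hz.le
      have h0 : min κ1 κ2 / 2 * ((zeroCount (T + H) : ℝ) - zeroCount T) ≤ 0 :=
        mul_nonpos_of_nonneg_of_nonpos (by positivity) hneg
      exact ⟨h0.trans (Nat.cast_nonneg _), h0.trans (Nat.cast_nonneg _)⟩
  · have hN1 : N1 ≤ N := (le_max_left _ _).trans ((le_max_left _ _).trans hN)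
    have hN2 : N2 ≤ N := (le_max_right _ _).trans ((le_max_left _ _).trans hN)
    have hN3 : (1 : ℝ) ≤ N := by exact_mod_cast (le_max_right _ _).trans hN
    have hM' : (N : ℝ) ^ a' ≤ M :=
      (Real.rpow_le_rpow_of_exponent_le hN3 ha'a.le).trans hM
    have hM0 : (0 : ℝ) ≤ M := Nat.cast_nonneg _
    have hmin : 0 < min κ1 κ2 := by positivity
    exact ⟨(mul_le_mul_of_nonneg_right (by linarith [min_le_left κ1 κ2]) hM0).trans
      (f1 N M hN1 hM'), (mul_le_mul_of_nonneg_right (by linarith [min_le_right κ1 κ2]) hM0).trans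
      (f2 N M hN2 hM')⟩

/-- **Sums of `r` consecutive gaps in every short interval, on both sides** (RH), all `ε`. -/
theorem rgaps (hRH : RiemannHypothesis) {a ε : ℝ} (ha : 0 < a) (ha1 : a ≤ 1) (hε : 0 < ε) :
    ∃ r0 : ℕ, ∀ r : ℕ, r0 ≤ r → ∃ κ : ℝ, 0 < κ ∧
      (∃ T0 : ℝ, ∀ T H : ℝ, T0 ≤ T → T ^ a ≤ H →
        κ * ((zeroCount (T + H) : ℝ) - zeroCount T) ≤
          (#{n ∈ Finset.Ioo (zeroCount T) (zeroCount (T + H)) |
            (r : ℝ) + (2 - ε) * √(a * r) < ∑ j ∈ Finset.range r, gap (n + j)} : ℝ) ∧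
        κ * ((zeroCount (T + H) : ℝ) - zeroCount T) ≤
          (#{n ∈ Finset.Ioo (zeroCount T) (zeroCount (T + H)) |
            ∑ j ∈ Finset.range r, gap (n + j) < (r : ℝ) - (2 - ε) * √(a * r)} : ℝ)) ∧
      (∃ N0 : ℕ, ∀ N M : ℕ, N0 ≤ N → (N : ℝ) ^ a ≤ M →
        κ * M ≤ (#{n ∈ Finset.Ioc N (N + M) |
          (r : ℝ) + (2 - ε) * √(a * r) < ∑ j ∈ Finset.range r, gap (n + j)} : ℝ) ∧
        κ * M ≤ (#{n ∈ Finset.Ioc N (N + M) |
          ∑ j ∈ Finset.range r, gap (n + j) < (r : ℝ) - (2 - ε) * √(a * r)} : ℝ)) := by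
  obtain ⟨r0, h⟩ := rgaps_le_one hRH ha ha1 (ε := min ε 1) (lt_min hε one_pos) (min_le_right _ _)
  refine ⟨r0, fun r hr => ?_⟩
  obtain ⟨κ, hκ, ⟨T0, h1⟩, ⟨N0, h2⟩⟩ := h r hr
  have hdev : (2 - ε) * √(a * r) ≤ (2 - min ε 1) * √(a * r) :=
    mul_le_mul_of_nonneg_right (by linarith [min_le_left ε 1]) (Real.sqrt_nonneg _)
  have hup : ∀ s : Finset ℕ, ({n ∈ s | (r : ℝ) + (2 - min ε 1) * √(a * r) <
      ∑ j ∈ Finset.range r, gap (n + j)} : Finset ℕ) ⊆ {n ∈ s | (r : ℝ) + (2 - ε) * √(a * r) <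
      ∑ j ∈ Finset.range r, gap (n + j)} := by
    intro s n hn
    rw [Finset.mem_filter] at hn ⊢
    exact ⟨hn.1, by linarith [hn.2]⟩
  have hdn : ∀ s : Finset ℕ, ({n ∈ s | ∑ j ∈ Finset.range r, gap (n + j) <
      (r : ℝ) - (2 - min ε 1) * √(a * r)} : Finset ℕ) ⊆ {n ∈ s |
      ∑ j ∈ Finset.range r, gap (n + j) < (r : ℝ) - (2 - ε) * √(a * r)} := by
    intro s n hn
    rw [Finset.mem_filter] at hn ⊢
    exact ⟨hn.1, by linarith [hn.2]⟩
  refine ⟨κ, hκ, ⟨T0, fun T H hT hH => ?_⟩, ⟨N0, fun N M hN hM => ?_⟩⟩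
  · obtain ⟨g1, g2⟩ := h1 T H hT hH
    exact ⟨g1.trans (by exact_mod_cast Finset.card_le_card (hup _)),
      g2.trans (by exact_mod_cast Finset.card_le_card (hdn _))⟩
  · obtain ⟨g1, g2⟩ := h2 N M hN hM
    exact ⟨g1.trans (by exact_mod_cast Finset.card_le_card (hup _)),
      g2.trans (by exact_mod_cast Finset.card_le_card (hdn _))⟩

end Pool.Agent.RG
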