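import Pool.Agent.RG.D8
import Pool.Agent.RG.VV
import Pool.Agent.ZGap.Half.Box

/-!
# General amplitude: clone of `ZGap.Half.Box`
-/

open scoped ContDiff

namespace Pool.Agent.RG.FM

open MeasureTheory Real Set Pool.Agent.ZGap Pool.Agent.ZGap.Res Pool.Agent.ZGap.Res.FM Pool.Agent.HalfGap FM

/-- The double integral with an arbitrary shift. -/
lemma double_integral_shift {R : ResData} {Φ : ℝ → ℂ} (h : PhiOK R Φ) {T : ℝ} (hT0 : 0 ≤ T) (n : ℕ)
    {s : ℝ → ℝ} (hs : Continuous s) :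
    IntervalIntegrable (fun t => ∫ x : ℝ, ‖Φ x‖ * ‖Pr R T (t - s x)‖ ^ n) volume (T / 2) (3 * T) ∧
    ∫ t in (T / 2)..(3 * T), ∫ x : ℝ, ‖Φ x‖ * ‖Pr R T (t - s x)‖ ^ n =
      ∫ x : ℝ, ‖Φ x‖ * ∫ t in (T / 2)..(3 * T), ‖Pr R T (t - s x)‖ ^ n :=
  double_integral h hT0 n hs

/-- **Fourth moment of the resonator**, with an arbitrary shift. -/
theorem fourth_moment_shift (hRH : RiemannHypothesis) (R : ResData) : ∃ K T0 : ℝ, 0 < K ∧
    Real.exp 2 ≤ T0 ∧ ∀ T : ℝ, T0 ≤ T → ∀ a : ℝ,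
      ∫ t in (T / 2)..(3 * T), ‖Amp R T (t - a)‖ ^ 4 ≤ K * T * (1 + |a|) ^ (4 * NN R) := by
  obtain ⟨Φ, hΦ⟩ := exists_PhiOK R
  obtain ⟨K, T0, hK, hT0, hsm⟩ := shifted_moment hRH R (4 * NN R)
  have hth : 0 < R.th := by linarith [R.ep_th, R.ep_pos]
  have hc2 := one_le_c2 R
  set W := ∫ x, ‖Φ x‖ with hW
  have hW0 : 0 ≤ W := integral_nonneg fun x => norm_nonneg _
  set V := ∫ x, ‖Φ x‖ * (1 + |x|) ^ (4 * NN R) with hV
  have hV0 : 0 ≤ V := integral_nonneg fun x => by positivity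
  set A := (1 + 2 * π / R.th) ^ (4 * NN R) with hA
  have hA0 : 0 ≤ A := by positivity
  set D := (W ^ 2) ^ 3 * ((NN R + 1) ^ 4 * 3 ^ (4 * NN R)) with hD
  have hD0 : 0 ≤ D := by positivity
  refine ⟨D * (2 * W * (K * A * V) + 3 * W ^ 2 * c2 R ^ (4 * NN R)) + 1, T0, by positivity, hT0,
    fun T hT a => ?_⟩
  have hTe : Real.exp 2 ≤ T := hT0.trans hT
  have hTp : 0 < T := (Real.exp_pos _).trans_le hTe
  have hL2 : 2 ≤ Real.log T := by rw [Real.le_log_iff_exp_le hTp]; exact hTe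
  have hle : T / 2 ≤ 3 * T := by linarith
  have hshc := sh_continuous R T
  set P := (1 + |a|) ^ (4 * NN R) with hP
  have hP1 : 1 ≤ P := one_le_pow₀ (by linarith [abs_nonneg a])
  obtain ⟨im, em⟩ := double_integral (s := fun x => a + sh R T x) hΦ hTp.le (4 * NN R)
    (continuous_const.add hshc)
  obtain ⟨ip, ep⟩ := double_integral (s := fun x => a + -sh R T x) hΦ hTp.le (4 * NN R)
    (continuous_const.add hshc.neg)
  have hJm : ∀ t, Jm R Φ T (t - a) =
      ∫ x : ℝ, ‖Φ x‖ * ‖Pr R T (t - (a + sh R T x))‖ ^ (4 * NN R) := by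
    intro t
    unfold Jm
    refine integral_congr_ae (Filter.Eventually.of_forall fun x => ?_)
    simp only
    rw [sub_sub]
  have hJp : ∀ t, Jp R Φ T (t - a) =
      ∫ x : ℝ, ‖Φ x‖ * ‖Pr R T (t - (a + -sh R T x))‖ ^ (4 * NN R) := by
    intro t
    unfold Jp
    refine integral_congr_ae (Filter.Eventually.of_forall fun x => ?_)
    simp only
    congr 4
    ring
  -- bound of the double integrals
  have hbd : ∀ s : ℝ → ℝ, Continuous s → (∀ x, |s x| ≤ |a| + |sh R T x|) →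
      ∫ x : ℝ, ‖Φ x‖ * ∫ t in (T / 2)..(3 * T), ‖Pr R T (t - s x)‖ ^ (4 * NN R) ≤
        K * A * V * T * P := by
    intro s hs hsx
    have h1 : ∀ x, ‖Φ x‖ * ∫ t in (T / 2)..(3 * T), ‖Pr R T (t - s x)‖ ^ (4 * NN R) ≤
        K * A * T * P * (‖Φ x‖ * (1 + |x|) ^ (4 * NN R)) := by
      intro x
      have h2 := hsm T hT (s x)
      have h3 : (1 + |s x|) ^ (4 * NN R) ≤ P * (A * (1 + |x|) ^ (4 * NN R)) := by
        rw [hA, hP, ← mul_pow, ← mul_pow]
        have h4 := abs_sh_le R (by linarith : 1 ≤ Real.log T) x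
        have h5 := hsx x
        have h6 : 1 + |s x| ≤ (1 + |a|) * (1 + |sh R T x|) := by
          nlinarith [mul_nonneg (abs_nonneg a) (abs_nonneg (sh R T x))]
        have h7 : (1 + |a|) * (1 + |sh R T x|) ≤ (1 + |a|) * ((1 + 2 * π / R.th) * (1 + |x|)) := by
          gcongr
        have h8 : 0 ≤ 1 + |s x| := by positivity
        exact pow_le_pow_left₀ h8 (h6.trans h7) _
      calc _ ≤ ‖Φ x‖ * (K * T * (1 + |s x|) ^ (4 * NN R)) := by gcongr
        _ ≤ ‖Φ x‖ * (K * T * (P * (A * (1 + |x|) ^ (4 * NN R)))) := by gcongr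
        _ = _ := by ring
    have h2 : ∫ x : ℝ, ‖Φ x‖ * ∫ t in (T / 2)..(3 * T), ‖Pr R T (t - s x)‖ ^ (4 * NN R) ≤
        ∫ x : ℝ, K * A * T * P * (‖Φ x‖ * (1 + |x|) ^ (4 * NN R)) := by
      refine integral_mono_of_nonneg (Filter.Eventually.of_forall fun x => ?_)
        ((hΦ.int (4 * NN R)).const_mul _) (Filter.Eventually.of_forall h1)
      refine mul_nonneg (norm_nonneg _) ?_
      exact intervalIntegral.integral_nonneg hle fun t _ => by positivity
    refine h2.trans (le_of_eq ?_)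
    rw [integral_const_mul]
    ring
  have hJmb : ∫ t in (T / 2)..(3 * T), Jm R Φ T (t - a) ≤ K * A * V * T * P := by
    simp_rw [hJm]
    rw [em]
    exact hbd _ (continuous_const.add hshc) fun x => abs_add_le _ _
  have hJpb : ∫ t in (T / 2)..(3 * T), Jp R Φ T (t - a) ≤ K * A * V * T * P := by
    simp_rw [hJp]
    rw [ep]
    refine hbd _ (continuous_const.add hshc.neg) fun x => ?_
    have := abs_add_le a (-sh R T x)
    rwa [abs_neg] at this
  have im' : IntervalIntegrable (fun t => Jm R Φ T (t - a)) volume (T / 2) (3 * T) := by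
    have : (fun t => Jm R Φ T (t - a)) =
        fun t => ∫ x : ℝ, ‖Φ x‖ * ‖Pr R T (t - (a + sh R T x))‖ ^ (4 * NN R) := funext hJm
    rw [this]
    exact im
  have ip' : IntervalIntegrable (fun t => Jp R Φ T (t - a)) volume (T / 2) (3 * T) := by
    have : (fun t => Jp R Φ T (t - a)) =
        fun t => ∫ x : ℝ, ‖Φ x‖ * ‖Pr R T (t - (a + -sh R T x))‖ ^ (4 * NN R) := funext hJp
    rw [this]
    exact ip
  have hAmpc := Amp_continuous R T
  have hpt : ∀ t, ‖Amp R T (t - a)‖ ^ 4 ≤ D * (W * Jm R Φ T (t - a) + W * Jp R Φ T (t - a) +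
      W ^ 2 * c2 R ^ (4 * NN R)) := by
    intro t
    refine (norm_Amp_pow_le hΦ hTe (t - a)).trans (le_of_eq ?_)
    rw [hD]
    ring
  have i1 : IntervalIntegrable (fun t => W * Jm R Φ T (t - a) + W * Jp R Φ T (t - a)) volume
      (T / 2) (3 * T) := (im'.const_mul W).add (ip'.const_mul W)
  have i2 : IntervalIntegrable (fun t => (W * Jm R Φ T (t - a) + W * Jp R Φ T (t - a)) +
      W ^ 2 * c2 R ^ (4 * NN R)) volume (T / 2) (3 * T) := i1.add (by simp)
  calc ∫ t in (T / 2)..(3 * T), ‖Amp R T (t - a)‖ ^ 4 ≤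
      ∫ t in (T / 2)..(3 * T), D * ((W * Jm R Φ T (t - a) + W * Jp R Φ T (t - a)) +
        W ^ 2 * c2 R ^ (4 * NN R)) := by
        refine intervalIntegral.integral_mono_on hle ?_ (i2.const_mul D) fun t _ => hpt t
        exact (by fun_prop : Continuous fun t => ‖Amp R T (t - a)‖ ^ 4).intervalIntegrable _ _
    _ = D * (W * (∫ t in (T / 2)..(3 * T), Jm R Φ T (t - a)) +
          W * (∫ t in (T / 2)..(3 * T), Jp R Φ T (t - a)) +
          (3 * T - T / 2) * (W ^ 2 * c2 R ^ (4 * NN R))) := by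
        rw [intervalIntegral.integral_const_mul, intervalIntegral.integral_add i1 (by simp),
          intervalIntegral.integral_add (im'.const_mul W) (ip'.const_mul W),
          intervalIntegral.integral_const_mul, intervalIntegral.integral_const_mul,
          intervalIntegral.integral_const, smul_eq_mul]
    _ ≤ D * (W * (K * A * V * T * P) + W * (K * A * V * T * P) +
          (3 * T * P) * (W ^ 2 * c2 R ^ (4 * NN R))) := by
        gcongr
        nlinarith
    _ = (D * (2 * W * (K * A * V) + 3 * W ^ 2 * c2 R ^ (4 * NN R))) * T * P := by ring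
    _ ≤ _ := by
        have : 0 ≤ T * P := by positivity
        nlinarith

end Pool.Agent.RG.FM
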