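import Pool.Agent.Lib.Hadamard.Fejer

/-!
# The integral of the square of sinc over a compact part of the half line
-/

open MeasureTheory Set Filter Topology

namespace Pool.Agent.RG

lemma integrable_sinc_sq : Integrable (fun x : ℝ => Real.sinc x ^ 2) := by
  have h := Pool.Agent.Hadamard.fejerW_integrable
  have h2 : Integrable (fun x : ℝ => Pool.Agent.Hadamard.fejerW (2 * x)) :=
    h.comp_mul_left' (by norm_num : (2:ℝ) ≠ 0)
  refine (h2.const_mul (4 / 5)).congr (Eventually.of_forall fun x => ?_)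
  simp only [Pool.Agent.Hadamard.fejerW]
  rw [show 2 * x / 2 = x by ring]
  ring

lemma integral_sinc_sq : ∫ x : ℝ, Real.sinc x ^ 2 = Real.pi := by
  have h1 := Pool.Agent.Hadamard.integral_fejerW
  have h2 : ∫ x : ℝ, Pool.Agent.Hadamard.fejerW (2 * x) = |(2:ℝ)⁻¹| • ∫ y : ℝ,
      Pool.Agent.Hadamard.fejerW y := Measure.integral_comp_mul_left _ 2
  rw [h1, abs_of_pos (by norm_num), smul_eq_mul] at h2
  have h3 : ∀ x : ℝ, Pool.Agent.Hadamard.fejerW (2 * x) = 5 / 4 * Real.sinc x ^ 2 := by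
    intro x
    simp only [Pool.Agent.Hadamard.fejerW]
    rw [show 2 * x / 2 = x by ring]
  simp_rw [h3] at h2
  rw [integral_const_mul] at h2
  linarith

lemma integral_Ioi_sinc_sq : ∫ x in Ioi (0:ℝ), Real.sinc x ^ 2 = Real.pi / 2 := by
  have h1 := integral_comp_abs (f := fun x => Real.sinc x ^ 2)
  have h2 : ∀ x : ℝ, Real.sinc |x| ^ 2 = Real.sinc x ^ 2 := by
    intro x
    rcases abs_choice x with h | h <;> rw [h]
    rw [Real.sinc_neg]
  simp_rw [h2] at h1
  rw [integral_sinc_sq] at h1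
  linarith

/-- **The sinc integral.** -/
lemma sinc_sq_int {e : ℝ} (he : 0 < e) : ∃ A B : ℝ, 0 < A ∧ A < B ∧
    Real.pi / 2 - e ≤ ∫ x in A..B, (Real.sin x / x) ^ 2 := by
  have h1 : Tendsto (fun B : ℝ => ∫ x in (0:ℝ)..B, Real.sinc x ^ 2) atTop
      (𝓝 (∫ x in Ioi (0:ℝ), Real.sinc x ^ 2)) :=
    intervalIntegral_tendsto_integral_Ioi 0 integrable_sinc_sq.integrableOn tendsto_id
  rw [integral_Ioi_sinc_sq] at h1
  have h2 := (h1.eventually (lt_mem_nhds (show Real.pi / 2 - e / 2 < Real.pi / 2 by linarith))).and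
    (eventually_gt_atTop 1)
  obtain ⟨B, hB, hB1⟩ := h2.exists
  have hA0 : 0 < min (1 / 2) (e / 2) := lt_min (by norm_num) (by linarith)
  obtain ⟨A, hA, hAe⟩ : ∃ A : ℝ, A = min (1 / 2) (e / 2) ∧ A ≤ e / 2 :=
    ⟨_, rfl, min_le_right _ _⟩
  have hA1 : A ≤ 1 / 2 := hA.le.trans (min_le_left _ _)
  rw [← hA] at hA0
  have hc : Continuous (fun x : ℝ => Real.sinc x ^ 2) := Real.continuous_sinc.pow 2
  refine ⟨A, B, hA0, by linarith, ?_⟩
  have h3 : ∫ x in A..B, (Real.sin x / x) ^ 2 = ∫ x in A..B, Real.sinc x ^ 2 := by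
    refine intervalIntegral.integral_congr fun x hx => ?_
    rw [uIcc_of_le (by linarith)] at hx
    rw [Real.sinc_of_ne_zero (by linarith [hx.1])]
  have h4 : ∫ x in (0:ℝ)..A, Real.sinc x ^ 2 ≤ A := by
    have h5 := intervalIntegral.integral_mono_on (μ := volume) (a := 0) (b := A) hA0.le
      (hc.intervalIntegrable _ _) (intervalIntegrable_const (c := (1:ℝ)))
      (fun x _ => by
        have h6 := Real.abs_sinc_le_one x
        have h7 := abs_le.mp h6
        nlinarith)
    rw [intervalIntegral.integral_const, smul_eq_mul, mul_one, sub_zero] at h5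
    exact h5
  have h6 := intervalIntegral.integral_add_adjacent_intervals (μ := volume)
    (hc.intervalIntegrable 0 A) (hc.intervalIntegrable A B)
  rw [h3]
  have h7 : (∫ x in (0:ℝ)..B, Real.sinc x ^ 2) > Real.pi / 2 - e / 2 := hB
  rw [← h6] at h7
  linarith

end Pool.Agent.RG
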