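import Pool.Agent.RG.ChernU
import Pool.Agent.RG.Sinc
import Pool.Agent.ZGap.Res.Taylor

/-!
# A lower bound of the prime sum of the resonator
-/

namespace Pool.Agent.RG

open MeasureTheory Finset ArithmeticFunction Filter Topology Pool.Agent.ZGap.Res

variable {R : ResData} {T : ℝ}

/-- The prime sum is at least the contribution of the short sets, up to the error of the
kernel. -/
theorem S1_ge (hT : Real.exp 3 ≤ T) {b η c e ρ σ J1 : ℝ} {k : ℝ → ℝ}
    (hF : ∀ x, R.F x ≤ 1) (hF1 : ∀ x, 0 ≤ x → x ≤ 1 - η → R.F x = 1)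
    (hb0 : 0 ≤ b) (hη0 : 0 ≤ η) (hb : ∀ x, b ≤ x → R.f x = 0) (he : 0 ≤ e)
    (hk : ∀ x, 0 ≤ x → x ≤ 1 → |k x - k0 c x| ≤ e) (hρ : 0 ≤ ρ) (hσ : σ * R.r = ρ)
    (hpos : ∀ x, 0 ≤ k0 c x * R.f x)
    (hJ : ∀ U ⊆ PP T, uu R T U ≤ 1 →
      J1 ≤ ρ * ∑ p ∈ PP T \ U, wt T p * (k (xi T p) * R.f (xi T p))) :
    (∑ U ∈ (PP T).powerset with ell U ≤ (R.th * (1 - η) - b) * Real.log T, mu R T U) * J1 -
      3 * e * ρ * E0 R T ≤ σ * S1 R T k := by
  classical
  have h1T : 1 < T := lt_of_lt_of_le (Real.one_lt_exp_iff.mpr (by norm_num)) hT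
  have hL : 0 < Real.log T := Real.log_pos h1T
  have hth := th_pos R
  set G : Finset ℕ → ℝ := fun U => R.F (uu R T U) * (ρ * ∑ p ∈ PP T \ U,
      wt T p * (k (xi T p) * R.f (xi T p) * R.F (uu R T U + xi T p / R.th))) with hG
  have e1 : σ * S1 R T k = ∑ U ∈ (PP T).powerset, mu R T U * G U := by
    rw [S1_eq h1T, mul_sum]
    refine sum_congr rfl fun U _ => ?_
    simp only [hG]
    rw [← hσ]
    ring
  -- the lower bound for every set
  have hlow : ∀ U, -(3 * e * ρ) ≤ G U := by
    intro U
    simp only [hG]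
    have g1 : -(3 * e) ≤ ∑ p ∈ PP T \ U,
        wt T p * (k (xi T p) * R.f (xi T p) * R.F (uu R T U + xi T p / R.th)) := by
      have g2 : ∀ p ∈ PP T \ U, -(e * wt T p) ≤
          wt T p * (k (xi T p) * R.f (xi T p) * R.F (uu R T U + xi T p / R.th)) := by
        intro p hp
        rw [Finset.mem_sdiff] at hp
        have hpp := mem_PP.mp hp.1
        have hp0 : (0:ℝ) < p := by exact_mod_cast hpp.1.pos
        have hw := wt_nonneg h1T p
        have hx0 := xi_nonneg h1T p
        have hx1 : xi T p ≤ 1 := by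
          unfold xi
          rw [div_le_one hL]
          apply Real.log_le_log hp0
          exact (by exact_mod_cast hpp.2 : (p:ℝ) ≤ ⌊T⌋₊).trans (Nat.floor_le (by linarith))
        have h1 := abs_le.mp (hk _ hx0 hx1)
        have h2 := hpos (xi T p)
        have h3 := abs_le.mp (R.f_le (xi T p))
        have h4 := R.F_nonneg (uu R T U + xi T p / R.th)
        have h5 := hF (uu R T U + xi T p / R.th)
        have h6 : -e ≤ k (xi T p) * R.f (xi T p) := by
          have h7 : -e ≤ (k (xi T p) - k0 c (xi T p)) * R.f (xi T p) := by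
            have h8 : |(k (xi T p) - k0 c (xi T p)) * R.f (xi T p)| ≤ e * 1 := by
              rw [abs_mul]
              exact mul_le_mul (abs_le.mpr h1) (R.f_le _) (abs_nonneg _) he
            linarith [(abs_le.mp h8).1]
          linarith
        have h9 : -e ≤ k (xi T p) * R.f (xi T p) * R.F (uu R T U + xi T p / R.th) := by
          nlinarith
        nlinarith
      have g3 : -(3 * e) ≤ ∑ p ∈ PP T \ U, -(e * wt T p) := by
        rw [sum_neg_distrib, ← mul_sum]
        have g4 : ∑ p ∈ PP T \ U, wt T p ≤ ∑ p ∈ PP T, wt T p :=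
          sum_le_sum_of_subset_of_nonneg sdiff_subset fun p _ _ => wt_nonneg h1T p
        have g5 := sum_wt_le hT
        nlinarith
      exact g3.trans (sum_le_sum g2)
    have g6 := R.F_nonneg (uu R T U)
    have g7 := hF (uu R T U)
    have g8 : -(3 * e * ρ) ≤ ρ * ∑ p ∈ PP T \ U,
        wt T p * (k (xi T p) * R.f (xi T p) * R.F (uu R T U + xi T p / R.th)) := by
      nlinarith
    have g9 : 0 ≤ 3 * e * ρ := by positivity
    nlinarith
  -- short sets
  have hgood : ∀ U ∈ (PP T).powerset.filter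
      (fun U => ell U ≤ (R.th * (1 - η) - b) * Real.log T), J1 ≤ G U := by
    intro U hU
    rw [mem_filter, mem_powerset] at hU
    have hu0 := uu_nonneg (R := R) h1T U
    have hu : uu R T U + b / R.th ≤ 1 - η := by
      unfold uu
      rw [div_add_div _ _ (by positivity) hth.ne', div_le_iff₀ (by positivity)]
      have := mul_le_mul_of_nonneg_right hU.2 hth.le
      nlinarith
    have hbth : 0 ≤ b / R.th := by positivity
    have hFu : R.F (uu R T U) = 1 := hF1 _ hu0 (by linarith)
    have g1 : ∑ p ∈ PP T \ U, wt T p * (k (xi T p) * R.f (xi T p) *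
        R.F (uu R T U + xi T p / R.th)) =
        ∑ p ∈ PP T \ U, wt T p * (k (xi T p) * R.f (xi T p)) := by
      refine sum_congr rfl fun p _ => ?_
      by_cases hx : b ≤ xi T p
      · rw [hb _ hx]; ring
      · push Not at hx
        have hx0 := xi_nonneg h1T p
        have h2 : xi T p / R.th ≤ b / R.th := by gcongr
        have h3 : 0 ≤ xi T p / R.th := by positivity
        rw [hF1 (uu R T U + xi T p / R.th) (by linarith) (by linarith), mul_one]
    simp only [hG]
    rw [hFu, one_mul, g1]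
    exact hJ U hU.1 (by linarith)
  rw [e1]
  have e2 : ∑ U ∈ (PP T).powerset, mu R T U * G U =
      ∑ U ∈ (PP T).powerset.filter (fun U => ell U ≤ (R.th * (1 - η) - b) * Real.log T),
        mu R T U * G U +
      ∑ U ∈ (PP T).powerset.filter (fun U => ¬ ell U ≤ (R.th * (1 - η) - b) * Real.log T),
        mu R T U * G U := (sum_filter_add_sum_filter_not _ _ _).symm
  rw [e2]
  have e3 : (∑ U ∈ (PP T).powerset.filter (fun U => ell U ≤ (R.th * (1 - η) - b) * Real.log T),
      mu R T U) * J1 ≤ ∑ U ∈ (PP T).powerset.filter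
        (fun U => ell U ≤ (R.th * (1 - η) - b) * Real.log T), mu R T U * G U := by
    rw [sum_mul]
    exact sum_le_sum fun U hU => mul_le_mul_of_nonneg_left (hgood U hU) (mu_nonneg U)
  have e4 : -(3 * e * ρ * E0 R T) ≤ ∑ U ∈ (PP T).powerset.filter
      (fun U => ¬ ell U ≤ (R.th * (1 - η) - b) * Real.log T), mu R T U * G U := by
    have h1 : ∑ U ∈ (PP T).powerset.filter
        (fun U => ¬ ell U ≤ (R.th * (1 - η) - b) * Real.log T), mu R T U ≤ E0 R T :=
      sum_le_sum_of_subset_of_nonneg (filter_subset _ _) fun U _ _ => mu_nonneg U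
    have h2 : ∑ U ∈ (PP T).powerset.filter
        (fun U => ¬ ell U ≤ (R.th * (1 - η) - b) * Real.log T), mu R T U * (-(3 * e * ρ)) ≤
        ∑ U ∈ (PP T).powerset.filter
        (fun U => ¬ ell U ≤ (R.th * (1 - η) - b) * Real.log T), mu R T U * G U :=
      sum_le_sum fun U _ => mul_le_mul_of_nonneg_left (hlow U) (mu_nonneg U)
    rw [← sum_mul] at h2
    have h3 : 0 ≤ 3 * e * ρ := by positivity
    nlinarith
  linarith

/-- The short sets carry almost the whole weight. -/
theorem short_ge (hT : 1 < T) {lam d b X M1 : ℝ} (hlam : 0 ≤ lam) (hd : 0 ≤ d) (hd1 : d ≤ 1)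
    (hlb : lam * b ≤ d) (hb : ∀ x, b ≤ x → R.f x = 0)
    (hM : ∑ p ∈ PP T, cc R T p ^ 2 * xi T p ≤ M1) :
    (1 - Real.exp (-(lam * (X - (1 + d) * M1)))) * E0 R T ≤
      ∑ U ∈ (PP T).powerset with ell U ≤ X * Real.log T, mu R T U := by
  classical
  have h1 := chern (R := R) hT hlam X
  have h2 : E0 R T = ∑ U ∈ (PP T).powerset.filter (fun U => ell U ≤ X * Real.log T), mu R T U +
      ∑ U ∈ (PP T).powerset.filter (fun U => X * Real.log T < ell U), mu R T U := by
    unfold E0
    rw [← sum_filter_add_sum_filter_not (PP T).powerset (fun U => ell U ≤ X * Real.log T)]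
    congr 1
    refine sum_congr (filter_congr fun U _ => ?_) fun _ _ => rfl
    exact not_le
  have h3 : ∑ p ∈ PP T, cc R T p ^ 2 * (Real.exp (lam * xi T p) - 1) ≤
      lam * ((1 + d) * M1) := by
    have h4 : ∀ p ∈ PP T, cc R T p ^ 2 * (Real.exp (lam * xi T p) - 1) ≤
        lam * (1 + d) * (cc R T p ^ 2 * xi T p) := by
      intro p _
      have hx0 := xi_nonneg hT p
      by_cases hx : b ≤ xi T p
      · have : cc R T p = 0 := by
          unfold cc
          have : R.f (Real.log p / Real.log T) = 0 := hb _ hx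
          rw [this]; simp
        rw [this]; simp
      · push Not at hx
        have h5 : lam * xi T p ≤ d := (mul_le_mul_of_nonneg_left hx.le hlam).trans hlb
        have h6 : 0 ≤ lam * xi T p := mul_nonneg hlam hx0
        have h7 := Real.abs_exp_sub_one_sub_id_le (x := lam * xi T p)
          (by rw [abs_of_nonneg h6]; linarith)
        have h8 := (abs_le.mp h7).2
        have h9 : Real.exp (lam * xi T p) - 1 ≤ lam * (1 + d) * xi T p := by nlinarith
        calc _ ≤ cc R T p ^ 2 * (lam * (1 + d) * xi T p) :=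
              mul_le_mul_of_nonneg_left h9 (sq_nonneg _)
          _ = _ := by ring
    refine (sum_le_sum h4).trans ?_
    rw [← mul_sum]
    calc lam * (1 + d) * ∑ p ∈ PP T, cc R T p ^ 2 * xi T p ≤ lam * (1 + d) * M1 :=
          mul_le_mul_of_nonneg_left hM (by positivity)
      _ = _ := by ring
  have h4 : Real.exp (-(lam * X) + ∑ p ∈ PP T, cc R T p ^ 2 * (Real.exp (lam * xi T p) - 1)) ≤
      Real.exp (-(lam * (X - (1 + d) * M1))) := by
    apply Real.exp_le_exp.mpr
    nlinarith
  have h5 := mul_le_mul_of_nonneg_right h4 (E0_nonneg (R := R) (T := T))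
  linarith

end Pool.Agent.RG
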