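import Pool.Agent.RG.Moments
import Pool.Agent.ZGap.Res.Taylor

/-!
# Sums over the primes against the amplitude: limits
-/

open scoped ContDiff

namespace Pool.Agent.RG

open Finset Pool.Agent.ZGap.Res MeasureTheory

/-- The limit form of `prime_sum`. -/
lemma prime_lim {e b : ℝ} (he : 0 < e) (heb : e ≤ b) (hb : b < 1) {g : ℝ → ℝ} {K : ℝ}
    (h1 : ∀ x, x ∉ Set.Ioo e b → g x = 0) (h2 : ∀ x y, |g x - g y| ≤ K * |x - y|) {δ : ℝ}
    (hδ : 0 < δ) : ∃ T0 : ℝ, 3 ≤ T0 ∧ ∀ T : ℝ, T0 ≤ T →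
      |∑ p ∈ PP T, Real.log p / (p * Real.log T) * g (Real.log p / Real.log T) -
        ∫ x in (0:ℝ)..1, g x| ≤ δ := by
  obtain ⟨C, hC, T1, hT1, h⟩ := prime_sum he heb hb
  have hK : 0 ≤ K := by
    have := h2 0 1
    have h3 := abs_nonneg (g 0 - g 1)
    norm_num at this
    linarith
  have hM : ∀ x, |g x| ≤ K := by
    intro x
    by_cases hx : x ∈ Set.Ioo e b
    · have h0 : g 0 = 0 := h1 0 (fun h => by linarith [h.1])
      have h3 := h2 x 0
      rw [h0, sub_zero, sub_zero] at h3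
      refine h3.trans ?_
      have : |x| ≤ 1 := by rw [abs_of_pos (by linarith [hx.1])]; linarith [hx.2]
      exact mul_le_of_le_one_right hK this
    · rw [h1 x hx, abs_zero]; exact hK
  have ev : ∀ᶠ T : ℝ in Filter.atTop, C * (K + K) / δ ≤ Real.log T :=
    Real.tendsto_log_atTop.eventually_ge_atTop _
  obtain ⟨T2, hT2⟩ := Filter.eventually_atTop.1 ev
  refine ⟨max T1 T2, hT1.trans (le_max_left _ _), fun T hT => ?_⟩
  have h3 := h T ((le_max_left _ _).trans hT) g K K hK hK h1 h2 hM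
  have h4 := hT2 T ((le_max_right _ _).trans hT)
  have hL : 0 < Real.log T := Real.log_pos (by linarith [(le_max_left _ _).trans hT])
  refine h3.trans ?_
  rw [div_le_iff₀ hδ] at h4
  rw [div_le_iff₀ hL]
  linarith

lemma f_supp (R : ResData) : HasCompactSupport R.f := by
  refine HasCompactSupport.intro (K := Set.Icc R.ep ((R.th + 1 / 2) / 2)) isCompact_Icc
    fun x hx => ?_
  rw [Set.mem_Icc, not_and_or, not_le, not_le] at hx
  rcases hx with h | h
  · exact R.f_low x h.le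
  · exact R.f_high x h.le

lemma lip_of {g : ℝ → ℝ} (hg : ContDiff ℝ ∞ g) (hs : HasCompactSupport g) :
    ∃ K : ℝ, 0 ≤ K ∧ ∀ x y, |g x - g y| ≤ K * |x - y| := by
  obtain ⟨K, hK⟩ := ContDiff.lipschitzWith_of_hasCompactSupport hs hg (by simp)
  refine ⟨K, K.2, fun x y => ?_⟩
  have := hK.dist_le_mul x y
  rwa [Real.dist_eq, Real.dist_eq] at this

/-- **Mertens for the square of the coefficients.** -/
theorem cc_lim (R : ResData) {h : ℝ → ℝ} (hh : ContDiff ℝ ∞ h) {δ : ℝ} (hδ : 0 < δ) :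
    ∃ T0 : ℝ, 3 ≤ T0 ∧ ∀ T : ℝ, T0 ≤ T →
      |∑ p ∈ PP T, cc R T p ^ 2 * h (xi T p) -
        R.r ^ 2 * ∫ x in (0:ℝ)..1, R.f x ^ 2 * h x / x| ≤ δ := by
  have hep := R.ep_pos
  have hth := R.ep_th
  have hth2 := R.th_lt
  -- the function, smooth also at zero
  obtain ⟨g, hg⟩ : ∃ g : ℝ → ℝ, g = fun x => R.r ^ 2 * (R.f x ^ 2 * h x / x) := ⟨_, rfl⟩
  have hg0 : ∀ x, x ∉ Set.Ioo (R.ep / 2) ((R.th + 1 / 2) / 2) → g x = 0 := by
    intro x hx
    rw [Set.mem_Ioo, not_and_or, not_lt, not_lt] at hx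
    have : R.f x = 0 := by
      rcases hx with h1 | h1
      · exact R.f_low x (by linarith)
      · exact R.f_high x h1
    rw [hg]
    simp [this]
  have hsupp : HasCompactSupport g := by
    refine HasCompactSupport.intro (K := Set.Icc (R.ep / 2) ((R.th + 1 / 2) / 2)) isCompact_Icc
      fun x hx => hg0 x fun h => hx ⟨h.1.le, h.2.le⟩
  have hsm : ContDiff ℝ ∞ g := by
    rw [contDiff_iff_contDiffAt]
    intro x
    by_cases hx : x < R.ep
    · have : g =ᶠ[nhds x] fun _ => 0 := by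
        filter_upwards [gt_mem_nhds hx] with y hy
        rw [hg]
        simp [R.f_low y hy.le]
      exact contDiffAt_const.congr_of_eventuallyEq this
    · have hx0 : x ≠ 0 := by linarith
      rw [hg]
      exact contDiffAt_const.mul ((((R.f_smooth.contDiffAt).pow 2).mul hh.contDiffAt).div
        contDiffAt_id hx0)
  obtain ⟨K, -, hK⟩ := lip_of hsm hsupp
  obtain ⟨T0, hT0, hT⟩ := prime_lim (e := R.ep / 2) (b := (R.th + 1 / 2) / 2) (by linarith)
    (by linarith) (by linarith) hg0 hK hδ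
  refine ⟨T0, hT0, fun T hTT => ?_⟩
  have hL : 0 < Real.log T := Real.log_pos (by linarith)
  have h1 := hT T hTT
  have e1 : ∑ p ∈ PP T, cc R T p ^ 2 * h (xi T p) =
      ∑ p ∈ PP T, Real.log p / (p * Real.log T) * g (Real.log p / Real.log T) := by
    refine sum_congr rfl fun p hp => ?_
    have hpp := (mem_PP.mp hp).1
    have hp0 : (0:ℝ) < p := by exact_mod_cast hpp.pos
    have hlp : 0 < Real.log p := Real.log_pos (by exact_mod_cast hpp.one_lt)
    rw [cc_sq, hg]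
    unfold xi
    simp only
    field_simp
  have e2 : R.r ^ 2 * ∫ x in (0:ℝ)..1, R.f x ^ 2 * h x / x = ∫ x in (0:ℝ)..1, g x := by
    rw [hg, intervalIntegral.integral_const_mul]
  rw [e1, e2]
  exact h1

/-- **Mertens for the amplitude against a Lipschitz function.** -/
theorem fk_lim (R : ResData) {k : ℝ → ℝ} {Kk Mk : ℝ} (hk : ∀ x y, |k x - k y| ≤ Kk * |x - y|)
    (hM : ∀ x, |k x| ≤ Mk) {δ : ℝ} (hδ : 0 < δ) :
    ∃ T0 : ℝ, 3 ≤ T0 ∧ ∀ T : ℝ, T0 ≤ T →
      |∑ p ∈ PP T, Real.log p / (p * Real.log T) * (k (xi T p) * R.f (xi T p)) -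
        ∫ x in (0:ℝ)..1, k x * R.f x| ≤ δ := by
  have hep := R.ep_pos
  have hth := R.ep_th
  have hth2 := R.th_lt
  have hMk : 0 ≤ Mk := (abs_nonneg _).trans (hM 0)
  obtain ⟨Kf, hKf0, hKf⟩ := lip_of R.f_smooth (f_supp R)
  have hlip : ∀ x y, |k x * R.f x - k y * R.f y| ≤ (Mk * Kf + Kk) * |x - y| := by
    intro x y
    have e : k x * R.f x - k y * R.f y = k x * (R.f x - R.f y) + (k x - k y) * R.f y := by ring
    rw [e]
    refine (abs_add_le _ _).trans ?_
    rw [abs_mul, abs_mul]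
    have h1 := hM x
    have h2 := hKf x y
    have h3 := hk x y
    have h4 := R.f_le y
    have h5 : |k x| * |R.f x - R.f y| ≤ Mk * (Kf * |x - y|) := by gcongr
    have h6 : |k x - k y| * |R.f y| ≤ (Kk * |x - y|) * 1 := by
      apply mul_le_mul h3 h4 (abs_nonneg _) ((abs_nonneg _).trans h3)
    linarith
  obtain ⟨T0, hT0, hT⟩ := prime_lim (e := R.ep / 2) (b := (R.th + 1 / 2) / 2)
    (g := fun x => k x * R.f x) (by linarith) (by linarith) (by linarith) (fun x hx => by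
      rw [Set.mem_Ioo, not_and_or, not_lt, not_lt] at hx
      have : R.f x = 0 := by
        rcases hx with h1 | h1
        · exact R.f_low x (by linarith)
        · exact R.f_high x h1
      simp [this]) hlip hδ
  exact ⟨T0, hT0, fun T hTT => hT T hTT⟩

/-- The mean length. -/
theorem cc_xi_le (R : ResData) {δ : ℝ} (hδ : 0 < δ) :
    ∃ T0 : ℝ, 3 ≤ T0 ∧ ∀ T : ℝ, T0 ≤ T →
      ∑ p ∈ PP T, cc R T p ^ 2 * xi T p ≤ R.r ^ 2 * (∫ x in (0:ℝ)..1, R.f x ^ 2) + δ := by
  obtain ⟨T0, hT0, h⟩ := cc_lim R (h := fun x => x) contDiff_id hδ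
  refine ⟨T0, hT0, fun T hT => ?_⟩
  have h1 := (abs_le.1 (h T hT)).2
  have e : ∀ x : ℝ, R.f x ^ 2 * x / x = R.f x ^ 2 := by
    intro x
    by_cases hx : x = 0
    · rw [hx, R.f_low 0 R.ep_pos.le]
      simp
    · field_simp
  simp_rw [e] at h1
  linarith

/-- The sum over the primes outside of a short set. -/
theorem inner_ge (R : ResData) {k : ℝ → ℝ} {Kk Mk : ℝ} (hk : ∀ x y, |k x - k y| ≤ Kk * |x - y|)
    (hM : ∀ x, |k x| ≤ Mk) {δ : ℝ} (hδ : 0 < δ) :
    ∃ T0 : ℝ, Real.exp 3 ≤ T0 ∧ ∀ T : ℝ, T0 ≤ T → ∀ U ⊆ PP T, uu R T U ≤ 1 →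
      (∫ x in (0:ℝ)..1, k x * R.f x) - δ ≤
        ∑ p ∈ PP T \ U, wt T p * (k (xi T p) * R.f (xi T p)) := by
  have hMk : 0 ≤ Mk := (abs_nonneg _).trans (hM 0)
  have hKk : 0 ≤ Kk := by
    have := hk 0 1
    have h3 := abs_nonneg (k 0 - k 1)
    norm_num at this
    linarith
  obtain ⟨Kf, hKf0, hKf⟩ := lip_of R.f_smooth (f_supp R)
  obtain ⟨C, hC, T1, hT1, h⟩ := inner_sum R
  have ev : ∀ᶠ T : ℝ in Filter.atTop, C * ((Mk * Kf + Kk) + Mk) / δ ≤ Real.log T :=
    Real.tendsto_log_atTop.eventually_ge_atTop _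
  obtain ⟨T2, hT2⟩ := Filter.eventually_atTop.1 ev
  refine ⟨max T1 T2, hT1.trans (le_max_left _ _), fun T hT U hU hu => ?_⟩
  have hTe : Real.exp 3 ≤ T := (hT1.trans (le_max_left _ _)).trans hT
  have h1T : 1 < T := lt_of_lt_of_le (Real.one_lt_exp_iff.mpr (by norm_num)) hTe
  have hL : 0 < Real.log T := Real.log_pos h1T
  have h3 := h T ((le_max_left _ _).trans hT) (fun x => k x * R.f x) (Mk * Kf + Kk) Mk
    (by positivity) hMk (fun x hx => by
      rw [Set.mem_Ioo, not_and_or, not_lt, not_lt] at hx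
      have : R.f x = 0 := by
        rcases hx with h1 | h1
        · exact R.f_low x h1
        · exact R.f_high x h1
      simp [this]) (fun x y => by
      have e : k x * R.f x - k y * R.f y = k x * (R.f x - R.f y) + (k x - k y) * R.f y := by ring
      rw [e]
      refine (abs_add_le _ _).trans ?_
      rw [abs_mul, abs_mul]
      have h1 := hM x
      have h2 := hKf x y
      have h3 := hk x y
      have h4 := R.f_le y
      have h5 : |k x| * |R.f x - R.f y| ≤ Mk * (Kf * |x - y|) := by gcongr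
      have h6 : |k x - k y| * |R.f y| ≤ (Kk * |x - y|) * 1 := by
        apply mul_le_mul h3 h4 (abs_nonneg _) ((abs_nonneg _).trans h3)
      linarith) (fun x => by
      rw [abs_mul]
      have h1 := hM x
      have h4 := R.f_le x
      calc |k x| * |R.f x| ≤ Mk * 1 := by gcongr
        _ = Mk := mul_one _) U hU hu
  have h4 := hT2 T ((le_max_right _ _).trans hT)
  rw [div_le_iff₀ hδ] at h4
  have h5 : C * ((Mk * Kf + Kk) + Mk) / Real.log T ≤ δ := by
    rw [div_le_iff₀ hL]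
    linarith
  have h6 := (abs_le.1 (h3.trans h5)).1
  linarith

end Pool.Agent.RG
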