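import Pool.Agent.RG.Sinc
import Pool.Agent.ZGap.Res.Taylor

/-!
# The integrals of the amplitude `φ(x) sinc (π c x)`
-/

namespace Pool.Agent.RG

open MeasureTheory Set Pool.Agent.ZGap.Res

lemma int_sinc_scale {a b w : ℝ} (hw : 0 < w) :
    ∫ x in a..b, Real.sinc (w * x) ^ 2 = w⁻¹ * ∫ y in (w * a)..(w * b), Real.sinc y ^ 2 := by
  have h := intervalIntegral.integral_comp_mul_left (f := fun y : ℝ => Real.sinc y ^ 2) hw.ne'
    (a := a) (b := b)
  rw [smul_eq_mul] at h
  exact h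

lemma int_sinc_le {B : ℝ} (hB : 0 ≤ B) : ∫ y in (0:ℝ)..B, Real.sinc y ^ 2 ≤ Real.pi / 2 := by
  rw [← integral_Ioi_sinc_sq, intervalIntegral.integral_of_le hB]
  exact setIntegral_mono_set integrable_sinc_sq.integrableOn
    (Filter.Eventually.of_forall fun x => sq_nonneg _) (Filter.Eventually.of_forall
      (Ioc_subset_Ioi_self))

/-- **(c)** -/
theorem int_f_sq_le {f : ℝ → ℝ} {c : ℝ} (hc : 0 < c) (hf : Continuous f)
    (h : ∀ x, 0 ≤ x → x ≤ 1 → |f x| ≤ |Real.sinc (Real.pi * c * x)|) :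
    ∫ x in (0:ℝ)..1, f x ^ 2 ≤ 1 / (2 * c) := by
  have hpi := Real.pi_pos
  have hw : 0 < Real.pi * c := by positivity
  have hcs : Continuous (fun x : ℝ => Real.sinc (Real.pi * c * x) ^ 2) :=
    (Real.continuous_sinc.comp (continuous_const.mul continuous_id)).pow 2
  calc ∫ x in (0:ℝ)..1, f x ^ 2 ≤ ∫ x in (0:ℝ)..1, Real.sinc (Real.pi * c * x) ^ 2 := by
        apply intervalIntegral.integral_mono_on zero_le_one
        · exact (hf.pow 2).intervalIntegrable _ _
        · exact hcs.intervalIntegrable _ _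
        · intro x hx
          rw [← sq_abs (f x), ← sq_abs (Real.sinc _)]
          exact pow_le_pow_left₀ (abs_nonneg _) (h x hx.1 hx.2) 2
    _ = (Real.pi * c)⁻¹ * ∫ y in (Real.pi * c * 0)..(Real.pi * c * 1), Real.sinc y ^ 2 :=
        int_sinc_scale hw
    _ ≤ (Real.pi * c)⁻¹ * (Real.pi / 2) := by
        rw [mul_zero, mul_one]
        have := int_sinc_le hw.le
        gcongr
    _ = 1 / (2 * c) := by field_simp

/-- **(d)** -/
theorem int_k0_f_ge {φ : ℝ → ℝ} {c A B : ℝ} (hc : 0 < c) (hφ : Continuous φ)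
    (hφ0 : ∀ x, 0 ≤ φ x) (hA : 0 < A) (hAB : A < B) (hB : B ≤ Real.pi * c)
    (h1 : ∀ x, A / (Real.pi * c) ≤ x → x ≤ B / (Real.pi * c) → φ x = 1) :
    2 * ∫ x in A..B, (Real.sin x / x) ^ 2 ≤
      ∫ x in (0:ℝ)..1, k0 c x * (φ x * Real.sinc (Real.pi * c * x)) := by
  have hpi := Real.pi_pos
  have hw : 0 < Real.pi * c := by positivity
  obtain ⟨w, hwdef⟩ : ∃ w : ℝ, w = Real.pi * c := ⟨_, rfl⟩
  rw [← hwdef] at hw hB h1
  have hcs : Continuous (fun x : ℝ => Real.sinc (w * x)) :=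
    Real.continuous_sinc.comp (continuous_const.mul continuous_id)
  have e0 : ∀ x, k0 c x * (φ x * Real.sinc (Real.pi * c * x)) =
      2 * w * (φ x * Real.sinc (w * x) ^ 2) := by
    intro x
    unfold k0
    rw [← hwdef]
    ring
  simp_rw [e0]
  have hcont : Continuous (fun x => 2 * w * (φ x * Real.sinc (w * x) ^ 2)) :=
    continuous_const.mul (hφ.mul (hcs.pow 2))
  have hpos : ∀ x, 0 ≤ 2 * w * (φ x * Real.sinc (w * x) ^ 2) := fun x =>
    mul_nonneg (by positivity) (mul_nonneg (hφ0 x) (sq_nonneg _))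
  have hAw : 0 < A / w := by positivity
  have hBw : B / w ≤ 1 := by rw [div_le_one hw]; exact hB
  have hABw : A / w ≤ B / w := by gcongr
  have e1 : ∫ x in A..B, (Real.sin x / x) ^ 2 = ∫ x in A..B, Real.sinc x ^ 2 := by
    apply intervalIntegral.integral_congr
    intro x hx
    rw [uIcc_of_le hAB.le] at hx
    have : x ≠ 0 := by linarith [hx.1]
    simp only
    rw [Real.sinc_of_ne_zero this]
  have e2 : ∫ x in (A / w)..(B / w), 2 * w * (φ x * Real.sinc (w * x) ^ 2) =
      2 * ∫ x in A..B, Real.sinc x ^ 2 := by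
    have e3 : ∫ x in (A / w)..(B / w), 2 * w * (φ x * Real.sinc (w * x) ^ 2) =
        ∫ x in (A / w)..(B / w), 2 * w * Real.sinc (w * x) ^ 2 := by
      apply intervalIntegral.integral_congr
      intro x hx
      rw [uIcc_of_le hABw] at hx
      simp only
      rw [h1 x hx.1 hx.2, one_mul]
    rw [e3, intervalIntegral.integral_const_mul, int_sinc_scale hw]
    have e4 : w * (A / w) = A := by field_simp
    have e5 : w * (B / w) = B := by field_simp
    rw [e4, e5]
    field_simp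
  rw [e1, ← e2]
  have hii : ∀ a b : ℝ, IntervalIntegrable
      (fun x => 2 * w * (φ x * Real.sinc (w * x) ^ 2)) volume a b := fun a b =>
    hcont.intervalIntegrable a b
  rw [← intervalIntegral.integral_add_adjacent_intervals (hii 0 (A / w)) (hii (A / w) 1),
    ← intervalIntegral.integral_add_adjacent_intervals (hii (A / w) (B / w)) (hii (B / w) 1)]
  have q1 : 0 ≤ ∫ x in (0:ℝ)..(A / w), 2 * w * (φ x * Real.sinc (w * x) ^ 2) :=
    intervalIntegral.integral_nonneg hAw.le fun x _ => hpos x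
  have q2 : 0 ≤ ∫ x in (B / w)..1, 2 * w * (φ x * Real.sinc (w * x) ^ 2) :=
    intervalIntegral.integral_nonneg hBw fun x _ => hpos x
  linarith

end Pool.Agent.RG
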