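import Pool.Agent.RG.Reduce
import Pool.Agent.ZGap.Res.Moments

/-!
# General amplitude: clone of `ZGap.Res.Moments`
-/

namespace Pool.Agent.RG

open MeasureTheory Finset ArithmeticFunction Filter Topology Pool.Agent.ZGap.Res

variable {R : ResData} {T : ℝ}

/-- The normalised logarithm of the product. -/
noncomputable def uu (R : ResData) (T : ℝ) (U : Finset ℕ) : ℝ := ell U / (R.th * Real.log T)

lemma th_pos (R : ResData) : 0 < R.th := by linarith [R.ep_pos, R.ep_th]

lemma uu_nonneg (hT : 1 < T) (U : Finset ℕ) : 0 ≤ uu R T U := arg_nonneg hT U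

lemma uu_insert (hT : 1 < T) {p : ℕ} {U : Finset ℕ} (hp : p ∉ U) :
    uu R T (insert p U) = uu R T U + xi T p / R.th := by
  have hL : 0 < Real.log T := Real.log_pos hT
  have := th_pos R
  unfold uu xi
  rw [ell_insert hp]
  field_simp
  ring

lemma uu_eq_sum (hT : 1 < T) (U : Finset ℕ) : uu R T U = ∑ p ∈ U, xi T p / R.th := by
  have hL : 0 < Real.log T := Real.log_pos hT
  have := th_pos R
  unfold uu xi ell
  rw [sum_div]
  refine sum_congr rfl fun p _ => ?_
  field_simp

lemma cc_sq_mul (hT : 1 < T) {p : ℕ} (hp : 0 < p) : cc R T p ^ 2 * (xi T p / R.th) =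
    R.r ^ 2 / R.th * (wt T p * R.f (xi T p) ^ 2) := by
  have hL : 0 < Real.log T := Real.log_pos hT
  have := th_pos R
  have hp' : (0:ℝ) < p := by exact_mod_cast hp
  rw [cc_sq]
  unfold xi wt
  field_simp

lemma aa_insert (hT : 1 < T) {p : ℕ} {U : Finset ℕ} (hp : p ∉ U) :
    aa R T (insert p U) * aa R T U =
      cc R T p * (mu R T U * (R.F (uu R T U) * R.F (uu R T U + xi T p / R.th))) := by
  have h1 : aa R T (insert p U) = R.F (uu R T U + xi T p / R.th) * (cc R T p * ∏ q ∈ U, cc R T q) := by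
    rw [← uu_insert hT hp, ← prod_insert hp]
    rfl
  have h2 : aa R T U = R.F (uu R T U) * ∏ q ∈ U, cc R T q := rfl
  have h3 : mu R T U = (∏ q ∈ U, cc R T q) * ∏ q ∈ U, cc R T q := by
    unfold mu
    rw [← prod_mul_distrib]
    exact prod_congr rfl fun q _ => sq _
  rw [h1, h2, h3]
  ring

/-- The adjoint identity. -/
theorem adjoint (hT : 1 < T) (G : ℝ → ℝ) :
    ∑ U ∈ (PP T).powerset, mu R T U * (uu R T U * G (uu R T U)) =
      ∑ V ∈ (PP T).powerset, mu R T V * (R.r ^ 2 / R.th * ∑ p ∈ PP T \ V,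
        wt T p * (R.f (xi T p) ^ 2 * G (uu R T V + xi T p / R.th))) := by
  classical
  have e1 : ∀ U ∈ (PP T).powerset, mu R T U * (uu R T U * G (uu R T U)) =
      ∑ p ∈ U, mu R T U * (xi T p / R.th * G (uu R T U)) := by
    intro U _
    rw [← mul_sum, ← sum_mul, ← uu_eq_sum hT]
  have e2 : ∀ V ∈ (PP T).powerset, mu R T V * (R.r ^ 2 / R.th * ∑ p ∈ PP T \ V,
        wt T p * (R.f (xi T p) ^ 2 * G (uu R T V + xi T p / R.th))) =
      ∑ p ∈ PP T \ V, mu R T (insert p V) * (xi T p / R.th * G (uu R T (insert p V))) := by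
    intro V _
    rw [mul_sum, mul_sum]
    refine sum_congr rfl fun p hp => ?_
    rw [Finset.mem_sdiff] at hp
    rw [mu_insert hp.2, uu_insert hT hp.2]
    have := cc_sq_mul (R := R) hT (mem_PP.mp hp.1).1.pos
    calc _ = mu R T V * (R.r ^ 2 / R.th * (wt T p * R.f (xi T p) ^ 2)) *
          G (uu R T V + xi T p / R.th) := by ring
      _ = _ := by rw [← this]; ring
  rw [sum_congr rfl e1, sum_congr rfl e2, sum_sigma', sum_sigma']
  refine sum_bij' (fun (x : Σ _ : Finset ℕ, ℕ) _ => (⟨x.1.erase x.2, x.2⟩ : Σ _ : Finset ℕ, ℕ))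
    (fun x _ => ⟨insert x.2 x.1, x.2⟩) ?_ ?_ ?_ ?_ ?_
  · rintro ⟨U, p⟩ hx
    rw [mem_sigma, mem_powerset] at hx ⊢
    exact ⟨(erase_subset _ _).trans hx.1, Finset.mem_sdiff.mpr ⟨hx.1 hx.2, notMem_erase _ _⟩⟩
  · rintro ⟨U, p⟩ hx
    rw [mem_sigma, mem_powerset, Finset.mem_sdiff] at hx
    rw [mem_sigma, mem_powerset]
    refine ⟨?_, mem_insert_self _ _⟩
    intro q hq
    rcases mem_insert.mp hq with h | h
    · rw [h]; exact hx.2.1
    · exact hx.1 h
  · rintro ⟨U, p⟩ hx
    rw [mem_sigma] at hx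
    simp only [insert_erase hx.2]
  · rintro ⟨U, p⟩ hx
    rw [mem_sigma, Finset.mem_sdiff] at hx
    simp only [erase_insert hx.2.2]
  · rintro ⟨U, p⟩ hx
    rw [mem_sigma] at hx
    simp only [insert_erase hx.2]

/-- The prime sum as a sum over finite sets. -/
theorem S1_eq (hT : 1 < T) (k : ℝ → ℝ) :
    S1 R T k = ∑ U ∈ (PP T).powerset, mu R T U * (R.F (uu R T U) * (R.r * ∑ p ∈ PP T \ U,
      wt T p * (k (xi T p) * R.f (xi T p) * R.F (uu R T U + xi T p / R.th)))) := by
  classical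
  unfold S1 NN
  have e1 : ∀ p ∈ PP T, Real.log p / (Real.sqrt p * Real.log T) * k (Real.log p / Real.log T) *
      ∑ U ∈ (PP T).powerset.filter (fun U => p ∉ U), aa R T (insert p U) * aa R T U =
      ∑ U ∈ (PP T).powerset.filter (fun U => p ∉ U), mu R T U * (R.F (uu R T U) * (R.r *
      (wt T p * (k (xi T p) * R.f (xi T p) * R.F (uu R T U + xi T p / R.th))))) := by
    intro p hp
    rw [mul_sum]
    refine sum_congr rfl fun U hU => ?_
    rw [mem_filter] at hU
    rw [aa_insert hT hU.2]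
    have hp' : (0:ℝ) < p := by exact_mod_cast (mem_PP.mp hp).1.pos
    have hL : 0 < Real.log T := Real.log_pos hT
    have hs : 0 < Real.sqrt p := Real.sqrt_pos.mpr hp'
    have e : Real.log p / (Real.sqrt p * Real.log T) * cc R T p = R.r * (wt T p * R.f (xi T p)) := by
      unfold cc wt xi
      have : Real.sqrt p * Real.sqrt p = (p:ℝ) := Real.mul_self_sqrt hp'.le
      rw [div_mul_div_comm, ← mul_assoc, mul_right_comm (Real.sqrt p) (Real.log T), this]
      ring
    calc _ = (Real.log p / (Real.sqrt p * Real.log T) * cc R T p) * (k (Real.log p / Real.log T) *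
          (mu R T U * (R.F (uu R T U) * R.F (uu R T U + xi T p / R.th)))) := by ring
      _ = _ := by rw [e]; unfold xi; ring
  rw [sum_congr rfl e1]
  rw [sum_comm' (s' := fun U => PP T \ U) (t' := (PP T).powerset)]
  · refine sum_congr rfl fun U _ => ?_
    rw [mul_sum, mul_sum, mul_sum]
  · intro p U
    rw [mem_filter, Finset.mem_sdiff]
    tauto

/-- The sum over primes outside of a finite set. -/
theorem inner_sum (R : ResData) :
    ∃ C : ℝ, 0 < C ∧ ∃ T0 : ℝ, Real.exp 3 ≤ T0 ∧ ∀ T : ℝ, T0 ≤ T → ∀ (g : ℝ → ℝ) (K M : ℝ), 0 ≤ K →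
      0 ≤ M → (∀ x, x ∉ Set.Ioo R.ep ((R.th + 1 / 2) / 2) → g x = 0) →
      (∀ x y, |g x - g y| ≤ K * |x - y|) → (∀ x, |g x| ≤ M) → ∀ U ⊆ PP T, uu R T U ≤ 1 →
      |∑ p ∈ PP T \ U, wt T p * g (xi T p) - ∫ x in (0:ℝ)..1, g x| ≤ C * (K + M) / Real.log T := by
  have hep := R.ep_pos
  have h1 := R.ep_th
  have h2 := R.th_lt
  obtain ⟨C1, hC1, T1, hT1, h3⟩ := prime_sum hep (b := (R.th + 1 / 2) / 2) (by linarith) (by linarith)
  have ev : ∀ᶠ T : ℝ in atTop, T ^ (-R.ep) ≤ 1 / Real.log T := by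
    have b2 : Tendsto (fun T : ℝ => Real.log T / T ^ R.ep) atTop (𝓝 0) :=
      (isLittleO_log_rpow_atTop hep).tendsto_div_nhds_zero
    filter_upwards [eventually_gt_atTop 1, b2.eventually (ge_mem_nhds one_pos)] with T t1 t2
    have hL : 0 < Real.log T := Real.log_pos t1
    have hp : 0 < T ^ R.ep := Real.rpow_pos_of_pos (by linarith) _
    rw [Real.rpow_neg (by linarith), ← one_div]
    apply one_div_le_one_div_of_le hL
    rwa [div_le_one hp] at t2
  obtain ⟨T2, hT2⟩ := eventually_atTop.mp ev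
  refine ⟨C1 + 1, by positivity, max (max T1 T2) (Real.exp 3), le_max_right _ _,
    fun T hT g K M hK hM hsupp hlip hbd U hU hu => ?_⟩
  have hTe : Real.exp 3 ≤ T := (le_max_right _ _).trans hT
  have hTT1 : T1 ≤ T := ((le_max_left _ _).trans (le_max_left _ _)).trans hT
  have hTT2 : T2 ≤ T := ((le_max_right _ _).trans (le_max_left _ _)).trans hT
  have h1T : 1 < T := lt_of_lt_of_le (Real.one_lt_exp_iff.mpr (by norm_num)) hTe
  have hL : 0 < Real.log T := Real.log_pos h1T
  have main := h3 T hTT1 g K M hK hM hsupp hlip hbd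
  have hpw := hT2 T hTT2
  have e1 : ∑ p ∈ PP T \ U, wt T p * g (xi T p) =
      ∑ p ∈ PP T, Real.log p / (p * Real.log T) * g (Real.log p / Real.log T) -
      ∑ p ∈ U, wt T p * g (xi T p) := by
    rw [eq_sub_iff_add_eq, sum_sdiff hU]
    rfl
  have e2 : |∑ p ∈ U, wt T p * g (xi T p)| ≤ M / Real.log T := by
    refine (abs_sum_le_sum_abs _ _).trans ?_
    have hterm : ∀ p ∈ U, |wt T p * g (xi T p)| ≤ M * T ^ (-R.ep) * xi T p := by
      intro p hp
      have hp0 := (mem_PP.mp (hU hp)).1.pos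
      have hw := wt_nonneg h1T p
      have hx := xi_nonneg h1T p
      have hTp : 0 < T ^ (-R.ep) := Real.rpow_pos_of_pos (by linarith) _
      rw [abs_mul, abs_of_nonneg hw]
      by_cases hz : xi T p ∈ Set.Ioo R.ep ((R.th + 1 / 2) / 2)
      · have h4 := inv_le_of_large (R := R) h1T hp0 hz.1
        have e3 : wt T p = 1 / p * xi T p := by
          unfold wt xi
          have : (0:ℝ) < p := by exact_mod_cast hp0
          field_simp
        calc _ ≤ wt T p * M := by gcongr; exact hbd _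
          _ = 1 / p * xi T p * M := by rw [e3]
          _ ≤ T ^ (-R.ep) * xi T p * M := by gcongr
          _ = _ := by ring
      · rw [hsupp _ hz, abs_zero, mul_zero]
        positivity
    refine (sum_le_sum hterm).trans ?_
    rw [← mul_sum]
    have e4 : ∑ p ∈ U, xi T p = R.th * uu R T U := by
      rw [uu_eq_sum h1T, mul_sum]
      refine sum_congr rfl fun p _ => ?_
      have := th_pos R
      field_simp
    rw [e4]
    have hth := th_pos R
    have hu0 := uu_nonneg (R := R) h1T U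
    calc M * T ^ (-R.ep) * (R.th * uu R T U) ≤ M * (1 / Real.log T) * (1 * 1) := by
          gcongr
          linarith
      _ = _ := by ring
  rw [e1, sub_right_comm]
  calc _ ≤ C1 * (K + M) / Real.log T + M / Real.log T := (abs_sub _ _).trans (add_le_add main e2)
    _ ≤ C1 * (K + M) / Real.log T + (K + M) / Real.log T := by gcongr; linarith
    _ = _ := by ring

end Pool.Agent.RG
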