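import Pool.Agent.RG.ArithRG
import Pool.Agent.RG.FewCrowd
import Pool.Agent.RG.Index
import Pool.Agent.ZGap.Res.BumpK

/-!
# Sums of `r` consecutive gaps: the choice of the parameters
-/

open Filter Topology Finset MeasureTheory
open Pool.Agent.ZetaGaps Pool.Agent.ZGap.Res

namespace Pool.Agent.RG

/-- The gain exceeds the deviation. -/
lemma gain_gt {a ε r c : ℝ} (ha : 0 < a) (hε : 0 < ε) (hε1 : ε ≤ 1) (hr : 0 < r)
    (hc : (1 - ε / 8) * r ≤ c) :
    (2 - ε / 2) * √(a * r) < (2 - ε / 8) * √(2 * (a / 2 * (1 - ε / 8)) * c) := by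
  have hs : 0 < √(a * r) := Real.sqrt_pos.mpr (by positivity)
  have hs2 : √(a * r) ^ 2 = a * r := Real.sq_sqrt (by positivity)
  have h1 : (1 - ε / 8) * √(a * r) ≤ √(2 * (a / 2 * (1 - ε / 8)) * c) := by
    apply Real.le_sqrt_of_sq_le
    have e1 : ((1 - ε / 8) * √(a * r)) ^ 2 = a * (1 - ε / 8) * ((1 - ε / 8) * r) := by
      rw [mul_pow, hs2]; ring
    have e2 : 2 * (a / 2 * (1 - ε / 8)) * c = a * (1 - ε / 8) * c := by ring
    rw [e1, e2]
    exact mul_le_mul_of_nonneg_left hc (mul_nonneg ha.le (by linarith))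
  calc (2 - ε / 2) * √(a * r) < (2 - ε / 8) * ((1 - ε / 8) * √(a * r)) := by
        have : 2 - ε / 2 < (2 - ε / 8) * (1 - ε / 8) := by nlinarith
        nlinarith
    _ ≤ _ := mul_le_mul_of_nonneg_left h1 (by linarith)

/-- **Large sums of `r` consecutive gaps in every short block** (RH). -/
theorem few_final (hRH : RiemannHypothesis) {a ε : ℝ} (ha : 0 < a) (ha1 : a ≤ 1) (hε : 0 < ε)
    (hε1 : ε ≤ 1) : ∃ r0 : ℕ, ∀ r : ℕ, r0 ≤ r →
    ∃ κ : ℝ, 0 < κ ∧ ∃ N0 : ℕ, ∀ N M : ℕ, N0 ≤ N → (N : ℝ) ^ a ≤ M →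
      κ * M ≤ (#{n ∈ Finset.Ioc N (N + M) |
        (r : ℝ) + (2 - ε) * √(a * r) < ∑ j ∈ Finset.range r, gap (n + j)} : ℝ) := by
  have hpi := Real.pi_pos
  set θ : ℝ := a / 2 * (1 - ε / 8) with hθ
  have hθ0 : 0 < θ := mul_pos (by linarith) (by linarith)
  have hθa : 2 * θ < a := by rw [hθ]; nlinarith
  obtain ⟨c0, hc0, main⟩ := arith_rg (ε := ε / 8) (θ := θ) (by linarith) hθ0 (by linarith)
  obtain ⟨r1, hr1⟩ := exists_nat_ge c0
  refine ⟨max 1 r1, fun r hr => ?_⟩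
  have hr1' : 1 ≤ r := (le_max_left _ _).trans hr
  have hrR : (1 : ℝ) ≤ r := by exact_mod_cast hr1'
  have hr0 : c0 ≤ r := hr1.trans (by exact_mod_cast (le_max_right _ _).trans hr)
  have hs : 0 < √(a * r) := Real.sqrt_pos.mpr (by positivity)
  set c : ℝ := r + (2 - ε / 2) * √(a * r) with hc
  have hrc : (r : ℝ) ≤ c := by rw [hc]; nlinarith
  have hcp : 0 < c := by linarith
  have hdc : (r : ℝ) + (2 - ε) * √(a * r) < c := by rw [hc]; nlinarith
  have hgain := gain_gt ha hε hε1 (r := r) (c := c) (by linarith) (by nlinarith)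
  rw [← hθ] at hgain
  set κ : ℝ := (2 - ε / 8) * √(2 * θ * c) - (c - r) with hκ
  have hκ0 : 0 < κ := by rw [hκ]; linarith
  obtain ⟨R, hRth, hF, hF0, e, he, hR⟩ := main c (hr0.trans hrc) 1 (Or.inl rfl)
  set e' := min e (Real.pi * κ) with he'
  have he'0 : 0 < e' := lt_min he (by positivity)
  obtain ⟨ψ, hψ, hψ00, hψle, hψ1, hψ0, ⟨K, M, hK, hlip, hbd⟩, hclose⟩ := exists_majorant hcp he'0
  obtain ⟨T1, hT1, harith⟩ := hR (chat ψ) K M hK hlip hbd
    (fun x _ _ => (hclose x).trans (min_le_left _ _))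
  have hψc : chat ψ 0 / (2 * Real.pi) ≤ c + κ / 2 := by
    have h1 := (abs_le.mp (hclose 0)).2
    have h2 : k0 c 0 = 2 * (Real.pi * c) := by unfold k0; simp
    have h3 : e' ≤ Real.pi * κ := min_le_right _ _
    rw [div_le_iff₀ (by positivity)]
    rw [h2] at h1
    linarith only [h1, h3]
  obtain ⟨c1, T0, hc1, hvol⟩ := few_pos_of_arith hRH R (fun x _ => hF x) (by rw [hF0]; norm_num)
    (α := (2 * θ + a) / 2) hcp hr1' (by rw [hRth]; linarith) (by linarith) hκ0 hψ hψ00 hψle hψ1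
    hψ0 hψc (T1 := T1) (fun T hT => by
      have h1 := harith T hT ⌊T⌋₊ le_rfl
      rw [one_mul] at h1
      have h2 : c - r + κ = (2 - ε / 8) * √(2 * θ * c) := by rw [hκ]; ring
      rw [h2]
      exact h1)
  exact few_index hRH ha ha1 hr1' hcp hdc ⟨(2 * θ + a) / 2, by linarith, c1, T0, hc1, hvol⟩

/-- **Small sums of `r` consecutive gaps in every short block** (RH). -/
theorem crowd_final (hRH : RiemannHypothesis) {a ε : ℝ} (ha : 0 < a) (ha1 : a ≤ 1) (hε : 0 < ε)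
    (hε1 : ε ≤ 1) : ∃ r0 : ℕ, ∀ r : ℕ, r0 ≤ r →
    ∃ κ : ℝ, 0 < κ ∧ ∃ N0 : ℕ, ∀ N M : ℕ, N0 ≤ N → (N : ℝ) ^ a ≤ M →
      κ * M ≤ (#{n ∈ Finset.Ioc N (N + M) |
        ∑ j ∈ Finset.range r, gap (n + j) < (r : ℝ) - (2 - ε) * √(a * r)} : ℝ) := by
  have hpi := Real.pi_pos
  set θ : ℝ := a / 2 * (1 - ε / 8) with hθ
  have hθ0 : 0 < θ := mul_pos (by linarith) (by linarith)
  have hθa : 2 * θ < a := by rw [hθ]; nlinarith
  obtain ⟨c0, hc0, main⟩ := arith_rg (ε := ε / 8) (θ := θ) (by linarith) hθ0 (by linarith)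
  obtain ⟨r1, hr1⟩ := exists_nat_ge (max (2 * c0) (256 / ε ^ 2))
  refine ⟨max 1 r1, fun r hr => ?_⟩
  have hr1' : 1 ≤ r := (le_max_left _ _).trans hr
  have hrR : (1 : ℝ) ≤ r := by exact_mod_cast hr1'
  have hrmax : max (2 * c0) (256 / ε ^ 2) ≤ r :=
    hr1.trans (by exact_mod_cast (le_max_right _ _).trans hr)
  have hr0 : 2 * c0 ≤ r := (le_max_left _ _).trans hrmax
  have hr2 : 256 / ε ^ 2 ≤ r := (le_max_right _ _).trans hrmax
  have hs : 0 < √(a * r) := Real.sqrt_pos.mpr (by positivity)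
  have hs1 : √(a * r) ≤ ε / 16 * r := by
    rw [Real.sqrt_le_iff]
    refine ⟨by positivity, ?_⟩
    rw [div_le_iff₀ (by positivity)] at hr2
    have h1 : a * r ≤ 1 * r := mul_le_mul_of_nonneg_right ha1 (by linarith)
    have h2 : r * 256 ≤ r * (r * ε ^ 2) := mul_le_mul_of_nonneg_left hr2 (by linarith)
    nlinarith
  set c : ℝ := r - (2 - ε / 2) * √(a * r) with hc
  have hrc : (1 - ε / 8) * r ≤ c := by rw [hc]; nlinarith
  have hcp : 0 < c := by nlinarith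
  have hdc : c < (r : ℝ) - (2 - ε) * √(a * r) := by rw [hc]; nlinarith
  have hgain := gain_gt ha hε hε1 (r := r) (c := c) (by linarith) hrc
  rw [← hθ] at hgain
  set κ : ℝ := (2 - ε / 8) * √(2 * θ * c) - (r - c) with hκ
  have hκ0 : 0 < κ := by rw [hκ]; linarith
  obtain ⟨R, hRth, hF, hF0, e, he, hR⟩ := main c (by nlinarith) (-1) (Or.inr rfl)
  set e' := min e (Real.pi * κ) with he'
  have he'0 : 0 < e' := lt_min he (by positivity)
  obtain ⟨ψ, hψ, hψ00, hψle, hψ0, ⟨K, M, hK, hlip, hbd⟩, hclose⟩ := exists_minorant hcp he'0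
  obtain ⟨T1, hT1, harith⟩ := hR (chat ψ) K M hK hlip hbd
    (fun x _ _ => (hclose x).trans (min_le_left _ _))
  have hψc : c - κ / 2 ≤ chat ψ 0 / (2 * Real.pi) := by
    have h1 := (abs_le.mp (hclose 0)).1
    have h2 : k0 c 0 = 2 * (Real.pi * c) := by unfold k0; simp
    have h3 : e' ≤ Real.pi * κ := min_le_right _ _
    rw [le_div_iff₀ (by positivity)]
    rw [h2] at h1
    linarith only [h1, h3]
  obtain ⟨c1, T0, hc1, hvol⟩ := crowd_pos_of_arith hRH R (fun x _ => hF x) (by rw [hF0]; norm_num)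
    (α := (2 * θ + a) / 2) hcp hr1' (by rw [hRth]; linarith) (by linarith) hκ0 hψ hψ00 hψle
    hψ0 hψc (T1 := T1) (fun T hT => by
      have h1 := harith T hT ⌊T⌋₊ le_rfl
      rw [neg_one_mul] at h1
      have h2 : r - c + κ = (2 - ε / 8) * √(2 * θ * c) := by rw [hκ]; ring
      rw [h2]
      exact h1)
  exact crowd_index hRH ha ha1 hcp hdc ⟨(2 * θ + a) / 2, by linarith, c1, T0, hc1, hvol⟩

end Pool.Agent.RG
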