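import Pool.Agent.RG.Mean
import Pool.Agent.ZGap.Res.Prime

/-!
# General amplitude: clone of `ZGap.Res.Prime`
-/

namespace Pool.Agent.RG

open MeasureTheory Finset Pool.Agent.ZGap.Res

/-- `B_p = ∑ a_{U ∪ p} a_U a_{U'}^2` over disjoint `U, U'` avoiding `p`. -/
noncomputable def BB (R : ResData) (T : ℝ) (p : ℕ) : ℝ :=
  ∑ q ∈ (QQ T).filter (fun q => p ∉ q.1 ∧ p ∉ q.2),
    aa R T (insert p q.1) * aa R T q.1 * aa R T q.2 ^ 2

lemma CC_prime (R : ResData) {T : ℝ} {p : ℕ} (hp : p ∈ PP T) : CC R T p = 2 * BB R T p := by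
  classical
  have hpp := (mem_PP.mp hp).1
  -- evaluate the inner sum
  have inner : ∀ q ∈ QQ T, (∑ q' ∈ QQ T,
      if pr q.1 * pr q'.2 = p * (pr q.2 * pr q'.1) then al R T q * al R T q' else 0) =
      (if p ∈ q.1 then al R T q * al R T (q.1.erase p, q.2) else 0) +
      (if p ∉ q.1 ∧ p ∉ q.2 then al R T q * al R T (q.1, insert p q.2) else 0) := by
    intro q hq
    obtain ⟨h1, h2, h3⟩ := mem_QQ.mp hq
    by_cases c1 : p ∈ q.1
    · have c2 : ¬ (p ∉ q.1 ∧ p ∉ q.2) := fun h => h.1 c1
      rw [if_pos c1, if_neg c2, add_zero]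
      have hm : (q.1.erase p, q.2) ∈ QQ T := by
        rw [mem_QQ]
        exact ⟨(erase_subset _ _).trans h1, h2, h3.mono_left (erase_subset _ _)⟩
      have hr : pr q.1 * pr (q.1.erase p, q.2).2 = p * (pr q.2 * pr (q.1.erase p, q.2).1) := by
        simp only
        rw [← pr_erase c1]; ring
      rw [sum_eq_single_of_mem _ hm]
      · rw [if_pos hr]
      · intro q' hq' hne
        rw [if_neg]
        exact fun h => hne (rel_unique hpp.pos hq hq' hm h hr)
    · by_cases c2 : p ∈ q.2
      · have c3 : ¬ (p ∉ q.1 ∧ p ∉ q.2) := fun h => h.2 c2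
        rw [if_neg c1, if_neg c3, add_zero]
        apply sum_eq_zero
        intro q' hq'
        rw [if_neg]
        intro h
        have := rel_fact hq hq' (j := 1) hpp (by rw [pow_one]; exact h)
        rw [if_neg c1, if_pos c2] at this
        split_ifs at this <;> omega
      · rw [if_neg c1, if_pos ⟨c1, c2⟩, zero_add]
        have hm : (q.1, insert p q.2) ∈ QQ T := by
          rw [mem_QQ]
          refine ⟨h1, ?_, ?_⟩
          · intro x hx
            rcases mem_insert.mp hx with h | h
            · rw [h]; exact hp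
            · exact h2 h
          · rw [disjoint_insert_right]
            exact ⟨c1, h3⟩
        have hr : pr q.1 * pr (q.1, insert p q.2).2 = p * (pr q.2 * pr (q.1, insert p q.2).1) := by
          simp only
          rw [pr_insert c2]; ring
        rw [sum_eq_single_of_mem _ hm]
        · rw [if_pos hr]
        · intro q' hq' hne
          rw [if_neg]
          exact fun h => hne (rel_unique hpp.pos hq hq' hm h hr)
  unfold CC
  rw [sum_congr rfl inner, sum_add_distrib, ← sum_filter, ← sum_filter, two_mul]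
  congr 1
  · -- bijection `q ↦ (erase p q.1, q.2)`
    unfold BB
    refine sum_bij' (fun q _ => (q.1.erase p, q.2)) (fun q _ => (insert p q.1, q.2)) ?_ ?_ ?_ ?_ ?_
    · intro q hq
      rw [mem_filter, mem_QQ] at hq ⊢
      obtain ⟨⟨h1, h2, h3⟩, h4⟩ := hq
      exact ⟨⟨(erase_subset _ _).trans h1, h2, h3.mono_left (erase_subset _ _)⟩,
        notMem_erase _ _, disjoint_left.mp h3 h4⟩
    · intro q hq
      rw [mem_filter, mem_QQ] at hq ⊢
      obtain ⟨⟨h1, h2, h3⟩, h4, h5⟩ := hq
      refine ⟨⟨?_, h2, ?_⟩, mem_insert_self _ _⟩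
      · intro x hx
        rcases mem_insert.mp hx with h | h
        · rw [h]; exact hp
        · exact h1 h
      · simp only
        rw [disjoint_insert_left]
        exact ⟨h5, h3⟩
    · intro q hq
      rw [mem_filter] at hq
      ext1
      · exact insert_erase hq.2
      · rfl
    · intro q hq
      rw [mem_filter] at hq
      ext1
      · exact erase_insert hq.2.1
      · rfl
    · intro q hq
      rw [mem_filter] at hq
      simp only [al]
      rw [insert_erase hq.2]
      ring
  · -- swap
    unfold BB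
    refine sum_bij' (fun q _ => (q.2, q.1)) (fun q _ => (q.2, q.1)) ?_ ?_ ?_ ?_ ?_
    · intro q hq
      rw [mem_filter] at hq ⊢
      exact ⟨QQ_swap hq.1, hq.2.2, hq.2.1⟩
    · intro q hq
      rw [mem_filter] at hq ⊢
      exact ⟨QQ_swap hq.1, hq.2.2, hq.2.1⟩
    · intro q _; rfl
    · intro q _; rfl
    · intro q _
      simp only [al]
      ring

lemma CC_prime_of_notMem (R : ResData) {T : ℝ} {p : ℕ} (hpp : p.Prime) (hp : p ∉ PP T) :
    CC R T p = 0 := by
  unfold CC
  apply sum_eq_zero
  intro q hq
  apply sum_eq_zero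
  intro q' hq'
  rw [if_neg]
  intro h
  obtain ⟨h1, h2, h3⟩ := mem_QQ.mp hq
  obtain ⟨h1', h2', h3'⟩ := mem_QQ.mp hq'
  have := rel_fact hq hq' (j := 1) hpp (by rw [pow_one]; exact h)
  rw [if_neg (fun h => hp (h1 h)), if_neg (fun h => hp (h2' h))] at this
  omega

/-- The coefficient at squares of primes. -/
lemma CC_sq (R : ResData) {T : ℝ} {p : ℕ} (hpp : p.Prime) :
    CC R T (p ^ 2) = ∑ q ∈ (QQ T).filter (fun q => p ∈ q.1),
      al R T q * al R T (q.1.erase p, insert p q.2) := by
  classical
  have inner : ∀ q ∈ QQ T, (∑ q' ∈ QQ T,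
      if pr q.1 * pr q'.2 = p ^ 2 * (pr q.2 * pr q'.1) then al R T q * al R T q' else 0) =
      (if p ∈ q.1 then al R T q * al R T (q.1.erase p, insert p q.2) else 0) := by
    intro q hq
    obtain ⟨h1, h2, h3⟩ := mem_QQ.mp hq
    by_cases c1 : p ∈ q.1
    · have c2 : p ∉ q.2 := disjoint_left.mp h3 c1
      rw [if_pos c1]
      have hm : (q.1.erase p, insert p q.2) ∈ QQ T := by
        rw [mem_QQ]
        refine ⟨(erase_subset _ _).trans h1, ?_, ?_⟩
        · intro x hx
          rcases mem_insert.mp hx with h | h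
          · rw [h]; exact h1 c1
          · exact h2 h
        · simp only
          rw [disjoint_insert_right]
          exact ⟨notMem_erase _ _, h3.mono_left (erase_subset _ _)⟩
      have hr : pr q.1 * pr (q.1.erase p, insert p q.2).2 =
          p ^ 2 * (pr q.2 * pr (q.1.erase p, insert p q.2).1) := by
        simp only
        rw [← pr_erase c1, pr_insert c2]; ring
      rw [sum_eq_single_of_mem _ hm]
      · rw [if_pos hr]
      · intro q' hq' hne
        rw [if_neg]
        exact fun h => hne (rel_unique (pow_pos hpp.pos 2) hq hq' hm h hr)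
    · rw [if_neg c1]
      apply sum_eq_zero
      intro q' hq'
      rw [if_neg]
      intro h
      have := rel_fact hq hq' (j := 2) hpp h
      rw [if_neg c1] at this
      split_ifs at this <;> omega
  unfold CC
  rw [sum_congr rfl inner, ← sum_filter]

lemma CC_pow (R : ResData) {T : ℝ} {p : ℕ} (hpp : p.Prime) {j : ℕ} (hj : 3 ≤ j) :
    CC R T (p ^ j) = 0 := by
  unfold CC
  apply sum_eq_zero
  intro q hq
  apply sum_eq_zero
  intro q' hq'
  rw [if_neg]
  intro h
  have := rel_fact hq hq' hpp h
  split_ifs at this <;> omega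

end Pool.Agent.RG
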