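import Pool.Agent.RG.Bounds
import Pool.Agent.ZGap.Res.PrimeSum

/-!
# Sums over primes of Lipschitz functions: see `Pool.Agent.ZGap.Res.prime_sum`
-/
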