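import Pool.Agent.ZGap.Res.Gap

/-!
# A lower bound for the gain of a resonator with constant amplitude

`Si x ≥ 0.845 min (x, 1.67)` for all `x ≥ 0`, and the resulting lower bound for `Num q 1 0 M m`,
`m` large.
-/

open Filter Topology Finset MeasureTheory intervalIntegral
open Pool.Agent.ZGap.Res

namespace Pool.Agent.RG

/-- The sine integral. -/
noncomputable def Si (x : ℝ) : ℝ := ∫ t in (0:ℝ)..x, Real.sinc t

lemma hasDerivAt_Si (x : ℝ) : HasDerivAt Si (Real.sinc x) x :=
  intervalIntegral.integral_hasDerivAt_right (Real.continuous_sinc.intervalIntegrable _ _)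
    (Real.continuous_sinc.stronglyMeasurableAtFilter _ _) Real.continuous_sinc.continuousAt

lemma Si_sub (x y : ℝ) : Si y - Si x = ∫ t in x..y, Real.sinc t :=
  intervalIntegral.integral_interval_sub_left (Real.continuous_sinc.intervalIntegrable _ _)
    (Real.continuous_sinc.intervalIntegrable _ _)

lemma sinc_mul (t : ℝ) : Real.sinc t * t = Real.sin t := by
  by_cases h : t = 0
  · rw [h]; simp
  · rw [Real.sinc_of_ne_zero h]; field_simp

/-- The Taylor minorant of the sine integral. -/
lemma Si_ge_taylor {m : ℕ} (hm : m ≠ 0) {x : ℝ} (hx : 0 ≤ x) :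
    ∑ k ∈ range (2 * m), (-1) ^ k * x ^ (2 * k + 1) / ((2 * k + 1) * (2 * k + 1).factorial) ≤
      Si x := by
  have e1 : ∑ k ∈ range (2 * m), (-1) ^ k * x ^ (2 * k + 1) / ((2 * k + 1) * (2 * k + 1).factorial) =
      ∫ t in (0:ℝ)..x, ∑ k ∈ range (2 * m), (-1) ^ k / (2 * k + 1).factorial * t ^ (2 * k) := by
    rw [intervalIntegral.integral_finsetSum]
    · refine sum_congr rfl fun k _ => ?_
      rw [intervalIntegral.integral_const_mul, integral_pow]
      have : (2 * (k:ℝ) + 1) ≠ 0 := by positivity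
      have h3 : (((2 * k + 1).factorial : ℕ) : ℝ) ≠ 0 := by exact_mod_cast (Nat.factorial_pos _).ne'
      push_cast
      rw [zero_pow (by omega)]
      field_simp
      ring
    · intro k _
      exact Continuous.intervalIntegrable (by fun_prop) _ _
  rw [e1]
  unfold Si
  have hs := Real.continuous_sinc
  apply intervalIntegral.integral_mono_on hx (Continuous.intervalIntegrable (by fun_prop) _ _)
    (Continuous.intervalIntegrable (by fun_prop) _ _)
  intro t ht
  have h := k0_ge (c := Real.pi⁻¹) (inv_nonneg.mpr Real.pi_pos.le) ht.1 hm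
  have hp : Real.pi * Real.pi⁻¹ = 1 := mul_inv_cancel₀ Real.pi_ne_zero
  unfold k0 at h
  rw [hp, one_mul, mul_one] at h
  have e2 : ∑ k ∈ range (2 * m), 2 * ((-1) ^ k * (1:ℝ) ^ (2 * k + 1) / (2 * k + 1).factorial) *
      t ^ (2 * k) = 2 * ∑ k ∈ range (2 * m), (-1) ^ k / (2 * k + 1).factorial * t ^ (2 * k) := by
    rw [mul_sum]
    refine sum_congr rfl fun k _ => ?_
    rw [one_pow]; ring
  rw [e2] at h
  linarith

lemma Si_small {x : ℝ} (hx : 0 ≤ x) : x - x ^ 3 / 18 ≤ Si x := by
  have h := Si_ge_taylor (m := 1) one_ne_zero hx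
  simp only [mul_one, sum_range_succ, sum_range_zero, Nat.factorial] at h
  norm_num at h
  linarith

lemma Si_two_pi : (1.4112 : ℝ) ≤ Si (2 * Real.pi) := by
  have hp := Real.pi_pos
  have h := Si_ge_taylor (m := 5) (by norm_num) (x := 2 * Real.pi) (by positivity)
  simp only [sum_range_succ, sum_range_zero, Nat.factorial,
    show 2 * 5 = 10 from rfl] at h
  have b1 := Real.pi_gt_d6
  have b2 := Real.pi_lt_d6
  have up : ∀ n : ℕ, Real.pi ^ n ≤ 3.141593 ^ n := fun n => by gcongr
  have lo : ∀ n : ℕ, 3.141592 ^ n ≤ Real.pi ^ n := fun n => by gcongr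
  have l1 := lo 1
  have u3 := up 3
  have l5 := lo 5
  have u7 := up 7
  have l9 := lo 9
  have u11 := up 11
  have l13 := lo 13
  have u15 := up 15
  have l17 := lo 17
  have u19 := up 19
  norm_num [mul_pow] at h l1 u3 l5 u7 l9 u11 l13 u15 l17 u19
  linarith

lemma Si_mono_low {x y : ℝ} (hx : 0 ≤ x) (hxy : x ≤ y) (hy : y ≤ Real.pi) : Si x ≤ Si y := by
  have h : 0 ≤ Si y - Si x := by
    rw [Si_sub]
    apply intervalIntegral.integral_nonneg hxy
    intro t ht
    have h0 : 0 ≤ t := hx.trans ht.1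
    rcases h0.eq_or_lt with h | h
    · rw [← h]; simp
    · rw [Real.sinc_of_ne_zero h.ne']
      exact div_nonneg (Real.sin_nonneg_of_nonneg_of_le_pi h0 (ht.2.trans hy)) h0
  linarith

lemma Si_mid {x : ℝ} (hx : Real.pi ≤ x) (hx2 : x ≤ 2 * Real.pi) : Si (2 * Real.pi) ≤ Si x := by
  have hp := Real.pi_pos
  have h : Si (2 * Real.pi) - Si x ≤ 0 := by
    rw [Si_sub]
    have e : ∫ t in x..(2 * Real.pi), Real.sinc t = -∫ t in x..(2 * Real.pi), -Real.sinc t := by
      rw [intervalIntegral.integral_neg, neg_neg]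
    rw [e, neg_nonpos]
    apply intervalIntegral.integral_nonneg hx2
    intro t ht
    have h0 : 0 < t := by linarith [ht.1]
    rw [Real.sinc_of_ne_zero h0.ne', ← neg_div]
    apply div_nonneg _ h0.le
    rw [neg_nonneg]
    have h1 : Real.sin t = -Real.sin (t - Real.pi) := by rw [Real.sin_sub_pi]; ring
    rw [h1, neg_nonpos]
    exact Real.sin_nonneg_of_nonneg_of_le_pi (by linarith [ht.1]) (by linarith [ht.2])
  linarith

lemma Si_high {x : ℝ} (hx : 2 * Real.pi ≤ x) : Si (2 * Real.pi) ≤ Si x := by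
  have hp := Real.pi_pos
  have hpos : ∀ t ∈ Set.uIcc (2 * Real.pi) x, 0 < t := by
    intro t ht
    rw [Set.uIcc_of_le hx] at ht
    linarith [ht.1]
  have hd : ∀ t ∈ Set.uIcc (2 * Real.pi) x, HasDerivAt (fun t : ℝ => (1 - Real.cos t) / t)
      (Real.sinc t - (1 - Real.cos t) / t ^ 2) t := by
    intro t ht
    have ht0 := (hpos t ht).ne'
    have h1 := ((Real.hasDerivAt_cos t).const_sub 1).div (hasDerivAt_id t) ht0
    refine h1.congr_deriv ?_
    rw [Real.sinc_of_ne_zero ht0]
    simp only [id]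
    field_simp
  have hc : ContinuousOn (fun t : ℝ => (1 - Real.cos t) / t ^ 2) (Set.uIcc (2 * Real.pi) x) := by
    apply ContinuousOn.div (by fun_prop) (by fun_prop)
    intro t ht
    exact pow_ne_zero 2 (hpos t ht).ne'
  have hi : IntervalIntegrable (fun t : ℝ => (1 - Real.cos t) / t ^ 2) volume (2 * Real.pi) x :=
    hc.intervalIntegrable
  have hs : IntervalIntegrable Real.sinc volume (2 * Real.pi) x :=
    Real.continuous_sinc.intervalIntegrable _ _
  have h1 := intervalIntegral.integral_eq_sub_of_hasDerivAt hd (hs.sub hi)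
  rw [intervalIntegral.integral_sub hs hi, ← Si_sub, Real.cos_two_pi, sub_self, zero_div, sub_zero]
    at h1
  have h2 : 0 ≤ ∫ t in (2 * Real.pi)..x, (1 - Real.cos t) / t ^ 2 := by
    apply intervalIntegral.integral_nonneg hx
    intro t _
    apply div_nonneg _ (by positivity)
    linarith [Real.cos_le_one t]
  have h3 : 0 ≤ (1 - Real.cos x) / x :=
    div_nonneg (by linarith [Real.cos_le_one x]) (by linarith)
  linarith

/-- The minorant of the sine integral. -/
theorem Si_ge {x : ℝ} (hx : 0 ≤ x) : 0.845 * min x 1.67 ≤ Si x := by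
  have hp := Real.pi_gt_d2
  rcases le_total x 1.67 with h | h
  · rw [min_eq_left h]
    refine le_trans ?_ (Si_small hx)
    have : x ^ 2 ≤ 1.67 ^ 2 := by gcongr
    nlinarith
  · rw [min_eq_right h]
    rcases le_total x Real.pi with h1 | h1
    · refine le_trans ?_ (Si_mono_low (x := 1.67) (by norm_num) h h1)
      refine le_trans ?_ (Si_small (by norm_num))
      norm_num
    · have h2 : Si (2 * Real.pi) ≤ Si x := by
        rcases le_total x (2 * Real.pi) with h3 | h3
        · exact Si_mid h1 h3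
        · exact Si_high h3
      refine le_trans ?_ (Si_two_pi.trans h2)
      norm_num

end Pool.Agent.RG
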