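import Pool.Agent.RG.TDefs
import Pool.Agent.TypBlk.Cnt

/-!
# General amplitude: clone of `TypBlk.Cnt`
-/

namespace Pool.Agent.RG

open MeasureTheory Set Pool.Agent.ZGap.Res Pool.Agent.TypBlk

/-- The local mean in the form of the explicit formula. -/
lemma CntAux.DT_eq (R : ResData) (ψ : ℝ → ℝ) (K : ℝ) {T : ℝ} (hT : 1 ≤ T) (t0 : ℝ) :
    DT R ψ K T t0 = (∫ t : ℝ, VL R K T t0 t) -
      (chat ψ 0 / (2 * Real.pi) * (∫ t : ℝ, VL R K T t0 t) -
        (Real.pi * Real.log T)⁻¹ * ∑ n ∈ Finset.Icc 1 ⌊T⌋₊,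
          ArithmeticFunction.vonMangoldt n / Real.sqrt n *
          chat ψ (Real.log n / Real.log T) *
            ∫ t : ℝ, VL R K T t0 t * Real.cos (t * Real.log n)) := by
  have h1 : (1 : ℕ) ∈ Finset.Icc 1 ⌊T⌋₊ := by
    rw [Finset.mem_Icc]
    exact ⟨le_refl 1, Nat.le_floor (by simpa using hT)⟩
  unfold DT
  rw [Finset.mul_sum, ← Finset.add_sum_erase _ _ h1, ← Finset.add_sum_erase _ _ h1]
  have h2 : ∀ n ∈ (Finset.Icc 1 ⌊T⌋₊).erase 1,
      kap ψ T n * ∫ t : ℝ, VL R K T t0 t * Real.cos (t * Real.log n) =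
      (Real.pi * Real.log T)⁻¹ * (ArithmeticFunction.vonMangoldt n / Real.sqrt n *
          chat ψ (Real.log n / Real.log T) *
            ∫ t : ℝ, VL R K T t0 t * Real.cos (t * Real.log n)) := by
    intro n hn
    rw [Finset.mem_erase] at hn
    unfold kap
    rw [if_neg hn.1]
    ring
  rw [Finset.sum_congr rfl h2]
  have h3 : kap ψ T 1 = 1 - chat ψ 0 / (2 * Real.pi) := if_pos rfl
  have h4 : ∫ t : ℝ, VL R K T t0 t * Real.cos (t * Real.log ((1 : ℕ) : ℝ)) =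
      ∫ t : ℝ, VL R K T t0 t := by
    refine integral_congr_ae (Filter.Eventually.of_forall fun t => ?_)
    simp
  rw [h3, h4, ArithmeticFunction.vonMangoldt_apply_one]
  ring

end Pool.Agent.RG
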