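import Pool.Agent.RG.VV
import Pool.Agent.TypBlk.Defs

/-!
# General amplitude: clone of `TypBlk.Defs`
-/

namespace Pool.Agent.RG

open MeasureTheory Pool.Agent.ZGap.Res Pool.Agent.TypBlk

/-- The resonated window weight. -/
noncomputable def VL (R : ResData) (K T t0 t : ℝ) : ℝ := ww K T t0 t * ‖Amp R T t‖ ^ 2

/-- The local mean of `‖Amp‖² (1 - NC ψ)`, up to a small error. -/
noncomputable def DT (R : ResData) (ψ : ℝ → ℝ) (K T t0 : ℝ) : ℝ :=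
  ∑ n ∈ Finset.Icc 1 ⌊T⌋₊, kap ψ T n * ∫ t : ℝ, VL R K T t0 t * Real.cos (t * Real.log n)

/-- The mean value of `DT`. -/
noncomputable def mT (R : ResData) (ψ : ℝ → ℝ) (T : ℝ) : ℝ :=
  ∑ n ∈ Finset.Icc 1 ⌊T⌋₊, kap ψ T n * CC R T n

end Pool.Agent.RG
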