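import Pool.Agent.RG.TDefs
import Pool.Agent.TypBlk.Exp

/-!
# General amplitude: clone of `TypBlk.Exp`
-/

namespace Pool.Agent.RG

open MeasureTheory Finset Pool.Agent.ZGap.Res Pool.Agent.TypBlk

namespace ExpAux

end ExpAux

open ExpAux

theorem int_VL_cos (R : ResData) {K T t0 : ℝ} (hK : 0 < K) (hT : 1 < T) (n : ℕ) :
    ∫ t : ℝ, VL R K T t0 t * Real.cos (t * Real.log n) = ∑ q ∈ QQ T, ∑ q' ∈ QQ T,
      al R T q * al R T q' * (Wh (K / Real.log T * lam n q q') * Real.cos (t0 * lam n q q')) := by
  have e1 : ∀ t : ℝ, VL R K T t0 t * Real.cos (t * Real.log n) =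
      ∑ q ∈ QQ T, ∑ q' ∈ QQ T, (al R T q * al R T q' / 2) *
        (ww K T t0 t * Real.cos (t * lam n q q') +
          ww K T t0 t * Real.cos (t * lam n q' q)) := by
    intro t
    unfold VL
    rw [norm_sq_Amp, mul_assoc, sum_mul, mul_sum]
    refine sum_congr rfl fun q _ => ?_
    rw [sum_mul, mul_sum]
    refine sum_congr rfl fun q' _ => ?_
    have h1 : Real.cos (t * (fr q - fr q')) * Real.cos (t * Real.log n) =
        (Real.cos (t * lam n q q') + Real.cos (t * lam n q' q)) / 2 := by
      unfold lam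
      have a1 : t * (fr q - fr q' - Real.log n) = t * (fr q - fr q') - t * Real.log n := by ring
      have a2 : t * (fr q' - fr q - Real.log n) = -(t * (fr q - fr q') + t * Real.log n) := by ring
      rw [a1, a2, Real.cos_neg, Real.cos_sub, Real.cos_add]
      ring
    calc _ = (al R T q * al R T q') * ww K T t0 t *
        (Real.cos (t * (fr q - fr q')) * Real.cos (t * Real.log n)) := by ring
      _ = _ := by rw [h1]; ring
  have hi : ∀ q ∈ QQ T, ∀ q' ∈ QQ T, Integrable (fun t => (al R T q * al R T q' / 2) *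
        (ww K T t0 t * Real.cos (t * lam n q q') +
          ww K T t0 t * Real.cos (t * lam n q' q))) := fun q _ q' _ =>
    ((ww_integrable_cos hK hT _).add (ww_integrable_cos hK hT _)).const_mul _
  simp_rw [e1]
  rw [integral_finsetSum _ fun q hq => integrable_finsetSum _ fun q' hq' => hi q hq q' hq']
  have e3 : ∀ q ∈ QQ T, ∫ t : ℝ, ∑ q' ∈ QQ T, (al R T q * al R T q' / 2) *
        (ww K T t0 t * Real.cos (t * lam n q q') +
          ww K T t0 t * Real.cos (t * lam n q' q)) =
      ∑ q' ∈ QQ T, ((1 / 2) * (al R T q * al R T q' *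
        (Wh (K / Real.log T * lam n q q') * Real.cos (t0 * lam n q q'))) +
        (1 / 2) * (al R T q' * al R T q *
          (Wh (K / Real.log T * lam n q' q) * Real.cos (t0 * lam n q' q)))) := by
    intro q hq
    rw [integral_finsetSum _ fun q' hq' => hi q hq q' hq']
    refine sum_congr rfl fun q' _ => ?_
    rw [integral_const_mul, integral_add (ww_integrable_cos hK hT _) (ww_integrable_cos hK hT _),
      int_ww_cos hK hT, int_ww_cos hK hT]
    ring
  rw [sum_congr rfl e3]
  simp_rw [sum_add_distrib]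
  have e4 : ∑ q ∈ QQ T, ∑ q' ∈ QQ T, (1 / 2) * (al R T q' * al R T q *
          (Wh (K / Real.log T * lam n q' q) * Real.cos (t0 * lam n q' q))) =
      ∑ q ∈ QQ T, ∑ q' ∈ QQ T, ((1 / 2) * (al R T q * al R T q' *
        (Wh (K / Real.log T * lam n q q') * Real.cos (t0 * lam n q q')))) := by
    rw [sum_comm]
  rw [e4, ← two_mul, mul_sum]
  refine sum_congr rfl fun q hq => ?_
  rw [mul_sum]
  refine sum_congr rfl fun q' hq' => ?_
  ring

namespace ExpAux

end ExpAux

end Pool.Agent.RG
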