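import Pool.Agent.RG.TDefs
import Pool.Agent.TypBlk.GoodV

/-!
# General amplitude: clone of `TypBlk.GoodV`
-/

namespace Pool.Agent.RG

open MeasureTheory Real Set Pool.Agent.ZGap.Res Pool.Agent.TypBlk Pool.Agent.Hadamard Pool.Agent.ZetaGaps

namespace GoodVAux

/-- The mean value, written with the arithmetic sum. -/
lemma mT_eq (R : ResData) (ψ : ℝ → ℝ) {T : ℝ} (hT : 1 ≤ T) :
    mT R ψ T = (1 - chat ψ 0 / (2 * π)) * Sig R T + (π * Real.log T)⁻¹ *
      ∑ n ∈ Finset.Icc 1 ⌊T⌋₊, ArithmeticFunction.vonMangoldt n / Real.sqrt n *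
        chat ψ (Real.log n / Real.log T) * CC R T n := by
  have h1 : (1 : ℕ) ∈ Finset.Icc 1 ⌊T⌋₊ := by
    rw [Finset.mem_Icc]
    exact ⟨le_rfl, Nat.le_floor (by simpa using hT)⟩
  have h2 : ∀ n ∈ Finset.Icc 1 ⌊T⌋₊, kap ψ T n * CC R T n =
      (if n = 1 then (1 - chat ψ 0 / (2 * π)) * Sig R T else 0) + (π * Real.log T)⁻¹ *
        (ArithmeticFunction.vonMangoldt n / Real.sqrt n *
          chat ψ (Real.log n / Real.log T) * CC R T n) := by
    intro n _
    unfold kap
    by_cases hn : n = 1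
    · subst hn
      rw [if_pos rfl, if_pos rfl, CC_one]
      simp
    · rw [if_neg hn, if_neg hn]
      ring
  unfold mT
  rw [Finset.sum_congr rfl h2, Finset.sum_add_distrib, Finset.sum_ite_eq' , if_pos h1,
    Finset.mul_sum]

end GoodVAux

end Pool.Agent.RG
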