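import Pool.Agent.RG.PBox
import Pool.Agent.RG.Win
import Pool.Agent.RG.SDiag
import Pool.Agent.RG.Tail
import Pool.Agent.RG.TGoodV
import Pool.Agent.ZShort.VoidPos

/-!
# General amplitude: clone of `ZShort.VoidPos`
-/

open scoped ContDiff

namespace Pool.Agent.RG

open MeasureTheory Real Set Pool.Agent.ZGap.Res Pool.Agent.TypBlk Pool.Agent.Hadamard Pool.Agent.ZetaGaps Pool.Agent.ZShort

/-- The Cauchy-Schwarz step with the fourth moment. -/
lemma cs_step {R : ResData} {T y H B μ : ℝ} (hH : 0 ≤ H) (hμ : 0 < μ) {E : Set ℝ}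
    (hEI : E ⊆ Icc y (y + H))
    (hf : ∫ t in y..(y + H), ‖Amp R T t‖ ^ 4 ≤ B) :
    ∫ t in E, ‖Amp R T t‖ ^ 2 ≤ μ / 2 * B + 1 / (2 * μ) * volume.real E := by
  have hAc := Amp_continuous R T
  have hEfin : volume E ≠ ⊤ := by
    refine ne_top_of_le_ne_top ?_ (measure_mono hEI)
    rw [Real.volume_Icc]; exact ENNReal.ofReal_ne_top
  rw [intervalIntegral.integral_of_le (by linarith), ← integral_Icc_eq_integral_Ioc] at hf
  have hi4 : IntegrableOn (fun t => ‖Amp R T t‖ ^ 4) (Icc y (y + H)) :=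
    (by fun_prop : Continuous fun t => ‖Amp R T t‖ ^ 4).integrableOn_Icc
  have hi2 : IntegrableOn (fun t => ‖Amp R T t‖ ^ 2) E :=
    (by fun_prop : Continuous fun t => ‖Amp R T t‖ ^ 2).integrableOn_Icc.mono_set hEI
  have hi4E := hi4.mono_set hEI
  have hic : IntegrableOn (fun _ : ℝ => 1 / (2 * μ)) E := integrableOn_const hEfin
  calc ∫ t in E, ‖Amp R T t‖ ^ 2 ≤ ∫ t in E, (μ / 2 * ‖Amp R T t‖ ^ 4 + 1 / (2 * μ)) := by
        refine integral_mono hi2 ((hi4E.const_mul _).add hic) fun t => ?_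
        have h3 : 0 ≤ (μ * ‖Amp R T t‖ ^ 2 - 1) ^ 2 / (2 * μ) := by positivity
        have h4 : (μ * ‖Amp R T t‖ ^ 2 - 1) ^ 2 / (2 * μ) =
            μ / 2 * ‖Amp R T t‖ ^ 4 + 1 / (2 * μ) - ‖Amp R T t‖ ^ 2 := by
          field_simp
          ring
        simp only
        linarith
    _ = μ / 2 * (∫ t in E, ‖Amp R T t‖ ^ 4) + 1 / (2 * μ) * volume.real E := by
        rw [integral_add (hi4E.const_mul _) hic, integral_const_mul, setIntegral_const,
          smul_eq_mul, mul_comm (volume.real E)]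
    _ ≤ μ / 2 * (∫ t in Icc y (y + H), ‖Amp R T t‖ ^ 4) + 1 / (2 * μ) * volume.real E := by
        have h5 : ∫ t in E, ‖Amp R T t‖ ^ 4 ≤ ∫ t in Icc y (y + H), ‖Amp R T t‖ ^ 4 :=
          setIntegral_mono_set hi4 (Filter.Eventually.of_forall fun t => by positivity)
            (Filter.Eventually.of_forall hEI)
        have h6 := mul_le_mul_of_nonneg_left h5 (show 0 ≤ μ / 2 by positivity)
        linarith
    _ ≤ _ := by
        have h6 := mul_le_mul_of_nonneg_left hf (show 0 ≤ μ / 2 by positivity)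
        linarith

/-- **The local inequality**: the weight of the void set is at least the local mean `DT`. -/
theorem exists_local (hRH : RiemannHypothesis) (R : ResData) (hF : ∀ x, 0 ≤ x → R.F x ≤ 1)
    {α a β : ℝ} (h0 : 0 < α) (hαa : α < a) (ha : a ≤ 1) (hb : 2 * R.th < β) (hβ1 : β < 1)
    {c e : ℝ} {ψ : ℝ → ℝ} (hψ : RS ψ)
    (hψ00 : ∀ x, 0 ≤ ψ x) (hψle : ∀ x, ψ x ≤ 1) (hψ1 : ∀ x, |x| ≤ π * c → ψ x = 1)
    (hψ0 : ∀ x, e ≤ |x| → ψ x = 0) :
    ∃ C T0 : ℝ, 0 < C ∧ Real.exp 3 ≤ T0 ∧ ∀ T : ℝ, T0 ≤ T → ∀ t0 ∈ Icc T (2 * T),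
      ∀ E : Set ℝ, MeasurableSet E → (∀ t, |t - t0| ≤ T ^ a / 4 →
        (∀ ρ ∈ ntz, π * c / Real.log T < |ρ.im - t|) → t ∈ E) →
      DT R ψ (T ^ α * Real.log T) T t0 -
        C / Real.log T * (∫ t : ℝ, VL R (T ^ α * Real.log T) T t0 t) - C / T ≤
        ∫ t in E, (Real.log T / (T ^ α * Real.log T)) *
          WW ((t - t0) * (Real.log T / (T ^ α * Real.log T))) * ‖Amp R T t‖ ^ 2 := by
  have hth0 : 0 < R.th := by linarith [R.ep_pos, R.ep_th]
  set A : ℝ := 1 + e ^ 2 with hA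
  have hψA : ∀ x, |ψ x| ≤ A / (1 + x ^ 2) := GoodVAux.psi_bound hψ00 hψle hψ0
  obtain ⟨Cc, Tc, hCc, hTc3, hcnt⟩ := exists_cntS hRH R hF h0 (by linarith) hb
    (by linarith) hβ1 hψ
  obtain ⟨Tw, hTw3, hwin⟩ := exists_winS R hF h0 (by linarith : α < 1) hb
  obtain ⟨Tt, hTt3, htail⟩ := exists_tailS R hF h0 hαa ha hψ00 hψ.continuous hψA
  obtain ⟨C6, hC6, hNCle⟩ := exists_NC_le
  refine ⟨Cc + 1, max Tc (max Tw Tt), by positivity, hTc3.trans (le_max_left _ _),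
    fun T hT t0 ht0 E hEm hE => ?_⟩
  have hTc : Tc ≤ T := (le_max_left _ _).trans hT
  have hTw : Tw ≤ T := (le_max_left _ _).trans ((le_max_right _ _).trans hT)
  have hTt : Tt ≤ T := (le_max_right _ _).trans ((le_max_right _ _).trans hT)
  have hTe : Real.exp 3 ≤ T := hTc3.trans hTc
  have h1T : 1 < T := lt_of_lt_of_le (Real.one_lt_exp_iff.mpr (by norm_num)) hTe
  have hTp : 0 < T := by linarith
  have hL3 : 3 ≤ Real.log T := by rw [Real.le_log_iff_exp_le hTp]; exact hTe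
  have hL1 : 1 ≤ Real.log T := by linarith
  have hL : 0 < Real.log T := by linarith
  obtain ⟨⟨Mw, hWt⟩, -, -⟩ := hwin T hTw t0 ht0
  have hiV : Integrable (VL R (T ^ α * Real.log T) T t0) := hWt.integrable
  have hiVN : Integrable (fun t => VL R (T ^ α * Real.log T) T t0 t * NC ψ T t) := by
    have hcont : Continuous (NC ψ T) := NC_continuous hψ.continuous hψA hL1
    refine hWt.integrable_mul (A := C6 * A * 2) hcont fun t => ?_
    refine (hNCle ψ A T hψA hL1 t).trans ?_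
    have := log_abs_add_two_le t
    have hA0 : 0 ≤ A := by rw [hA]; positivity
    calc C6 * A * Real.log (|t| + 2) ≤ C6 * A * (2 * (1 + t ^ 2)) :=
          mul_le_mul_of_nonneg_left this (by positivity)
      _ = _ := by ring
  have hNCnn : ∀ t, 0 ≤ NC ψ T t := fun t =>
    tsum_nonneg fun ρ => mul_nonneg (Nat.cast_nonneg _) (hψ00 _)
  have hN1 : ∀ t, |t - t0| ≤ T ^ a / 4 → t ∉ E → 1 ≤ NC ψ T t := by
    intro t ht htE
    have h1 : ¬ ∀ ρ ∈ ntz, π * c / Real.log T < |ρ.im - t| := fun h => htE (hE t ht h)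
    push Not at h1
    obtain ⟨ρ, hρ, hρt⟩ := h1
    exact one_le_NC hL1 hψ00 hψA hψ1 hρ hρt
  have h4 := int_le_void hWt.nonneg hNCnn hiV hiVN hEm hN1
  have h5 := (abs_le.mp (hcnt T hTc t0 ht0)).1
  have h6 := htail T hTt t0 ht0
  have h13 : ∫ t in E, VL R (T ^ α * Real.log T) T t0 t =
      ∫ t in E, (Real.log T / (T ^ α * Real.log T)) *
        WW ((t - t0) * (Real.log T / (T ^ α * Real.log T))) * ‖Amp R T t‖ ^ 2 := rfl
  rw [← h13]
  have h14 : 0 ≤ ∫ t : ℝ, VL R (T ^ α * Real.log T) T t0 t := integral_nonneg hWt.nonneg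
  have h15 : (Cc + 1) / Real.log T * (∫ t : ℝ, VL R (T ^ α * Real.log T) T t0 t) =
      Cc / Real.log T * (∫ t : ℝ, VL R (T ^ α * Real.log T) T t0 t) +
        1 / Real.log T * (∫ t : ℝ, VL R (T ^ α * Real.log T) T t0 t) := by ring
  have h16 : 0 ≤ 1 / Real.log T * (∫ t : ℝ, VL R (T ^ α * Real.log T) T t0 t) := by positivity
  have h17 : (Cc + 1) / T = Cc / T + 1 / T := by ring
  linarith

end Pool.Agent.RG
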